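import Pool.Agent.Helper72.PN.KeyN
import Pool.Agent.Helper30.TKN.Defs
import Pool.Agent.Helper36.Growth

/-!
# Project TH (tame invariant sets): definitions

A form is small at a point modulo `v`, two points are congruent modulo `v`, chains of closed
invariant sets over an algebraically closed field and modulo `v`.
-/

set_option autoImplicit false

namespace Pool.Agent.Helper72.TH

open MvPolynomial Height Height.AdmissibleAbsValues
open Pool.Agent.Helper36 (step iter)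
open Pool.Agent.Helper29.TG

variable {ν : ℕ} {K : Type} [Field K]

/-- The form `g` of degree `e` is small at the point `x`. -/
def Sm (v : AbsoluteValue K ℝ) (g : MvPolynomial (Fin (ν + 1)) K) (e : ℕ)
    (x : Fin (ν + 1) → K) : Prop :=
  v (eval x g) < nm v x ^ e

/-- The points `x` and `y` are congruent modulo `v`. -/
def Cong (v : AbsoluteValue K ℝ) (x y : Fin (ν + 1) → K) : Prop :=
  nm v (cr x y) < nm v x * nm v y

/-- The forms `F` of degree `d` have good reduction at `v`. -/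
structure GoodF (v : AbsoluteValue K ℝ) (F : Fin (ν + 1) → MvPolynomial (Fin (ν + 1)) K)
    (d : ℕ) : Prop where
  na : IsNonarchimedean v
  F_int : ∀ i m, v ((F i).coeff m) ≤ 1
  F_nm : ∀ x : Fin (ν + 1) → K, nm v (step F x) = nm v x ^ d

/-- The closed sets `Z_i = {W j = 0, j ∈ S i}`, `i ≤ k`, satisfy `F(Z_i) ⊆ Z_i`,
`F(Z_i ∩ {q = 0}) ⊆ Z_(i+1)` and `Z_k = ∅` (in projective space over `L`). -/
structure Chain (L : Type) [Field L] [Algebra K L]
    (F : Fin (ν + 1) → MvPolynomial (Fin (ν + 1)) K) (q : MvPolynomial (Fin (ν + 1)) K)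
    {n : ℕ} (W : Fin n → MvPolynomial (Fin (ν + 1)) K) (δ : Fin n → ℕ)
    (S : ℕ → Finset (Fin n)) (k : ℕ) : Prop where
  hom : ∀ j, (W j).IsHomogeneous (δ j)
  inv : ∀ i < k, ∀ x : Fin (ν + 1) → L, (∀ j ∈ S i, aeval x (W j) = 0) →
    ∀ j ∈ S i, aeval (fun l => aeval x (F l)) (W j) = 0
  down : ∀ i < k, ∀ x : Fin (ν + 1) → L, (∀ j ∈ S i, aeval x (W j) = 0) → aeval x q = 0 →
    ∀ j ∈ S (i + 1), aeval (fun l => aeval x (F l)) (W j) = 0
  empty : ∀ x : Fin (ν + 1) → L, (∀ j ∈ S k, aeval x (W j) = 0) → x = 0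

/-- The point lies on the closed set modulo `v`. -/
def InZ (v : AbsoluteValue K ℝ) {n : ℕ} (W : Fin n → MvPolynomial (Fin (ν + 1)) K)
    (δ : Fin n → ℕ) (T : Finset (Fin n)) (x : Fin (ν + 1) → K) : Prop :=
  ∀ j ∈ T, Sm v (W j) (δ j) x

/-- The chain modulo `v`; `t` is the degree of `q`. -/
structure ChainV (v : AbsoluteValue K ℝ) (F : Fin (ν + 1) → MvPolynomial (Fin (ν + 1)) K)
    (q : MvPolynomial (Fin (ν + 1)) K) (t : ℕ) {n : ℕ}
    (W : Fin n → MvPolynomial (Fin (ν + 1)) K) (δ : Fin n → ℕ) (S : ℕ → Finset (Fin n))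
    (k : ℕ) : Prop where
  q_int : ∀ m, v (q.coeff m) ≤ 1
  W_int : ∀ j m, v ((W j).coeff m) ≤ 1
  inv : ∀ i < k, ∀ x : Fin (ν + 1) → K, x ≠ 0 → InZ v W δ (S i) x → InZ v W δ (S i) (step F x)
  down : ∀ i < k, ∀ x : Fin (ν + 1) → K, x ≠ 0 → InZ v W δ (S i) x → Sm v q t x →
    InZ v W δ (S (i + 1)) (step F x)
  empty : ∀ x : Fin (ν + 1) → K, x ≠ 0 → ¬ InZ v W δ (S k) x

end Pool.Agent.Helper72.TH
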