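import Pool.Agent.Helper72.TH.Defs
import Pool.Agent.Helper72.PN.DvrN

/-!
# Project TH: a sequence of points has two congruent members
-/

set_option autoImplicit false

namespace Pool.Agent.Helper72.TH

open MvPolynomial Height Height.AdmissibleAbsValues
open Pool.Agent.Helper36 (step iter)
open Pool.Agent.Helper29.TG

variable {ν : ℕ}

/-- Congruence of normalised points. -/
theorem Pig_cong {K : Type} [Field K] {v : AbsoluteValue K ℝ} (hv : IsNonarchimedean v)
    {z w : Fin (ν + 1) → K} (hz : nm v z = 1) (hw : nm v w = 1) (h : ∀ k, v (z k - w k) < 1)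
    {s t : K} (hs : s ≠ 0) (ht : t ≠ 0) : Cong v (s • z) (t • w) := by
  have h1 : nm v (cr z w) < 1 := by
    obtain ⟨q, hq⟩ : ∃ q, v (cr z w q) = nm v (cr z w) := exists_eq_ciSup_of_finite
    rw [← hq]
    have h2 : cr z w q = z q.1 * (w q.2 - z q.2) + z q.2 * (z q.1 - w q.1) := by
      simp only [cr]
      ring
    rw [h2]
    refine (hv _ _).trans_lt (max_lt ?_ ?_)
    · rw [map_mul, AbsoluteValue.map_sub]
      exact mul_lt_one_of_nonneg_of_lt_one_right ((le_nm v z q.1).trans hz.le)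
        (v.nonneg _) (h q.2)
    · rw [map_mul]
      exact mul_lt_one_of_nonneg_of_lt_one_right ((le_nm v z q.2).trans hz.le)
        (v.nonneg _) (h q.1)
  unfold Cong
  rw [Pool.Agent.Helper72.PN.DvrN_cross_smul, nm_smul, nm_smul, nm_smul, hz, hw, map_mul, mul_one,
    mul_one]
  exact mul_lt_of_lt_one_right (mul_pos (v.pos hs) (v.pos ht)) h1

/-- The residue field is finite. -/
theorem exists_cong {K : Type} [Field K] [NumberField K] {v : AbsoluteValue K ℝ}
    (hv : v ∈ nonarchAbsVal (K := K)) {y : ℕ → Fin (ν + 1) → K} (hy : ∀ n, y n ≠ 0) (n₀ : ℕ) :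
    ∃ i n, n₀ ≤ i ∧ i < n ∧ Cong v (y i) (y n) := by
  have hna : IsNonarchimedean v := isNonarchimedean v hv
  choose m hm using fun n => Pool.Agent.Helper72.PN.DvrN_exists v (y n)
  have hc0 : ∀ n, y n (m n) ≠ 0 := by
    intro n h
    have h1 := hm n
    rw [h, map_zero] at h1
    exact (nm_pos v (hy n)).ne h1
  set z : ℕ → Fin (ν + 1) → K := fun n k => y n k / y n (m n) with hz
  have hyz : ∀ n, y n = y n (m n) • z n := by
    intro n
    funext k
    simp only [hz, Pi.smul_apply, smul_eq_mul]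
    rw [mul_div_cancel₀ _ (hc0 n)]
  have hnz : ∀ n, nm v (z n) = 1 := by
    intro n
    have h1 : nm v (y n) = v (y n (m n)) * nm v (z n) := by
      rw [← nm_smul, ← hyz n]
    rw [hm n] at h1
    exact (mul_left_cancel₀ (nm_pos v (hy n)).ne'
      ((mul_one (nm v (y n))).trans h1)).symm
  have hzle : ∀ n k, v (z n k) ≤ 1 := fun n k => (le_nm v (z n) k).trans (hnz n).le
  obtain ⟨P, hP⟩ := hv
  have hval : ∀ x : K, NumberField.place (NumberField.FinitePlace.embedding P) x =
      WithZeroMulInt.toNNReal (NumberField.HeightOneSpectrum.absNorm_ne_zero P)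
        (P.valuation K x) := by
    intro x
    rw [NumberField.place_apply]
    exact NumberField.FinitePlace.norm_embedding' P x
  have hb := NumberField.HeightOneSpectrum.one_lt_absNorm_nnreal P
  have hle : ∀ x : K, v x ≤ 1 ↔ P.valuation K x ≤ 1 := by
    intro x
    rw [← hP, hval, NNReal.coe_le_one, WithZeroMulInt.toNNReal_le_one_iff hb]
  have hlt : ∀ x : K, v x < 1 ↔ P.valuation K x < 1 := by
    intro x
    rw [← hP, hval, NNReal.coe_lt_one, WithZeroMulInt.toNNReal_lt_one_iff hb]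
  have hfin := Pool.Agent.Helper72.PN.DvrN_finite P
  have hI := Valuation.valuationSubring.integers (P.valuation K)
  let r : ℕ → Fin (ν + 1) → (P.valuation K).valuationSubring :=
    fun n k => ⟨z n k, (hle _).1 (hzle n k)⟩
  obtain ⟨a, b, hab, h⟩ := Finite.exists_ne_map_eq_of_infinite
    (fun n => fun k => IsLocalRing.residue _ (r (n₀ + n) k))
  have key : ∀ a b, (fun k => IsLocalRing.residue _ (r (n₀ + a) k)) =
      (fun k => IsLocalRing.residue _ (r (n₀ + b) k)) → a < b →
      ∃ i n, n₀ ≤ i ∧ i < n ∧ Cong v (y i) (y n) := by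
    intro a b h hlt'
    refine ⟨n₀ + a, n₀ + b, by omega, by omega, ?_⟩
    rw [hyz (n₀ + a), hyz (n₀ + b)]
    refine Pig_cong hna (hnz _) (hnz _) (fun k => ?_) (hc0 _) (hc0 _)
    have h1 := congrFun h k
    have h2 : IsLocalRing.residue _ (r (n₀ + a) k - r (n₀ + b) k) = 0 := by
      rw [map_sub, sub_eq_zero]
      exact h1
    rw [hlt]
    have h3 : ¬ IsUnit (r (n₀ + a) k - r (n₀ + b) k) := fun hu =>
      (IsLocalRing.residue_ne_zero_iff_isUnit _).2 hu h2
    rw [hI.isUnit_iff_valuation_eq_one] at h3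
    exact lt_of_le_of_ne ((r (n₀ + a) k - r (n₀ + b) k).2) h3
  rcases lt_or_gt_of_ne hab with h1 | h1
  · exact key a b h h1
  · exact key b a h.symm h1

/-- There is a place outside any finite set. -/
theorem exists_place {K : Type} [Field K] [NumberField K] {B : Set (AbsoluteValue K ℝ)}
    (hB : B.Finite) : ∃ v ∈ nonarchAbsVal (K := K), v ∉ B := by
  classical
  by_contra hcon
  push Not at hcon
  have h1 : ∀ v : AbsoluteValue K ℝ, ∃ n : ℕ, 0 < n ∧
      (v ∈ nonarchAbsVal (K := K) → (∃ n' : ℕ, 0 < n' ∧ v (n' : K) < 1) → v (n : K) < 1) := by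
    intro v
    by_cases h : ∃ n' : ℕ, 0 < n' ∧ v (n' : K) < 1
    · obtain ⟨n', h2, h3⟩ := h
      exact ⟨n', h2, fun _ _ => h3⟩
    · exact ⟨1, one_pos, fun _ h2 => absurd h2 h⟩
  choose N hN0 hN using h1
  set m : ℕ := 1 + ∏ v ∈ hB.toFinset, N v with hm
  have hm2 : 2 ≤ m := by
    have h2 : 0 < ∏ v ∈ hB.toFinset, N v := Finset.prod_pos fun v _ => hN0 v
    omega
  have hle : ∀ v ∈ nonarchAbsVal (K := K), ∀ n : ℕ, v (n : K) ≤ 1 := by
    intro v hv n
    exact (isNonarchimedean v hv).apply_natCast_le_one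
  have hunit : ∀ v ∈ nonarchAbsVal (K := K), v (m : K) = 1 := by
    intro v hv
    by_cases h : ∃ n' : ℕ, 0 < n' ∧ v (n' : K) < 1
    · have h2 := hN v hv h
      have h3 : v ((∏ v ∈ hB.toFinset, N v : ℕ) : K) < 1 := by
        rw [← Finset.mul_prod_erase _ _ (hB.mem_toFinset.2 (hcon v hv)), Nat.cast_mul, map_mul]
        exact mul_lt_one_of_nonneg_of_lt_one_left (v.nonneg _) h2 (hle v hv _)
      have hna : IsNonarchimedean v := isNonarchimedean v hv
      rw [hm, Nat.cast_add, Nat.cast_one]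
      have h4 := hna.add_eq_max_of_ne (x := (1 : K))
        (y := ((∏ v ∈ hB.toFinset, N v : ℕ) : K)) (by
          rw [map_one]
          exact h3.ne')
      rw [h4, map_one]
      exact max_eq_left h3.le
    · push Not at h
      exact le_antisymm (hle v hv m) (h m (by omega))
  have hm0 : (m : K) ≠ 0 := Nat.cast_ne_zero.2 (by omega)
  have h5 := product_formula hm0
  rw [NumberField.prod_archAbsVal_eq (fun v => v (m : K))] at h5
  have h6 : (∏ᶠ v : nonarchAbsVal (K := K), v.val (m : K)) = 1 :=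
    finprod_eq_one_of_forall_eq_one fun v => hunit v.val v.2
  rw [h6, mul_one] at h5
  have h7 := NumberField.InfinitePlace.prod_eq_abs_norm (K := K) (m : K)
  have h8 : (∏ v : NumberField.InfinitePlace K, v.val (m : K) ^ v.mult) =
      ∏ v : NumberField.InfinitePlace K, v (m : K) ^ v.mult := rfl
  rw [h8, h7] at h5
  have h9 : Algebra.norm ℚ (m : K) = (m : ℚ) ^ Module.finrank ℚ K := Algebra.norm_natCast ℚ m
  rw [h9] at h5
  have h10 : (1 : ℚ) < (m : ℚ) ^ Module.finrank ℚ K :=
    one_lt_pow₀ (by exact_mod_cast hm2) Module.finrank_pos.ne'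
  rw [abs_of_pos (by linarith)] at h5
  have h11 : ((m : ℚ) ^ Module.finrank ℚ K : ℚ) = 1 := by exact_mod_cast h5
  linarith

end Pool.Agent.Helper72.TH
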