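import Pool.Agent.Helper72.TH.Cycle
import Pool.Agent.Helper72.TH.Pig

/-!
# Project TH: one point of the orbit on the invariant set modulo a good place is enough
-/

set_option autoImplicit false

namespace Pool.Agent.Helper72.TH

open MvPolynomial Height Height.AdmissibleAbsValues
open Pool.Agent.Helper36 (step iter)
open Pool.Agent.Helper29.TG

variable {ν : ℕ}

theorem dml_of_hit {K : Type} [Field K] [NumberField K]
    {F : Fin (ν + 1) → MvPolynomial (Fin (ν + 1)) K} {d : ℕ} (hF : ∀ i, (F i).IsHomogeneous d)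
    {v : AbsoluteValue K ℝ} (hv : v ∈ nonarchAbsVal (K := K)) (hG : GoodF v F d)
    {R : MvPolynomial (Fin (ν + 1)) K} {r : ℕ} (hR : R.IsHomogeneous r)
    (hRi : ∀ m, v (R.coeff m) ≤ 1) {n : ℕ}
    {W : Fin n → MvPolynomial (Fin (ν + 1)) K} {δ : Fin n → ℕ}
    (hW : ∀ j, (W j).IsHomogeneous (δ j)) {S : ℕ → Finset (Fin n)} {k : ℕ}
    (hc : ChainV v F (Pool.Agent.Helper30.TKN.jf F * R) ((ν + 1) * (d - 1) + r) W δ S k)
    {x : Fin (ν + 1) → K} (hx : ∀ n, iter F x n ≠ 0)
    (hcr : ∀ n m, n ≠ m → cr (iter F x n) (iter F x m) ≠ 0)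
    {i : ℕ} (h0 : InZ v W δ (S 0) (iter F x i)) {L : Type} [Field L] [Algebra K L] :
    Pool.Agent.Helper38.Sym.DMLgen (fun i => map (algebraMap K L) (F i))
      (fun i => algebraMap K L (x i)) := by
  obtain ⟨i₁, n₁, hi, hin, hcong⟩ := exists_cong (ν := ν) hv hx i
  -- the later points lie on the first closed set
  have hk : 0 < k := by
    rcases Nat.eq_zero_or_pos k with hk | hk
    · subst hk
      exact absurd h0 (hc.empty _ (hx _))
    · exact hk
  have hfwd : ∀ l, i ≤ l → InZ v W δ (S 0) (iter F x l) := by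
    intro l hl
    induction l, hl using Nat.le_induction with
    | base => exact h0
    | succ l' _ ih =>
      rw [Pool.Agent.Helper36.iter_succ]
      exact hc.inv 0 hk _ (hx _) ih
  have hun := cycle_unit hF hG hW hc hx hin hcong (hfwd i₁ hi)
  have hct : 0 < ct v (iter F x i₁) (iter F x n₁) := by
    have h1 := nm_pos v (hx i₁)
    have h2 := nm_pos v (hx n₁)
    have h3 := nm_pos v (hcr i₁ n₁ hin.ne)
    have h4 := Real.log_lt_log h3 hcong
    rw [Real.log_mul h1.ne' h2.ne'] at h4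
    unfold ct
    linarith
  have hx0 : x ≠ 0 := hx 0
  refine Pool.Agent.Helper72.PN.dml_of_place ⟨v, hv⟩ hG.na hF hG.F_int hG.F_nm hx0 hin hct ?_
  intro j hj _
  have h1 := hun j hj
  unfold Sm at h1
  rw [not_lt, map_mul, map_mul, pow_add] at h1
  have h2 := Pool.Agent.Helper72.PN.KeyN_jf_le hG.na hF hG.F_int (iter F x j)
  have h3 := Pool.Agent.Helper72.PN.KeyN_eval_le hG.na hR hRi (iter F x j)
  have h4 : 0 < nm v (iter F x j) := nm_pos v (hx j)
  refine le_antisymm h2 ?_
  by_contra hcon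
  push Not at hcon
  have h5 : 0 < nm v (iter F x j) ^ r := pow_pos h4 _
  have h6 : v (eval (iter F x j) (Pool.Agent.Helper30.TKN.jf F)) * v (eval (iter F x j) R) <
      nm v (iter F x j) ^ ((ν + 1) * (d - 1)) * nm v (iter F x j) ^ r :=
    calc v (eval (iter F x j) (Pool.Agent.Helper30.TKN.jf F)) * v (eval (iter F x j) R)
        ≤ v (eval (iter F x j) (Pool.Agent.Helper30.TKN.jf F)) * nm v (iter F x j) ^ r :=
          mul_le_mul_of_nonneg_left h3 (v.nonneg _)
      _ < _ := mul_lt_mul_of_pos_right hcon h5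
  exact absurd h1 (not_le.2 h6)

end Pool.Agent.Helper72.TH
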