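import Pool.Agent.Helper72.TH.Null
import Pool.Agent.Helper29.TG.Df

/-!
# Project TH: every orbit meets the hypersurface modulo a good place
-/

set_option autoImplicit false

namespace Pool.Agent.Helper72.TH

open MvPolynomial Height Height.AdmissibleAbsValues
open Pool.Agent.Helper36 (step iter)
open Pool.Agent.Helper29.TG

variable {ν : ℕ} {K : Type} [Field K] [AdmissibleAbsValues K]

/-- the sum over all places of a function which is `≤ 0` outside the finite set `B` -/
theorem exists_ls_le {B : Set (AbsoluteValue K ℝ)} (hB : B.Finite) :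
    ∃ M : ℝ, 0 ≤ M ∧ ∀ (f : AbsoluteValue K ℝ → ℝ) (c : ℝ), 0 ≤ c → FS f →
      (∀ v ∈ nonarchAbsVal (K := K), v ∉ B → f v ≤ 0) →
      (∀ v, v ∈ B ∨ v ∈ archAbsVal (K := K) → f v ≤ c) → ls f ≤ c * M := by
  classical
  set g : AbsoluteValue K ℝ → ℝ := fun v =>
    if v ∈ nonarchAbsVal (K := K) ∧ v ∉ B then 0 else 1 with hg
  have hg0 : ∀ v, 0 ≤ g v := by
    intro v
    simp only [hg]
    split_ifs <;> norm_num
  have hFg : FS g := FS.of_finite hB fun v hv hvB => by
    simp only [hg]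
    rw [if_pos ⟨hv, hvB⟩]
  refine ⟨ls g, ls_nonneg hFg fun v _ => hg0 v, fun f c hc hf h1 h2 => ?_⟩
  rw [← ls_mul_left]
  refine ls_mono hf (hFg.mul_left c) fun v hv => ?_
  by_cases h3 : v ∈ nonarchAbsVal (K := K) ∧ v ∉ B
  · have : g v = 0 := by simp only [hg]; rw [if_pos h3]
    rw [this, mul_zero]
    exact h1 v h3.1 h3.2
  · have : g v = 1 := by simp only [hg]; rw [if_neg h3]
    rw [this, mul_one]
    refine h2 v ?_
    rcases hv with hv | hv
    · exact Or.inr hv
    · left
      by_contra hvB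
      exact h3 ⟨hv, hvB⟩

omit [AdmissibleAbsValues K] in
theorem iter_add' (F : Fin (ν + 1) → MvPolynomial (Fin (ν + 1)) K) (x : Fin (ν + 1) → K)
    (n j : ℕ) : iter F (iter F x n) j = iter F x (n + j) := by
  unfold iter
  rw [← Function.iterate_add_apply, Nat.add_comm j n]

/-- **Hitting theorem** (Runge's method). If no `k + 1` of the forms `R ∘ F^j` have a common zero,
then every orbit with heights tending to infinity meets `R = 0` modulo a place outside the finite
set `B`. -/
theorem exists_hit {L : Type} [Field L] [IsAlgClosed L] [Algebra K L]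
    {F : Fin (ν + 1) → MvPolynomial (Fin (ν + 1)) K} {d : ℕ} (hd : 1 ≤ d)
    (hF : ∀ i, (F i).IsHomogeneous d)
    (hnz : ∀ x : Fin (ν + 1) → L, (∀ i, aeval x (F i) = 0) → x = 0)
    {R : MvPolynomial (Fin (ν + 1)) K} {t : ℕ} (ht : 1 ≤ t) (hR : R.IsHomogeneous t) {k : ℕ}
    (hk : ∀ T : Finset ℕ, T.card = k + 1 → ∀ x : Fin (ν + 1) → L,
      (∀ j ∈ T, aeval (iter (fun i => map (algebraMap K L) (F i)) x j) R = 0) → x = 0)
    {B : Set (AbsoluteValue K ℝ)} (hB : B.Finite)
    (hpl : ∃ v ∈ nonarchAbsVal (K := K), v ∉ B)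
    {x : Fin (ν + 1) → K} (hx : ∀ n, iter F x n ≠ 0)
    (hh : Filter.Tendsto (fun n => logHeight (iter F x n)) Filter.atTop Filter.atTop) :
    ∃ n, ∃ v ∈ nonarchAbsVal (K := K), v ∉ B ∧ Sm v R t (iter F x n) := by
  classical
  by_contra hcon
  push Not at hcon
  have hge : ∀ n, ∀ v ∈ nonarchAbsVal (K := K), v ∉ B →
      nm v (iter F x n) ^ t ≤ v (eval (iter F x n) R) := by
    intro n v hv hvB
    have := hcon n v hv hvB
    unfold Sm at this
    exact not_lt.1 this
  have hne : ∀ n, eval (iter F x n) R ≠ 0 := by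
    intro n h0
    obtain ⟨v, hv, hvB⟩ := hpl
    have h1 := hge n v hv hvB
    rw [h0, map_zero] at h1
    exact absurd h1 (not_le.2 (pow_pos (nm_pos v (hx n)) t))
  have hle : ∀ n, ∀ v ∈ nonarchAbsVal (K := K), v ∉ B → df v R t (iter F x n) ≤ 0 := by
    intro n v hv hvB
    have h1 := Real.log_le_log (pow_pos (nm_pos v (hx n)) t) (hge n v hv hvB)
    rw [Real.log_pow] at h1
    unfold df
    linarith
  obtain ⟨M, hM0, hM⟩ := exists_ls_le (K := K) hB
  have hfin : {v : AbsoluteValue K ℝ | v ∈ B ∨ v ∈ archAbsVal (K := K)}.Finite :=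
    hB.union finite_arch
  set P : Finset (AbsoluteValue K ℝ) := hfin.toFinset with hP
  have hPm : ∀ v, v ∈ P ↔ (v ∈ B ∨ v ∈ archAbsVal (K := K)) := by
    intro v
    rw [hP, Set.Finite.mem_toFinset]
    exact Iff.rfl
  set r : ℕ := P.card * k + 1 with hr
  have hC : ∀ (T : Finset ℕ) (v : AbsoluteValue K ℝ), ∃ C : ℝ, T.card = k + 1 →
      ∀ y : Fin (ν + 1) → K, y ≠ 0 → ∃ j ∈ T, eval (iter F y j) R ≠ 0 ∧
        df v R t (iter F y j) ≤ C := by
    intro T v
    by_cases hT : T.card = k + 1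
    · obtain ⟨C, hC⟩ := exists_df_le (L := L) hd hF hnz hR T (hk T hT) v
      exact ⟨C, fun _ => hC⟩
    · exact ⟨0, fun h => absurd h hT⟩
  choose C hC using hC
  set C₀ : ℝ := ∑ T ∈ (Finset.range r).powerset, ∑ v ∈ P, |C T v| with hC₀
  have hC₀0 : 0 ≤ C₀ := Finset.sum_nonneg fun T _ => Finset.sum_nonneg fun v _ => abs_nonneg _
  have hCle : ∀ T ∈ (Finset.range r).powerset, ∀ v ∈ P, C T v ≤ C₀ := by
    intro T hT v hv
    refine (le_abs_self _).trans ?_
    refine (Finset.single_le_sum (f := fun v => |C T v|) (fun v _ => abs_nonneg _) hv).trans ?_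
    exact Finset.single_le_sum (f := fun T => ∑ v ∈ P, |C T v|)
      (fun T _ => Finset.sum_nonneg fun v _ => abs_nonneg _) hT
  -- all heights are large from some `n` on
  obtain ⟨n, hn⟩ := Filter.eventually_atTop.1 (hh.eventually_gt_atTop (C₀ * M))
  have hbig : ∀ j, ∃ v ∈ P, C₀ < df v R t (iter F x (n + j)) := by
    intro j
    by_contra hno
    push Not at hno
    have h1 := hM (fun v => df v R t (iter F x (n + j))) C₀ hC₀0
      (FS_df (hne (n + j)) (hx (n + j))) (fun v hv hvB => hle (n + j) v hv hvB)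
      (fun v hv => hno v ((hPm v).2 hv))
    rw [ls_df (hne (n + j)) (hx (n + j))] at h1
    have h2 := hn (n + j) (Nat.le_add_right _ _)
    have h3 : (1 : ℝ) ≤ t := by exact_mod_cast ht
    have h4 : 0 ≤ C₀ * M := mul_nonneg hC₀0 hM0
    nlinarith
  choose w hwP hw using hbig
  have hcard : P.card * k < (Finset.range r).card := by
    rw [Finset.card_range, hr]
    exact Nat.lt_succ_self _
  obtain ⟨v, hv, hvk⟩ := Finset.exists_lt_card_fiber_of_mul_lt_card_of_maps_to
    (s := Finset.range r) (t := P) (f := w) (fun j _ => hwP j) hcard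
  obtain ⟨T, hTs, hTc⟩ := Finset.exists_subset_card_eq (Nat.succ_le_of_lt hvk)
  have hTr : T ∈ (Finset.range r).powerset :=
    Finset.mem_powerset.2 (hTs.trans (Finset.filter_subset _ _))
  obtain ⟨j, hj, -, hjC⟩ := hC T v hTc (iter F x n) (hx n)
  rw [iter_add'] at hjC
  have h5 := hw j
  have h6 : w j = v := (Finset.mem_filter.1 (hTs hj)).2
  rw [h6] at h5
  exact absurd (hjC.trans (hCle T hTr v hv)) (not_le.2 h5)

end Pool.Agent.Helper72.TH
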