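import Pool.Agent.Helper72.TH.ChainM
import Pool.Agent.Helper72.TH.DmlHit
import Pool.Agent.Helper72.TH.Euclid
import Pool.Agent.Helper72.PN.MainN

/-!
# Project TH, part (1): tame invariant hypersurfaces over a number field
-/

set_option autoImplicit false

namespace Pool.Agent.Helper72.TH

open MvPolynomial Height Height.AdmissibleAbsValues
open Pool.Agent.Helper36 (step iter)
open Pool.Agent.Helper38.TQ (IsEndo PEq)
open Pool.Agent.Helper29.TG
open Pool.Agent.Helper72.PN (MainN_sets MainN_endo MainN_ne MainN_preper MainN_hom)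

variable {ν : ℕ}

theorem eval_step {K : Type} [Field K] (F : Fin (ν + 1) → MvPolynomial (Fin (ν + 1)) K)
    (g : MvPolynomial (Fin (ν + 1)) K) (x : Fin (ν + 1) → K) :
    eval (step F x) g = eval x (bind₁ F g) := by
  have h1 : step F x = fun i => aeval x (F i) := rfl
  rw [h1]
  have h2 := aeval_bind₁ x F g
  rw [aeval_eq_eval, aeval_eq_eval] at h2
  simpa [aeval_eq_eval] using h2.symm

theorem hom_bind {K : Type} [Field K] {F : Fin (ν + 1) → MvPolynomial (Fin (ν + 1)) K} {d : ℕ}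
    (hF : ∀ i, (F i).IsHomogeneous d) {g : MvPolynomial (Fin (ν + 1)) K} {e : ℕ}
    (hg : g.IsHomogeneous e) : (bind₁ F g).IsHomogeneous (d * e) :=
  hg.aeval F hF

theorem sm_bind {K : Type} [Field K] {v : AbsoluteValue K ℝ}
    {F : Fin (ν + 1) → MvPolynomial (Fin (ν + 1)) K} {d : ℕ} (hG : GoodF v F d)
    (g : MvPolynomial (Fin (ν + 1)) K) (e : ℕ) (x : Fin (ν + 1) → K) :
    Sm v (bind₁ F g) (d * e) x ↔ Sm v g e (step F x) := by
  unfold Sm
  rw [eval_step, hG.F_nm, ← pow_mul]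

/-- The image of `R = 0` lies in the first closed set, modulo almost all places. -/
theorem exists_startV {K : Type} [Field K] [AdmissibleAbsValues K] {L : Type} [Field L]
    [IsAlgClosed L] [Algebra K L]
    {F : Fin (ν + 1) → MvPolynomial (Fin (ν + 1)) K} {d : ℕ} (hF : ∀ i, (F i).IsHomogeneous d)
    {R : MvPolynomial (Fin (ν + 1)) K} {r : ℕ} (hR : R.IsHomogeneous r) {n : ℕ}
    {W : Fin n → MvPolynomial (Fin (ν + 1)) K} {δ : Fin n → ℕ}
    (hW : ∀ j, (W j).IsHomogeneous (δ j)) (T : Finset (Fin n))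
    (h : ∀ x : Fin (ν + 1) → L, aeval x R = 0 →
      ∀ j ∈ T, aeval (fun l => aeval x (F l)) (W j) = 0) :
    ∃ B : Set (AbsoluteValue K ℝ), B.Finite ∧ ∀ v ∈ nonarchAbsVal (K := K), v ∉ B →
      GoodF v F d → ∀ x : Fin (ν + 1) → K, x ≠ 0 → Sm v R r x → InZ v W δ T (step F x) := by
  classical
  have h1 : ∀ j ∈ T, ∃ B : Set (AbsoluteValue K ℝ), B.Finite ∧
      ∀ v ∈ nonarchAbsVal (K := K), v ∉ B → ∀ x : Fin (ν + 1) → K, x ≠ 0 →
        Sm v R r x → Sm v (bind₁ F (W j)) (d * δ j) x := by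
    intro j hj
    obtain ⟨B, hB, hB2⟩ := exists_sm (L := L) (ι := Unit) (h := fun _ => R) (δ := fun _ => r)
      (fun _ => hR) (hom_bind hF (hW j)) (fun x hx => by
        rw [aeval_bind₁]
        exact h x (hx ()) j hj)
    exact ⟨B, hB, fun v hv hvB x hx hs => hB2 v hv hvB x hx fun _ => hs⟩
  choose! B hB hB2 using h1
  refine ⟨⋃ j ∈ T, B j, Set.Finite.biUnion (Finset.finite_toSet _) fun j hj => hB j hj, ?_⟩
  intro v hv hvB hG x hx hs j hj
  have hvj : v ∉ B j := fun h => hvB (Set.mem_biUnion (Finset.mem_coe.2 hj) h)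
  exact (sm_bind hG _ _ _).1 (hB2 j hj v hv hvj x hx hs)

/-- At most `k` of the points of an orbit lie on `R = 0`. -/
theorem chain_count {K L : Type} [Field K] [Field L] [Algebra K L]
    {F : Fin (ν + 1) → MvPolynomial (Fin (ν + 1)) K}
    (hnz : ∀ x : Fin (ν + 1) → L, (∀ i, aeval x (F i) = 0) → x = 0)
    {J R : MvPolynomial (Fin (ν + 1)) K} {n : ℕ} {W : Fin n → MvPolynomial (Fin (ν + 1)) K}
    {δ : Fin n → ℕ} {S : ℕ → Finset (Fin n)} {k : ℕ} (hc : Chain L F (J * R) W δ S k)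
    (hs : ∀ x : Fin (ν + 1) → L, aeval x R = 0 →
      ∀ j ∈ S 0, aeval (fun l => aeval x (F l)) (W j) = 0)
    (T : Finset ℕ) (hT : T.card = k + 1) (x : Fin (ν + 1) → L)
    (hx : ∀ j ∈ T, aeval (iter F x j) R = 0) : x = 0 := by
  classical
  by_contra hx0
  have hne : ∀ l, iter F x l ≠ 0 := by
    intro l
    induction l with
    | zero => exact hx0
    | succ l ih =>
      rw [Pool.Agent.Helper36.iter_succ]
      intro h
      exact ih (hnz _ fun i => congrFun h i)
  have hst : ∀ l, (fun i => aeval (iter F x l) (F i)) = iter F x (l + 1) := by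
    intro l
    rw [Pool.Agent.Helper36.iter_succ]
    rfl
  have hfwd : ∀ m < k, ∀ l l', l ≤ l' → (∀ j ∈ S m, aeval (iter F x l) (W j) = 0) →
      ∀ j ∈ S m, aeval (iter F x l') (W j) = 0 := by
    intro m hm l l' hll h
    induction l', hll using Nat.le_induction with
    | base => exact h
    | succ l' _ ih =>
      rw [← hst]
      exact hc.inv m hm _ ih
  have key : ∀ m ≤ k, ∀ T : Finset ℕ, T.card = m + 1 → (∀ j ∈ T, aeval (iter F x j) R = 0) →
      ∃ j₀ ∈ T, (∀ j ∈ T, j ≤ j₀) ∧ ∀ j ∈ S m, aeval (iter F x (j₀ + 1)) (W j) = 0 := by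
    intro m
    induction m with
    | zero =>
      intro _ T hT hR
      obtain ⟨j₀, rfl⟩ := Finset.card_eq_one.1 hT
      refine ⟨j₀, Finset.mem_singleton_self _, fun j hj => (Finset.mem_singleton.1 hj).le, ?_⟩
      rw [← hst]
      exact hs _ (hR j₀ (Finset.mem_singleton_self _))
    | succ m ih =>
      intro hm T hT hR
      have hTne : T.Nonempty := Finset.card_pos.1 (by omega)
      set j₀ := T.max' hTne with hj₀
      have hj₀T : j₀ ∈ T := T.max'_mem hTne
      obtain ⟨j₁, hj₁, -, h1⟩ := ih (by omega) (T.erase j₀)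
        (by rw [Finset.card_erase_of_mem hj₀T]; omega)
        (fun j hj => hR j (Finset.mem_of_mem_erase hj))
      have hlt : j₁ < j₀ := lt_of_le_of_ne (T.le_max' _ (Finset.mem_of_mem_erase hj₁))
        (Finset.ne_of_mem_erase hj₁)
      refine ⟨j₀, hj₀T, fun j hj => T.le_max' _ hj, ?_⟩
      rw [← hst]
      refine hc.down m (by omega) _ (hfwd m (by omega) _ _ hlt h1) ?_
      rw [map_mul, hR j₀ hj₀T, mul_zero]
  obtain ⟨j₀, -, -, h1⟩ := key k le_rfl T hT hx
  exact hne _ (hc.empty _ h1)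

/-- The points of an orbit which is not preperiodic have unbounded heights. -/
theorem tendsto_height {K : Type} [Field K] [NumberField K] [Algebra K ℂ] {d : ℕ}
    {F : Fin (ν + 1) → MvPolynomial (Fin (ν + 1)) K}
    (hF : IsEndo d fun i => map (algebraMap K ℂ) (F i)) {x : Fin (ν + 1) → K} (hx : x ≠ 0)
    (hpre : ¬ ∃ n m, n < m ∧ PEq (iter F x n) (iter F x m)) :
    Filter.Tendsto (fun n => logHeight (iter F x n)) Filter.atTop Filter.atTop := by
  have hne : ∀ n, iter F x n ≠ 0 := fun n => MainN_ne hF hx n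
  have hhom : ∀ i, (F i).IsHomogeneous d := fun i => MainN_hom hF i
  have hnz : ∀ y : Fin (ν + 1) → ℂ, (∀ i, aeval y (F i) = 0) → y = 0 := by
    intro y hy
    refine hF.nz y fun i => ?_
    rw [eval_map]
    exact hy i
  rcases Pool.Agent.Helper36.growth (L := ℂ) hF.two_le F hhom hnz (fun n => iter F x n) hne
    (fun n => Pool.Agent.Helper36.iter_succ F x n) with ⟨n, m, hnm, hp⟩ | ⟨m₀, hm₀⟩
  · exact absurd ⟨n, m, hnm, hp⟩ hpre
  · have hd : (1 : ℝ) < d := by exact_mod_cast hF.two_le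
    refine Filter.tendsto_atTop_mono' _ (f₁ := fun n => (d : ℝ) ^ (n - m₀)) ?_ ?_
    · filter_upwards [Filter.eventually_ge_atTop m₀] with n hn
      exact hm₀ n hn
    · exact (tendsto_pow_atTop_atTop_of_one_lt hd).comp (Filter.tendsto_sub_atTop_nat m₀)

/-- Points which are not proportional. -/
theorem cr_ne {K : Type} [Field K] [Algebra K ℂ] {d : ℕ}
    {F : Fin (ν + 1) → MvPolynomial (Fin (ν + 1)) K}
    (hF : IsEndo d fun i => map (algebraMap K ℂ) (F i)) {x : Fin (ν + 1) → K} (hx : x ≠ 0)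
    (hpre : ¬ ∃ n m, n < m ∧ PEq (iter F x n) (iter F x m)) :
    ∀ n m, n ≠ m → cr (iter F x n) (iter F x m) ≠ 0 := by
  have hne : ∀ n, iter F x n ≠ 0 := fun n => MainN_ne hF hx n
  have hlt : ∀ n m, n < m → cr (iter F x n) (iter F x m) ≠ 0 := by
    intro n m hnm h0
    apply hpre
    refine ⟨n, m, hnm, ?_⟩
    obtain ⟨i, hi⟩ := Function.ne_iff.1 (hne n)
    have hi : iter F x n i ≠ 0 := hi
    have h1 : ∀ j, iter F x m j = (iter F x m i / iter F x n i) * iter F x n j := by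
      intro j
      have h2 := congrFun h0 (i, j)
      simp only [cr, Pi.zero_apply] at h2
      field_simp
      linear_combination h2
    refine ⟨iter F x m i / iter F x n i, ?_, funext h1⟩
    intro h3
    apply hne m
    funext j
    rw [h1, h3, zero_mul]
    rfl
  intro n m hnm h0
  rcases lt_or_gt_of_ne hnm with h1 | h1
  · exact hlt n m h1 h0
  · refine hlt m n h1 ?_
    funext p
    have h2 := congrFun h0 p
    simp only [cr, Pi.zero_apply] at h2 ⊢
    linear_combination -h2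

/-- From the property over the number field to the property of a multiple of the point; the
preperiodic case. -/
theorem dml_of_nonpre {K : Type} [Field K] [NumberField K] [Algebra K ℂ] {d : ℕ}
    {F : Fin (ν + 1) → MvPolynomial (Fin (ν + 1)) K}
    (hF : IsEndo d fun i => map (algebraMap K ℂ) (F i)) {x : Fin (ν + 1) → K}
    (u : ℂ) (hu : u ≠ 0) {S : Set (MvPolynomial (Fin (ν + 1)) ℂ)}
    (hS : ∀ g ∈ S, ∃ e, g.IsHomogeneous e)
    (h : (¬ ∃ n m, n < m ∧ PEq (iter F x n) (iter F x m)) →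
      ¬ {n : ℕ | ∀ g ∈ S, eval (fun i => algebraMap K ℂ (iter F x n i)) g = 0}.Finite →
      Pool.Agent.Helper38.Sym.DMLgen (fun i => map (algebraMap K ℂ) (F i))
        (fun i => algebraMap K ℂ (x i))) :
    ∃ T : Finset (ℕ × ℕ), {n : ℕ | ∀ g ∈ S, eval ((fun (x : Fin (ν + 1) → ℂ) (i : Fin (ν + 1)) =>
        eval x (map (algebraMap K ℂ) (F i)))^[n] (fun i => u * algebraMap K ℂ (x i))) g = 0} =
      {n : ℕ | ∃ q ∈ T, ∃ m : ℕ, n = q.1 * m + q.2} := by
  rw [MainN_sets hF x hu S hS]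
  by_cases hpre : ∃ n m, n < m ∧ PEq (iter F x n) (iter F x m)
  · obtain ⟨n, m, hnm, hp⟩ := hpre
    exact MainN_preper hF x hnm hp S hS
  by_cases hfin : {n : ℕ | ∀ g ∈ S, eval (fun i => algebraMap K ℂ (iter F x n i)) g = 0}.Finite
  · exact Pool.Agent.Helper72.PN.MainN_finite hfin
  obtain ⟨T, hT⟩ := h hpre hfin S hS
  refine ⟨T, ?_⟩
  rw [← hT]
  have h1 := MainN_sets hF x one_ne_zero S hS
  simp only [one_mul] at h1
  rw [h1]

/-- **Tame invariant hypersurfaces, number fields.** -/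
theorem mainA {K : Type} [Field K] [NumberField K] [Algebra K ℂ] {d : ℕ}
    {F : Fin (ν + 1) → MvPolynomial (Fin (ν + 1)) K}
    (hF : IsEndo d fun i => map (algebraMap K ℂ) (F i))
    {R : MvPolynomial (Fin (ν + 1)) K} {r : ℕ} (hr : 1 ≤ r) (hR : R.IsHomogeneous r) {n : ℕ}
    {W : Fin n → MvPolynomial (Fin (ν + 1)) K} {δ : Fin n → ℕ} {S : ℕ → Finset (Fin n)} {k : ℕ}
    (hc : Chain ℂ F (Pool.Agent.Helper30.TKN.jf F * R) W δ S k)
    (hs : ∀ x : Fin (ν + 1) → ℂ, aeval x R = 0 →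
      ∀ j ∈ S 0, aeval (fun l => aeval x (F l)) (W j) = 0)
    {x : Fin (ν + 1) → K} (hx : x ≠ 0)
    (hpre : ¬ ∃ n m, n < m ∧ PEq (iter F x n) (iter F x m)) :
    Pool.Agent.Helper38.Sym.DMLgen (fun i => map (algebraMap K ℂ) (F i))
      (fun i => algebraMap K ℂ (x i)) := by
  have hne : ∀ n, iter F x n ≠ 0 := fun n => MainN_ne hF hx n
  have hhom : ∀ i, (F i).IsHomogeneous d := fun i => MainN_hom hF i
  have hd : 2 ≤ d := hF.two_le
  have hnz : ∀ y : Fin (ν + 1) → ℂ, (∀ i, aeval y (F i) = 0) → y = 0 := by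
    intro y hy
    refine hF.nz y fun i => ?_
    rw [eval_map]
    exact hy i
  have hJ : (Pool.Agent.Helper30.TKN.jf F).IsHomogeneous ((ν + 1) * (d - 1)) := by
    unfold Pool.Agent.Helper30.TKN.jf
    rw [Matrix.det_apply]
    refine IsHomogeneous.sum _ _ _ fun σ _ => ?_
    rw [show (ν + 1) * (d - 1) = ∑ _i : Fin (ν + 1), (d - 1) by simp]
    have h1 : (∏ i : Fin (ν + 1), (Matrix.of fun i j => pderiv j (F i)) (σ i) i).IsHomogeneous
        (∑ _i : Fin (ν + 1), (d - 1)) :=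
      IsHomogeneous.prod _ _ _ fun i _ => (hhom (σ i)).pderiv
    rcases Int.units_eq_one_or (Equiv.Perm.sign σ) with h2 | h2
    · rw [h2, one_smul]
      exact h1
    · rw [h2, Units.neg_smul, one_smul]
      exact h1.neg
  obtain ⟨B₁, hB₁, hgood⟩ := exists_chainV hhom hnz (hJ.mul hR) hc
  obtain ⟨B₂, hB₂, hstart⟩ := exists_startV (L := ℂ) hhom hR hc.hom (S 0) hs
  obtain ⟨B₃, hB₃, hRi⟩ := Pool.Agent.Helper72.PN.exists_bad (L := ℂ) hhom hnz R 0 0
  have hB : (B₁ ∪ B₂ ∪ B₃).Finite := (hB₁.union hB₂).union hB₃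
  obtain ⟨m, v, hv, hvB, hsm⟩ := exists_hit (L := ℂ) (by omega) hhom hnz hr hR (k := k)
    (fun T hT y hy => chain_count hnz hc hs T hT y fun j hj => by
      have h1 := hy j hj
      have h2 : ∀ j, iter (fun i => map (algebraMap K ℂ) (F i)) y j = iter F y j := by
        intro j
        induction j with
        | zero => rfl
        | succ j ih =>
          rw [Pool.Agent.Helper36.iter_succ, Pool.Agent.Helper36.iter_succ, ih]
          funext i
          exact aeval_map_algebraMap ℂ _ _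
      rwa [h2] at h1)
    hB (exists_place hB) hne (tendsto_height hF hx hpre)
  rw [Set.mem_union, Set.mem_union, not_or, not_or] at hvB
  obtain ⟨⟨hv1, hv2⟩, hv3⟩ := hvB
  obtain ⟨hG, hcv⟩ := hgood v hv hv1
  have h0 := hstart v hv hv2 hG _ (hne m) hsm
  rw [← Pool.Agent.Helper36.iter_succ] at h0
  exact dml_of_hit hhom hv hG hR (hRi v hv hv3).g_int hc.hom hcv hne (cr_ne hF hx hpre) h0

end Pool.Agent.Helper72.TH
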