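import Pool.Agent.Helper72.TH.MainC

/-!
# Project TH: closed sets with algebraic coefficients, complex coefficients for the closed set `V`
-/

set_option autoImplicit false

namespace Pool.Agent.Helper72.TH

open MvPolynomial Filter Topology
open Pool.Agent.Helper36 (step iter)
open Pool.Agent.Helper38.TQ (IsEndo PEq CurveSet)

variable {ν : ℕ}

/-- Finitely many of the forms define the same closed set. -/
theorem exists_finset (T : Set (MvPolynomial (Fin (ν + 1)) ℂ)) :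
    ∃ t : Finset (MvPolynomial (Fin (ν + 1)) ℂ), (∀ g ∈ t, g ∈ T) ∧
      ∀ x : Fin (ν + 1) → ℂ, (∀ g ∈ t, eval x g = 0) → ∀ g ∈ T, eval x g = 0 := by
  classical
  have hfg : (Ideal.span T).FG := IsNoetherian.noetherian _
  obtain ⟨t, ht, hspan⟩ := Submodule.fg_span_iff_fg_span_finset_subset _ |>.1 hfg
  refine ⟨t, fun g hg => ht hg, fun x hx g hg => ?_⟩
  have h2 : g ∈ Ideal.span T := Ideal.subset_span hg
  have h3 : Ideal.span T = Ideal.span (t : Set (MvPolynomial (Fin (ν + 1)) ℂ)) := hspan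
  rw [h3] at h2
  have h4 : Ideal.span (t : Set (MvPolynomial (Fin (ν + 1)) ℂ)) ≤ RingHom.ker (eval x) :=
    Ideal.span_le.2 fun Q hQ => RingHom.mem_ker.2 (hx Q hQ)
  exact RingHom.mem_ker.1 (h4 h2)

/-- Lifts of polynomials to a subfield. -/
theorem exists_liftF (K : IntermediateField ℚ ℂ) {p : MvPolynomial (Fin (ν + 1)) ℂ}
    (h : ∀ m, p.coeff m ∈ K) : ∃ P : MvPolynomial (Fin (ν + 1)) K, map (algebraMap K ℂ) P = p := by
  have h1 : p ∈ Set.range (map (σ := Fin (ν + 1)) (algebraMap K ℂ)) := by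
    rw [mem_range_map_iff_coeffs_subset]
    intro c hc
    obtain ⟨m, hm⟩ := mem_coeffs_iff.1 hc
    exact ⟨⟨c, by rw [hm.2]; exact h m⟩, rfl⟩
  exact h1

/-- A number field which contains finitely many algebraic polynomials and numbers. -/
theorem exists_field {ι κ : Type} [Finite ι] [Finite κ] (p : ι → MvPolynomial (Fin (ν + 1)) ℂ)
    (hp : ∀ i m, IsAlgebraic ℚ ((p i).coeff m)) (c : κ → ℂ) (hc : ∀ i, IsAlgebraic ℚ (c i)) :
    ∃ (K : IntermediateField ℚ ℂ) (_ : NumberField K), (∀ i m, (p i).coeff m ∈ K) ∧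
      ∀ i, c i ∈ K := by
  classical
  set S : Set ℂ := (⋃ i, ((p i).coeffs : Set ℂ)) ∪ Set.range c with hS
  have hSf : S.Finite := (Set.finite_iUnion fun i => (p i).coeffs.finite_toSet).union
    (Set.finite_range c)
  have hSa : ∀ c ∈ S, IsAlgebraic ℚ c := by
    rintro c (hc' | ⟨i, rfl⟩)
    · obtain ⟨i, hi⟩ := Set.mem_iUnion.1 hc'
      obtain ⟨m, hm⟩ := mem_coeffs_iff.1 hi
      rw [hm.2]
      exact hp i m
    · exact hc i
  set K : IntermediateField ℚ ℂ := IntermediateField.adjoin ℚ S with hKdef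
  haveI := hSf.to_subtype
  have hfin : FiniteDimensional ℚ K :=
    IntermediateField.finiteDimensional_adjoin fun x hx => (hSa x hx).isIntegral
  have hnum : NumberField K :=
    { to_charZero := inferInstance
      to_finiteDimensional := by
        have e : (DivisionRing.toRatAlgebra.toModule : Module ℚ K) = K.module' :=
          Subsingleton.elim _ _
        rw [e]
        exact hfin }
  refine ⟨K, hnum, fun i m => ?_, fun i =>
    IntermediateField.subset_adjoin ℚ _ (Or.inr ⟨i, rfl⟩)⟩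
  by_cases h0 : (p i).coeff m = 0
  · rw [h0]
    exact K.zero_mem
  · refine IntermediateField.subset_adjoin ℚ _ (Or.inl (Set.mem_iUnion.2 ⟨i, ?_⟩))
    exact Finset.mem_coe.2 (mem_coeffs_iff.2 ⟨m, mem_support_iff.2 h0, rfl⟩)

/-- The chain of closed sets given by sets of forms with algebraic coefficients. -/
structure ChainS (f : Fin (ν + 1) → MvPolynomial (Fin (ν + 1)) ℂ)
    (q : MvPolynomial (Fin (ν + 1)) ℂ) (k : ℕ)
    (Z : ℕ → Set (MvPolynomial (Fin (ν + 1)) ℂ)) : Prop where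
  form : ∀ i ≤ k, ∀ g ∈ Z i, (∃ e, g.IsHomogeneous e) ∧ ∀ m, IsAlgebraic ℚ (g.coeff m)
  inv : ∀ i < k, ∀ x : Fin (ν + 1) → ℂ, (∀ g ∈ Z i, eval x g = 0) →
    ∀ g ∈ Z i, eval (fun l => eval x (f l)) g = 0
  down : ∀ i < k, ∀ x : Fin (ν + 1) → ℂ, (∀ g ∈ Z i, eval x g = 0) → eval x q = 0 →
    ∀ g ∈ Z (i + 1), eval (fun l => eval x (f l)) g = 0
  empty : ∀ x : Fin (ν + 1) → ℂ, (∀ g ∈ Z k, eval x g = 0) → x = 0

/-- Some iterate of the point `p` lies in the first closed set of a chain. -/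
def TamePt (f : Fin (ν + 1) → MvPolynomial (Fin (ν + 1)) ℂ) (p : Fin (ν + 1) → ℂ) : Prop :=
  ∃ (k : ℕ) (Z : ℕ → Set (MvPolynomial (Fin (ν + 1)) ℂ)),
    ChainS f (Pool.Agent.Helper30.TKN.jf f) k Z ∧ ∃ s : ℕ, ∀ g ∈ Z 0, eval (iter f p s) g = 0

/-- Every infinite closed subset of the closed set of `V` contains a tame point. -/
def Meets (f : Fin (ν + 1) → MvPolynomial (Fin (ν + 1)) ℂ)
    (V : Set (MvPolynomial (Fin (ν + 1)) ℂ)) : Prop :=
  ∀ T : Set (MvPolynomial (Fin (ν + 1)) ℂ), (∀ g ∈ T, ∃ e, g.IsHomogeneous e) →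
    (∀ p : Fin (ν + 1) → ℂ, (∀ g ∈ T, eval p g = 0) → ∀ g ∈ V, eval p g = 0) →
    (∃ p : ℕ → Fin (ν + 1) → ℂ, (∀ n, p n ≠ 0) ∧ (∀ n m, n ≠ m → ¬ PEq (p n) (p m)) ∧
      ∀ n, ∀ g ∈ T, eval (p n) g = 0) →
    ∃ p : Fin (ν + 1) → ℂ, p ≠ 0 ∧ (∀ g ∈ T, eval p g = 0) ∧ TamePt f p

/-- The number field, the map, the point, the closed sets and the additional form. -/
theorem exists_dataN {d k : ℕ} {f : Fin (ν + 1) → MvPolynomial (Fin (ν + 1)) ℂ} (hf : IsEndo d f)
    (hfa : ∀ i m, IsAlgebraic ℚ ((f i).coeff m))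
    {R : MvPolynomial (Fin (ν + 1)) ℂ} (hRa : ∀ m, IsAlgebraic ℚ (R.coeff m))
    {Z : ℕ → Set (MvPolynomial (Fin (ν + 1)) ℂ)}
    (hZ : ChainS f (Pool.Agent.Helper30.TKN.jf f * R) k Z)
    {b : Fin (ν + 1) → ℂ} (hb : b ≠ 0) (hba : ∀ i, IsAlgebraic ℚ (b i)) :
    ∃ (K : IntermediateField ℚ ℂ) (_ : NumberField K)
      (F : Fin (ν + 1) → MvPolynomial (Fin (ν + 1)) K) (R' : MvPolynomial (Fin (ν + 1)) K)
      (x : Fin (ν + 1) → K) (n : ℕ) (W : Fin n → MvPolynomial (Fin (ν + 1)) K) (δ : Fin n → ℕ)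
      (S : ℕ → Finset (Fin n)),
      (fun i => map (algebraMap K ℂ) (F i)) = f ∧ map (algebraMap K ℂ) R' = R ∧
      (fun i => algebraMap K ℂ (x i)) = b ∧ x ≠ 0 ∧
      Chain ℂ F (Pool.Agent.Helper30.TKN.jf F * R') W δ S k ∧
      ∀ i ≤ k, (∀ j ∈ S i, map (algebraMap K ℂ) (W j) ∈ Z i) ∧
        ∀ y : Fin (ν + 1) → ℂ, (∀ j ∈ S i, aeval y (W j) = 0) → ∀ g ∈ Z i, eval y g = 0 := by
  classical
  choose t htZ ht using fun i => exists_finset (Z i)
  set U : Finset (MvPolynomial (Fin (ν + 1)) ℂ) := (Finset.range (k + 1)).biUnion t with hU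
  have hUa : ∀ g : U, ∀ m, IsAlgebraic ℚ ((g : MvPolynomial (Fin (ν + 1)) ℂ).coeff m) := by
    rintro ⟨g, hg⟩ m
    obtain ⟨i, hi, hgi⟩ := Finset.mem_biUnion.1 hg
    exact (hZ.form i (by
      have := Finset.mem_range.1 hi
      omega) g (htZ i g hgi)).2 m
  have hUh : ∀ g : U, ∃ e, (g : MvPolynomial (Fin (ν + 1)) ℂ).IsHomogeneous e := by
    rintro ⟨g, hg⟩
    obtain ⟨i, hi, hgi⟩ := Finset.mem_biUnion.1 hg
    exact (hZ.form i (by
      have := Finset.mem_range.1 hi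
      omega) g (htZ i g hgi)).1
  obtain ⟨K, hK, hKp, hKc⟩ := exists_field (ι := (Fin (ν + 1) ⊕ Unit) ⊕ U)
    (Sum.elim (Sum.elim f fun _ => R) fun g => g) (by
      rintro ((i | i) | g) m
      · exact hfa i m
      · exact hRa m
      · exact hUa g m) b hba
  choose F hF using fun i => exists_liftF K (p := f i) fun m => hKp (Sum.inl (Sum.inl i)) m
  obtain ⟨R', hR'⟩ := exists_liftF K (p := R) fun m => hKp (Sum.inl (Sum.inr ())) m
  set e := U.equivFin with he
  choose W hW using fun j : Fin U.card => exists_liftF K (p := ((e.symm j : U) : MvPolynomial _ ℂ))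
    fun m => hKp (Sum.inr (e.symm j)) m
  choose δ hδ using fun j : Fin U.card => hUh (e.symm j)
  set S : ℕ → Finset (Fin U.card) := fun i =>
    Finset.univ.filter fun j => ((e.symm j : U) : MvPolynomial (Fin (ν + 1)) ℂ) ∈ t i with hS
  have hmemS : ∀ i j, j ∈ S i ↔ ((e.symm j : U) : MvPolynomial (Fin (ν + 1)) ℂ) ∈ t i := by
    intro i j
    rw [hS, Finset.mem_filter]
    exact ⟨fun h => h.2, fun h => ⟨Finset.mem_univ _, h⟩⟩
  have hev : ∀ (P : MvPolynomial (Fin (ν + 1)) K) (y : Fin (ν + 1) → ℂ),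
      aeval y P = eval y (map (algebraMap K ℂ) P) := by
    intro P y
    rw [eval_map]
    rfl
  have hZS : ∀ i ≤ k, ∀ y : Fin (ν + 1) → ℂ, (∀ j ∈ S i, aeval y (W j) = 0) →
      ∀ g ∈ Z i, eval y g = 0 := by
    intro i hi y hy
    refine ht i y fun g hg => ?_
    have hgU : g ∈ U := Finset.mem_biUnion.2 ⟨i, Finset.mem_range.2 (by omega), hg⟩
    have h1 := hy (e ⟨g, hgU⟩) (by
      rw [hmemS, Equiv.symm_apply_apply]
      exact hg)
    rw [hev, hW, Equiv.symm_apply_apply] at h1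
    exact h1
  have hSZ : ∀ i, ∀ j ∈ S i, map (algebraMap K ℂ) (W j) ∈ Z i := by
    intro i j hj
    rw [hW]
    exact htZ i _ ((hmemS i j).1 hj)
  have hFf : (fun i => map (algebraMap K ℂ) (F i)) = f := funext hF
  have hstep : ∀ y : Fin (ν + 1) → ℂ, (fun l => aeval y (F l)) = fun l => eval y (f l) := by
    intro y
    funext l
    rw [hev, hF]
  have hjf : map (algebraMap K ℂ) (Pool.Agent.Helper30.TKN.jf F * R') =
      Pool.Agent.Helper30.TKN.jf f * R := by
    rw [map_mul, map_jf, hFf, hR']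
  let x : Fin (ν + 1) → K := fun i => ⟨b i, hKc i⟩
  refine ⟨K, hK, F, R', x, U.card, W, δ, S, hFf, hR', rfl, ?_, ?_, fun i hi =>
    ⟨hSZ i, hZS i hi⟩⟩
  · intro h
    apply hb
    funext i
    exact congrArg (algebraMap K ℂ) (congrFun h i)
  · refine ⟨fun j => ?_, fun i hi y hy j hj => ?_, fun i hi y hy hq j hj => ?_, fun y hy => ?_⟩
    · have h1 := hδ j
      rw [← hW] at h1
      exact h1.of_map (algebraMap K ℂ).injective
    · rw [hstep, hev]
      exact hZ.inv i hi y (hZS i hi.le y hy) _ (hSZ i j hj)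
    · rw [hstep, hev]
      rw [hev, hjf] at hq
      exact hZ.down i hi y (hZS i hi.le y hy) hq _ (hSZ (i + 1) j hj)
    · exact hZ.empty y (hZS k le_rfl y hy)

/-- **Part (1).** -/
theorem final1 {d k : ℕ} {f : Fin (ν + 1) → MvPolynomial (Fin (ν + 1)) ℂ} (hf : IsEndo d f)
    (hfa : ∀ i m, IsAlgebraic ℚ ((f i).coeff m))
    {R : MvPolynomial (Fin (ν + 1)) ℂ} {r : ℕ} (hr : 1 ≤ r) (hR : R.IsHomogeneous r)
    (hRa : ∀ m, IsAlgebraic ℚ (R.coeff m)) {Z : ℕ → Set (MvPolynomial (Fin (ν + 1)) ℂ)}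
    (hZ : ChainS f (Pool.Agent.Helper30.TKN.jf f * R) k Z)
    (hRZ : ∀ x : Fin (ν + 1) → ℂ, eval x R = 0 → ∀ g ∈ Z 0, eval (fun l => eval x (f l)) g = 0)
    {a : Fin (ν + 1) → ℂ} (ha : a ≠ 0) {c : ℂ} (hc : c ≠ 0)
    (haa : ∀ i, IsAlgebraic ℚ (c * a i)) {V : Set (MvPolynomial (Fin (ν + 1)) ℂ)}
    (hV : ∀ g ∈ V, ∃ e, g.IsHomogeneous e) :
    ∃ T : Finset (ℕ × ℕ), {n : ℕ | ∀ g ∈ V, eval ((fun (x : Fin (ν + 1) → ℂ)
        (i : Fin (ν + 1)) => eval x (f i))^[n] a) g = 0} =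
      {n : ℕ | ∃ q ∈ T, ∃ m : ℕ, n = q.1 * m + q.2} := by
  have hb : (fun i => c * a i) ≠ 0 := by
    intro h
    apply ha
    funext i
    exact (mul_eq_zero.1 (congrFun h i)).resolve_left hc
  obtain ⟨K, hK, F, R', x, n, W, δ, S, hFf, hR', hx, hx0, hch, hSZ⟩ :=
    exists_dataN hf hfa hRa hZ hb haa
  have hF : IsEndo d fun i => map (algebraMap K ℂ) (F i) := by
    rw [hFf]
    exact hf
  have hev : ∀ (P : MvPolynomial (Fin (ν + 1)) K) (y : Fin (ν + 1) → ℂ),
      aeval y P = eval y (map (algebraMap K ℂ) P) := by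
    intro P y
    rw [eval_map]
    rfl
  have hR1 : R'.IsHomogeneous r := by
    rw [← hR'] at hR
    exact hR.of_map (algebraMap K ℂ).injective
  have h1 := dml_of_nonpre hF (x := x) c⁻¹ (inv_ne_zero hc) hV fun hpre _ =>
    mainA hF hr hR1 hch (fun y hy j hj => by
      have h2 : (fun l => aeval y (F l)) = fun l => eval y (f l) := by
        funext l
        rw [hev, ← hFf]
      rw [h2, hev]
      rw [hev, hR'] at hy
      exact hRZ y hy _ ((hSZ 0 (Nat.zero_le k)).1 j hj)) hx0 hpre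
  have h3 : (fun i => c⁻¹ * algebraMap K ℂ (x i)) = a := by
    funext i
    rw [show algebraMap K ℂ (x i) = c * a i from congrFun hx i, ← mul_assoc, inv_mul_cancel₀ hc,
      one_mul]
  have h4 : (fun (x : Fin (ν + 1) → ℂ) (i : Fin (ν + 1)) =>
      eval x (map (algebraMap K ℂ) (F i))) = fun x i => eval x (f i) := by
    funext x i
    rw [← hFf]
  rw [h3, h4] at h1
  exact h1

/-- **Part (2).** -/
theorem final2 {d : ℕ} {f : Fin (ν + 1) → MvPolynomial (Fin (ν + 1)) ℂ} (hf : IsEndo d f)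
    (hfa : ∀ i m, IsAlgebraic ℚ ((f i).coeff m))
    {a : Fin (ν + 1) → ℂ} (ha : a ≠ 0) {c : ℂ} (hc : c ≠ 0)
    (haa : ∀ i, IsAlgebraic ℚ (c * a i)) {V : Set (MvPolynomial (Fin (ν + 1)) ℂ)}
    (hV : ∀ g ∈ V, ∃ e, g.IsHomogeneous e) (hcur : CurveSet V) (hmeet : Meets f V)
    (hinf : {n : ℕ | ∀ g ∈ V, eval ((fun (x : Fin (ν + 1) → ℂ)
        (i : Fin (ν + 1)) => eval x (f i))^[n] a) g = 0}.Infinite)
    {V' : Set (MvPolynomial (Fin (ν + 1)) ℂ)} (hV' : ∀ g ∈ V', ∃ e, g.IsHomogeneous e) :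
    ∃ T : Finset (ℕ × ℕ), {n : ℕ | ∀ g ∈ V', eval ((fun (x : Fin (ν + 1) → ℂ)
        (i : Fin (ν + 1)) => eval x (f i))^[n] a) g = 0} =
      {n : ℕ | ∃ q ∈ T, ∃ m : ℕ, n = q.1 * m + q.2} := by
  classical
  have hb : (fun i => c * a i) ≠ 0 := by
    intro h
    apply ha
    funext i
    exact (mul_eq_zero.1 (congrFun h i)).resolve_left hc
  -- the orbit of the point
  have horb : ∀ n, (fun (x : Fin (ν + 1) → ℂ) (i : Fin (ν + 1)) => eval x (f i))^[n] a =
      iter f a n := by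
    intro n
    rfl
  simp only [horb] at hinf ⊢
  have hne : ∀ n, iter f a n ≠ 0 := by
    intro n
    induction n with
    | zero => exact ha
    | succ n ih =>
      rw [Pool.Agent.Helper36.iter_succ]
      intro h
      exact ih (hf.nz _ fun i => congrFun h i)
  -- the preperiodic case
  by_cases hprea : ∃ n m, n < m ∧ PEq (iter f a n) (iter f a m)
  · obtain ⟨n, m, hnm, hp⟩ := hprea
    have h1 : (fun i => map (algebraMap ℂ ℂ) (f i)) = f := by
      funext i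
      rw [Algebra.algebraMap_self, MvPolynomial.map_id]
    have h2 := Pool.Agent.Helper72.PN.MainN_preper (K := ℂ) (F := f) (d := d) (by
      rw [h1]
      exact hf) a hnm hp V' hV'
    exact h2
  have hNB : (atTop ⊓ Filter.principal {n : ℕ | ∀ g ∈ V, eval (iter f a n) g = 0}).NeBot := by
    rw [← Nat.cofinite_eq_atTop]
    exact hinf.cofinite_inf_principal_neBot
  set 𝒰 : Ultrafilter ℕ := Ultrafilter.of (atTop ⊓ Filter.principal
      {n : ℕ | ∀ g ∈ V, eval (iter f a n) g = 0}) with h𝒰d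
  have hle : (𝒰 : Filter ℕ) ≤ atTop ⊓ Filter.principal
      {n : ℕ | ∀ g ∈ V, eval (iter f a n) g = 0} := Ultrafilter.of_le _
  have h𝒰 : (𝒰 : Filter ℕ) ≤ atTop := hle.trans inf_le_left
  have hUV : ∀ᶠ n in (𝒰 : Filter ℕ), ∀ g ∈ V, eval (iter f a n) g = 0 :=
    (hle.trans inf_le_right) (Filter.mem_principal_self _)
  -- the closure
  obtain ⟨φ, hφ⟩ : ∃ φ : ℕ → ℕ, Function.Injective φ ∧
      ∀ i, ∀ g ∈ vanK 𝒰 (fun n => iter f a n), eval (iter f a (φ i)) g = 0 := by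
    have h1 : {n | ∀ g ∈ vanK 𝒰 (fun n => iter f a n), eval (iter f a n) g = 0}.Infinite := by
      intro hfin
      have h2 := vanK_mem 𝒰 (fun n => iter f a n)
      have h3 : ∀ᶠ n in atTop,
          n ∉ {n | ∀ g ∈ vanK 𝒰 (fun n => iter f a n), eval (iter f a n) g = 0} := by
        rw [← Nat.cofinite_eq_atTop]
        exact hfin.compl_mem_cofinite
      obtain ⟨n, hn1, hn2⟩ := (h2.and (h𝒰 h3)).exists
      exact hn2 hn1
    refine ⟨fun i => (h1.natEmbedding _ i : ℕ), ?_, fun i => (h1.natEmbedding _ i).2⟩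
    intro i j hij
    exact (h1.natEmbedding _).injective (Subtype.ext hij)
  obtain ⟨p, hp0, hpT, k, Z, hZ, s, hps⟩ := hmeet (vanK 𝒰 (fun n => iter f a n))
    (fun g hg => hg.1)
    (fun p hp g hg => hp g ⟨hV g hg, by
      filter_upwards [hUV] with n hn
      exact hn g hg⟩)
    ⟨fun i => iter f a (φ i), fun i => hne (φ i), fun i j hij h => by
        rcases lt_or_gt_of_ne fun h2 => hij (hφ.1 h2) with h2 | h2
        · exact hprea ⟨_, _, h2, h⟩
        · exact hprea ⟨_, _, h2, h.symm⟩,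
      fun i g hg => hφ.2 i g hg⟩
  -- the number field
  have hZ1 : ChainS f (Pool.Agent.Helper30.TKN.jf f * 1) k Z := by
    rw [mul_one]
    exact hZ
  obtain ⟨K, hK, F, R', x, n, W, δ, S, hFf, hR', hx, hx0, hch, hSZ⟩ :=
    exists_dataN hf hfa (R := 1) (fun m => by
      rw [coeff_one]
      split_ifs
      · exact isAlgebraic_one
      · exact isAlgebraic_zero) hZ1 hb haa
  have hR1 : R' = 1 := map_injective _ (algebraMap K ℂ).injective (hR'.trans (map_one _).symm)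
  rw [hR1, mul_one] at hch
  have hF : IsEndo d fun i => map (algebraMap K ℂ) (F i) := by
    rw [hFf]
    exact hf
  have h3 : (fun i => c⁻¹ * algebraMap K ℂ (x i)) = a := by
    funext i
    rw [show algebraMap K ℂ (x i) = c * a i from congrFun hx i, ← mul_assoc, inv_mul_cancel₀ hc,
      one_mul]
  have h4 : (fun (x : Fin (ν + 1) → ℂ) (i : Fin (ν + 1)) =>
      eval x (map (algebraMap K ℂ) (F i))) = fun x i => eval x (f i) := by
    funext x i
    rw [← hFf]
  have h5 : ∀ n, iter f a n = c⁻¹ ^ d ^ n • fun i => algebraMap K ℂ (iter F x n i) := by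
    intro n
    rw [← horb]
    have h6 := Pool.Agent.Helper72.PN.MainN_orbit hF x c⁻¹ n
    rw [h3, h4] at h6
    exact h6
  have hcn : ∀ n, c⁻¹ ^ d ^ n ≠ 0 := fun n => pow_ne_zero _ (inv_ne_zero hc)
  have h7 : ∀ (g : MvPolynomial (Fin (ν + 1)) ℂ) (e : ℕ), g.IsHomogeneous e → ∀ n,
      eval (iter f a n) g = 0 → eval (fun i => algebraMap K ℂ (iter F x n i)) g = 0 := by
    intro g e hg n hn
    rw [h5, Pool.Agent.Helper38.TQ.eval_smul_hom hg, mul_eq_zero] at hn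
    exact hn.resolve_left (pow_ne_zero _ (hcn n))
  have h8 : ∀ (g : MvPolynomial (Fin (ν + 1)) ℂ) (e : ℕ), g.IsHomogeneous e → ∀ n,
      eval (fun i => algebraMap K ℂ (iter F x n i)) g = 0 → eval (iter f a n) g = 0 := by
    intro g e hg n hn
    rw [h5, Pool.Agent.Helper38.TQ.eval_smul_hom hg, hn, mul_zero]
  have h1 := dml_of_nonpre hF (x := x) c⁻¹ (inv_ne_zero hc) hV' fun hpre _ =>
    mainC hF hch hx0 hpre h𝒰 hcur (by
      filter_upwards [hUV] with n hn g hg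
      obtain ⟨e, he⟩ := hV g hg
      exact h7 g e he n (hn g hg)) hp0 (fun g e hg hgU => by
        have h9 := hpT (map (algebraMap K ℂ) g) ⟨⟨e, hg.map _⟩, by
          filter_upwards [hgU] with n hn
          refine h8 _ e (hg.map _) n ?_
          rw [← Pool.Agent.Helper38.Sym.map_eval_gen, hn, map_zero]⟩
        rw [eval_map] at h9
        exact h9) (s := s) (fun j hj => by
        have h9 := hps _ ((hSZ 0 (Nat.zero_le k)).1 j hj)
        rw [← hFf, Pool.Agent.Helper38.TQ.iter_map_base F p s, eval_map] at h9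
        exact h9)
  rw [h3, h4] at h1
  exact h1

end Pool.Agent.Helper72.TH
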