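import Pool.Agent.Helper72.TH.MainC
import Pool.Agent.Helper45.NZ.CaseP
import Pool.Agent.Helper63.TN.Zeros
import Pool.Agent.Helper63.TN.Van

/-!
# Project TH: curves with infinitely many preperiodic points
-/

set_option autoImplicit false

namespace Pool.Agent.Helper72.TH

open MvPolynomial Filter Topology
open Pool.Agent.Helper36 (step iter)
open Pool.Agent.Helper38.TQ (IsEndo PEq CurveSet)

variable {ν : ℕ}

section

open Pool.Agent.Helper36 (iter_succ iter_add APSet APSet_of_evClosed mapLin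
  mapLin_isHomogeneous eval_eq_zero_iff_mapLin)
open Pool.Agent.Helper38.TQ (OnCurve eval_map_k iter_ne_zero)
open Pool.Agent.Helper63.TN (OnI IsCurve NonPer van pull van_form van_hom van_curve van_on
  aeval_pull pull_hom zeros_finite)
open Pool.Agent.Helper45.NZ (ManyPreA IsPre caseP)

variable {A : Type} [Field A]

/-- A point is on the curve if all forms of the ideal vanish. -/
theorem onI_of_forms {I : Ideal (MvPolynomial (Fin (ν + 1)) A)}
    (hI : ∀ G ∈ I, ∀ m, homogeneousComponent m G ∈ I) {L : Type}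
    [Field L] [Algebra A L] {u : Fin (ν + 1) → L} (hu : u ≠ 0)
    (h : ∀ G ∈ I, ∀ e, G.IsHomogeneous e → aeval u G = 0) : OnI I u := by
  refine ⟨hu, fun G hG => ?_⟩
  rw [← sum_homogeneousComponent G, map_sum]
  exact Finset.sum_eq_zero fun m _ =>
    h _ (hI G hG m) m (homogeneousComponent_isHomogeneous m G)

/-- The closed set swept out by a subsequence is contained in the given closed set. -/
theorem zero_of_onI [Infinite A] [Algebra A ℂ] {U : Ultrafilter ℕ} {x : ℕ → Fin (ν + 1) → A}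
    {V : Set (MvPolynomial (Fin (ν + 1)) ℂ)} (hV : ∀ g ∈ V, ∃ e : ℕ, g.IsHomogeneous e)
    (hU : ∀ᶠ n in (U : Filter ℕ), ∀ g ∈ V, eval (fun i => algebraMap A ℂ (x n i)) g = 0) {n : ℕ}
    (hn : OnI (van U x) (x n)) : ∀ g ∈ V, eval (fun i => algebraMap A ℂ (x n i)) g = 0 := by
  intro g hg
  rw [eval_eq_zero_iff_mapLin (K := A)]
  intro ρ
  obtain ⟨e, he⟩ := hV g hg
  have h1 : mapLin ρ g ∈ van U x := by
    rw [van_form (mapLin_isHomogeneous ρ he)]
    filter_upwards [hU] with m hm
    exact (eval_eq_zero_iff_mapLin g (x m)).1 (hm g hg) ρ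
  exact hn.2 _ h1

theorem endo_desc [Algebra A ℂ] {d : ℕ} {F : Fin (ν + 1) → MvPolynomial (Fin (ν + 1)) A}
    (hF : IsEndo d fun i => map (algebraMap A ℂ) (F i)) : IsEndo d F := by
  have hinj : Function.Injective (algebraMap A ℂ) := (algebraMap A ℂ).injective
  refine ⟨hF.two_le, fun i => IsHomogeneous.of_map hinj (hF.hom i), fun x hx => ?_⟩
  have h1 : (fun i => algebraMap A ℂ (x i)) = 0 := by
    apply hF.nz
    intro i
    rw [eval_map_k]
    have h2 : aeval (fun i => algebraMap A ℂ (x i)) (F i) =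
      algebraMap A ℂ (aeval x (F i)) := aeval_algebraMap_apply (A := A) (B := ℂ) x (F i)
    rw [h2, aeval_eq_eval]
    have h3 : eval x (F i) = 0 := hx i
    rw [h3, map_zero]
  funext i
  apply hinj
  have := congrFun h1 i
  simpa using this

/-- An ultrafilter of large elements of an infinite set. -/
theorem exists_ultra {E : Set ℕ} (hE : E.Infinite) :
    ∃ W : Ultrafilter ℕ, (W : Filter ℕ) ≤ atTop ∧ E ∈ (W : Filter ℕ) := by
  have h1 : (atTop ⊓ 𝓟 E : Filter ℕ).NeBot := by
    rw [← frequently_mem_iff_neBot]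
    exact Nat.frequently_atTop_iff_infinite.2 hE
  refine ⟨Ultrafilter.of (atTop ⊓ 𝓟 E), (Ultrafilter.of_le _).trans inf_le_left, ?_⟩
  exact (Ultrafilter.of_le (atTop ⊓ 𝓟 E)) (mem_inf_of_right (mem_principal_self E))

/-- A set of a free ultrafilter is infinite. -/
theorem infinite_of_mem {W : Ultrafilter ℕ} (hW : (W : Filter ℕ) ≤ atTop) {S : Set ℕ}
    (hS : S ∈ (W : Filter ℕ)) : S.Infinite := by
  intro hfin
  obtain ⟨b, hb⟩ := hfin.bddAbove
  obtain ⟨n, hn, hn'⟩ := (inter_mem hS (hW (Ioi_mem_atTop b)) |> fun h =>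
    (W : Filter ℕ).nonempty_of_mem h)
  have := hb hn
  have : b < n := hn'
  omega

/-- **A curve which contains infinitely many points of an orbit and infinitely many preperiodic
points**, over the algebraic numbers: all return sets are finite unions of progressions. -/
theorem prog_of_many [IsAlgClosed A] [CharZero A] [Algebra.IsAlgebraic ℚ A] [Algebra A ℂ] {d : ℕ}
    {F : Fin (ν + 1) → MvPolynomial (Fin (ν + 1)) A}
    (hF : IsEndo d fun i => map (algebraMap A ℂ) (F i)) {x : Fin (ν + 1) → A} (hx : x ≠ 0)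
    (hdist : ∀ n m, n < m → ¬ PEq (iter F x n) (iter F x m))
    {U : Ultrafilter ℕ} (hU : (U : Filter ℕ) ≤ atTop) (hcur : OnCurve U (iter F x))
    (hmany : ManyPreA (van U (iter F x)) F)
    {V : Set (MvPolynomial (Fin (ν + 1)) ℂ)} (hV : ∀ g ∈ V, ∃ e : ℕ, g.IsHomogeneous e) :
    ∃ T, {n | ∀ g ∈ V, eval (fun i => algebraMap A ℂ (iter F x n i)) g = 0} = APSet T := by
  classical
  have hFA := endo_desc hF
  have hFh : ∀ i, (F i).IsHomogeneous d := fun i => hFA.hom i
  have hinfA : Infinite A := IsAlgClosed.instInfinite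
  have hne : ∀ n, iter F x n ≠ 0 := fun n => iter_ne_zero hFA hx n
  set I := van U (iter F x) with hI'
  have hI : IsCurve I := van_curve (k := A) hne hcur
  have hon : ∀ᶠ n in (U : Filter ℕ), OnI I (iter F x n) := van_on hne
  have hper : ∃ M, 0 < M ∧ ∀ h ∈ I, ∀ e, h.IsHomogeneous e → pull F M h ∈ I := by
    by_contra hcon
    push Not at hcon
    have hnp : NonPer I F := by
      intro M hM
      obtain ⟨h, hh, e, he, hh'⟩ := hcon M hM
      exact ⟨h, hh, e, he, hh'⟩
    exact infinite_of_mem hU hon (caseP hF hI hnp hmany hx hdist)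
  obtain ⟨M, hM, hM'⟩ := hper
  obtain ⟨n₀, hn₀⟩ := hon.exists
  have hfw : ∀ k, OnI I (iter F x (n₀ + k * M)) := by
    intro k
    induction k with
    | zero => simpa using hn₀
    | succ k ih =>
      refine onI_of_forms hI.hom (hne _) fun G hG e he => ?_
      have h1 := ih.2 _ (hM' G hG e he)
      rw [aeval_pull, ← iter_add] at h1
      rw [show n₀ + (k + 1) * M = M + (n₀ + k * M) by ring]
      exact h1
  apply APSet_of_evClosed hM
  by_contra hinf
  obtain ⟨W, hW, hWE⟩ := exists_ultra hinf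
  -- the residue class
  obtain ⟨r, hr⟩ : ∃ r, {n | ∃ k, n = n₀ + r + k * M} ∈ (W : Filter ℕ) := by
    have h1 : (⋃ r ∈ Set.Iio M, {n | ∃ k, n = n₀ + r + k * M}) ∈ (W : Filter ℕ) := by
      refine mem_of_superset (hW (Ici_mem_atTop n₀)) ?_
      intro n hn
      have hn' : n₀ ≤ n := hn
      rw [Set.mem_iUnion₂]
      refine ⟨(n - n₀) % M, Nat.mod_lt _ hM, (n - n₀) / M, ?_⟩
      have h2 := Nat.mod_add_div (n - n₀) M
      have h3 : M * ((n - n₀) / M) = (n - n₀) / M * M := Nat.mul_comm _ _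
      omega
    obtain ⟨r, -, hr⟩ := (Ultrafilter.finite_biUnion_mem_iff (Set.finite_Iio M)).1 h1
    exact ⟨r, hr⟩
  -- the curve of the residue class
  have hJ : ∀ k, OnI (van W (iter F x)) (iter F x (n₀ + r + k * M)) := by
    intro k
    refine onI_of_forms (fun G hG m => van_hom hG m) (hne _) fun G hG e he => ?_
    have hGW := (van_form he).1 hG
    have hpe : ∀ j, aeval (iter F x (n₀ + j * M)) (pull F r G) =
        aeval (iter F x (n₀ + r + j * M)) G := by
      intro j
      rw [aeval_pull, ← iter_add, show r + (n₀ + j * M) = n₀ + r + j * M by ring]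
    have hmem : pull F r G ∈ I := by
      by_contra hcon
      have h1 := zeros_finite hI (pull_hom hFh r he) hcon (fun k => iter F x (n₀ + k * M)) (by
        intro k k' hkk h
        rcases lt_or_gt_of_ne hkk with h2 | h2
        · exact hdist _ _ (by
            have := Nat.mul_lt_mul_of_pos_right h2 hM
            omega) h
        · exact hdist _ _ (by
            have := Nat.mul_lt_mul_of_pos_right h2 hM
            omega) h.symm)
      have h2 : {n | ∃ k, n = n₀ + r + k * M ∧ aeval (iter F x n) G = 0}.Infinite := by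
        refine infinite_of_mem hW ?_
        filter_upwards [hr, hGW] with n hn hn'
        obtain ⟨k, hk⟩ := hn
        refine ⟨k, hk, ?_⟩
        rw [aeval_eq_eval]
        exact hn'
      apply h2
      refine (h1.image fun k => n₀ + r + k * M).subset ?_
      rintro n ⟨k, rfl, hk⟩
      refine ⟨k, ⟨hfw k, ?_⟩, rfl⟩
      rw [hpe]
      exact hk
    rw [← hpe]
    exact (hfw k).2 _ hmem
  obtain ⟨n, ⟨hnS, hnS'⟩, k, rfl⟩ := (W : Filter ℕ).nonempty_of_mem (inter_mem hWE hr)
  apply hnS'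
  have hS : ∀ᶠ n in (W : Filter ℕ), ∀ g ∈ V,
      eval (fun i => algebraMap A ℂ (iter F x n i)) g = 0 := by
    filter_upwards [hWE] with n hn
    exact hn.1
  have h3 := hJ (k + 1)
  rw [show n₀ + r + (k + 1) * M = n₀ + r + k * M + M by ring] at h3
  exact zero_of_onI hV hS h3

end

/-- A curve which contains infinitely many points of the orbit of `a` and infinitely many
preperiodic points is periodic (helper45: `Helper45.NZ.caseP`), so all return sets of `a` are finite
unions of progressions. `T = vanK 𝒰 (iter f a)` consists of all forms over `ℂ` that vanish at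
almost all points of the orbit. -/
theorem dml_of_many_pre {d : ℕ} {f : Fin (ν + 1) → MvPolynomial (Fin (ν + 1)) ℂ} (hf : IsEndo d f)
    (hfa : ∀ i m, IsAlgebraic ℚ ((f i).coeff m))
    {a : Fin (ν + 1) → ℂ} (ha : a ≠ 0) {c : ℂ} (hc : c ≠ 0)
    (haa : ∀ i, IsAlgebraic ℚ (c * a i))
    (hprea : ¬ ∃ n m, n < m ∧ PEq (iter f a n) (iter f a m))
    {𝒰 : Ultrafilter ℕ} (h𝒰 : (𝒰 : Filter ℕ) ≤ atTop)
    {V : Set (MvPolynomial (Fin (ν + 1)) ℂ)} (hV : ∀ g ∈ V, ∃ e, g.IsHomogeneous e)
    (hcur : CurveSet V) (hUV : ∀ᶠ n in (𝒰 : Filter ℕ), ∀ g ∈ V, eval (iter f a n) g = 0)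
    {p : ℕ → Fin (ν + 1) → ℂ} (hp0 : ∀ n, p n ≠ 0)
    (hpT : ∀ n, ∀ g ∈ vanK 𝒰 (fun n => iter f a n), eval (p n) g = 0)
    (hpne : ∀ n m, n ≠ m → ¬ PEq (p n) (p m))
    (hpre : ∀ n, ∃ s t, s < t ∧ PEq (iter f (p n) s) (iter f (p n) t))
    {V' : Set (MvPolynomial (Fin (ν + 1)) ℂ)} (hV' : ∀ g ∈ V', ∃ e, g.IsHomogeneous e) :
    ∃ T : Finset (ℕ × ℕ), {n : ℕ | ∀ g ∈ V', eval (iter f a n) g = 0} =
      {n : ℕ | ∃ q ∈ T, ∃ m : ℕ, n = q.1 * m + q.2} := by
  classical
  let A : Type := algebraicClosure ℚ ℂ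
  have hAcl : IsAlgClosed A :=
    (IsAlgClosed.algebraicClosure_eq_bot_iff (algebraicClosure ℚ ℂ) ℂ).1
      (algebraicClosure.algebraicClosure_eq_bot ℚ ℂ)
  have hinj : Function.Injective (algebraMap A ℂ) := (algebraMap A ℂ).injective
  have hch : CharZero A := charZero_of_injective_algebraMap (R := ℚ) (A := A)
    (algebraMap ℚ A).injective
  have hal : Algebra.IsAlgebraic ℚ A := by
    have h1 : @Algebra.IsAlgebraic ℚ A _ _ (algebraicClosure ℚ ℂ).algebra' :=
      algebraicClosure.isAlgebraic ℚ ℂ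
    have h0 : (algebraicClosure ℚ ℂ).algebra' = (DivisionRing.toRatAlgebra : Algebra ℚ A) :=
      Subsingleton.elim _ _
    rw [h0] at h1
    exact h1
  have hinfA : Infinite A := IsAlgClosed.instInfinite
  have hlift : ∀ i, ∃ F : MvPolynomial (Fin (ν + 1)) A,
      MvPolynomial.map (algebraMap A ℂ) F = f i := by
    intro i
    refine ⟨∑ m ∈ (f i).support, MvPolynomial.monomial m
      (⟨(f i).coeff m, mem_algebraicClosure_iff.2 (hfa i m)⟩ : A), ?_⟩
    rw [map_sum]
    conv_rhs => rw [(f i).as_sum]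
    refine Finset.sum_congr rfl fun m _ => ?_
    rw [MvPolynomial.map_monomial]
    rfl
  choose F hFf using hlift
  have hff : (fun i => map (algebraMap A ℂ) (F i)) = f := funext hFf
  have hF : IsEndo d fun i => map (algebraMap A ℂ) (F i) := by
    rw [hff]
    exact hf
  have hFA := endo_desc hF
  set x : Fin (ν + 1) → A := fun i => ⟨c * a i, mem_algebraicClosure_iff.2 (haa i)⟩ with hx'
  have hxa : (fun i => algebraMap A ℂ (x i)) = c • a := rfl
  have hx : x ≠ 0 := by
    intro h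
    apply ha
    have h1 : c • a = 0 := by
      rw [← hxa, h]
      funext i
      simp
    exact (smul_eq_zero.1 h1).resolve_left hc
  -- iterates
  have hit0 : ∀ (z : Fin (ν + 1) → ℂ) n, iter f z n = iter F z n := by
    intro z n
    induction n with
    | zero => rfl
    | succ n ih =>
      rw [Pool.Agent.Helper36.iter_succ, Pool.Agent.Helper36.iter_succ, ih]
      funext i
      show aeval _ (f i) = aeval _ (F i)
      rw [← hFf i, aeval_map_algebraMap]
  have hit : ∀ n, (fun i => algebraMap A ℂ (iter F x n i)) = c ^ d ^ n • iter f a n := by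
    intro n
    have h1 : iter F (fun i => algebraMap A ℂ (x i)) n =
        fun i => algebraMap A ℂ (iter F x n i) :=
      Pool.Agent.Helper36.iter_map F (Algebra.ofId A ℂ) x n
    rw [← h1, hxa, ← hit0, Pool.Agent.Helper38.TQ.iter_smul hf]
  have hcn : ∀ n, c ^ d ^ n ≠ 0 := fun n => pow_ne_zero _ hc
  have hev : ∀ (g : MvPolynomial (Fin (ν + 1)) ℂ), (∃ e, g.IsHomogeneous e) → ∀ n,
      eval (fun i => algebraMap A ℂ (iter F x n i)) g = 0 ↔ eval (iter f a n) g = 0 := by
    rintro g ⟨e, he⟩ n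
    rw [hit, Pool.Agent.Helper38.TQ.eval_smul_hom he]
    constructor
    · exact fun h => (mul_eq_zero.1 h).resolve_left (pow_ne_zero _ (hcn n))
    · intro h
      rw [h, mul_zero]
  have hne : ∀ n, iter F x n ≠ 0 := fun n => Pool.Agent.Helper38.TQ.iter_ne_zero hFA hx n
  have hdist : ∀ n m, n < m → ¬ PEq (iter F x n) (iter F x m) := by
    rintro n m hnm ⟨b, hb, h⟩
    apply hprea
    refine ⟨n, m, hnm, (c ^ d ^ m)⁻¹ * algebraMap A ℂ b * c ^ d ^ n,
      mul_ne_zero (mul_ne_zero (inv_ne_zero (hcn m)) ((map_ne_zero _).2 hb)) (hcn n), ?_⟩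
    have h1 : c ^ d ^ m • iter f a m = algebraMap A ℂ b • (c ^ d ^ n • iter f a n) := by
      rw [← hit, ← hit, h]
      funext i
      simp
    rw [mul_assoc, mul_smul, mul_smul, ← h1, smul_smul, inv_mul_cancel₀ (hcn m), one_smul]
  have hOn : Pool.Agent.Helper38.TQ.OnCurve 𝒰 (iter F x) := by
    refine hcur A (iter F x) 𝒰 ?_
    filter_upwards [hUV] with n hn g hg
    exact (hev g (hV g hg) n).2 (hn g hg)
  have hI : Pool.Agent.Helper63.TN.IsCurve (Pool.Agent.Helper63.TN.van 𝒰 (iter F x)) :=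
    Pool.Agent.Helper63.TN.van_curve (k := A) hne hOn
  -- the preperiodic points
  have hpt : ∀ n, ∃ (w : Fin (ν + 1) → A) (b : ℂ), b ≠ 0 ∧
      p n = b • (fun i => algebraMap A ℂ (w i)) ∧
      Pool.Agent.Helper63.TN.OnI (Pool.Agent.Helper63.TN.van 𝒰 (iter F x)) w ∧
      Pool.Agent.Helper45.NZ.IsPre F w := by
    intro n
    obtain ⟨s, t, hst, hPEq⟩ := hpre n
    rw [hit0, hit0] at hPEq
    obtain ⟨b', hb', h'⟩ := hPEq
    obtain ⟨w, b, hb, hw⟩ := Pool.Agent.Helper38.TQ.isConst_of_preper_complex hFA (hp0 n)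
      ⟨s, t, hst, b', hb', h'⟩
    have hw' : p n = b • fun i => algebraMap A ℂ (w i) := hw
    have hw0 : w ≠ 0 := by
      rintro rfl
      apply hp0 n
      rw [hw']
      funext i
      simp
    refine ⟨w, b, hb, hw', ?_, ?_⟩
    · refine onI_of_forms hI.hom hw0 fun G hG e he => ?_
      have h1 : eval (p n) (map (algebraMap A ℂ) G) = 0 := by
        apply hpT n
        refine ⟨⟨e, he.map _⟩, ?_⟩
        filter_upwards [(Pool.Agent.Helper63.TN.van_form he).1 hG] with m hm
        rw [← hev _ ⟨e, he.map _⟩, Pool.Agent.Helper38.TQ.eval_map_k]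
        have h4 : aeval (fun i => algebraMap A ℂ (iter F x m i)) G =
            algebraMap A ℂ (aeval (iter F x m) G) :=
          aeval_algebraMap_apply (A := A) (B := ℂ) (iter F x m) G
        rw [h4, aeval_eq_eval, hm, map_zero]
      rw [Pool.Agent.Helper38.TQ.eval_map_k, hw',
        Pool.Agent.Helper38.TQ.aeval_smul_hom he] at h1
      have h3 := (mul_eq_zero.1 h1).resolve_left (pow_ne_zero _ hb)
      have h4 : aeval (fun i => algebraMap A ℂ (w i)) G = algebraMap A ℂ (aeval w G) :=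
        aeval_algebraMap_apply (A := A) (B := ℂ) w G
      rw [h4] at h3
      exact (map_eq_zero _).1 h3
    · refine ⟨s, t, hst, ?_⟩
      have h3 : PEq (iter F (p n) s) (iter F (p n) t) := ⟨b', hb', h'⟩
      have h4 : PEq (fun i => algebraMap A ℂ (w i)) (p n) := ⟨b, hb, hw'⟩
      have h5 := ((Pool.Agent.Helper38.TQ.PEq.iter hFA h4 s).trans h3).trans
        (Pool.Agent.Helper38.TQ.PEq.iter hFA h4.symm t)
      have h6 : ∀ n, iter F (fun i => algebraMap A ℂ (w i)) n =
          fun i => algebraMap A ℂ (iter F w n i) := fun n =>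
        Pool.Agent.Helper36.iter_map F (Algebra.ofId A ℂ) w n
      rw [h6, h6] at h5
      exact Pool.Agent.Helper38.TQ.PEq.descend (algebraMap A ℂ)
        (Pool.Agent.Helper38.TQ.iter_ne_zero hFA hw0 s)
        (Pool.Agent.Helper38.TQ.iter_ne_zero hFA hw0 t) h5
  choose w b hb hw hwI hwp using hpt
  have hmany : Pool.Agent.Helper45.NZ.ManyPreA
      (Pool.Agent.Helper63.TN.van 𝒰 (iter F x)) F := by
    intro s
    refine ⟨fun j => w j, fun j => ⟨hwI j, hwp j⟩, fun i j hij h => ?_⟩
    obtain ⟨γ, hγ, h1⟩ := h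
    apply hpne i j fun h => hij (Fin.ext h)
    refine ⟨b j * algebraMap A ℂ γ * (b i)⁻¹,
      mul_ne_zero (mul_ne_zero (hb j) ((map_ne_zero _).2 hγ)) (inv_ne_zero (hb i)), ?_⟩
    have h2 : w (j : ℕ) = γ • w (i : ℕ) := h1
    rw [hw j, hw i, h2, smul_smul, mul_assoc, mul_assoc, inv_mul_cancel₀ (hb i), mul_one,
      mul_smul]
    congr 1
  obtain ⟨T, hT⟩ := prog_of_many hF hx hdist h𝒰 hOn hmany hV'
  refine ⟨T, ?_⟩
  have h1 : {n : ℕ | ∀ g ∈ V', eval (iter f a n) g = 0} =
      {n | ∀ g ∈ V', eval (fun i => algebraMap A ℂ (iter F x n i)) g = 0} := by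
    ext n
    exact forall₂_congr fun g hg => (hev g (hV' g hg) n).symm
  rw [h1, hT]
  rfl

end Pool.Agent.Helper72.TH
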