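import Pool.Agent.Helper72.TH.Final
import Pool.Agent.Helper72.TH.Pre

/-!
# Project TH: part (2) with a second alternative
-/

set_option autoImplicit false

namespace Pool.Agent.Helper72.TH

open MvPolynomial Filter Topology
open Pool.Agent.Helper36 (step iter)
open Pool.Agent.Helper38.TQ (IsEndo PEq CurveSet)

variable {ν : ℕ}

/-- Every infinite closed subset of the closed set of `V` contains a tame point or infinitely many
preperiodic points. -/
def Meets3 (f : Fin (ν + 1) → MvPolynomial (Fin (ν + 1)) ℂ)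
    (V : Set (MvPolynomial (Fin (ν + 1)) ℂ)) : Prop :=
  ∀ T : Set (MvPolynomial (Fin (ν + 1)) ℂ), (∀ g ∈ T, ∃ e, g.IsHomogeneous e) →
    (∀ p : Fin (ν + 1) → ℂ, (∀ g ∈ T, eval p g = 0) → ∀ g ∈ V, eval p g = 0) →
    (∃ p : ℕ → Fin (ν + 1) → ℂ, (∀ n, p n ≠ 0) ∧ (∀ n m, n ≠ m → ¬ PEq (p n) (p m)) ∧
      ∀ n, ∀ g ∈ T, eval (p n) g = 0) →
    (∃ p : Fin (ν + 1) → ℂ, p ≠ 0 ∧ (∀ g ∈ T, eval p g = 0) ∧ TamePt f p) ∨
      ∃ p : ℕ → Fin (ν + 1) → ℂ, (∀ n, p n ≠ 0) ∧ (∀ n m, n ≠ m → ¬ PEq (p n) (p m)) ∧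
        (∀ n, ∀ g ∈ T, eval (p n) g = 0) ∧
        ∀ n, ∃ s t, s < t ∧ PEq (iter f (p n) s) (iter f (p n) t)

/-- **Part (2)**, with a second alternative: infinitely many preperiodic points. -/
theorem final3 {d : ℕ} {f : Fin (ν + 1) → MvPolynomial (Fin (ν + 1)) ℂ} (hf : IsEndo d f)
    (hfa : ∀ i m, IsAlgebraic ℚ ((f i).coeff m))
    {a : Fin (ν + 1) → ℂ} (ha : a ≠ 0) {c : ℂ} (hc : c ≠ 0)
    (haa : ∀ i, IsAlgebraic ℚ (c * a i)) {V : Set (MvPolynomial (Fin (ν + 1)) ℂ)}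
    (hV : ∀ g ∈ V, ∃ e, g.IsHomogeneous e) (hcur : CurveSet V) (hmeet : Meets3 f V)
    (hinf : {n : ℕ | ∀ g ∈ V, eval ((fun (x : Fin (ν + 1) → ℂ)
        (i : Fin (ν + 1)) => eval x (f i))^[n] a) g = 0}.Infinite)
    {V' : Set (MvPolynomial (Fin (ν + 1)) ℂ)} (hV' : ∀ g ∈ V', ∃ e, g.IsHomogeneous e) :
    ∃ T : Finset (ℕ × ℕ), {n : ℕ | ∀ g ∈ V', eval ((fun (x : Fin (ν + 1) → ℂ)
        (i : Fin (ν + 1)) => eval x (f i))^[n] a) g = 0} =
      {n : ℕ | ∃ q ∈ T, ∃ m : ℕ, n = q.1 * m + q.2} := by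
  classical
  have hb : (fun i => c * a i) ≠ 0 := by
    intro h
    apply ha
    funext i
    exact (mul_eq_zero.1 (congrFun h i)).resolve_left hc
  -- the orbit of the point
  have horb : ∀ n, (fun (x : Fin (ν + 1) → ℂ) (i : Fin (ν + 1)) => eval x (f i))^[n] a =
      iter f a n := by
    intro n
    rfl
  simp only [horb] at hinf ⊢
  have hne : ∀ n, iter f a n ≠ 0 := by
    intro n
    induction n with
    | zero => exact ha
    | succ n ih =>
      rw [Pool.Agent.Helper36.iter_succ]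
      intro h
      exact ih (hf.nz _ fun i => congrFun h i)
  -- the preperiodic case
  by_cases hprea : ∃ n m, n < m ∧ PEq (iter f a n) (iter f a m)
  · obtain ⟨n, m, hnm, hp⟩ := hprea
    have h1 : (fun i => map (algebraMap ℂ ℂ) (f i)) = f := by
      funext i
      rw [Algebra.algebraMap_self, MvPolynomial.map_id]
    have h2 := Pool.Agent.Helper72.PN.MainN_preper (K := ℂ) (F := f) (d := d) (by
      rw [h1]
      exact hf) a hnm hp V' hV'
    exact h2
  have hNB : (atTop ⊓ Filter.principal {n : ℕ | ∀ g ∈ V, eval (iter f a n) g = 0}).NeBot := by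
    rw [← Nat.cofinite_eq_atTop]
    exact hinf.cofinite_inf_principal_neBot
  set 𝒰 : Ultrafilter ℕ := Ultrafilter.of (atTop ⊓ Filter.principal
      {n : ℕ | ∀ g ∈ V, eval (iter f a n) g = 0}) with h𝒰d
  have hle : (𝒰 : Filter ℕ) ≤ atTop ⊓ Filter.principal
      {n : ℕ | ∀ g ∈ V, eval (iter f a n) g = 0} := Ultrafilter.of_le _
  have h𝒰 : (𝒰 : Filter ℕ) ≤ atTop := hle.trans inf_le_left
  have hUV : ∀ᶠ n in (𝒰 : Filter ℕ), ∀ g ∈ V, eval (iter f a n) g = 0 :=
    (hle.trans inf_le_right) (Filter.mem_principal_self _)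
  -- the closure
  obtain ⟨φ, hφ⟩ : ∃ φ : ℕ → ℕ, Function.Injective φ ∧
      ∀ i, ∀ g ∈ vanK 𝒰 (fun n => iter f a n), eval (iter f a (φ i)) g = 0 := by
    have h1 : {n | ∀ g ∈ vanK 𝒰 (fun n => iter f a n), eval (iter f a n) g = 0}.Infinite := by
      intro hfin
      have h2 := vanK_mem 𝒰 (fun n => iter f a n)
      have h3 : ∀ᶠ n in atTop,
          n ∉ {n | ∀ g ∈ vanK 𝒰 (fun n => iter f a n), eval (iter f a n) g = 0} := by
        rw [← Nat.cofinite_eq_atTop]
        exact hfin.compl_mem_cofinite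
      obtain ⟨n, hn1, hn2⟩ := (h2.and (h𝒰 h3)).exists
      exact hn2 hn1
    refine ⟨fun i => (h1.natEmbedding _ i : ℕ), ?_, fun i => (h1.natEmbedding _ i).2⟩
    intro i j hij
    exact (h1.natEmbedding _).injective (Subtype.ext hij)
  have hmeet' := hmeet (vanK 𝒰 (fun n => iter f a n))
    (fun g hg => hg.1)
    (fun p hp g hg => hp g ⟨hV g hg, by
      filter_upwards [hUV] with n hn
      exact hn g hg⟩)
    ⟨fun i => iter f a (φ i), fun i => hne (φ i), fun i j hij h => by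
        rcases lt_or_gt_of_ne fun h2 => hij (hφ.1 h2) with h2 | h2
        · exact hprea ⟨_, _, h2, h⟩
        · exact hprea ⟨_, _, h2, h.symm⟩,
      fun i g hg => hφ.2 i g hg⟩
  rcases hmeet' with ⟨p, hp0, hpT, k, Z, hZ, s, hps⟩ | ⟨p, hp0, hpne, hpT, hpre⟩
  swap
  · exact dml_of_many_pre hf hfa ha hc haa hprea h𝒰 hV hcur hUV hp0 hpT hpne hpre hV'
  -- the number field
  have hZ1 : ChainS f (Pool.Agent.Helper30.TKN.jf f * 1) k Z := by
    rw [mul_one]
    exact hZ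
  obtain ⟨K, hK, F, R', x, n, W, δ, S, hFf, hR', hx, hx0, hch, hSZ⟩ :=
    exists_dataN hf hfa (R := 1) (fun m => by
      rw [coeff_one]
      split_ifs
      · exact isAlgebraic_one
      · exact isAlgebraic_zero) hZ1 hb haa
  have hR1 : R' = 1 := map_injective _ (algebraMap K ℂ).injective (hR'.trans (map_one _).symm)
  rw [hR1, mul_one] at hch
  have hF : IsEndo d fun i => map (algebraMap K ℂ) (F i) := by
    rw [hFf]
    exact hf
  have h3 : (fun i => c⁻¹ * algebraMap K ℂ (x i)) = a := by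
    funext i
    rw [show algebraMap K ℂ (x i) = c * a i from congrFun hx i, ← mul_assoc, inv_mul_cancel₀ hc,
      one_mul]
  have h4 : (fun (x : Fin (ν + 1) → ℂ) (i : Fin (ν + 1)) =>
      eval x (map (algebraMap K ℂ) (F i))) = fun x i => eval x (f i) := by
    funext x i
    rw [← hFf]
  have h5 : ∀ n, iter f a n = c⁻¹ ^ d ^ n • fun i => algebraMap K ℂ (iter F x n i) := by
    intro n
    rw [← horb]
    have h6 := Pool.Agent.Helper72.PN.MainN_orbit hF x c⁻¹ n
    rw [h3, h4] at h6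
    exact h6
  have hcn : ∀ n, c⁻¹ ^ d ^ n ≠ 0 := fun n => pow_ne_zero _ (inv_ne_zero hc)
  have h7 : ∀ (g : MvPolynomial (Fin (ν + 1)) ℂ) (e : ℕ), g.IsHomogeneous e → ∀ n,
      eval (iter f a n) g = 0 → eval (fun i => algebraMap K ℂ (iter F x n i)) g = 0 := by
    intro g e hg n hn
    rw [h5, Pool.Agent.Helper38.TQ.eval_smul_hom hg, mul_eq_zero] at hn
    exact hn.resolve_left (pow_ne_zero _ (hcn n))
  have h8 : ∀ (g : MvPolynomial (Fin (ν + 1)) ℂ) (e : ℕ), g.IsHomogeneous e → ∀ n,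
      eval (fun i => algebraMap K ℂ (iter F x n i)) g = 0 → eval (iter f a n) g = 0 := by
    intro g e hg n hn
    rw [h5, Pool.Agent.Helper38.TQ.eval_smul_hom hg, hn, mul_zero]
  have h1 := dml_of_nonpre hF (x := x) c⁻¹ (inv_ne_zero hc) hV' fun hpre _ =>
    mainC hF hch hx0 hpre h𝒰 hcur (by
      filter_upwards [hUV] with n hn g hg
      obtain ⟨e, he⟩ := hV g hg
      exact h7 g e he n (hn g hg)) hp0 (fun g e hg hgU => by
        have h9 := hpT (map (algebraMap K ℂ) g) ⟨⟨e, hg.map _⟩, by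
          filter_upwards [hgU] with n hn
          refine h8 _ e (hg.map _) n ?_
          rw [← Pool.Agent.Helper38.Sym.map_eval_gen, hn, map_zero]⟩
        rw [eval_map] at h9
        exact h9) (s := s) (fun j hj => by
        have h9 := hps _ ((hSZ 0 (Nat.zero_le k)).1 j hj)
        rw [← hFf, Pool.Agent.Helper38.TQ.iter_map_base F p s, eval_map] at h9
        exact h9)
  rw [h3, h4] at h1
  exact h1

end Pool.Agent.Helper72.TH
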