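import Pool.Agent.Helper72.TH.Final
import Pool.Agent.Helper38.TNA.WrapN

/-!
# Project TH: points which are not algebraic
-/

set_option autoImplicit false

namespace Pool.Agent.Helper72.TH

open MvPolynomial
open Pool.Agent.Helper36 (step iter)
open Pool.Agent.Helper38.TQ (IsEndo PEq CurveSet IsConst)

variable {ν : ℕ}

/-- The endomorphism is defined over the algebraic numbers. If the point is not, then the return
sets to closed sets of dimension at most one are finite unions of progressions. -/
theorem alg_or_dml {d : ℕ} {f : Fin (ν + 1) → MvPolynomial (Fin (ν + 1)) ℂ} (hf : IsEndo d f)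
    (hfa : ∀ i m, IsAlgebraic ℚ ((f i).coeff m)) {a : Fin (ν + 1) → ℂ} (ha : a ≠ 0) :
    (∃ c : ℂ, c ≠ 0 ∧ ∀ i, IsAlgebraic ℚ (c * a i)) ∨
      ∀ V : Set (MvPolynomial (Fin (ν + 1)) ℂ), (∀ g ∈ V, ∃ e, g.IsHomogeneous e) → CurveSet V →
        ∃ T : Finset (ℕ × ℕ), {n : ℕ | ∀ g ∈ V, eval (iter f a n) g = 0} =
          {n : ℕ | ∃ q ∈ T, ∃ m : ℕ, n = q.1 * m + q.2} := by
  classical
  let k : IntermediateField ℚ ℂ := algebraicClosure ℚ ℂ
  have hac : IsAlgClosed k := (algebraicClosure.isAlgClosure ℚ ℂ).isAlgClosed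
  choose F hF using fun i => exists_liftF k (p := f i) fun m => mem_algebraicClosure_iff.2 (hfa i m)
  have hFf : (fun i => map (algebraMap k ℂ) (F i)) = f := funext hF
  have hFe : IsEndo d F := by
    refine ⟨hf.two_le, fun i => ?_, fun x hx => ?_⟩
    · have h1 := hf.hom i
      rw [← hF i] at h1
      exact h1.of_map (algebraMap k ℂ).injective
    · have h1 : (fun i => algebraMap k ℂ (x i)) = 0 := by
        apply hf.nz
        intro i
        rw [← hF i, ← Pool.Agent.Helper38.Sym.map_eval_gen, hx i, map_zero]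
      funext i
      have h2 := congrFun h1 i
      simpa using h2
  by_cases hc : IsConst k a
  · left
    obtain ⟨z, c, hc0, hz⟩ := hc
    refine ⟨c⁻¹, inv_ne_zero hc0, fun i => ?_⟩
    rw [hz, ← mul_assoc, inv_mul_cancel₀ hc0, one_mul]
    exact mem_algebraicClosure_iff.1 (z i).2
  · right
    intro V hV hcur
    obtain ⟨T, hT⟩ := Pool.Agent.Helper38.TNA.dml_curve_all hFe ha hc hV hcur
    refine ⟨T, ?_⟩
    rw [← hT]
    have h1 : ∀ n, iter f a n = iter F a n := by
      intro n
      rw [← hFf]
      exact Pool.Agent.Helper38.TQ.iter_map_base F a n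
    simp only [h1]

end Pool.Agent.Helper72.TH
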