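import Pool.Agent.Helper72.TH.CDefs
import Pool.Agent.Helper12.RP.IntegralStep
import Pool.Agent.Helper35.RP.AlgDep

/-!
# Project TH, part (2): algebraic dependence of the earlier points of the orbit
-/

set_option autoImplicit false

namespace Pool.Agent.Helper72.TH

open MvPolynomial Filter Topology
open Pool.Agent.Helper36 (step iter)
open Pool.Agent.Helper29.TG

variable {ν : ℕ} {K : Type} [Field K]

namespace AD

/-- Dehomogenisation. -/
noncomputable def deh (K : Type) [Field K] : MvPolynomial (Fin 3) K →ₐ[K] MvPolynomial (Fin 2) K :=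
  aeval ![X 0, X 1, 1]

lemma aeval_deh {E : Type} [CommRing E] [Algebra K E] (v : Fin 2 → E)
    (P : MvPolynomial (Fin 3) K) : aeval v (deh K P) = aeval ![v 0, v 1, 1] P := by
  have h : (aeval v : MvPolynomial (Fin 2) K →ₐ[K] E).comp (deh K) = aeval ![v 0, v 1, 1] := by
    apply MvPolynomial.algHom_ext
    intro i
    fin_cases i <;> simp [deh]
  rw [← h]
  rfl

lemma aeval_scale {E : Type} [CommRing E] [Algebra K E] {n : ℕ} {P : MvPolynomial (Fin n) K} {e : ℕ}
    (hP : P.IsHomogeneous e) (c : E) (u : Fin n → E) :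
    aeval (fun j => c * u j) P = c ^ e * aeval u P :=
  Pool.Agent.Helper36.aeval_smul_homogeneous hP c u

lemma deh_ne_zero {P : MvPolynomial (Fin 3) K} {e : ℕ} (hP : P.IsHomogeneous e) (h0 : P ≠ 0) :
    deh K P ≠ 0 := by
  intro h
  set Fr := FractionRing (MvPolynomial (Fin 3) K) with hFr
  set x : Fin 3 → Fr := fun j => algebraMap (MvPolynomial (Fin 3) K) Fr (X j) with hx
  have hx2 : x 2 ≠ 0 := by
    rw [hx]
    simp only [ne_eq, FaithfulSMul.algebraMap_eq_zero_iff]
    exact X_ne_zero 2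
  have h1 : aeval x P = algebraMap (MvPolynomial (Fin 3) K) Fr P := by
    have h := MvPolynomial.aeval_algebraMap_apply Fr (X : Fin 3 → MvPolynomial (Fin 3) K) P
    rw [aeval_X_left_apply] at h
    exact h
  have h2 : aeval x P = x 2 ^ e * aeval ![x 0 / x 2, x 1 / x 2, 1] P := by
    rw [← aeval_scale hP]
    congr 2
    funext j
    fin_cases j
    · simp [mul_div_cancel₀ _ hx2]
    · simp [mul_div_cancel₀ _ hx2]
    · simp
  have h3 : aeval ![x 0 / x 2, x 1 / x 2, 1] P = 0 := by
    have h4 := aeval_deh (K := K) ![x 0 / x 2, x 1 / x 2] P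
    rw [h, map_zero] at h4
    exact h4.symm
  rw [h3, mul_zero, h1, FaithfulSMul.algebraMap_eq_zero_iff] at h2
  exact h0 h2

lemma exists_hom {E : Type} [Field E] [Algebra K E] (u : Fin 3 → E) (hu : u 2 ≠ 0)
    (Q : MvPolynomial (Fin 2) K) (hQ : Q ≠ 0) (h : aeval ![u 0 / u 2, u 1 / u 2] Q = 0) :
    ∃ (P : MvPolynomial (Fin 3) K) (k : ℕ), P ≠ 0 ∧ P.IsHomogeneous k ∧ aeval u P = 0 := by
  classical
  set N := Q.totalDegree with hN
  have hle : ∀ m ∈ Q.support, m 0 + m 1 ≤ N := by
    intro m hm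
    have h1 := le_totalDegree hm
    rw [Finsupp.sum_fintype _ _ (fun _ => rfl), Fin.sum_univ_two] at h1
    exact h1
  set P : MvPolynomial (Fin 3) K :=
    ∑ m ∈ Q.support, C (coeff m Q) * (X 0 ^ m 0 * X 1 ^ m 1 * X 2 ^ (N - (m 0 + m 1))) with hP
  have hdeh : deh K P = Q := by
    rw [hP, map_sum]
    conv_rhs => rw [Q.as_sum]
    refine Finset.sum_congr rfl fun m _ => ?_
    rw [monomial_eq, Finsupp.prod_fintype _ _ (fun _ => pow_zero _), Fin.prod_univ_two]
    simp [deh]
  refine ⟨P, N, ?_, ?_, ?_⟩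
  · intro h0
    rw [h0, map_zero] at hdeh
    exact hQ hdeh.symm
  · refine IsHomogeneous.sum _ _ _ fun m hm => ?_
    have h1 := hle m hm
    have h2 : N = 0 + (m 0 + m 1 + (N - (m 0 + m 1))) := by omega
    rw [h2]
    refine (isHomogeneous_C _ _).mul (((isHomogeneous_X_pow _ _).mul
      (isHomogeneous_X_pow _ _)).mul ?_)
    rw [← h2]
    exact isHomogeneous_X_pow _ _
  · have h1 : aeval u P = u 2 ^ N * aeval ![u 0 / u 2, u 1 / u 2] Q := by
      conv_rhs => rw [Q.as_sum]
      rw [hP, map_sum, map_sum, Finset.mul_sum]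
      refine Finset.sum_congr rfl fun m hm => ?_
      have h1 := hle m hm
      rw [monomial_eq, Finsupp.prod_fintype _ _ (fun _ => pow_zero _), Fin.prod_univ_two]
      simp only [map_mul, map_pow, aeval_X, aeval_C]
      have h3 : u 2 ^ N = u 2 ^ m 0 * u 2 ^ m 1 * u 2 ^ (N - (m 0 + m 1)) := by
        rw [← pow_add, ← pow_add]
        congr 1
        omega
      rw [h3]
      simp only [Matrix.cons_val_zero, Matrix.cons_val_one, div_pow]
      field_simp
    rw [h1, h, mul_zero]

lemma rel_of_trdeg {C : Type} [CommRing C] [IsDomain C] [Algebra K C]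
    (hC : Algebra.trdeg K C ≤ 1) (v : Fin 2 → C) :
    ∃ Q : MvPolynomial (Fin 2) K, Q ≠ 0 ∧ aeval v Q = 0 := by
  by_contra hcon
  push Not at hcon
  have hv : AlgebraicIndependent K v := by
    rw [algebraicIndependent_iff]
    intro p hp
    by_contra hne
    exact hcon p hne hp
  have h2 := hv.cardinalMk_le_trdeg.trans hC
  simp at h2

/-- The algebra generated by elements any two of which are dependent. -/
lemma trdeg_range_le {E : Type} [Field E] [Algebra K E] {n : ℕ} (t : Fin n → E)
    (ht : ∀ i j, ∃ Q : MvPolynomial (Fin 2) K, Q ≠ 0 ∧ aeval ![t i, t j] Q = 0) :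
    Algebra.trdeg K (aeval t : MvPolynomial (Fin n) K →ₐ[K] E).range ≤ 1 := by
  set S := (aeval t : MvPolynomial (Fin n) K →ₐ[K] E).range with hS
  have htS : ∀ j, t j ∈ S := fun j => ⟨X j, by simp⟩
  set t' : Fin n → S := fun j => ⟨t j, htS j⟩ with ht'
  have hval : ∀ p : MvPolynomial (Fin n) K, ((aeval t' p : S) : E) = aeval t p := by
    intro p
    exact (MvPolynomial.aeval_algebraMap_apply E t' p).symm
  have : Algebra.IsAlgebraic (Algebra.adjoin K (Set.range t')) S := by
    refine ⟨fun x => ?_⟩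
    obtain ⟨p, hp⟩ := x.2
    have h1 : x = aeval t' p := by
      apply Subtype.ext
      rw [hval]
      exact hp.symm
    have h2 : aeval t' p ∈ Algebra.adjoin K (Set.range t') := by
      rw [Algebra.adjoin_range_eq_range_aeval]
      exact ⟨p, rfl⟩
    rw [h1]
    exact isAlgebraic_algebraMap (A := S) (⟨aeval t' p, h2⟩ : Algebra.adjoin K (Set.range t'))
  obtain ⟨B, hB, hBt⟩ := exists_isTranscendenceBasis_subset (R := K) (A := S) (Set.range t')
  rw [← hBt.cardinalMk_eq_trdeg]
  rw [Cardinal.le_one_iff_subsingleton]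
  refine ⟨fun a b => ?_⟩
  by_contra hab
  obtain ⟨i, hi⟩ := hB a.2
  obtain ⟨j, hj⟩ := hB b.2
  obtain ⟨Q, hQ, hQ0⟩ := ht i j
  have h1 : AlgebraicIndependent K (fun k : Fin 2 => ((![a, b] k : B) : S)) := by
    refine hBt.1.comp ![a, b] ?_
    intro k l hkl
    fin_cases k <;> fin_cases l <;> simp_all [eq_comm]
  have h2 : aeval (fun k : Fin 2 => ((![a, b] k : B) : S)) Q = 0 := by
    apply Subtype.ext
    have h3 : ((aeval (fun k : Fin 2 => ((![a, b] k : B) : S)) Q : S) : E) =
        aeval ![t i, t j] Q := by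
      have h4 := (MvPolynomial.aeval_algebraMap_apply E (fun k : Fin 2 => ((![a, b] k : B) : S)) Q).symm
      have h5 : (⇑(algebraMap S E) ∘ fun k : Fin 2 => ((![a, b] k : B) : S)) = ![t i, t j] := by
        funext k
        fin_cases k
        · change ((a : S) : E) = t i
          rw [← hi]
        · change ((b : S) : E) = t j
          rw [← hj]
      rw [h5] at h4
      exact h4
    rw [h3, hQ0]
    rfl
  exact hQ ((algebraicIndependent_iff.1 h1) Q h2)

end AD

open AD Pool.Agent.Helper35.RP in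
/-- If the points `x_n` lie on a curve along the ultrafilter, then so do the points `x_(n - m)`. -/
theorem onCF_shift {L : Type} [Field L] [IsAlgClosed L] [Algebra K L]
    {F : Fin (ν + 1) → MvPolynomial (Fin (ν + 1)) K} {d : ℕ} (hd : 1 ≤ d)
    (hF : ∀ i, (F i).IsHomogeneous d)
    (hnz : ∀ x : Fin (ν + 1) → L, (∀ i, aeval x (F i) = 0) → x = 0)
    {𝒰 : Ultrafilter ℕ} (h𝒰 : (𝒰 : Filter ℕ) ≤ atTop) {a : Fin (ν + 1) → K}
    (ha : ∀ n, iter F a n ≠ 0) (hcur : OnC 𝒰 (fun n => iter F a n)) (m : ℕ) :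
    OnCF 𝒰 (fun n => iter F a (n - m)) := by
  classical
  intro e f hf
  obtain ⟨E, hE, π, hπ0⟩ := exists_ultra 𝒰 K
  let _ : Algebra K E := (π.comp (Pi.constRingHom ℕ K)).toAlgebra
  have hπ : ∀ c : K, π (fun _ => c) = algebraMap K E c := fun c => rfl
  have hπeq : ∀ u v : ℕ → K, (∀ᶠ n in (𝒰 : Filter ℕ), u n = v n) → π u = π v := by
    intro u v h
    rw [← sub_eq_zero, ← map_sub, hπ0]
    filter_upwards [h] with n hn
    simp [hn]
  set Ω := AlgebraicClosure E with hΩ
  -- points over `Ω`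
  have hpt : ∀ {N : ℕ} (w : ℕ → Fin N → K) (p : MvPolynomial (Fin N) K),
      aeval (fun i => algebraMap E Ω (π (fun n => w n i))) p =
        algebraMap E Ω (π (fun n => eval (w n) p)) := by
    intro N w p
    rw [← aeval_germ π hπ w p]
    exact MvPolynomial.aeval_algebraMap_apply Ω (fun i => π (fun n => w n i)) p
  have hzero : ∀ u : ℕ → K, algebraMap E Ω (π u) = 0 ↔ ∀ᶠ n in (𝒰 : Filter ℕ), u n = 0 := by
    intro u
    rw [FaithfulSMul.algebraMap_eq_zero_iff, hπ0]
  set y : ℕ → Fin (ν + 1) → Ω := fun m i => algebraMap E Ω (π (fun n => iter F a (n - m) i)) with hy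
  have hrec : ∀ m i, aeval (y (m + 1)) (F i) = y m i := by
    intro m i
    rw [hy]
    simp only
    rw [hpt (fun n => iter F a (n - (m + 1))) (F i)]
    congr 1
    apply hπeq
    filter_upwards [h𝒰 (eventually_ge_atTop (m + 1))] with n hn
    obtain ⟨k, rfl⟩ := Nat.exists_eq_add_of_le hn
    have e1 : m + 1 + k - m = k + 1 := by omega
    have e2 : m + 1 + k - (m + 1) = k := by omega
    rw [e1, e2, Pool.Agent.Helper36.iter_succ, Pool.Agent.Helper36.step_eq_eval]
  -- a nonzero coordinate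
  obtain ⟨j₀, hj₀⟩ : ∃ j, y 0 j ≠ 0 := by
    by_contra hcon
    push Not at hcon
    have h1 : ∀ᶠ n in (𝒰 : Filter ℕ), ∀ j, iter F a (n - 0) j = 0 := by
      rw [eventually_all]
      intro j
      exact (hzero _).1 (hcon j)
    obtain ⟨n, hn⟩ := h1.exists
    exact ha (n - 0) (funext hn)
  set t : Fin (ν + 1) → Ω := fun j => y 0 j / y 0 j₀ with ht
  have htrel : ∀ i j, ∃ Q : MvPolynomial (Fin 2) K, Q ≠ 0 ∧ aeval ![t i, t j] Q = 0 := by
    intro i j
    obtain ⟨P, k, hP0, hPk, hP⟩ := hcur ![Pi.single i 1, Pi.single j 1, Pi.single j₀ 1]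
    refine ⟨deh K P, deh_ne_zero hPk hP0, ?_⟩
    rw [aeval_deh]
    have h1 : aeval ![y 0 i, y 0 j, y 0 j₀] P = 0 := by
      have h2 := hpt (fun n => pl ![Pi.single i 1, Pi.single j 1, Pi.single j₀ 1] (iter F a n)) P
      have h3 : (fun l => algebraMap E Ω (π (fun n =>
          pl ![Pi.single i 1, Pi.single j 1, Pi.single j₀ 1] (iter F a n) l))) =
          ![y 0 i, y 0 j, y 0 j₀] := by
        funext l
        fin_cases l <;> simp [hy, pl, lin, Pi.single_apply]
      rw [h3] at h2
      rw [h2]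
      exact (hzero _).2 hP
    have h4 : aeval ![y 0 i, y 0 j, y 0 j₀] P = y 0 j₀ ^ k * aeval ![t i, t j, 1] P := by
      rw [← aeval_scale hPk]
      congr 2
      funext l
      fin_cases l
      · simp [ht, mul_div_cancel₀ _ hj₀]
      · simp [ht, mul_div_cancel₀ _ hj₀]
      · simp
    rw [h1] at h4
    have h5 := (mul_eq_zero.1 h4.symm).resolve_left (pow_ne_zero _ hj₀)
    exact h5
  set S := (aeval t : MvPolynomial (Fin (ν + 1)) K →ₐ[K] Ω).range with hS
  have hSt : Algebra.trdeg K S ≤ 1 := trdeg_range_le t htrel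
  set C := Subalgebra.algebraicClosure S Ω with hC
  have hCt : Algebra.trdeg K C ≤ 1 := by
    have h3 : Algebra.trdeg K S + Algebra.trdeg S C = Algebra.trdeg K C := trdeg_add_eq K S
    have h4 : Algebra.trdeg S C = 0 := trdeg_eq_zero
    rw [← h3, h4, add_zero]
    exact hSt
  have hreg : Pool.Agent.Helper65.RP.Regular L d F := by
    refine ⟨fun i => (hF i).totalDegree_le, fun x hx => hnz x fun i => ?_⟩
    have h1 := hx i
    rwa [homogeneousComponent_of_mem ((mem_homogeneousSubmodule _ _).2 (hF i)), if_pos rfl] at h1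
  -- normalised points
  have key : ∀ m, ∃ (l : Ω) (z : Fin (ν + 1) → C), ∀ i, y m i = l * (z i : Ω) := by
    intro m
    suffices h : ∃ (l : Ω) (z : Fin (ν + 1) → C), l ≠ 0 ∧ ∀ i, y m i = l * (z i : Ω) by
      obtain ⟨l, z, -, h⟩ := h
      exact ⟨l, z, h⟩
    induction m with
    | zero =>
      have h1 : ∀ i, t i ∈ C := fun i =>
        isAlgebraic_algebraMap (A := Ω) (⟨t i, ⟨X i, by simp⟩⟩ : S)
      refine ⟨y 0 j₀, fun i => ⟨t i, h1 i⟩, hj₀, fun i => ?_⟩
      change y 0 i = y 0 j₀ * (y 0 i / y 0 j₀)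
      rw [mul_div_cancel₀ _ hj₀]
    | succ m ih =>
      obtain ⟨l, z, hl, hz⟩ := ih
      obtain ⟨μ, hμ⟩ := IsAlgClosed.exists_pow_nat_eq l (by omega : 0 < d)
      have hμ0 : μ ≠ 0 := by
        rintro rfl
        rw [zero_pow (by omega)] at hμ
        exact hl hμ.symm
      set w : Fin (ν + 1) → Ω := fun i => y (m + 1) i / μ with hw
      have hwF : ∀ i, aeval w (F i) = (z i : Ω) := by
        intro i
        have h1 : μ ^ d * aeval w (F i) = l * (z i : Ω) := by
          rw [← hz i, ← hrec m i, ← aeval_scale (hF i)]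
          congr 2
          funext j
          rw [hw]
          exact mul_div_cancel₀ _ hμ0
        rw [hμ] at h1
        exact mul_left_cancel₀ hl h1
      have hcomp : ∀ G : MvPolynomial (Fin (ν + 1)) K,
          algebraMap C Ω (aeval z G) = aeval (fun i => (z i : Ω)) G := by
        intro G
        exact (MvPolynomial.aeval_algebraMap_apply Ω z G).symm
      have hwC : ∀ i, w i ∈ C := by
        intro i
        obtain ⟨R, hR, hR0⟩ := Pool.Agent.Helper12.RP.integral_step hd hreg i
        have hroot : (R.map ((aeval (fun i => (z i : Ω)) : MvPolynomial (Fin (ν + 1)) K →ₐ[K] Ω) :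
            MvPolynomial (Fin (ν + 1)) K →+* Ω)).eval (w i) = 0 := by
          have h1 := congrArg (aeval w) hR0
          rw [map_zero, ← Polynomial.eval₂_id, Polynomial.eval₂_map] at h1
          have h2 := Polynomial.hom_eval₂ R ((RingHom.id _).comp
            ((bind₁ F : MvPolynomial (Fin (ν + 1)) K →ₐ[K] MvPolynomial (Fin (ν + 1)) K) :
            MvPolynomial (Fin (ν + 1)) K →+* MvPolynomial (Fin (ν + 1)) K))
            ((aeval w : MvPolynomial (Fin (ν + 1)) K →ₐ[K] Ω) :
              MvPolynomial (Fin (ν + 1)) K →+* Ω) (X i)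
          have h3 : ((aeval w : MvPolynomial (Fin (ν + 1)) K →ₐ[K] Ω) :
              MvPolynomial (Fin (ν + 1)) K →+* Ω).comp ((RingHom.id _).comp
              ((bind₁ F : MvPolynomial (Fin (ν + 1)) K →ₐ[K] MvPolynomial (Fin (ν + 1)) K) :
              MvPolynomial (Fin (ν + 1)) K →+* MvPolynomial (Fin (ν + 1)) K)) =
              ((aeval (fun i => (z i : Ω)) : MvPolynomial (Fin (ν + 1)) K →ₐ[K] Ω) :
                MvPolynomial (Fin (ν + 1)) K →+* Ω) := by
            apply MvPolynomial.ringHom_ext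
            · intro c
              simp
            · intro j
              simp [hwF j]
          rw [h3] at h2
          rw [Polynomial.eval_map]
          rw [← h1]
          have h4 : ((aeval w : MvPolynomial (Fin (ν + 1)) K →ₐ[K] Ω) :
              MvPolynomial (Fin (ν + 1)) K →+* Ω) (X i) = w i := by simp
          rw [h4] at h2
          exact h2.symm
        have hi : IsIntegral C (w i) := by
          refine ⟨R.map ((aeval z : MvPolynomial (Fin (ν + 1)) K →ₐ[K] C) :
            MvPolynomial (Fin (ν + 1)) K →+* C), hR.map _, ?_⟩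
          rw [Polynomial.eval₂_map]
          rw [Polynomial.eval_map] at hroot
          rw [← hroot]
          have hh : (algebraMap C Ω).comp ((aeval z : MvPolynomial (Fin (ν + 1)) K →ₐ[K] C) :
              MvPolynomial (Fin (ν + 1)) K →+* C) =
              ((aeval (fun i => (z i : Ω)) : MvPolynomial (Fin (ν + 1)) K →ₐ[K] Ω) :
              MvPolynomial (Fin (ν + 1)) K →+* Ω) := RingHom.ext hcomp
          rw [hh, Polynomial.eval₂_eq_eval_map, ← Polynomial.eval₂_eq_eval_map]
        exact IsAlgebraic.restrictScalars S hi.isAlgebraic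
      refine ⟨μ, fun i => ⟨w i, hwC i⟩, hμ0, fun i => ?_⟩
      change y (m + 1) i = μ * (y (m + 1) i / μ)
      rw [mul_div_cancel₀ _ hμ0]
  obtain ⟨l, z, hz⟩ := key m
  set u : Fin 3 → Ω := fun j => aeval (fun i => (z i : Ω)) (f j) with hu
  have huy : ∀ j, aeval (y m) (f j) = l ^ e * u j := by
    intro j
    rw [hu, ← aeval_scale (hf j)]
    congr 2
    funext i
    exact hz i
  have huC : ∀ j, u j ∈ C := by
    intro j
    have h1 : u j = algebraMap C Ω (aeval z (f j)) :=
      MvPolynomial.aeval_algebraMap_apply Ω z (f j)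
    rw [h1]
    exact (aeval z (f j)).2
  -- the relation
  obtain ⟨P, k, hP0, hPk, hP⟩ : ∃ (P : MvPolynomial (Fin 3) K) (k : ℕ), P ≠ 0 ∧
      P.IsHomogeneous k ∧ aeval u P = 0 := by
    by_cases h2 : u 2 = 0
    · exact ⟨X 2, 1, X_ne_zero 2, isHomogeneous_X _ _, by rw [aeval_X, h2]⟩
    · have hc : ∀ j, u j / u 2 ∈ C := by
        intro j
        rw [div_eq_mul_inv]
        exact IsAlgebraic.mul (huC j) (IsAlgebraic.inv (huC 2))
      obtain ⟨Q, hQ, hQ0⟩ := rel_of_trdeg hCt ![(⟨u 0 / u 2, hc 0⟩ : C), ⟨u 1 / u 2, hc 1⟩]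
      refine exists_hom u h2 Q hQ ?_
      have h3 := congrArg (algebraMap C Ω) hQ0
      rw [map_zero, ← MvPolynomial.aeval_algebraMap_apply] at h3
      rw [← h3]
      congr 2
      funext j
      fin_cases j <;> rfl
  refine ⟨P, k, hP0, hPk, ?_⟩
  rw [← hzero, ← hpt (fun n j => eval (iter F a (n - m)) (f j)) P]
  have h5 : (fun j => algebraMap E Ω (π (fun n => eval (iter F a (n - m)) (f j)))) =
      fun j => l ^ e * u j := by
    funext j
    rw [← huy j, hy, ← hpt (fun n => iter F a (n - m)) (f j)]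
  rw [h5, aeval_scale hPk, hP, mul_zero]

end Pool.Agent.Helper72.TH
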