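import Pool.Agent.Helper72.TH.CDefs

/-!
# Project TH, part (2): algebraic points, descent of equations
-/

set_option autoImplicit false

namespace Pool.Agent.Helper72.TH

open MvPolynomial Filter Topology
open Pool.Agent.Helper36 (step iter)
open Pool.Agent.Helper29.TG

variable {ν : ℕ}

/-- A polynomial over `L` as a combination of polynomials over `K`. -/
theorem Desc_expand {K L : Type} [Field K] [Field L] [Algebra K L]
    {G : MvPolynomial (Fin (ν + 1)) L} {e : ℕ} (hG : G.IsHomogeneous e) :
    ∃ (ι : Type) (b : ι → L) (S : Finset ι) (φ : ι → MvPolynomial (Fin (ν + 1)) K),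
      LinearIndependent K b ∧ (∀ i, (φ i).IsHomogeneous e) ∧
      ∀ y : Fin (ν + 1) → L, eval y G = ∑ i ∈ S, b i * aeval y (φ i) := by
  classical
  set b := Module.Basis.ofVectorSpace K L with hb
  refine ⟨_, b, G.support.biUnion fun m => (b.repr (G.coeff m)).support,
    fun i => ∑ m ∈ G.support, monomial m (b.repr (G.coeff m) i), b.linearIndependent,
    fun i => ?_, fun y => ?_⟩
  · refine IsHomogeneous.sum _ _ _ fun m hm => ?_
    refine isHomogeneous_monomial _ ?_
    by_contra h1
    exact mem_support_iff.1 hm (hG.coeff_eq_zero h1)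
  · have h1 : ∀ i, aeval y (∑ m ∈ G.support, monomial m (b.repr (G.coeff m) i)) =
        ∑ m ∈ G.support, algebraMap K L (b.repr (G.coeff m) i) * ∏ j, y j ^ m j := by
      intro i
      rw [map_sum]
      refine Finset.sum_congr rfl fun m _ => ?_
      rw [aeval_monomial, Finsupp.prod_fintype _ _ (fun j => pow_zero _)]
    rw [eval_eq']
    simp only [h1, Finset.mul_sum]
    rw [Finset.sum_comm]
    refine Finset.sum_congr rfl fun m hm => ?_
    have h2 : G.coeff m = ∑ i ∈ G.support.biUnion fun m => (b.repr (G.coeff m)).support,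
        b i * algebraMap K L (b.repr (G.coeff m) i) := by
      conv_lhs => rw [← b.linearCombination_repr (G.coeff m)]
      rw [Finsupp.linearCombination_apply, Finsupp.sum]
      rw [Finset.sum_subset (Finset.subset_biUnion_of_mem
        (fun m => (b.repr (G.coeff m)).support) hm)]
      · refine Finset.sum_congr rfl fun i _ => ?_
        rw [Algebra.smul_def, mul_comm]
      · intro i _ hi
        rw [Finsupp.notMem_support_iff.1 hi, zero_smul]
    conv_lhs => rw [h2]
    rw [Finset.sum_mul]
    refine Finset.sum_congr rfl fun i _ => ?_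
    rw [mul_assoc]

/-- A form over `L` which vanishes at almost all points of a sequence of `K`-points vanishes at
the common zeros of the forms over `K` with this property. -/
theorem van_descend {K L : Type} [Field K] [Field L] [Algebra K L] {𝒰 : Ultrafilter ℕ}
    {x : ℕ → Fin (ν + 1) → K} {p : Fin (ν + 1) → L}
    (hp : ∀ (g : MvPolynomial (Fin (ν + 1)) K) (e : ℕ), g.IsHomogeneous e →
      (∀ᶠ n in (𝒰 : Filter ℕ), eval (x n) g = 0) → aeval p g = 0)
    {G : MvPolynomial (Fin (ν + 1)) L} {e : ℕ} (hG : G.IsHomogeneous e)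
    (hGx : ∀ᶠ n in (𝒰 : Filter ℕ), eval (fun i => algebraMap K L (x n i)) G = 0) :
    eval p G = 0 := by
  obtain ⟨ι, b, S, φ, hb, hφ, hev⟩ := Desc_expand (K := K) hG
  rw [hev]
  refine Finset.sum_eq_zero fun i hi => ?_
  rw [hp (φ i) e (hφ i) ?_, mul_zero]
  refine hGx.mono fun n hn => ?_
  rw [hev] at hn
  have h1 : ∑ i ∈ S, eval (x n) (φ i) • b i = 0 := by
    rw [← hn]
    refine Finset.sum_congr rfl fun j _ => ?_
    have h2 : aeval (fun i => algebraMap K L (x n i)) (φ j) =
        algebraMap K L (aeval (x n) (φ j)) := aeval_algebraMap_apply L (x n) (φ j)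
    have h3 : aeval (x n) (φ j) = eval (x n) (φ j) :=
      congrArg (fun ψ => ψ (φ j)) (coe_aeval_eq_eval (x n))
    rw [h2, h3, Algebra.smul_def, mul_comm]
  exact linearIndependent_iff'.1 hb S (fun i => eval (x n) (φ i)) h1 i hi

/-- If homogeneous polynomials over a number field have a common zero over `ℂ`, they have one over
a number field. -/
theorem exists_algebraic_zero {K : Type} [Field K] [NumberField K] [Algebra K ℂ]
    (T : Set (MvPolynomial (Fin (ν + 1)) K)) (hT : ∀ g ∈ T, ∃ e, g.IsHomogeneous e)
    {p : Fin (ν + 1) → ℂ} (hp : p ≠ 0) (hpT : ∀ g ∈ T, aeval p g = 0) :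
    ∃ (K' : Type) (_ : Field K') (_ : NumberField K') (_ : Algebra K K') (_ : Algebra K' ℂ)
      (_ : IsScalarTower K K' ℂ) (y : Fin (ν + 1) → K'), y ≠ 0 ∧ ∀ g ∈ T, aeval y g = 0 := by
  classical
  have hcl : IsAlgClosed (algebraicClosure K ℂ) :=
    (algebraicClosure.isAlgClosure K ℂ).isAlgClosed
  obtain ⟨z, hz0, hz⟩ : ∃ z : Fin (ν + 1) → algebraicClosure K ℂ, z ≠ 0 ∧
      ∀ g ∈ T, aeval z g = 0 := by
    by_contra hcon
    push Not at hcon
    apply hp
    funext k
    have h2 : (X k : MvPolynomial (Fin (ν + 1)) K) ∈ (Ideal.span T).radical := by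
      rw [← MvPolynomial.vanishingIdeal_zeroLocus_eq_radical (K := algebraicClosure K ℂ)]
      rw [MvPolynomial.mem_vanishingIdeal_iff]
      intro z hz
      rw [MvPolynomial.mem_zeroLocus_iff] at hz
      have : z = 0 := by
        by_contra h0
        obtain ⟨g, hg, hgz⟩ := hcon z h0
        exact hgz (hz g (Ideal.subset_span hg))
      rw [this]
      simp
    obtain ⟨r, hr⟩ := h2
    have h3 : ∀ g ∈ Ideal.span T, aeval p g = 0 := by
      intro g hg
      have h4 : Ideal.span T ≤ RingHom.ker (aeval p : MvPolynomial (Fin (ν + 1)) K →ₐ[K] ℂ) :=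
        Ideal.span_le.2 fun g hg => hpT g hg
      exact h4 hg
    have h5 := h3 _ hr
    rw [map_pow, aeval_X] at h5
    exact eq_zero_of_pow_eq_zero h5
  set z' : Fin (ν + 1) → ℂ := fun i => (z i : ℂ) with hz'
  have hfd : FiniteDimensional K (IntermediateField.adjoin K (Set.range z')) := by
    have : Finite (Set.range z') := Set.finite_range z'
    refine IntermediateField.finiteDimensional_adjoin ?_
    rintro _ ⟨i, rfl⟩
    exact (mem_algebraicClosure_iff.1 (z i).2).isIntegral
  have hnf : NumberField (IntermediateField.adjoin K (Set.range z')) :=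
    NumberField.of_module_finite K _
  refine ⟨IntermediateField.adjoin K (Set.range z'), inferInstance, hnf, inferInstance,
    inferInstance, inferInstance,
    fun i => ⟨z' i, IntermediateField.subset_adjoin K _ ⟨i, rfl⟩⟩, ?_, ?_⟩
  · intro h0
    apply hz0
    funext i
    have h1 := congrArg (fun w : IntermediateField.adjoin K (Set.range z') => (w : ℂ))
      (congrFun h0 i)
    exact Subtype.ext h1
  · intro g hg
    have h1 := hz g hg
    have h2 : aeval z' g = algebraMap (algebraicClosure K ℂ) ℂ (aeval z g) :=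
      aeval_algebraMap_apply ℂ z g
    rw [h1, map_zero] at h2
    have h3 : aeval z' g = algebraMap (IntermediateField.adjoin K (Set.range z')) ℂ
        (aeval (fun i => (⟨z' i, IntermediateField.subset_adjoin K _ ⟨i, rfl⟩⟩ :
          IntermediateField.adjoin K (Set.range z'))) g) :=
      aeval_algebraMap_apply ℂ (fun i => (⟨z' i, IntermediateField.subset_adjoin K _ ⟨i, rfl⟩⟩ :
          IntermediateField.adjoin K (Set.range z'))) g
    rw [h2] at h3
    exact (map_eq_zero (algebraMap (IntermediateField.adjoin K (Set.range z')) ℂ)).1 h3.symm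

end Pool.Agent.Helper72.TH
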