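import Pool.Agent.Helper65.RP.Defs
import Pool.Agent.Helper72.TH.Defs
import Pool.Agent.Helper29.TG.Wedge

/-!
# Project TH, part (2) (curves through points of tame invariant sets): definitions
-/

set_option autoImplicit false

namespace Pool.Agent.Helper72.TH

open MvPolynomial Filter Topology
open Pool.Agent.Helper36 (step iter)
open Pool.Agent.Helper29.TG
open Pool.Agent.Helper65.RP (PD Lev HasOrd GeOrd IsCenter ev van rho)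

variable {ν : ℕ} {K : Type} [Field K]

/-- Along the ultrafilter, the points lie on a curve: any three linear forms satisfy a relation. -/
def OnC (𝒰 : Ultrafilter ℕ) (x : ℕ → Fin (ν + 1) → K) : Prop :=
  ∀ a : Fin 3 → Fin (ν + 1) → K, ∃ (P : MvPolynomial (Fin 3) K) (e : ℕ), P ≠ 0 ∧
    P.IsHomogeneous e ∧ ∀ᶠ n in (𝒰 : Filter ℕ), eval (pl a (x n)) P = 0

/-- The same for forms of any degree. -/
def OnCF (𝒰 : Ultrafilter ℕ) (x : ℕ → Fin (ν + 1) → K) : Prop :=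
  ∀ (e : ℕ) (f : Fin 3 → MvPolynomial (Fin (ν + 1)) K), (∀ j, (f j).IsHomogeneous e) →
    ∃ (P : MvPolynomial (Fin 3) K) (k : ℕ), P ≠ 0 ∧ P.IsHomogeneous k ∧
      ∀ᶠ n in (𝒰 : Filter ℕ), eval (fun j => eval (x n) (f j)) P = 0

/-- The point `y` lies on the closure of the sequence along the ultrafilter. -/
def InCl (𝒰 : Ultrafilter ℕ) (x : ℕ → Fin (ν + 1) → K) (y : Fin (ν + 1) → K) : Prop :=
  ∀ (g : MvPolynomial (Fin (ν + 1)) K) (e : ℕ), g.IsHomogeneous e →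
    (∀ᶠ n in (𝒰 : Filter ℕ), eval (x n) g = 0) → eval y g = 0

/-- Contact data at `y`: two linear forms through `y`, a rational section `u = H / l₁ ^ a =
H' / l₂ ^ a` of degree `-1` of the curve with poles only at `y`, and the inequality of Lojasiewicz
type `(x × y) ^ M ∈ (l₁, l₂)` on the curve. -/
structure Thick (𝒰 : Ultrafilter ℕ) (x : ℕ → Fin (ν + 1) → K) (y : Fin (ν + 1) → K)
    (l₁ l₂ H H' : MvPolynomial (Fin (ν + 1)) K) (a M : ℕ)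
    (A₁ A₂ : Fin (ν + 1) × Fin (ν + 1) → MvPolynomial (Fin (ν + 1)) K) : Prop where
  hl₁ : l₁.IsHomogeneous 1
  hl₂ : l₂.IsHomogeneous 1
  ha : 1 ≤ a
  hM : 1 ≤ M
  hH : H.IsHomogeneous (a - 1)
  hH' : H'.IsHomogeneous (a - 1)
  hA₁ : ∀ q, (A₁ q).IsHomogeneous (M - 1)
  hA₂ : ∀ q, (A₂ q).IsHomogeneous (M - 1)
  l₁_ne : ∀ᶠ n in (𝒰 : Filter ℕ), eval (x n) l₁ ≠ 0
  l₂_ne : ∀ᶠ n in (𝒰 : Filter ℕ), eval (x n) l₂ ≠ 0
  H_ne : ∀ᶠ n in (𝒰 : Filter ℕ), eval (x n) H ≠ 0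
  rel : ∀ᶠ n in (𝒰 : Filter ℕ), eval (x n) H * eval (x n) l₂ ^ a = eval (x n) H' * eval (x n) l₁ ^ a
  loj : ∀ᶠ n in (𝒰 : Filter ℕ), ∀ q, cr (x n) y q ^ M =
    eval (x n) (A₁ q) * eval (x n) l₁ + eval (x n) (A₂ q) * eval (x n) l₂

/-- The growth conditions at the places other than the distinguished one, with denominators. -/
structure Grow2 {Ω : Type} [NormedField Ω] [Algebra K Ω] {Λ : Type} [Fintype Λ]
    (Z : PD K Ω Λ) (γ : ℝ) (g : Λ → ℝ) (𝒰 : Ultrafilter ℕ) (s : ℕ → ℝ) {N : ℕ} (c : ℕ → K)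
    (z : ℕ → Fin N → K) : Prop where
  ne : ∀ᶠ n in (𝒰 : Filter ℕ), c n ≠ 0
  int0 : ∀ᶠ n in (𝒰 : Filter ℕ), c n ∈ Z.O
  int : ∀ᶠ n in (𝒰 : Filter ℕ), ∀ i, c n * z n i ∈ Z.O
  le_c : ∀ ε : ℝ, 0 < ε → ∀ᶠ n in (𝒰 : Filter ℕ),
    ‖algebraMap K Ω (c n)‖ ≤ Real.exp ((γ + ε) * s n)
  le0 : ∀ ε : ℝ, 0 < ε → ∀ᶠ n in (𝒰 : Filter ℕ), ∀ l,
    Z.abv l (c n) ≤ Real.exp ((g l + ε) * s n)
  le : ∀ ε : ℝ, 0 < ε → ∀ᶠ n in (𝒰 : Filter ℕ), ∀ l i,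
    Z.abv l (c n * z n i) ≤ Real.exp ((g l + ε) * s n)

/-- The constant of the height inequalities. -/
noncomputable def bd2 {Ω : Type} [NormedField Ω] [Algebra K Ω] {Λ : Type} [Fintype Λ]
    (Z : PD K Ω Λ) (γ : ℝ) (g : Λ → ℝ) : ℝ := 1 + γ + (∑ l, g l) / Z.n

/-- The sequence of level `m`: `x_j x_{i₀} ^ (d ^ m - 1) / G(x_n)` at `x = x_{n - m}`. -/
noncomputable def zl (F : Fin (ν + 1) → MvPolynomial (Fin (ν + 1)) K) (d : ℕ)
    (a : Fin (ν + 1) → K) (G : MvPolynomial (Fin (ν + 1)) K) (m : ℕ) (i₀ : Fin (ν + 1)) (n : ℕ) :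
    Fin (ν + 1) → K :=
  fun j => iter F a (n - m) j * iter F a (n - m) i₀ ^ (d ^ m - 1) / eval (iter F a n) G

end Pool.Agent.Helper72.TH
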