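import Pool.Agent.Helper72.TH.CDefs
import Pool.Agent.Helper74.RP.Center

/-!
# Project TH, part (2): the limit points of the levels
-/

set_option autoImplicit false

namespace Pool.Agent.Helper72.TH

open MvPolynomial Filter Topology
open Pool.Agent.Helper36 (step iter)
open Pool.Agent.Helper29.TG
open Pool.Agent.Helper65.RP (PD Lev HasOrd GeOrd IsCenter ev van rho)

variable {ν : ℕ} {K Kb Ω : Type} [Field K] [Field Kb] [Algebra K Kb]
  [NormedField Ω] [Algebra K Ω] [Algebra Kb Ω] [IsScalarTower K Kb Ω]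

/-- The coordinates converge to the coordinates of the centre. -/
theorem cent_tendsto {F : Fin (ν + 1) → MvPolynomial (Fin (ν + 1)) K} {d : ℕ}
    {a : Fin (ν + 1) → K} {G : MvPolynomial (Fin (ν + 1)) K} {𝒰 : Ultrafilter ℕ} {s : ℕ → ℝ}
    {m : ℕ} {i₀ : Fin (ν + 1)} (h : Lev Ω 𝒰 s (zl F d a G m i₀) i₀) {q : Fin (ν + 1) → Kb}
    (hq : IsCenter Ω 𝒰 s (zl F d a G m i₀) i₀ q) (i : Fin (ν + 1)) :
    Tendsto (fun n => algebraMap K Ω (iter F a (n - m) i) / algebraMap K Ω (iter F a (n - m) i₀))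
      (𝒰 : Filter ℕ) (𝓝 (algebraMap Kb Ω (q i))) := by
  refine (Pool.Agent.Helper74.RP.center_tendsto h hq i).congr' ?_
  filter_upwards [h.top.1] with n hn
  have hz : zl F d a G m i₀ n i₀ ≠ 0 := fun h0 => hn (by rw [h0, map_zero])
  simp only [zl] at hz ⊢
  have hG : eval (iter F a n) G ≠ 0 := fun h0 => hz (by rw [h0, div_zero])
  have hx : iter F a (n - m) i₀ ≠ 0 := fun h0 => hz (by rw [h0, zero_mul, zero_div])
  have hG' : algebraMap K Ω (eval (iter F a n) G) ≠ 0 := by
    rw [Ne, map_eq_zero_iff _ (algebraMap K Ω).injective]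
    exact hG
  have hx' : algebraMap K Ω (iter F a (n - m) i₀) ≠ 0 := by
    rw [Ne, map_eq_zero_iff _ (algebraMap K Ω).injective]
    exact hx
  have hp : algebraMap K Ω (iter F a (n - m) i₀) ^ (d ^ m - 1) ≠ 0 := pow_ne_zero _ hx'
  rw [map_div₀, map_div₀, map_mul, map_mul, map_pow, div_div_div_cancel_right₀ hG',
    mul_div_mul_right _ _ hp]

/-- `F` maps the limit point of level `m + 1` to the limit point of level `m`. -/
theorem cent_step [IsAlgClosed Kb] {F : Fin (ν + 1) → MvPolynomial (Fin (ν + 1)) K} {d : ℕ}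
    (hF : ∀ i, (F i).IsHomogeneous d)
    (hnz : ∀ x : Fin (ν + 1) → Kb, (∀ i, aeval x (F i) = 0) → x = 0)
    {a : Fin (ν + 1) → K} (ha : ∀ n, iter F a n ≠ 0)
    {𝒰 : Ultrafilter ℕ} (h𝒰 : (𝒰 : Filter ℕ) ≤ atTop) {m : ℕ} {i₀ i₁ : Fin (ν + 1)}
    {q q' : Fin (ν + 1) → Kb} (hq0 : q i₀ = 1) (hq1 : q' i₁ = 1)
    (h : ∀ i, Tendsto (fun n => algebraMap K Ω (iter F a (n - m) i) /
      algebraMap K Ω (iter F a (n - m) i₀)) (𝒰 : Filter ℕ) (𝓝 (algebraMap Kb Ω (q i))))
    (h' : ∀ i, Tendsto (fun n => algebraMap K Ω (iter F a (n - (m + 1)) i) /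
      algebraMap K Ω (iter F a (n - (m + 1)) i₁)) (𝒰 : Filter ℕ)
      (𝓝 (algebraMap Kb Ω (q' i)))) :
    ∃ c : Kb, c ≠ 0 ∧ ∀ i, aeval q' (F i) = c * q i := by
  have hn : ∀ᶠ n in (𝒰 : Filter ℕ), m + 1 ≤ n := h𝒰 (eventually_ge_atTop (m + 1))
  have nz0 : ∀ᶠ n in (𝒰 : Filter ℕ), algebraMap K Ω (iter F a (n - m) i₀) ≠ 0 := by
    have h1 := h i₀
    rw [hq0, map_one] at h1
    filter_upwards [h1.eventually_ne one_ne_zero] with n hn h0
    exact hn (by rw [h0, div_zero])
  have nz1 : ∀ᶠ n in (𝒰 : Filter ℕ), algebraMap K Ω (iter F a (n - (m + 1)) i₁) ≠ 0 := by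
    have h1 := h' i₁
    rw [hq1, map_one] at h1
    filter_upwards [h1.eventually_ne one_ne_zero] with n hn h0
    exact hn (by rw [h0, div_zero])
  have hu : Tendsto (fun n i => algebraMap K Ω (iter F a (n - (m + 1)) i) /
      algebraMap K Ω (iter F a (n - (m + 1)) i₁)) (𝒰 : Filter ℕ)
      (𝓝 (fun i => algebraMap Kb Ω (q' i))) := tendsto_pi_nhds.2 h'
  have hcont : ∀ G : MvPolynomial (Fin (ν + 1)) K, Tendsto (fun n =>
      aeval (fun i => algebraMap K Ω (iter F a (n - (m + 1)) i) /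
        algebraMap K Ω (iter F a (n - (m + 1)) i₁)) G)
      (𝒰 : Filter ℕ) (𝓝 (aeval (fun i => algebraMap Kb Ω (q' i)) G)) := by
    intro G
    have h1 : Continuous fun x : Fin (ν + 1) → Ω => eval x (map (algebraMap K Ω) G) :=
      MvPolynomial.continuous_eval _
    have h2 := (h1.tendsto (fun i => algebraMap Kb Ω (q' i))).comp hu
    simp only [eval_map, Function.comp_def] at h2
    exact h2
  have h1 : ∀ i, Tendsto (fun n => algebraMap K Ω (iter F a (n - m) i) /
      (algebraMap K Ω (iter F a (n - (m + 1)) i₁)) ^ d)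
      (𝒰 : Filter ℕ) (𝓝 (algebraMap Kb Ω (aeval q' (F i)))) := by
    intro i
    have h2 := hcont (F i)
    have h3 : aeval (fun i => algebraMap Kb Ω (q' i)) (F i) = algebraMap Kb Ω (aeval q' (F i)) :=
      MvPolynomial.aeval_algebraMap_apply Ω q' (F i)
    rw [h3] at h2
    refine h2.congr' ?_
    filter_upwards [hn, nz1] with n hn hne
    have e1 : iter F a (n - m) = step F (iter F a (n - (m + 1))) := by
      have h4 : n - m = (n - (m + 1)) + 1 := by omega
      rw [h4, Pool.Agent.Helper36.iter_succ]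
    have e2 : algebraMap K Ω (iter F a (n - m) i) =
        aeval (fun j => algebraMap K Ω (iter F a (n - (m + 1)) j)) (F i) := by
      rw [e1]
      exact (MvPolynomial.aeval_algebraMap_apply Ω (iter F a (n - (m + 1))) (F i)).symm
    have e3 : (fun j => algebraMap K Ω (iter F a (n - (m + 1)) j)) =
        fun j => algebraMap K Ω (iter F a (n - (m + 1)) i₁) *
          (algebraMap K Ω (iter F a (n - (m + 1)) j) /
            algebraMap K Ω (iter F a (n - (m + 1)) i₁)) := by
      funext j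
      rw [mul_div_cancel₀ _ hne]
    rw [e2]
    conv_rhs => rw [e3]
    rw [Pool.Agent.Helper74.RP.aeval_scale (hF i), mul_div_cancel_left₀ _ (pow_ne_zero d hne)]
  have h2 : ∀ i, Tendsto (fun n => algebraMap K Ω (iter F a (n - m) i) /
      (algebraMap K Ω (iter F a (n - (m + 1)) i₁)) ^ d)
      (𝒰 : Filter ℕ) (𝓝 (algebraMap Kb Ω (q i) * algebraMap Kb Ω (aeval q' (F i₀)))) := by
    intro i
    refine ((h i).mul (h1 i₀)).congr' ?_
    filter_upwards [nz0] with n hn
    field_simp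
  have h3 : ∀ i, aeval q' (F i) = aeval q' (F i₀) * q i := by
    intro i
    have h4 := tendsto_nhds_unique (h1 i) (h2 i)
    rw [← map_mul] at h4
    rw [(algebraMap Kb Ω).injective h4, mul_comm]
  refine ⟨aeval q' (F i₀), fun h0 => ?_, h3⟩
  have h5 : q' = 0 := hnz q' fun i => by rw [h3, h0, zero_mul]
  rw [h5] at hq1
  simp at hq1

/-- Closeness to a `K`-point and the limit point. -/
theorem cent_iff {v : AbsoluteValue K ℝ} (hv : ∀ x, ‖algebraMap K Ω x‖ = v x)
    {x : ℕ → Fin (ν + 1) → K} (hx : ∀ n, x n ≠ 0) {𝒰 : Ultrafilter ℕ} {i₀ : Fin (ν + 1)}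
    {q : Fin (ν + 1) → Kb} (hq0 : q i₀ = 1)
    (h : ∀ i, Tendsto (fun n => algebraMap K Ω (x n i) / algebraMap K Ω (x n i₀))
      (𝒰 : Filter ℕ) (𝓝 (algebraMap Kb Ω (q i)))) {y : Fin (ν + 1) → K} (hy : y ≠ 0) :
    (∃ c : Kb, c ≠ 0 ∧ ∀ i, algebraMap K Kb (y i) = c * q i) ↔
      ∀ δ : ℝ, 0 < δ → ∀ᶠ n in (𝒰 : Filter ℕ),
        nm v (cr (x n) y) < δ * (nm v (x n) * nm v y) := by
  have nz0 : ∀ᶠ n in (𝒰 : Filter ℕ), algebraMap K Ω (x n i₀) ≠ 0 := by
    have h1 := h i₀
    rw [hq0, map_one] at h1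
    filter_upwards [h1.eventually_ne one_ne_zero] with n hn h0
    exact hn (by rw [h0, div_zero])
  have hyp : 0 < nm v y := by
    obtain ⟨j, hj⟩ := Function.ne_iff.1 hy
    exact lt_of_lt_of_le (v.pos hj) (le_nm v y j)
  -- the limit of the minors
  have hlim : ∀ p : Fin (ν + 1) × Fin (ν + 1), Tendsto (fun n =>
      algebraMap K Ω (x n p.1) / algebraMap K Ω (x n i₀) * algebraMap K Ω (y p.2) -
        algebraMap K Ω (x n p.2) / algebraMap K Ω (x n i₀) * algebraMap K Ω (y p.1))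
      (𝒰 : Filter ℕ) (𝓝 (algebraMap Kb Ω (q p.1) * algebraMap K Ω (y p.2) -
        algebraMap Kb Ω (q p.2) * algebraMap K Ω (y p.1))) := fun p =>
    ((h p.1).mul_const _).sub ((h p.2).mul_const _)
  have hcr : ∀ n, algebraMap K Ω (x n i₀) ≠ 0 → ∀ p : Fin (ν + 1) × Fin (ν + 1),
      v (cr (x n) y p) = ‖algebraMap K Ω (x n p.1) / algebraMap K Ω (x n i₀) *
          algebraMap K Ω (y p.2) - algebraMap K Ω (x n p.2) / algebraMap K Ω (x n i₀) *
          algebraMap K Ω (y p.1)‖ * v (x n i₀) := by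
    intro n hn p
    rw [← hv, ← hv, ← norm_mul]
    congr 1
    simp only [cr]
    rw [map_sub, map_mul, map_mul]
    field_simp
  constructor
  · rintro ⟨c, -, hc⟩ δ hδ
    have hz : ∀ p : Fin (ν + 1) × Fin (ν + 1), algebraMap Kb Ω (q p.1) * algebraMap K Ω (y p.2) -
        algebraMap Kb Ω (q p.2) * algebraMap K Ω (y p.1) = 0 := by
      intro p
      rw [IsScalarTower.algebraMap_apply K Kb Ω (y p.1), IsScalarTower.algebraMap_apply K Kb Ω
        (y p.2), hc, hc, map_mul, map_mul]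
      ring
    have hsm : ∀ᶠ n in (𝒰 : Filter ℕ), ∀ p : Fin (ν + 1) × Fin (ν + 1),
        ‖algebraMap K Ω (x n p.1) / algebraMap K Ω (x n i₀) * algebraMap K Ω (y p.2) -
          algebraMap K Ω (x n p.2) / algebraMap K Ω (x n i₀) * algebraMap K Ω (y p.1)‖ <
          δ * nm v y := by
      rw [eventually_all]
      intro p
      have h1 := (hlim p).norm
      rw [hz p, norm_zero] at h1
      exact h1.eventually_lt_const (mul_pos hδ hyp)
    filter_upwards [nz0, hsm] with n hn hs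
    obtain ⟨p, hp⟩ := exists_eq_ciSup_of_finite (f := fun p => v (cr (x n) y p))
    have hp' : nm v (cr (x n) y) = v (cr (x n) y p) := hp.symm
    have hx0 : 0 < v (x n i₀) := by
      rw [← hv]
      exact norm_pos_iff.2 hn
    rw [hp', hcr n hn p]
    calc _ < δ * nm v y * v (x n i₀) := mul_lt_mul_of_pos_right (hs p) hx0
      _ ≤ δ * nm v y * nm v (x n) :=
          mul_le_mul_of_nonneg_left (le_nm v (x n) i₀) (mul_pos hδ hyp).le
      _ = δ * (nm v (x n) * nm v y) := by ring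
  · intro hδ
    obtain ⟨C, hC0, hC⟩ : ∃ C : ℝ, 0 < C ∧ ∀ᶠ n in (𝒰 : Filter ℕ), nm v (x n) ≤ C * v (x n i₀) := by
      refine ⟨∑ i, (‖algebraMap Kb Ω (q i)‖ + 1), ?_, ?_⟩
      · exact Finset.sum_pos (fun i _ => by positivity) Finset.univ_nonempty
      have h1 : ∀ᶠ n in (𝒰 : Filter ℕ), ∀ i,
          ‖algebraMap K Ω (x n i) / algebraMap K Ω (x n i₀)‖ < ‖algebraMap Kb Ω (q i)‖ + 1 := by
        rw [eventually_all]
        intro i
        exact (h i).norm.eventually_lt_const (lt_add_one _)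
      filter_upwards [nz0, h1] with n hn h2
      have hx0 : 0 < v (x n i₀) := by
        rw [← hv]
        exact norm_pos_iff.2 hn
      obtain ⟨i, hi⟩ := exists_eq_ciSup_of_finite (f := fun i => v (x n i))
      have hi' : nm v (x n) = v (x n i) := hi.symm
      rw [hi']
      have h3 : v (x n i) = ‖algebraMap K Ω (x n i) / algebraMap K Ω (x n i₀)‖ * v (x n i₀) := by
        rw [← hv, ← hv, ← norm_mul, div_mul_cancel₀ _ hn]
      rw [h3]
      refine mul_le_mul_of_nonneg_right ((h2 i).le.trans ?_) hx0.le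
      exact Finset.single_le_sum (f := fun i => ‖algebraMap Kb Ω (q i)‖ + 1)
        (fun j _ => by positivity) (Finset.mem_univ i)
    have hz : ∀ p : Fin (ν + 1) × Fin (ν + 1), algebraMap Kb Ω (q p.1) * algebraMap K Ω (y p.2) -
        algebraMap Kb Ω (q p.2) * algebraMap K Ω (y p.1) = 0 := by
      intro p
      rw [← norm_eq_zero]
      refine le_antisymm (le_of_forall_pos_le_add fun ε hε => ?_) (norm_nonneg _)
      rw [zero_add]
      refine le_of_tendsto (hlim p).norm ?_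
      have h1 := hδ (ε / (C * nm v y)) (div_pos hε (mul_pos hC0 hyp))
      filter_upwards [nz0, hC, h1] with n hn h2 h3
      have hx0 : 0 < v (x n i₀) := by
        rw [← hv]
        exact norm_pos_iff.2 hn
      have h4 := (hcr n hn p).symm.le.trans ((le_nm v (cr (x n) y) p).trans h3.le)
      have h5 : ε / (C * nm v y) * (nm v (x n) * nm v y) ≤ ε * v (x n i₀) := by
        calc ε / (C * nm v y) * (nm v (x n) * nm v y)
            ≤ ε / (C * nm v y) * (C * v (x n i₀) * nm v y) := by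
              refine mul_le_mul_of_nonneg_left ?_ (div_pos hε (mul_pos hC0 hyp)).le
              exact mul_le_mul_of_nonneg_right h2 hyp.le
          _ = ε * v (x n i₀) := by
              field_simp
      exact le_of_mul_le_mul_right (h4.trans h5) hx0
    have hyi : ∀ i, algebraMap K Kb (y i) = algebraMap K Kb (y i₀) * q i := by
      intro i
      have h1 := hz (i, i₀)
      simp only [hq0, map_one, one_mul] at h1
      rw [IsScalarTower.algebraMap_apply K Kb Ω (y i), IsScalarTower.algebraMap_apply K Kb Ω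
        (y i₀), ← map_mul, sub_eq_zero] at h1
      rw [← (algebraMap Kb Ω).injective h1, mul_comm]
    refine ⟨algebraMap K Kb (y i₀), fun h0 => hy ?_, hyi⟩
    funext i
    have h1 := hyi i
    rw [h0, zero_mul] at h1
    exact (map_eq_zero_iff _ (algebraMap K Kb).injective).1 h1

end Pool.Agent.Helper72.TH
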