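import Pool.Agent.Helper72.TH.Defs
import Pool.Agent.Helper72.PN.BadN

/-!
# Project TH: inclusions of closed sets hold modulo almost all places
-/

set_option autoImplicit false

namespace Pool.Agent.Helper72.TH

open MvPolynomial Height Height.AdmissibleAbsValues
open Pool.Agent.Helper36 (step iter)
open Pool.Agent.Helper29.TG

variable {ν : ℕ} {K : Type} [Field K]

theorem cert_sum_lt {v : AbsoluteValue K ℝ} (hv : IsNonarchimedean v) {ι : Type} (s : Finset ι)
    (f : ι → K) {r : ℝ} (hr : 0 < r) (h : ∀ i ∈ s, v (f i) < r) : v (∑ i ∈ s, f i) < r := by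
  classical
  induction s using Finset.induction_on with
  | empty => simpa using hr
  | insert a s ha ih =>
    rw [Finset.sum_insert ha]
    refine (hv _ _).trans_lt (max_lt (h a (Finset.mem_insert_self a s)) ?_)
    exact ih fun i hi => h i (Finset.mem_insert_of_mem hi)

theorem cert_comp_eq_zero {σ : Type} {e : ℕ} {F : MvPolynomial σ K} (hF : F.IsHomogeneous e)
    (a : MvPolynomial σ K) {N : ℕ} (hN : N < e) : homogeneousComponent N (a * F) = 0 := by
  classical
  conv_lhs => rw [← sum_homogeneousComponent (φ := a), Finset.sum_mul, map_sum]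
  refine Finset.sum_eq_zero fun i _ => ?_
  have h2 : (homogeneousComponent i a * F).IsHomogeneous (i + e) :=
    (homogeneousComponent_isHomogeneous i a).mul hF
  rw [homogeneousComponent_of_mem (h2 : _ ∈ homogeneousSubmodule σ K _), if_neg (by omega)]

/-- If the common zeros of the forms `h i` over an algebraically closed field are zeros of `g`,
then the same holds modulo almost all places. -/
theorem exists_sm [AdmissibleAbsValues K] {L : Type} [Field L] [IsAlgClosed L] [Algebra K L]
    {ι : Type} [Fintype ι] {h : ι → MvPolynomial (Fin (ν + 1)) K} {δ : ι → ℕ}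
    (hh : ∀ i, (h i).IsHomogeneous (δ i)) {g : MvPolynomial (Fin (ν + 1)) K} {e : ℕ}
    (hg : g.IsHomogeneous e)
    (hz : ∀ x : Fin (ν + 1) → L, (∀ i, aeval x (h i) = 0) → aeval x g = 0) :
    ∃ B : Set (AbsoluteValue K ℝ), B.Finite ∧ ∀ v ∈ nonarchAbsVal (K := K), v ∉ B →
      ∀ x : Fin (ν + 1) → K, x ≠ 0 → (∀ i, Sm v (h i) (δ i) x) → Sm v g e x := by
  classical
  have h1 : ∃ r : ℕ, g ^ r ∈ Ideal.span (Set.range h) := by
    have h2 : g ∈ (Ideal.span (Set.range h)).radical := by
      rw [← vanishingIdeal_zeroLocus_eq_radical (K := L), mem_vanishingIdeal_iff]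
      intro x hx
      rw [mem_zeroLocus_iff] at hx
      exact hz x fun i => hx _ (Ideal.subset_span ⟨i, rfl⟩)
    exact h2
  obtain ⟨r, hr⟩ := h1
  have h3 : g ^ (r + 1) ∈ Ideal.span (Set.range h) :=
    Ideal.mem_of_dvd _ (pow_dvd_pow _ (Nat.le_succ r)) hr
  rw [Ideal.mem_span_range_iff_exists_fun] at h3
  obtain ⟨c, hc⟩ := h3
  have hgr : (g ^ (r + 1)).IsHomogeneous (e * (r + 1)) := hg.pow (r + 1)
  let a : ι → MvPolynomial (Fin (ν + 1)) K := fun i =>
    if δ i ≤ e * (r + 1) then homogeneousComponent (e * (r + 1) - δ i) (c i) else 0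
  have ha : ∑ i, a i * h i = g ^ (r + 1) := by
    have h5 := congrArg (homogeneousComponent (e * (r + 1))) hc
    rw [map_sum, homogeneousComponent_eq_self hgr] at h5
    rw [← h5]
    refine Finset.sum_congr rfl fun i _ => ?_
    simp only [a]
    split_ifs with hi
    · have h6 := Pool.Agent.Helper36.homogeneousComponent_mul_of_homogeneous (hh i) (c i)
        (e * (r + 1) - δ i)
      rw [Nat.sub_add_cancel hi] at h6
      exact h6.symm
    · rw [zero_mul]
      exact (cert_comp_eq_zero (hh i) (c i) (not_le.1 hi)).symm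
  let co : MvPolynomial (Fin (ν + 1)) K → Finset K := fun P => P.support.image fun m => P.coeff m
  obtain ⟨B, hBf, hB⟩ := Pool.Agent.Helper72.PN.exists_fin_good (K := K)
    (Finset.univ.biUnion fun i => co (a i))
  refine ⟨B, hBf, fun v hv hvB x hx hsm => ?_⟩
  have hna : IsNonarchimedean v := isNonarchimedean v hv
  have hint : ∀ i m, v ((a i).coeff m) ≤ 1 := by
    intro i m
    by_cases hm : (a i).coeff m = 0
    · rw [hm, map_zero]
      exact zero_le_one
    · rcases hB v hv hvB _ (Finset.mem_biUnion.2 ⟨i, Finset.mem_univ i,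
        Finset.mem_image.2 ⟨m, mem_support_iff.2 hm, rfl⟩⟩) with h | h
      · exact absurd h hm
      · exact h.le
  have hpos : 0 < nm v x := nm_pos v hx
  have hlt : v (eval x (g ^ (r + 1))) < nm v x ^ (e * (r + 1)) := by
    rw [← ha, map_sum]
    refine cert_sum_lt hna _ _ (pow_pos hpos _) fun i _ => ?_
    rw [map_mul, map_mul]
    by_cases hi : δ i ≤ e * (r + 1)
    · have hai : (a i).IsHomogeneous (e * (r + 1) - δ i) := by
        simp only [a]
        rw [if_pos hi]
        exact homogeneousComponent_isHomogeneous _ _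
      have h7 : v (eval x (a i)) ≤ nm v x ^ (e * (r + 1) - δ i) :=
        Pool.Agent.Helper72.PN.KeyN_eval_le hna hai (hint i) x
      have h8 : v (eval x (h i)) < nm v x ^ δ i := hsm i
      calc v (eval x (a i)) * v (eval x (h i))
          ≤ nm v x ^ (e * (r + 1) - δ i) * v (eval x (h i)) :=
            mul_le_mul_of_nonneg_right h7 (v.nonneg _)
        _ < nm v x ^ (e * (r + 1) - δ i) * nm v x ^ δ i :=
            mul_lt_mul_of_pos_left h8 (pow_pos hpos _)
        _ = nm v x ^ (e * (r + 1)) := by rw [← pow_add, Nat.sub_add_cancel hi]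
    · have h9 : a i = 0 := by
        simp only [a]
        rw [if_neg hi]
      rw [h9, map_zero, map_zero, zero_mul]
      exact pow_pos hpos _
  rw [map_pow, map_pow, pow_mul] at hlt
  exact lt_of_pow_lt_pow_left₀ (r + 1) (pow_nonneg hpos.le e) hlt

end Pool.Agent.Helper72.TH
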