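import Pool.Agent.Helper72.TH.Cert

/-!
# Project TH: a chain is a chain modulo almost all places
-/

set_option autoImplicit false

namespace Pool.Agent.Helper72.TH

open MvPolynomial Height Height.AdmissibleAbsValues
open Pool.Agent.Helper36 (step iter)
open Pool.Agent.Helper29.TG

variable {ν : ℕ} {K : Type} [Field K]

/-- Finitely many conditions which hold at almost all places hold together at almost all
places. -/
theorem ChainM_all [AdmissibleAbsValues K] {ι : Type} [Finite ι]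
    {P : ι → AbsoluteValue K ℝ → Prop}
    (h : ∀ i, ∃ B : Set (AbsoluteValue K ℝ), B.Finite ∧
      ∀ v ∈ nonarchAbsVal (K := K), v ∉ B → P i v) :
    ∃ B : Set (AbsoluteValue K ℝ), B.Finite ∧
      ∀ v ∈ nonarchAbsVal (K := K), v ∉ B → ∀ i, P i v := by
  choose B hB h using h
  refine ⟨⋃ i, B i, Set.finite_iUnion hB, fun v hv hvB i => h i v hv fun hi => hvB ?_⟩
  exact Set.mem_iUnion.2 ⟨i, hi⟩

theorem ChainM_eval {F : Fin (ν + 1) → MvPolynomial (Fin (ν + 1)) K}
    (g : MvPolynomial (Fin (ν + 1)) K) (x : Fin (ν + 1) → K) :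
    eval x (aeval F g) = eval (step F x) g := by
  have h1 := congrArg (fun φ => φ (aeval F g)) (coe_aeval_eq_eval x)
  have h2 := congrArg (fun φ => φ g) (coe_aeval_eq_eval (step F x))
  refine h1.symm.trans (Eq.trans ?_ h2)
  exact comp_aeval_apply _ (aeval x) g

theorem ChainM_sm {v : AbsoluteValue K ℝ} {F : Fin (ν + 1) → MvPolynomial (Fin (ν + 1)) K}
    {d : ℕ} (hG : GoodF v F d) {g : MvPolynomial (Fin (ν + 1)) K} {e : ℕ}
    {x : Fin (ν + 1) → K} (h : Sm v (aeval F g) (d * e) x) : Sm v g e (step F x) := by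
  unfold Sm at h ⊢
  rwa [hG.F_nm, ← pow_mul, ← ChainM_eval]

theorem exists_chainV [AdmissibleAbsValues K] {L : Type} [Field L] [IsAlgClosed L] [Algebra K L]
    {F : Fin (ν + 1) → MvPolynomial (Fin (ν + 1)) K} {d : ℕ} (hF : ∀ i, (F i).IsHomogeneous d)
    (hnz : ∀ x : Fin (ν + 1) → L, (∀ i, aeval x (F i) = 0) → x = 0)
    {q : MvPolynomial (Fin (ν + 1)) K} {t : ℕ} (hq : q.IsHomogeneous t) {n : ℕ}
    {W : Fin n → MvPolynomial (Fin (ν + 1)) K} {δ : Fin n → ℕ} {S : ℕ → Finset (Fin n)} {k : ℕ}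
    (h : Chain L F q W δ S k) :
    ∃ B : Set (AbsoluteValue K ℝ), B.Finite ∧ ∀ v ∈ nonarchAbsVal (K := K), v ∉ B →
      GoodF v F d ∧ ChainV v F q t W δ S k := by
  classical
  obtain ⟨B₀, hB₀, h₀⟩ := PN.exists_bad (L := L) hF hnz 0 q 0
  obtain ⟨B₁, hB₁, h₁⟩ := ChainM_all (K := K) (ι := Fin n)
    (P := fun j v => ∀ m, v ((W j).coeff m) ≤ 1) fun j => by
      obtain ⟨B, hB, hg⟩ := PN.exists_fin_good (K := K) ((W j).support.image fun m => (W j).coeff m)
      refine ⟨B, hB, fun v hv hvB m => ?_⟩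
      by_cases hm : (W j).coeff m = 0
      · rw [hm, map_zero]
        exact zero_le_one
      · rcases hg v hv hvB _ (Finset.mem_image.2 ⟨m, mem_support_iff.2 hm, rfl⟩) with h1 | h1
        · exact absurd h1 hm
        · exact h1.le
  obtain ⟨B₂, hB₂, h₂⟩ := ChainM_all (K := K) (ι := Fin k × Fin n)
    (P := fun p v => p.2 ∈ S p.1 → ∀ x : Fin (ν + 1) → K, x ≠ 0 →
      InZ v W δ (S p.1) x → Sm v (aeval F (W p.2)) (d * δ p.2) x) fun p => by
      by_cases hp : p.2 ∈ S p.1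
      · obtain ⟨B, hB, hg⟩ := exists_sm (K := K) (L := L) (ι := {j // j ∈ S p.1})
          (h := fun j => W j) (δ := fun j => δ j) (fun j => h.hom j)
          (g := aeval F (W p.2)) (e := d * δ p.2) ((h.hom p.2).aeval F hF) fun x hx => by
            rw [comp_aeval_apply]
            exact h.inv p.1 p.1.2 x (fun j hj => hx ⟨j, hj⟩) p.2 hp
        exact ⟨B, hB, fun v hv hvB _ x hx hz => hg v hv hvB x hx fun j => hz j j.2⟩
      · exact ⟨∅, Set.finite_empty, fun v _ _ hp' => absurd hp' hp⟩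
  obtain ⟨B₃, hB₃, h₃⟩ := ChainM_all (K := K) (ι := Fin k × Fin n)
    (P := fun p v => p.2 ∈ S (p.1 + 1) → ∀ x : Fin (ν + 1) → K, x ≠ 0 →
      InZ v W δ (S p.1) x → Sm v q t x → Sm v (aeval F (W p.2)) (d * δ p.2) x) fun p => by
      by_cases hp : p.2 ∈ S (p.1 + 1)
      · obtain ⟨B, hB, hg⟩ := exists_sm (K := K) (L := L) (ι := Option {j // j ∈ S p.1})
          (h := fun o => o.elim q fun j => W j) (δ := fun o => o.elim t fun j => δ j)
          (fun o => by
            cases o with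
            | none => exact hq
            | some j => exact h.hom j)
          (g := aeval F (W p.2)) (e := d * δ p.2) ((h.hom p.2).aeval F hF) fun x hx => by
            rw [comp_aeval_apply]
            exact h.down p.1 p.1.2 x (fun j hj => hx (some ⟨j, hj⟩)) (hx none) p.2 hp
        refine ⟨B, hB, fun v hv hvB _ x hx hz hs => hg v hv hvB x hx fun o => ?_⟩
        cases o with
        | none => exact hs
        | some j => exact hz j j.2
      · exact ⟨∅, Set.finite_empty, fun v _ _ hp' => absurd hp' hp⟩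
  obtain ⟨B₄, hB₄, h₄⟩ := ChainM_all (K := K) (ι := Fin (ν + 1))
    (P := fun l v => ∀ x : Fin (ν + 1) → K, x ≠ 0 → InZ v W δ (S k) x →
      Sm v (X l : MvPolynomial (Fin (ν + 1)) K) 1 x) fun l => by
      obtain ⟨B, hB, hg⟩ := exists_sm (K := K) (L := L) (ι := {j // j ∈ S k})
        (h := fun j => W j) (δ := fun j => δ j) (fun j => h.hom j)
        (g := X l) (e := 1) (isHomogeneous_X K l) fun x hx => by
          rw [aeval_X, h.empty x fun j hj => hx ⟨j, hj⟩, Pi.zero_apply]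
      exact ⟨B, hB, fun v hv hvB x hx hz => hg v hv hvB x hx fun j => hz j j.2⟩
  refine ⟨B₀ ∪ (B₁ ∪ (B₂ ∪ (B₃ ∪ B₄))), hB₀.union (hB₁.union (hB₂.union (hB₃.union hB₄))),
    fun v hv hvB => ?_⟩
  simp only [Set.mem_union, not_or] at hvB
  obtain ⟨hv0, hv1, hv2, hv3, hv4⟩ := hvB
  have g₀ := h₀ v hv hv0
  have hG : GoodF v F d := ⟨g₀.na, g₀.F_int, g₀.F_nm⟩
  refine ⟨hG, g₀.q_int, h₁ v hv hv1, fun i hi x hx hz j hj => ?_, fun i hi x hx hz hs j hj => ?_,
    fun x hx hz => ?_⟩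
  · exact ChainM_sm hG (h₂ v hv hv2 (⟨i, hi⟩, j) hj x hx hz)
  · exact ChainM_sm hG (h₃ v hv hv3 (⟨i, hi⟩, j) hj x hx hz hs)
  · obtain ⟨l, -, hl⟩ := exists_nm_eq v hx
    have h5 := h₄ v hv hv4 l x hx hz
    unfold Sm at h5
    rw [eval_X, pow_one, hl] at h5
    exact lt_irrefl _ h5

end Pool.Agent.Helper72.TH
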