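import Pool.Agent.Helper72.TH.Defs

/-!
# Project TH: congruent points
-/

set_option autoImplicit false

namespace Pool.Agent.Helper72.TH

open MvPolynomial Height Height.AdmissibleAbsValues
open Pool.Agent.Helper36 (step iter)
open Pool.Agent.Helper29.TG

variable {ν : ℕ} {K : Type} [Field K] {v : AbsoluteValue K ℝ}

theorem Cong.symm {x y : Fin (ν + 1) → K} (h : Cong v x y) : Cong v y x := by
  unfold Cong at h ⊢
  rw [mul_comm (nm v y)]
  refine lt_of_le_of_lt (nm_le (nm_nonneg v _) fun q => ?_) h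
  have h1 : cr y x q = -cr x y q := by
    simp only [cr]
    ring
  rw [h1, v.map_neg]
  exact le_nm v (cr x y) q

theorem CongL_coord (hv : IsNonarchimedean v) {x y : Fin (ν + 1) → K}
    (hx : x ≠ 0) (hy : y ≠ 0) (h : Cong v x y) {p : Fin (ν + 1)} (hp : v (x p) = nm v x) :
    v (y p) = nm v y := by
  have hX := nm_pos v hx
  have hY := nm_pos v hy
  obtain ⟨i, -, hi'⟩ := exists_nm_eq v hy
  have hi := hi'.symm
  refine le_antisymm (le_nm v y p) ?_
  have h1 : v (x p * y i) = nm v x * nm v y := by rw [map_mul, hp, hi]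
  have h2 := Pool.Agent.Helper72.PN.KeyN_minor v x y p i
  have h3 : v (y p * x i) = v (x p * y i) := by
    have h4 : v (-(x p * y i - y p * x i)) < v (x p * y i) := by
      rw [v.map_neg, h1]
      exact h2.trans_lt h
    have h5 := IsNonarchimedean.add_eq_right_of_lt hv h4
    rw [← h5]
    congr 1
    ring
  rw [h1, map_mul] at h3
  have h6 : nm v x * nm v y ≤ v (y p) * nm v x := by
    rw [← h3]
    exact mul_le_mul_of_nonneg_left (le_nm v x i) (v.nonneg _)
  rw [mul_comm] at h6
  exact le_of_mul_le_mul_right h6 hX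

theorem CongL_diff (hv : IsNonarchimedean v) {g : MvPolynomial (Fin (ν + 1)) K} {e : ℕ}
    (hg : g.IsHomogeneous e) (hi : ∀ m, v (g.coeff m) ≤ 1) {x y : Fin (ν + 1) → K}
    (hx : x ≠ 0) (hy : y ≠ 0) {p : Fin (ν + 1)} (hp : v (x p) = nm v x)
    (hyp : v (y p) = nm v y) :
    v (x p ^ e * eval y g - y p ^ e * eval x g) * (nm v x * nm v y) ≤
      (nm v x * nm v y) ^ e * nm v (cr x y) := by
  have hX := nm_pos v hx
  have hY := nm_pos v hy
  have hdiff := Pool.Agent.Helper72.PN.KeyN_eval_sub hv hg hi (u := x p • y) (w := y p • x)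
    (M := nm v x * nm v y) (δ := nm v (cr x y)) (by positivity)
    (nm_nonneg _ _)
    (fun i => by
      rw [Pi.smul_apply, smul_eq_mul, map_mul, hp]
      exact mul_le_mul_of_nonneg_left (le_nm v y i) hX.le)
    (fun i => by
      rw [Pi.smul_apply, smul_eq_mul, map_mul, hyp, mul_comm]
      exact mul_le_mul_of_nonneg_right (le_nm v x i) hY.le)
    (fun i => Pool.Agent.Helper72.PN.KeyN_minor v x y p i)
  rwa [Pool.Agent.Helper72.PN.KeyN_smul hg, Pool.Agent.Helper72.PN.KeyN_smul hg] at hdiff

theorem Cong.sm (hv : IsNonarchimedean v) {g : MvPolynomial (Fin (ν + 1)) K} {e : ℕ}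
    (hg : g.IsHomogeneous e) (hi : ∀ m, v (g.coeff m) ≤ 1) {x y : Fin (ν + 1) → K}
    (hx : x ≠ 0) (hy : y ≠ 0) (h : Cong v x y) (hs : Sm v g e x) : Sm v g e y := by
  have hX := nm_pos v hx
  have hY := nm_pos v hy
  obtain ⟨p, -, hp'⟩ := exists_nm_eq v hx
  have hp := hp'.symm
  have hyp := CongL_coord hv hx hy h hp
  have hd := CongL_diff hv hg hi hx hy hp hyp
  have hM : 0 < nm v x * nm v y := by positivity
  have h1 : v (x p ^ e * eval y g - y p ^ e * eval x g) < (nm v x * nm v y) ^ e := by
    refine lt_of_mul_lt_mul_right (lt_of_le_of_lt hd ?_) hM.le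
    exact mul_lt_mul_of_pos_left h (by positivity)
  have h2 : v (y p ^ e * eval x g) < (nm v x * nm v y) ^ e := by
    rw [map_mul, map_pow, hyp, mul_pow, mul_comm]
    exact mul_lt_mul_of_pos_right hs (by positivity)
  have h3 : v (x p ^ e * eval y g) < (nm v x * nm v y) ^ e := by
    have h4 : x p ^ e * eval y g =
        (x p ^ e * eval y g - y p ^ e * eval x g) + y p ^ e * eval x g := by ring
    rw [h4]
    exact (hv _ _).trans_lt (max_lt h1 h2)
  rw [map_mul, map_pow, hp, mul_pow] at h3
  exact lt_of_mul_lt_mul_left h3 (by positivity)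

theorem Cong.step {F : Fin (ν + 1) → MvPolynomial (Fin (ν + 1)) K} {d : ℕ}
    (hF : ∀ i, (F i).IsHomogeneous d) (hG : GoodF v F d) {x y : Fin (ν + 1) → K}
    (hx : x ≠ 0) (hy : y ≠ 0) (h : Cong v x y) : Cong v (step F x) (step F y) := by
  have hv := hG.na
  have hX := nm_pos v hx
  have hY := nm_pos v hy
  obtain ⟨p, -, hp'⟩ := exists_nm_eq v hx
  have hp := hp'.symm
  have hyp := CongL_coord hv hx hy h hp
  have hM : 0 < nm v x * nm v y := by positivity
  have hst : ∀ (z : Fin (ν + 1) → K) i, Pool.Agent.Helper36.step F z i = eval z (F i) := by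
    intro z i
    change aeval z (F i) = _
    exact congrArg (fun φ => φ (F i)) (coe_aeval_eq_eval z)
  have hd : ∀ i, v (x p ^ d * Pool.Agent.Helper36.step F y i -
      y p ^ d * Pool.Agent.Helper36.step F x i) * (nm v x * nm v y) ≤
      (nm v x * nm v y) ^ d * nm v (cr x y) := by
    intro i
    rw [hst, hst]
    exact CongL_diff hv (hF i) (hG.F_int i) hx hy hp hyp
  have hw : ∀ i, v (y p ^ d * Pool.Agent.Helper36.step F x i) ≤ (nm v x * nm v y) ^ d := by
    intro i
    rw [map_mul, map_pow, hyp, mul_pow, mul_comm]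
    refine mul_le_mul_of_nonneg_right ?_ (by positivity)
    rw [← hG.F_nm]
    exact le_nm v _ i
  unfold Cong
  rw [hG.F_nm, hG.F_nm, ← mul_pow]
  have hc : nm v (cr (Pool.Agent.Helper36.step F x) (Pool.Agent.Helper36.step F y)) ≤
      (nm v x * nm v y) ^ d * nm v (cr x y) / (nm v x * nm v y) := by
    refine nm_le (div_nonneg (mul_nonneg (pow_nonneg hM.le _) (nm_nonneg v _)) hM.le)
      fun q => ?_
    rw [le_div_iff₀ hM]
    have hMd : 0 < (nm v x * nm v y) ^ d := pow_pos hM d
    refine le_of_mul_le_mul_left ?_ hMd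
    have h1 : (nm v x * nm v y) ^ d *
        (v (cr (Pool.Agent.Helper36.step F x) (Pool.Agent.Helper36.step F y) q) *
          (nm v x * nm v y)) =
        v (y p ^ d * Pool.Agent.Helper36.step F x q.1 *
            (x p ^ d * Pool.Agent.Helper36.step F y q.2 -
              y p ^ d * Pool.Agent.Helper36.step F x q.2) -
          y p ^ d * Pool.Agent.Helper36.step F x q.2 *
            (x p ^ d * Pool.Agent.Helper36.step F y q.1 -
              y p ^ d * Pool.Agent.Helper36.step F x q.1)) * (nm v x * nm v y) := by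
      have h2 : y p ^ d * Pool.Agent.Helper36.step F x q.1 *
            (x p ^ d * Pool.Agent.Helper36.step F y q.2 -
              y p ^ d * Pool.Agent.Helper36.step F x q.2) -
          y p ^ d * Pool.Agent.Helper36.step F x q.2 *
            (x p ^ d * Pool.Agent.Helper36.step F y q.1 -
              y p ^ d * Pool.Agent.Helper36.step F x q.1) =
          (x p ^ d * y p ^ d) *
            cr (Pool.Agent.Helper36.step F x) (Pool.Agent.Helper36.step F y) q := by
        simp only [cr]
        ring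
      rw [h2, map_mul, map_mul, map_pow, map_pow, hp, hyp, mul_pow]
      ring
    rw [h1, sub_eq_add_neg]
    have h3 : ∀ i j, v (y p ^ d * Pool.Agent.Helper36.step F x i *
        (x p ^ d * Pool.Agent.Helper36.step F y j -
          y p ^ d * Pool.Agent.Helper36.step F x j)) * (nm v x * nm v y) ≤
        (nm v x * nm v y) ^ d * ((nm v x * nm v y) ^ d * nm v (cr x y)) := by
      intro i j
      rw [map_mul, mul_assoc]
      exact mul_le_mul (hw i) (hd j) (mul_nonneg (v.nonneg _) hM.le) hMd.le
    refine (mul_le_mul_of_nonneg_right (hv _ _) hM.le).trans ?_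
    rw [max_mul_of_nonneg _ _ hM.le, v.map_neg]
    exact max_le (h3 q.1 q.2) (h3 q.2 q.1)
  refine hc.trans_lt ?_
  rw [div_lt_iff₀ hM]
  exact mul_lt_mul_of_pos_left h (pow_pos hM d)

end Pool.Agent.Helper72.TH
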