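import Pool.Agent.Helper72.TH.CDefs
import Pool.Agent.Helper29.TG.Df

/-!
# Project TH, part (2): the contact with a point of the curve
-/

set_option autoImplicit false

namespace Pool.Agent.Helper72.TH

open MvPolynomial Filter Topology Height Height.AdmissibleAbsValues
open Pool.Agent.Helper36 (step iter)
open Pool.Agent.Helper29.TG

variable {ν : ℕ} {K : Type} [Field K]

/-- If the points are nowhere congruent to `y` outside `B`, then the contact with `y` at the places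
of `B` is a positive part of the height. -/
theorem thick_ineq [AdmissibleAbsValues K] {B : Set (AbsoluteValue K ℝ)} {Λ : Type} [Fintype Λ]
    (abv : Λ → AbsoluteValue K ℝ) (O : Subring K)
    (hO : ∀ x : K, (∀ v ∈ nonarchAbsVal (K := K), v ∉ B → v x ≤ 1) → x ∈ O)
    (hprod : ∀ x ∈ O, x ≠ 0 → 1 ≤ ∏ l, abv l x)
    {𝒰 : Ultrafilter ℕ} {x : ℕ → Fin (ν + 1) → K} {y : Fin (ν + 1) → K}
    {l₁ l₂ H H' : MvPolynomial (Fin (ν + 1)) K} {a M : ℕ}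
    {A₁ A₂ : Fin (ν + 1) × Fin (ν + 1) → MvPolynomial (Fin (ν + 1)) K}
    (hT : Thick 𝒰 x y l₁ l₂ H H' a M A₁ A₂) (hx : ∀ n, x n ≠ 0) (hy : y ≠ 0)
    (hcr : ∀ᶠ n in (𝒰 : Filter ℕ), cr (x n) y ≠ 0)
    (hint : ∀ v ∈ nonarchAbsVal (K := K), v ∉ B → CoeffInt v H ∧ CoeffInt v H' ∧
      ∀ q, CoeffInt v (A₁ q) ∧ CoeffInt v (A₂ q))
    (h1 : ∀ v ∈ nonarchAbsVal (K := K), v ∉ B → ∀ n, nm v (x n) = 1)
    (hy1 : ∀ v ∈ nonarchAbsVal (K := K), v ∉ B → nm v y = 1)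
    (hno : ∀ᶠ n in (𝒰 : Filter ℕ), ∀ v ∈ nonarchAbsVal (K := K), v ∉ B → ¬ Cong v (x n) y) :
    ∃ c C : ℝ, 0 < c ∧ ∀ᶠ n in (𝒰 : Filter ℕ),
      c * ∑ l, Real.log (nm (abv l) (x n)) ≤ ∑ l, ct (abv l) (x n) y + C := by
  sorry

end Pool.Agent.Helper72.TH
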