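import Pool.Agent.Helper72.TH.CDefs
import Pool.Agent.Helper29.TG.Df

/-!
# Project TH, part (2): the contact with a point of the curve, all places
-/

set_option autoImplicit false

namespace Pool.Agent.Helper72.TH

open MvPolynomial Filter Topology Height Height.AdmissibleAbsValues
open Pool.Agent.Helper36 (step iter)
open Pool.Agent.Helper29.TG

variable {ν : ℕ} {K : Type} [Field K]

open Classical in
/-- `|Q(x)| ≤ e^c |x|^D`, with `c = 0` for almost all places. -/
theorem exists_val_le [AdmissibleAbsValues K] {Q : MvPolynomial (Fin (ν + 1)) K} {D : ℕ}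
    (hQ : Q.IsHomogeneous D) : ∃ c : AbsoluteValue K ℝ → ℝ, FS c ∧ (∀ v, Mem v → 0 ≤ c v) ∧
      ∀ v, Mem v → ∀ x : Fin (ν + 1) → K, v (eval x Q) ≤ Real.exp (c v) * nm v x ^ D := by
  obtain ⟨c, hc, hc0, hcle⟩ := exists_log_eval_le hQ
  refine ⟨c, hc, hc0, fun v hv x => ?_⟩
  by_cases h0 : eval x Q = 0
  · rw [h0, map_zero]
    exact mul_nonneg (Real.exp_pos _).le (pow_nonneg (nm_nonneg _ _) _)
  by_cases hx : x = 0
  · subst hx
    rcases Nat.eq_zero_or_pos D with hD | hD
    · subst hD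
      have h1 := hcle v hv 0 h0
      rw [Nat.cast_zero, zero_mul, zero_add] at h1
      rw [pow_zero, mul_one]
      exact (Real.log_le_iff_le_exp (v.pos h0)).1 h1
    · exfalso
      apply h0
      rw [eval_zero, constantCoeff_eq]
      refine hQ.coeff_eq_zero ?_
      simpa using hD.ne
  · have h1 := hcle v hv x h0
    have hn := nm_pos v hx
    rw [← Real.log_pow, Real.log_le_iff_le_exp (v.pos h0), Real.exp_add,
      Real.exp_log (pow_pos hn _)] at h1
    rwa [mul_comm]

open Classical in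
theorem thick_height [AdmissibleAbsValues K]
    {𝒰 : Ultrafilter ℕ} {x : ℕ → Fin (ν + 1) → K} {y : Fin (ν + 1) → K}
    {l₁ l₂ H H' : MvPolynomial (Fin (ν + 1)) K} {a M : ℕ}
    {A₁ A₂ : Fin (ν + 1) × Fin (ν + 1) → MvPolynomial (Fin (ν + 1)) K}
    (hT : Thick 𝒰 x y l₁ l₂ H H' a M A₁ A₂) (hx : ∀ n, x n ≠ 0)
    (hcr : ∀ᶠ n in (𝒰 : Filter ℕ), cr (x n) y ≠ 0) :
    ∃ c C : ℝ, 0 < c ∧ ∀ᶠ n in (𝒰 : Filter ℕ),
      c * logHeight (x n) ≤ ls (fun v => ct v (x n) y) + C := by
  obtain ⟨cH, hcH, hcH0, hcHle⟩ := exists_val_le hT.hH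
  obtain ⟨cH', hcH', hcH'0, hcH'le⟩ := exists_val_le hT.hH'
  choose c₁ hc₁ hc₁0 hc₁le using fun q => exists_val_le (hT.hA₁ q)
  choose c₂ hc₂ hc₂0 hc₂le using fun q => exists_val_le (hT.hA₂ q)
  set cA : AbsoluteValue K ℝ → ℝ := fun v => ∑ q, (c₁ q v + c₂ q v) with hcA
  have hcAF : FS cA := FS.sum _ fun q _ => (hc₁ q).add (hc₂ q)
  have hcA1 : ∀ v, Mem v → ∀ q, c₁ q v ≤ cA v := by
    intro v hv q
    have h1 := Finset.single_le_sum (f := fun q => c₁ q v + c₂ q v)
      (fun q _ => add_nonneg (hc₁0 q v hv) (hc₂0 q v hv)) (Finset.mem_univ q)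
    have h2 := hc₂0 q v hv
    have h3 : cA v = ∑ q, (c₁ q v + c₂ q v) := rfl
    linarith
  have hcA2 : ∀ v, Mem v → ∀ q, c₂ q v ≤ cA v := by
    intro v hv q
    have h1 := Finset.single_le_sum (f := fun q => c₁ q v + c₂ q v)
      (fun q _ => add_nonneg (hc₁0 q v hv) (hc₂0 q v hv)) (Finset.mem_univ q)
    have h2 := hc₁0 q v hv
    have h3 : cA v = ∑ q, (c₁ q v + c₂ q v) := rfl
    linarith
  set c0 : AbsoluteValue K ℝ → ℝ := fun v => if v ∈ nonarchAbsVal (K := K) then 0 else
    Real.log 2 with hc0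
  have hc0F : FS c0 := FS.zero.congr fun v hv => by simp only [hc0, if_pos hv]
  set Cv : AbsoluteValue K ℝ → ℝ := fun v => cH v + cH' v + a * (cA v + c0 v) with hCv
  have hCvF : FS Cv := (hcH.add hcH').add ((hcAF.add hc0F).mul_left (a : ℝ))
  have ha := hT.ha
  have hM := hT.hM
  have hapos : (0 : ℝ) < a := by exact_mod_cast ha
  have hMpos : (0 : ℝ) < M := by exact_mod_cast hM
  refine ⟨1 / (a * M), (ls Cv) / (a * M), by positivity, ?_⟩
  filter_upwards [hT.l₁_ne, hT.l₂_ne, hT.H_ne, hT.rel, hT.loj, hcr] with n hl₁ hl₂ hH hrel hloj hc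
  have hy : y ≠ 0 := right_ne_zero hc
  set u : K := eval (x n) H / eval (x n) l₁ ^ a with hu
  have hu0 : u ≠ 0 := div_ne_zero hH (pow_ne_zero _ hl₁)
  have hu1 : u = eval (x n) H' / eval (x n) l₂ ^ a := by
    rw [hu, div_eq_div_iff (pow_ne_zero _ hl₁) (pow_ne_zero _ hl₂), hrel]
  -- the local estimate
  have hloc : ∀ v, Mem v → Real.log (v u) + Real.log (nm v (x n)) + (a * M : ℝ) *
      Real.log (nm v y) ≤ (a * M : ℝ) * ct v (x n) y + Cv v := by
    intro v hv
    have hnx := nm_pos v (hx n)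
    have hny := nm_pos v hy
    have hnc := nm_pos v hc
    have h1 := v.pos hl₁
    have h2 := v.pos hl₂
    set E : ℝ := max (v (eval (x n) l₁)) (v (eval (x n) l₂)) with hE
    have hE0 : 0 < E := lt_max_of_lt_left h1
    -- `u` and `E`
    have hub : v u * E ^ a ≤ Real.exp (cH v + cH' v) * nm v (x n) ^ (a - 1) := by
      have e1 := hcHle v hv (x n)
      have e2 := hcH'le v hv (x n)
      have e3 := hcH0 v hv
      have e4 := hcH'0 v hv
      have e5 : 0 ≤ nm v (x n) ^ (a - 1) := pow_nonneg hnx.le _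
      rcases le_total (v (eval (x n) l₁)) (v (eval (x n) l₂)) with hle | hle
      · rw [hE, max_eq_right hle, hu1, map_div₀, map_pow, div_mul_cancel₀ _ (pow_pos h2 a).ne']
        refine e2.trans (mul_le_mul_of_nonneg_right (Real.exp_le_exp.2 (by linarith)) e5)
      · rw [hE, max_eq_left hle, hu, map_div₀, map_pow, div_mul_cancel₀ _ (pow_pos h1 a).ne']
        refine e1.trans (mul_le_mul_of_nonneg_right (Real.exp_le_exp.2 (by linarith)) e5)
    -- `cr` and `E`
    have hcb : nm v (cr (x n) y) ^ M ≤ Real.exp (cA v + c0 v) * nm v (x n) ^ (M - 1) * E := by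
      obtain ⟨q, -, hq⟩ := exists_nm_eq v hc
      rw [hq, ← map_pow, hloj q]
      have e1 : v (eval (x n) (A₁ q) * eval (x n) l₁) ≤
          Real.exp (cA v) * nm v (x n) ^ (M - 1) * E := by
        rw [map_mul]
        refine mul_le_mul ((hc₁le q v hv (x n)).trans ?_) (le_max_left _ _) (v.nonneg _)
          (mul_nonneg (Real.exp_pos _).le (pow_nonneg hnx.le _))
        exact mul_le_mul_of_nonneg_right (Real.exp_le_exp.2 (hcA1 v hv q)) (pow_nonneg hnx.le _)
      have e2 : v (eval (x n) (A₂ q) * eval (x n) l₂) ≤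
          Real.exp (cA v) * nm v (x n) ^ (M - 1) * E := by
        rw [map_mul]
        refine mul_le_mul ((hc₂le q v hv (x n)).trans ?_) (le_max_right _ _) (v.nonneg _)
          (mul_nonneg (Real.exp_pos _).le (pow_nonneg hnx.le _))
        exact mul_le_mul_of_nonneg_right (Real.exp_le_exp.2 (hcA2 v hv q)) (pow_nonneg hnx.le _)
      by_cases hna : v ∈ nonarchAbsVal (K := K)
      · have e3 : c0 v = 0 := by simp only [hc0, if_pos hna]
        rw [e3, add_zero]
        exact (isNonarchimedean v hna _ _).trans (max_le e1 e2)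
      · have e3 : c0 v = Real.log 2 := by simp only [hc0, if_neg hna]
        rw [e3, Real.exp_add, Real.exp_log (by norm_num : (0 : ℝ) < 2)]
        refine (v.add_le _ _).trans ?_
        linarith
    -- logarithms
    have g1 := Real.log_le_log (mul_pos (v.pos hu0) (pow_pos hE0 a)) hub
    rw [Real.log_mul (v.pos hu0).ne' (pow_pos hE0 a).ne',
      Real.log_mul (Real.exp_pos _).ne' (pow_pos hnx _).ne', Real.log_exp, Real.log_pow,
      Real.log_pow] at g1
    have g2 := Real.log_le_log (pow_pos hnc M) hcb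
    rw [Real.log_mul (mul_pos (Real.exp_pos _) (pow_pos hnx _)).ne' hE0.ne',
      Real.log_mul (Real.exp_pos _).ne' (pow_pos hnx _).ne', Real.log_exp, Real.log_pow,
      Real.log_pow] at g2
    rw [Nat.cast_sub ha, Nat.cast_one] at g1
    rw [Nat.cast_sub hM, Nat.cast_one] at g2
    have g3 := mul_le_mul_of_nonneg_left g2 hapos.le
    simp only [hCv]
    unfold ct
    nlinarith [g1, g3]
  have hs1 := FS_log hu0
  have hs2 := FS_nm (hx n)
  have hs3 := (FS_nm hy).mul_left (a * M : ℝ)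
  have hs4 := (FS_ct hc).mul_left (a * M : ℝ)
  have hsum := ls_mono ((hs1.add hs2).add hs3) (hs4.add hCvF) hloc
  rw [ls_add (hs1.add hs2) hs3, ls_add hs1 hs2, ls_add hs4 hCvF, ls_log hu0, ls_nm (hx n),
    ls_mul_left, ls_mul_left, ls_nm hy, zero_add] at hsum
  have h10 : 0 ≤ logHeight y := logHeight_nonneg _
  have h11 : (0 : ℝ) < a * M := mul_pos hapos hMpos
  rw [div_mul_eq_mul_div, one_mul, ← sub_nonneg]
  have h12 : ls (fun v => ct v (x n) y) + ls Cv / (a * M) - logHeight (x n) / (a * M) =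
      ((a * M : ℝ) * ls (fun v => ct v (x n) y) + ls Cv - logHeight (x n)) / (a * M) := by
    field_simp
  rw [h12]
  refine div_nonneg ?_ h11.le
  have h13 : 0 ≤ (a * M : ℝ) * logHeight y := mul_nonneg h11.le h10
  linarith

end Pool.Agent.Helper72.TH
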