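import Pool.Agent.Helper72.TH.CDefs
import Pool.Agent.Helper30.ZB.Dim

/-!
# Project TH, part (2): the ideal of a curve swept out by a sequence of points
-/

set_option autoImplicit false

namespace Pool.Agent.Helper72.TH

open MvPolynomial Filter Topology
open Pool.Agent.Helper29.TG
open Pool.Agent.Helper30.ZB (R Hom W Dim_finite)

variable {ν : ℕ} {K : Type} [Field K]

/-- The ideal of all polynomials which vanish at all multiples of `x n`, for almost all `n`. -/
def cvVan (U : Ultrafilter ℕ) (x : ℕ → Fin (ν + 1) → K) : Ideal (MvPolynomial (Fin (ν + 1)) K) where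
  carrier := {G | ∀ᶠ n in (U : Filter ℕ), ∀ c : K, eval (c • x n) G = 0}
  add_mem' := by
    intro a b ha hb
    filter_upwards [ha, hb] with n h1 h2 c
    rw [map_add, h1 c, h2 c, add_zero]
  zero_mem' := Filter.Eventually.of_forall fun n c => map_zero _
  smul_mem' := by
    intro g a ha
    filter_upwards [ha] with n h1 c
    rw [smul_eq_mul, map_mul, h1 c, mul_zero]

theorem cv_smul {μ : ℕ} {P : MvPolynomial (Fin μ) K} {e : ℕ} (hP : P.IsHomogeneous e) (c : K)
    (x : Fin μ → K) : eval (c • x) P = c ^ e * eval x P := by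
  have h := Pool.Agent.Helper36.aeval_smul_homogeneous hP c x
  have h1 := congrArg (fun φ => φ P) (coe_aeval_eq_eval (c • x))
  have h2 := congrArg (fun φ => φ P) (coe_aeval_eq_eval x)
  exact h1.symm.trans (h.trans (congrArg (fun a => c ^ e * a) h2))

/-- Any three linear forms satisfy a homogeneous relation modulo the ideal. -/
def CvRel3 (I : Ideal (MvPolynomial (Fin (ν + 1)) K)) : Prop :=
  ∀ m : Fin 3 → Fin (ν + 1) → K, ∃ (P : MvPolynomial (Fin 3) K) (e : ℕ), P.IsHomogeneous e ∧
    P ≠ 0 ∧ aeval (fun j => ∑ i, C (m j i) * X i : Fin 3 → MvPolynomial (Fin (ν + 1)) K) P ∈ I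

/-- The restriction of the polynomial `G` to the line spanned by `v`. -/
noncomputable def cvLine (v : Fin (ν + 1) → K) (G : MvPolynomial (Fin (ν + 1)) K) :
    Polynomial K :=
  aeval (fun i => Polynomial.C (v i) * Polynomial.X) G

theorem cv_eval_line (v : Fin (ν + 1) → K) (G : MvPolynomial (Fin (ν + 1)) K) (c : K) :
    Polynomial.eval c (cvLine v G) = eval (c • v) G := by
  unfold cvLine
  induction G using MvPolynomial.induction_on with
  | C a => simp
  | add p q hp hq => rw [map_add, Polynomial.eval_add, hp, hq, map_add]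
  | mul_X p i hp =>
    rw [map_mul, Polynomial.eval_mul, hp, aeval_X, map_mul, eval_X, Polynomial.eval_mul,
      Polynomial.eval_C, Polynomial.eval_X, Pi.smul_apply, smul_eq_mul, mul_comm (v i) c]

theorem cv_line_eq_zero [Infinite K] (v : Fin (ν + 1) → K) (G : MvPolynomial (Fin (ν + 1)) K) :
    cvLine v G = 0 ↔ ∀ c : K, eval (c • v) G = 0 := by
  constructor
  · intro h c
    rw [← cv_eval_line, h, Polynomial.eval_zero]
  · intro h
    apply Polynomial.zero_of_eval_zero
    intro c
    rw [cv_eval_line, h]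

theorem cv_line_hom [Infinite K] {v : Fin (ν + 1) → K} {G : MvPolynomial (Fin (ν + 1)) K}
    (h : ∀ c : K, eval (c • v) G = 0) (m : ℕ) : eval v (homogeneousComponent m G) = 0 := by
  set R : Polynomial K := ∑ i ∈ Finset.range (G.totalDegree + 1),
    Polynomial.C (eval v (homogeneousComponent i G)) * Polynomial.X ^ i with hR
  have hR0 : R = 0 := by
    apply Polynomial.zero_of_eval_zero
    intro l
    have h1 := h l
    rw [← sum_homogeneousComponent G, map_sum] at h1
    rw [hR, Polynomial.eval_finsetSum, ← h1]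
    refine Finset.sum_congr rfl fun i _ => ?_
    rw [cv_smul (homogeneousComponent_isHomogeneous i G) l v, Polynomial.eval_mul,
      Polynomial.eval_C, Polynomial.eval_pow, Polynomial.eval_X, mul_comm]
  have hcoef := congrArg (fun p => p.coeff m) hR0
  simp only [hR, Polynomial.finsetSum_coeff, Polynomial.coeff_C_mul_X_pow,
    Polynomial.coeff_zero] at hcoef
  rw [Finset.sum_ite_eq] at hcoef
  split_ifs at hcoef with h2
  · exact hcoef
  · rw [homogeneousComponent_eq_zero, map_zero]
    rw [Finset.mem_range] at h2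
    omega

theorem cv_mem {U : Ultrafilter ℕ} {x : ℕ → Fin (ν + 1) → K}
    {G : MvPolynomial (Fin (ν + 1)) K} :
    G ∈ cvVan U x ↔ ∀ᶠ n in (U : Filter ℕ), ∀ c : K, eval (c • x n) G = 0 := Iff.rfl

theorem cv_form [Infinite K] {U : Ultrafilter ℕ} {x : ℕ → Fin (ν + 1) → K}
    {G : MvPolynomial (Fin (ν + 1)) K} {e : ℕ} (hG : G.IsHomogeneous e) :
    G ∈ cvVan U x ↔ ∀ᶠ n in (U : Filter ℕ), eval (x n) G = 0 := by
  rw [cv_mem]
  constructor
  · intro h
    filter_upwards [h] with n hn
    have h1 := hn 1
    rwa [one_smul] at h1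
  · intro h
    filter_upwards [h] with n hn c
    rw [cv_smul hG c (x n), hn, mul_zero]

theorem cv_hom [Infinite K] {U : Ultrafilter ℕ} {x : ℕ → Fin (ν + 1) → K}
    {G : MvPolynomial (Fin (ν + 1)) K} (hG : G ∈ cvVan U x) (m : ℕ) :
    homogeneousComponent m G ∈ cvVan U x := by
  rw [cv_form (homogeneousComponent_isHomogeneous m G)]
  filter_upwards [cv_mem.1 hG] with n hn
  exact cv_line_hom hn m

theorem cv_prime [Infinite K] {U : Ultrafilter ℕ} {x : ℕ → Fin (ν + 1) → K}
    (hx : ∀ n, x n ≠ 0) : (cvVan U x).IsPrime := by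
  rw [Ideal.isPrime_iff]
  constructor
  · intro h
    have h1 : (1 : MvPolynomial (Fin (ν + 1)) K) ∈ cvVan U x := by
      rw [h]
      exact Submodule.mem_top
    obtain ⟨n, hn⟩ := (cv_mem.1 h1).exists
    have h2 := hn 0
    rw [map_one] at h2
    exact one_ne_zero h2
  · intro G H hGH
    have h1 : ∀ᶠ n in (U : Filter ℕ), (∀ c : K, eval (c • x n) G = 0) ∨
        ∀ c : K, eval (c • x n) H = 0 := by
      filter_upwards [cv_mem.1 hGH] with n hn
      have h2 : cvLine (x n) G * cvLine (x n) H = 0 := by
        unfold cvLine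
        rw [← map_mul]
        exact (cv_line_eq_zero (x n) (G * H)).2 hn
      rcases mul_eq_zero.1 h2 with h3 | h3
      · exact Or.inl ((cv_line_eq_zero _ _).1 h3)
      · exact Or.inr ((cv_line_eq_zero _ _).1 h3)
    exact Ultrafilter.eventually_or.1 h1

theorem cv_rel3 [Infinite K] {U : Ultrafilter ℕ} {x : ℕ → Fin (ν + 1) → K}
    (h : OnC U x) : CvRel3 (cvVan U x) := by
  intro m
  obtain ⟨P, e, hP0, hP, hPv⟩ := h m
  refine ⟨P, e, hP, hP0, ?_⟩
  have hhom : (aeval (fun j => ∑ i, C (m j i) * X i : Fin 3 → MvPolynomial (Fin (ν + 1)) K)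
      P).IsHomogeneous (1 * e) := by
    apply hP.aeval
    intro j
    apply IsHomogeneous.sum
    intro i _
    exact isHomogeneous_C_mul_X _ _
  rw [cv_form hhom]
  filter_upwards [hPv] with n hn
  rw [← hn]
  show _ = eval (fun j => ∑ i, m j i * x n i) P
  have h3 : ∀ Q : MvPolynomial (Fin 3) K, eval (x n) (aeval
      (fun j => ∑ i, C (m j i) * X i : Fin 3 → MvPolynomial (Fin (ν + 1)) K) Q) =
      eval (fun j => ∑ i, m j i * x n i) Q := by
    intro Q
    induction Q using MvPolynomial.induction_on with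
    | C a => simp
    | add p q hp hq => simp only [map_add, hp, hq]
    | mul_X p i hp =>
      rw [map_mul, map_mul, map_mul, hp, aeval_X, eval_X]
      congr 1
      simp
  exact h3 P

theorem cv_on {U : Ultrafilter ℕ} {x : ℕ → Fin (ν + 1) → K} :
    ∀ᶠ n in (U : Filter ℕ), ∀ g ∈ cvVan U x, eval (x n) g = 0 := by
  obtain ⟨s, hs⟩ := (isNoetherianRing_iff_ideal_fg _).1
    (inferInstance : IsNoetherianRing (MvPolynomial (Fin (ν + 1)) K)) (cvVan U x)
  have h1 : ∀ᶠ n in (U : Filter ℕ), ∀ g ∈ s, eval (x n) g = 0 := by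
    rw [Filter.eventually_all_finset]
    intro g hg
    have h2 : g ∈ cvVan U x := by
      rw [← hs]
      exact Ideal.subset_span hg
    filter_upwards [cv_mem.1 h2] with n hn
    have h3 := hn 1
    rwa [one_smul] at h3
  filter_upwards [h1] with n hn G hG
  rw [← hs] at hG
  induction hG using Submodule.span_induction with
  | mem g hg => exact hn g hg
  | zero => rw [map_zero]
  | add a b _ _ ha hb => rw [map_add, ha, hb, add_zero]
  | smul a b _ hb => rw [smul_eq_mul, map_mul, hb, mul_zero]

section

variable {k : Type} [Field k] [Algebra k K]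

/-- The linear form over `K` with constant coefficients `c`. -/
noncomputable def cvLf (K : Type) [Field K] [Algebra k K] (c : Fin (ν + 1) → k) :
    MvPolynomial (Fin (ν + 1)) K :=
  ∑ i, C (algebraMap k K (c i)) * X i

theorem cvLf_add (c : Fin (ν + 1) → k) (i : Fin (ν + 1)) (t : k) :
    cvLf K (c + Pi.single i t) = cvLf K c + C (algebraMap k K t) * X i := by
  classical
  unfold cvLf
  simp only [Pi.add_apply, map_add, add_mul, Finset.sum_add_distrib]
  congr 1
  rw [Finset.sum_eq_single i]
  · simp
  · intro j _ hj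
    simp [Pi.single_eq_of_ne hj]
  · intro h; exact absurd (Finset.mem_univ _) h

/-- A nonzero form in three variables does not vanish at some constant point `(-t₀, -t₁, 1)`. -/
theorem cv_value [Infinite k] {e : ℕ} {P : MvPolynomial (Fin 3) K}
    (hP : P.IsHomogeneous e) (hP0 : P ≠ 0) :
    ∃ t₀ t₁ : k, eval ![-(algebraMap k K t₀), -(algebraMap k K t₁), 1] P ≠ 0 := by
  classical
  by_contra hcon
  push Not at hcon
  have h1 : P * X 2 = 0 := by
    refine funext_set (fun _ => Set.range (algebraMap k K))
      (fun _ => Set.infinite_range_of_injective (algebraMap k K).injective) fun x hx => ?_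
    rw [map_zero, map_mul, eval_X]
    choose y hy using fun j => hx j (Set.mem_univ j)
    rcases eq_or_ne (x 2) 0 with h0 | h0
    · rw [h0, mul_zero]
    · have hy2 : algebraMap k K (y 2) ≠ 0 := by rw [hy 2]; exact h0
      have h2 := hcon (-(y 0 / y 2)) (-(y 1 / y 2))
      have h3 : x = x 2 • ![-(algebraMap k K (-(y 0 / y 2))), -(algebraMap k K (-(y 1 / y 2))),
          1] := by
        funext j
        fin_cases j
        · simp only [Fin.zero_eta, Pi.smul_apply, Matrix.cons_val_zero, smul_eq_mul, map_neg,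
            neg_neg, map_div₀]
          rw [← hy 0, ← hy 2]
          field_simp
        · simp only [Fin.mk_one, Pi.smul_apply, Matrix.cons_val_one, Matrix.cons_val_zero,
            smul_eq_mul, map_neg, neg_neg, map_div₀]
          rw [← hy 1, ← hy 2]
          field_simp
        · simp
      have h4 : eval x P = 0 := by
        rw [h3]
        have h5 := Pool.Agent.Helper36.aeval_smul_homogeneous hP (x 2)
          ![-(algebraMap k K (-(y 0 / y 2))), -(algebraMap k K (-(y 1 / y 2))), 1]
        rw [show eval (x 2 • ![-(algebraMap k K (-(y 0 / y 2))),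
          -(algebraMap k K (-(y 1 / y 2))), 1]) P = aeval (x 2 •
          ![-(algebraMap k K (-(y 0 / y 2))), -(algebraMap k K (-(y 1 / y 2))), 1]) P from
          (congrArg (fun φ => φ P) (coe_aeval_eq_eval _)).symm]
        refine h5.trans ?_
        rw [show aeval ![-(algebraMap k K (-(y 0 / y 2))), -(algebraMap k K (-(y 1 / y 2))), 1] P =
          eval ![-(algebraMap k K (-(y 0 / y 2))), -(algebraMap k K (-(y 1 / y 2))), 1] P from
          congrArg (fun φ => φ P) (coe_aeval_eq_eval _), h2, mul_zero]
      rw [h4, zero_mul]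
  rcases mul_eq_zero.1 h1 with h2 | h2
  · exact hP0 h2
  · exact X_ne_zero _ h2

/-- If any three linear forms satisfy a relation, then two linear forms with coefficients in `k`
generate, together with the ideal, a power of the irrelevant ideal. -/
theorem cv_fin [Infinite k] {I : Ideal (MvPolynomial (Fin (ν + 1)) K)} (h : CvRel3 I) :
    ∃ (a₀ a₁ : Fin (ν + 1) → k) (s : ℕ), ∀ i, (X i ^ s : MvPolynomial (Fin (ν + 1)) K) ∈
      I ⊔ Ideal.span {∑ j, C (algebraMap k K (a₀ j)) * X j, ∑ j, C (algebraMap k K (a₁ j)) * X j} := by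
  classical
  have key : ∀ S : Finset (Fin (ν + 1)), ∃ c₀ c₁ : Fin (ν + 1) → k,
      ∀ i ∈ S, (X i : MvPolynomial (Fin (ν + 1)) K) ∈
        (I ⊔ Ideal.span {cvLf K c₀, cvLf K c₁}).radical := by
    intro S
    induction S using Finset.induction_on with
    | empty => exact ⟨0, 0, by simp⟩
    | insert i S hi ih =>
      obtain ⟨c₀, c₁, hc⟩ := ih
      obtain ⟨P, e, hP, hP0, hPI⟩ := h ![fun j => algebraMap k K (c₀ j),
        fun j => algebraMap k K (c₁ j), Pi.single i 1]
      obtain ⟨t₀, t₁, ht⟩ := cv_value (k := k) hP hP0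
      set c₀' := c₀ + Pi.single i t₀ with hc₀'
      set c₁' := c₁ + Pi.single i t₁ with hc₁'
      set I' := I ⊔ Ideal.span {cvLf K c₀', cvLf K c₁'} with hI'
      have hI : I ≤ I' := le_sup_left
      have hl₀ : cvLf K c₀' ∈ I' := Ideal.mem_sup_right (Ideal.subset_span (Set.mem_insert _ _))
      have hl₁ : cvLf K c₁' ∈ I' := Ideal.mem_sup_right
        (Ideal.subset_span (Set.mem_insert_of_mem _ rfl))
      have hlX₀ : cvLf K c₀ = cvLf K c₀' + C (-(algebraMap k K t₀)) * X i := by
        rw [hc₀', cvLf_add, map_neg]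
        ring
      have hlX₁ : cvLf K c₁ = cvLf K c₁' + C (-(algebraMap k K t₁)) * X i := by
        rw [hc₁', cvLf_add, map_neg]
        ring
      have hX : (X i : MvPolynomial (Fin (ν + 1)) K) ∈ I'.radical := by
        refine ⟨e, ?_⟩
        have h1 : Ideal.Quotient.mk I' (aeval (fun j => ∑ i', C (![fun j => algebraMap k K (c₀ j),
            fun j => algebraMap k K (c₁ j), Pi.single i 1] j i') * X i' :
            Fin 3 → MvPolynomial (Fin (ν + 1)) K) P) = 0 :=
          Ideal.Quotient.eq_zero_iff_mem.2 (hI hPI)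
        have h3 : ∀ p : MvPolynomial (Fin (ν + 1)) K, Ideal.Quotient.mk I' p =
            Ideal.Quotient.mkₐ K I' p := fun _ => rfl
        rw [h3, MvPolynomial.comp_aeval_apply] at h1
        have h4 : (fun j => Ideal.Quotient.mkₐ K I' (∑ i', C (![fun j => algebraMap k K (c₀ j),
            fun j => algebraMap k K (c₁ j), Pi.single i 1] j i') * X i' :
            MvPolynomial (Fin (ν + 1)) K)) = fun j => Ideal.Quotient.mkₐ K I' (X i) *
              algebraMap K _ (![-(algebraMap k K t₀), -(algebraMap k K t₁), (1 : K)] j) := by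
          funext j
          fin_cases j
          · have h5 : Ideal.Quotient.mkₐ K I' (cvLf K c₀) = Ideal.Quotient.mkₐ K I' (X i) *
                algebraMap K _ (-(algebraMap k K t₀)) := by
              rw [hlX₀, map_add, map_mul]
              have h6 : Ideal.Quotient.mkₐ K I' (cvLf K c₀') = 0 :=
                Ideal.Quotient.eq_zero_iff_mem.2 hl₀
              rw [h6, zero_add, mul_comm]
              congr 1
            exact h5
          · have h5 : Ideal.Quotient.mkₐ K I' (cvLf K c₁) = Ideal.Quotient.mkₐ K I' (X i) *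
                algebraMap K _ (-(algebraMap k K t₁)) := by
              rw [hlX₁, map_add, map_mul]
              have h6 : Ideal.Quotient.mkₐ K I' (cvLf K c₁') = 0 :=
                Ideal.Quotient.eq_zero_iff_mem.2 hl₁
              rw [h6, zero_add, mul_comm]
              congr 1
            exact h5
          · have h5 : (∑ i', C ((Pi.single i 1 : Fin (ν + 1) → K) i') * X i' :
                MvPolynomial (Fin (ν + 1)) K) = X i := by
              rw [Finset.sum_eq_single i]
              · simp
              · intro j _ hj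
                simp [Pi.single_eq_of_ne hj]
              · intro h; exact absurd (Finset.mem_univ _) h
            change Ideal.Quotient.mkₐ K I' (∑ i', C ((Pi.single i 1 : Fin (ν + 1) → K) i') * X i') =
              Ideal.Quotient.mkₐ K I' (X i) * algebraMap K _ (1 : K)
            rw [h5, map_one, mul_one]
        rw [h4, Pool.Agent.Helper36.aeval_smul_homogeneous hP] at h1
        have h5 : aeval (fun j => algebraMap K (MvPolynomial (Fin (ν + 1)) K ⧸ I')
            (![-(algebraMap k K t₀), -(algebraMap k K t₁), (1 : K)] j)) P =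
            algebraMap K _ (eval ![-(algebraMap k K t₀), -(algebraMap k K t₁), 1] P) := by
          have h6 := aeval_algebraMap_apply (B := MvPolynomial (Fin (ν + 1)) K ⧸ I')
            (![-(algebraMap k K t₀), -(algebraMap k K t₁), (1 : K)]) P
          refine Eq.trans h6 ?_
          exact congrArg _ (congrArg (fun φ => φ P) (coe_aeval_eq_eval _))
        rw [h5] at h1
        have h6 : Ideal.Quotient.mkₐ K I' (X i) ^ e = 0 := by
          have h7 := congrArg (fun w => w * algebraMap K (MvPolynomial (Fin (ν + 1)) K ⧸ I')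
            (eval ![-(algebraMap k K t₀), -(algebraMap k K t₁), 1] P)⁻¹) h1
          simp only [zero_mul] at h7
          rwa [mul_assoc, ← map_mul, mul_inv_cancel₀ ht, map_one, mul_one] at h7
        rw [← map_pow] at h6
        exact Ideal.Quotient.eq_zero_iff_mem.1 h6
      have hlr₀ : cvLf K c₀ ∈ I'.radical := by
        rw [hlX₀]
        exact I'.radical.add_mem (Ideal.le_radical hl₀) (I'.radical.mul_mem_left _ hX)
      have hlr₁ : cvLf K c₁ ∈ I'.radical := by
        rw [hlX₁]
        exact I'.radical.add_mem (Ideal.le_radical hl₁) (I'.radical.mul_mem_left _ hX)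
      refine ⟨c₀', c₁', fun j hj => ?_⟩
      rw [Finset.mem_insert] at hj
      rcases hj with rfl | hj
      · exact hX
      · have h1 : I ⊔ Ideal.span {cvLf K c₀, cvLf K c₁} ≤ I'.radical := by
          refine sup_le (hI.trans Ideal.le_radical) ?_
          rw [Ideal.span_le]
          rintro w (rfl | rfl)
          · exact hlr₀
          · exact hlr₁
        have h2 := Ideal.radical_mono h1 (hc j hj)
        rwa [Ideal.radical_idem] at h2
  obtain ⟨c₀, c₁, hc⟩ := key Finset.univ
  choose n hn using fun i => hc i (Finset.mem_univ i)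
  refine ⟨c₀, c₁, ∑ i, n i, fun i => ?_⟩
  have h1 : n i ≤ ∑ i, n i := Finset.single_le_sum (fun _ _ => Nat.zero_le _) (Finset.mem_univ i)
  obtain ⟨r, hr⟩ := Nat.exists_eq_add_of_le h1
  rw [hr, pow_add]
  exact Ideal.mul_mem_right _ _ (hn i)

end

/-- The monomial `m` times powers of two forms, of total degree `n`. -/
noncomputable def cvGen (l₀ l₁ : MvPolynomial (Fin (ν + 1)) K) (n a : ℕ) (m : Fin (ν + 1) →₀ ℕ) :
    MvPolynomial (Fin (ν + 1)) K :=
  l₀ ^ a * l₁ ^ (n - m.degree - a) * monomial m 1

/-- The index set of the generators. -/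
def cvIdx (ν S n : ℕ) : Set (ℕ × (Fin (ν + 1) →₀ ℕ)) :=
  {p | p.2.degree < S ∧ p.1 + p.2.degree ≤ n}

theorem cv_large {m : Fin (ν + 1) →₀ ℕ} {s : ℕ} (h : s * (ν + 1) ≤ m.degree) :
    ∃ i, s ≤ m i := by
  by_contra hcon
  push Not at hcon
  have h1 : m.degree < s * (ν + 1) := by
    rw [Finsupp.degree_eq_sum]
    calc ∑ i, m i < ∑ _i : Fin (ν + 1), s :=
          Finset.sum_lt_sum_of_nonempty ⟨0, Finset.mem_univ _⟩ fun i _ => hcon i
      _ = s * (ν + 1) := by simp [mul_comm]
  omega

theorem cv_degree_eq {G : MvPolynomial (Fin (ν + 1)) K} {n : ℕ} (hG : G.IsHomogeneous n)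
    {m : Fin (ν + 1) →₀ ℕ} (hm : m ∈ G.support) : m.degree = n := by
  rw [Finsupp.degree_eq_weight_one]
  exact hG (mem_support_iff.1 hm)

theorem cv_mem_sup {I : Ideal (MvPolynomial (Fin (ν + 1)) K)}
    {l₀ l₁ : MvPolynomial (Fin (ν + 1)) K} {s : ℕ}
    (h : ∀ i, (X i ^ s : MvPolynomial (Fin (ν + 1)) K) ∈ I ⊔ Ideal.span {l₀, l₁}) {n : ℕ}
    (hn : s * (ν + 1) ≤ n) {G : MvPolynomial (Fin (ν + 1)) K} (hG : G.IsHomogeneous n) :
    G ∈ I ⊔ Ideal.span {l₀, l₁} := by
  classical
  rw [G.as_sum]
  refine Ideal.sum_mem _ fun m hm => ?_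
  have hdeg : m.degree = n := cv_degree_eq hG hm
  obtain ⟨i, hi⟩ := cv_large (m := m) (s := s) (by omega)
  have h1 : monomial m (G.coeff m) =
      (X i ^ s : MvPolynomial (Fin (ν + 1)) K) *
        monomial (m - Finsupp.single i s) (G.coeff m) := by
    rw [X_pow_eq_monomial, monomial_mul, one_mul]
    congr 1
    rw [add_tsub_cancel_of_le]
    rw [Finsupp.single_le_iff]
    exact hi
  rw [h1]
  exact Ideal.mul_mem_right _ _ (h i)

theorem cv_span {I : Ideal (MvPolynomial (Fin (ν + 1)) K)} (hI : Hom I)
    {l₀ l₁ : MvPolynomial (Fin (ν + 1)) K} (h₀ : l₀.IsHomogeneous 1) (h₁ : l₁.IsHomogeneous 1)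
    {s : ℕ} (h : ∀ i, (X i ^ s : MvPolynomial (Fin (ν + 1)) K) ∈ I ⊔ Ideal.span {l₀, l₁}) (n : ℕ) :
    ∀ G : MvPolynomial (Fin (ν + 1)) K, G.IsHomogeneous n →
      ∃ G' ∈ Submodule.span K ((fun p => cvGen l₀ l₁ n p.1 p.2) '' cvIdx ν (s * (ν + 1)) n),
        G - G' ∈ I := by
  classical
  induction n with
  | zero =>
    intro G hG
    by_cases hs : s * (ν + 1) = 0
    · have h1 := cv_mem_sup h (by omega) hG
      obtain ⟨ι, hι, y, hy, hxy⟩ := Submodule.mem_sup.1 h1
      obtain ⟨A, B, hAB⟩ := Ideal.mem_span_pair.1 hy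
      refine ⟨0, Submodule.zero_mem _, ?_⟩
      have h2 : G = homogeneousComponent 0 ι := by
        have h3 : homogeneousComponent 0 G = G := by
          rw [homogeneousComponent_of_mem hG, if_pos rfl]
        have h4 : homogeneousComponent 0 y = 0 := by
          rw [← hAB, homogeneousComponent_zero, coeff_add]
          have h5 : ∀ (A l : MvPolynomial (Fin (ν + 1)) K), l.IsHomogeneous 1 →
              coeff 0 (A * l) = 0 := by
            intro A l hl
            have h6 : coeff 0 l = 0 := by
              by_contra hne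
              have := hl hne
              simp at this
            have h7 : constantCoeff (A * l) = constantCoeff A * constantCoeff l := map_mul _ _ _
            have h8 : constantCoeff l = 0 := h6
            rw [h8, mul_zero] at h7
            exact h7
          rw [h5 A l₀ h₀, h5 B l₁ h₁, add_zero, C_0]
        conv_lhs => rw [← h3, ← hxy, map_add, h4, add_zero]
      rw [sub_zero, h2]
      exact hI _ hι 0
    · refine ⟨G, ?_, by rw [sub_self]; exact I.zero_mem⟩
      have h1 : G = C (coeff 0 G) := by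
        have h3 : homogeneousComponent 0 G = G := by
          rw [homogeneousComponent_of_mem hG, if_pos rfl]
        rw [homogeneousComponent_zero] at h3
        exact h3.symm
      have h2 : G = (coeff 0 G) • cvGen l₀ l₁ 0 0 0 := by
        conv_lhs => rw [h1]
        unfold cvGen
        simp [smul_eq_C_mul]
      rw [h2]
      refine Submodule.smul_mem _ _ (Submodule.subset_span ⟨(0, 0), ?_, rfl⟩)
      refine ⟨?_, ?_⟩
      · simp only [map_zero]
        omega
      · simp
  | succ n ih =>
    intro G hG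
    by_cases hs : s * (ν + 1) ≤ n + 1
    · have h1 := cv_mem_sup h hs hG
      obtain ⟨ι, hι, y, hy, hxy⟩ := Submodule.mem_sup.1 h1
      obtain ⟨A, B, hAB⟩ := Ideal.mem_span_pair.1 hy
      have h3 : homogeneousComponent (n + 1) G = G := by
        rw [homogeneousComponent_of_mem hG, if_pos rfl]
      have h4 : ∀ (A l : MvPolynomial (Fin (ν + 1)) K), l.IsHomogeneous 1 →
          homogeneousComponent (n + 1) (A * l) = homogeneousComponent n A * l := by
        intro A l hl
        rw [mul_comm]
        have h9 : ∀ j, homogeneousComponent (n + 1) (l * homogeneousComponent j A) =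
            if j = n then l * homogeneousComponent n A else 0 := by
          intro j
          have h10 : (l * homogeneousComponent j A).IsHomogeneous (1 + j) :=
            hl.mul (homogeneousComponent_isHomogeneous j A)
          rw [homogeneousComponent_of_mem h10]
          by_cases hj : j = n
          · subst hj
            rw [if_pos (by omega), if_pos rfl]
          · rw [if_neg (by omega), if_neg hj]
        conv_lhs => rw [← sum_homogeneousComponent A, Finset.mul_sum, map_sum]
        rw [Finset.sum_congr rfl fun j _ => h9 j, Finset.sum_ite_eq', mul_comm]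
        split_ifs with hn
        · rfl
        · rw [homogeneousComponent_eq_zero, zero_mul]
          rw [Finset.mem_range] at hn
          omega
      have h5 : G = homogeneousComponent (n + 1) ι + (homogeneousComponent n A * l₀ +
          homogeneousComponent n B * l₁) := by
        conv_lhs => rw [← h3, ← hxy, map_add, ← hAB, map_add, h4 A l₀ h₀, h4 B l₁ h₁]
      obtain ⟨A', hA', hA''⟩ := ih _ (homogeneousComponent_isHomogeneous n A)
      obtain ⟨B', hB', hB''⟩ := ih _ (homogeneousComponent_isHomogeneous n B)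
      refine ⟨A' * l₀ + B' * l₁, ?_, ?_⟩
      · refine Submodule.add_mem _ ?_ ?_
        · refine Submodule.span_induction (p := fun x _ => x * l₀ ∈ _) ?_ ?_ ?_ ?_ hA'
          · rintro _ ⟨p, hp, rfl⟩
            refine Submodule.subset_span ⟨(p.1 + 1, p.2), ⟨hp.1, ?_⟩, ?_⟩
            · have := hp.2
              simp only
              omega
            · unfold cvGen
              have := hp.2
              simp only
              rw [show n + 1 - p.2.degree - (p.1 + 1) = n - p.2.degree - p.1 by omega]
              ring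
          · rw [zero_mul]; exact Submodule.zero_mem _
          · intro x y _ _ hx hy
            rw [add_mul]; exact Submodule.add_mem _ hx hy
          · intro a x _ hx
            rw [smul_mul_assoc]; exact Submodule.smul_mem _ _ hx
        · refine Submodule.span_induction (p := fun x _ => x * l₁ ∈ _) ?_ ?_ ?_ ?_ hB'
          · rintro _ ⟨p, hp, rfl⟩
            refine Submodule.subset_span ⟨(p.1, p.2), ⟨hp.1, ?_⟩, ?_⟩
            · have := hp.2
              simp only
              omega
            · unfold cvGen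
              have := hp.2
              simp only
              rw [show n + 1 - p.2.degree - p.1 = n - p.2.degree - p.1 + 1 by omega]
              ring
          · rw [zero_mul]; exact Submodule.zero_mem _
          · intro x y _ _ hx hy
            rw [add_mul]; exact Submodule.add_mem _ hx hy
          · intro a x _ hx
            rw [smul_mul_assoc]; exact Submodule.smul_mem _ _ hx
      · rw [h5]
        have h6 : homogeneousComponent (n + 1) ι + (homogeneousComponent n A * l₀ +
            homogeneousComponent n B * l₁) - (A' * l₀ + B' * l₁) =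
            homogeneousComponent (n + 1) ι + ((homogeneousComponent n A - A') * l₀ +
              (homogeneousComponent n B - B') * l₁) := by ring
        rw [h6]
        exact I.add_mem (hI _ hι _) (I.add_mem (I.mul_mem_right _ hA'') (I.mul_mem_right _ hB''))
    · refine ⟨G, ?_, by rw [sub_self]; exact I.zero_mem⟩
      rw [G.as_sum]
      refine Submodule.sum_mem _ fun m hm => ?_
      have hdeg : m.degree = n + 1 := cv_degree_eq hG hm
      have h2 : monomial m (G.coeff m) = (G.coeff m) • cvGen l₀ l₁ (n + 1) 0 m := by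
        unfold cvGen
        rw [hdeg]
        simp [smul_monomial]
      rw [h2]
      refine Submodule.smul_mem _ _ (Submodule.subset_span ⟨(0, m), ⟨?_, ?_⟩, rfl⟩)
      · simp only
        omega
      · simp only
        omega

/-- The dimensions of the spaces of forms on a curve are bounded by a linear function. -/
theorem cv_hilb {I : Ideal (MvPolynomial (Fin (ν + 1)) K)} (hI : Hom I)
    (hfin : ∃ (l₀ l₁ : Fin (ν + 1) → K) (s : ℕ), ∀ i,
      (X i ^ s : MvPolynomial (Fin (ν + 1)) K) ∈
        I ⊔ Ideal.span {∑ j, C (l₀ j) * X j, ∑ j, C (l₁ j) * X j}) :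
    ∃ R₀ : ℕ, ∀ n, R I n ≤ R₀ * n + R₀ := by
  classical
  obtain ⟨a₀, a₁, s, hs⟩ := hfin
  set l₀ : MvPolynomial (Fin (ν + 1)) K := ∑ j, C (a₀ j) * X j with hl₀
  set l₁ : MvPolynomial (Fin (ν + 1)) K := ∑ j, C (a₁ j) * X j with hl₁
  have hlin : ∀ a : Fin (ν + 1) → K,
      (∑ j, C (a j) * X j : MvPolynomial (Fin (ν + 1)) K).IsHomogeneous 1 := by
    intro a
    refine IsHomogeneous.sum _ _ _ fun j _ => ?_
    have := (isHomogeneous_C (Fin (ν + 1)) (a j)).mul (isHomogeneous_X K j)
    simpa using this
  set S := s * (ν + 1) with hS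
  have hfin : {m : Fin (ν + 1) →₀ ℕ | m.degree < S}.Finite := by
    refine (Set.finite_Iic (Finsupp.equivFunOnFinite.symm fun _ => S)).subset fun m hm => ?_
    rw [Set.mem_Iic]
    intro i
    have h1 : m i ≤ m.degree := Finsupp.le_degree i m
    have h2 : m.degree < S := hm
    have h3 : (Finsupp.equivFunOnFinite.symm fun _ : Fin (ν + 1) => S) i = S := rfl
    rw [h3]
    omega
  refine ⟨hfin.toFinset.card, fun n => ?_⟩
  have hidx : (cvIdx ν S n).Finite := by
    refine ((Set.finite_Iic n).prod hfin).subset fun p hp => ?_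
    refine ⟨?_, hp.1⟩
    have := hp.2
    rw [Set.mem_Iic]
    omega
  have hcard : hidx.toFinset.card ≤ (n + 1) * hfin.toFinset.card := by
    have h1 : hidx.toFinset ⊆ Finset.range (n + 1) ×ˢ hfin.toFinset := by
      intro p hp
      rw [Set.Finite.mem_toFinset] at hp
      rw [Finset.mem_product, Set.Finite.mem_toFinset, Finset.mem_range]
      have := hp.2
      exact ⟨by omega, hp.1⟩
    have h2 := Finset.card_le_card h1
    rwa [Finset.card_product, Finset.card_range] at h2
  have h1 : W I n ≤ Submodule.span K (((fun p : ℕ × (Fin (ν + 1) →₀ ℕ) =>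
      Ideal.Quotient.mk I (cvGen l₀ l₁ n p.1 p.2)) '' cvIdx ν S n)) := by
    rintro _ ⟨G, hG, rfl⟩
    obtain ⟨G', hG', hGG'⟩ := cv_span hI (hlin a₀) (hlin a₁) hs n G hG
    have h2 : (Ideal.Quotient.mkₐ K I).toLinearMap G = Ideal.Quotient.mk I G' := by
      show Ideal.Quotient.mk I G = _
      rw [Ideal.Quotient.eq]
      exact hGG'
    rw [h2]
    have h3 := Submodule.mem_map_of_mem (f := (Ideal.Quotient.mkₐ K I).toLinearMap) hG'
    rw [Submodule.map_span, Set.image_image] at h3
    exact h3
  have hf2 := hidx.image (fun p : ℕ × (Fin (ν + 1) →₀ ℕ) =>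
      Ideal.Quotient.mk I (cvGen l₀ l₁ n p.1 p.2))
  have h2 : R I n ≤ Module.finrank K (Submodule.span K (((fun p : ℕ × (Fin (ν + 1) →₀ ℕ) =>
      Ideal.Quotient.mk I (cvGen l₀ l₁ n p.1 p.2)) '' cvIdx ν S n))) := by
    have : FiniteDimensional K (Submodule.span K (((fun p : ℕ × (Fin (ν + 1) →₀ ℕ) =>
      Ideal.Quotient.mk I (cvGen l₀ l₁ n p.1 p.2)) '' cvIdx ν S n))) :=
      FiniteDimensional.span_of_finite K hf2
    exact Submodule.finrank_mono h1
  refine h2.trans ?_
  letI : Fintype (((fun p : ℕ × (Fin (ν + 1) →₀ ℕ) =>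
      Ideal.Quotient.mk I (cvGen l₀ l₁ n p.1 p.2)) '' cvIdx ν S n)) := hf2.fintype
  have h4 := finrank_span_le_card (R := K) (((fun p : ℕ × (Fin (ν + 1) →₀ ℕ) =>
      Ideal.Quotient.mk I (cvGen l₀ l₁ n p.1 p.2)) '' cvIdx ν S n))
  refine h4.trans ?_
  have h5 : (((fun p : ℕ × (Fin (ν + 1) →₀ ℕ) =>
      Ideal.Quotient.mk I (cvGen l₀ l₁ n p.1 p.2)) '' cvIdx ν S n)).toFinset ⊆
      hidx.toFinset.image (fun p : ℕ × (Fin (ν + 1) →₀ ℕ) =>
      Ideal.Quotient.mk I (cvGen l₀ l₁ n p.1 p.2)) := by
    intro x hx
    rw [Set.mem_toFinset] at hx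
    obtain ⟨p, hp, rfl⟩ := hx
    exact Finset.mem_image.2 ⟨p, hidx.mem_toFinset.2 hp, rfl⟩
  calc _ ≤ _ := Finset.card_le_card h5
    _ ≤ hidx.toFinset.card := Finset.card_image_le
    _ ≤ (n + 1) * hfin.toFinset.card := hcard
    _ = _ := by ring

/-- The vanishing ideal of a sequence of points along an ultrafilter; on a curve the dimensions of
the spaces of forms are bounded by a linear function. -/
theorem exists_ideal [Infinite K] {𝒰 : Ultrafilter ℕ} {x : ℕ → Fin (ν + 1) → K}
    (hx : ∀ n, x n ≠ 0) (h : OnC 𝒰 x) :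
    ∃ J : Ideal (MvPolynomial (Fin (ν + 1)) K), J.IsPrime ∧ Hom J ∧
      (∃ δ c₀ : ℕ, ∀ m, R J m ≤ δ * m + c₀) ∧
      (∀ g e, g.IsHomogeneous e → (g ∈ J ↔ ∀ᶠ n in (𝒰 : Filter ℕ), eval (x n) g = 0)) ∧
      ∀ᶠ n in (𝒰 : Filter ℕ), ∀ g ∈ J, eval (x n) g = 0 := by
  have hH : Hom (cvVan 𝒰 x) := fun g hg m => cv_hom hg m
  obtain ⟨a₀, a₁, s, hs⟩ := cv_fin (k := K) (cv_rel3 h)
  obtain ⟨R₀, hR⟩ := cv_hilb hH ⟨a₀, a₁, s, hs⟩
  exact ⟨cvVan 𝒰 x, cv_prime hx, hH, ⟨R₀, R₀, hR⟩, fun g e hg => cv_form hg, cv_on⟩

end Pool.Agent.Helper72.TH
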