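import Pool.Agent.Helper72.TH.CongL

/-!
# Project TH: cycles modulo `v` in the invariant set avoid `q = 0`
-/

set_option autoImplicit false

namespace Pool.Agent.Helper72.TH

open MvPolynomial Height Height.AdmissibleAbsValues
open Pool.Agent.Helper36 (step iter)
open Pool.Agent.Helper29.TG

variable {ν : ℕ} {K : Type} [Field K] {v : AbsoluteValue K ℝ}

/-- Points of the orbit which are congruent to points of the closed set lie on it. -/
theorem inZ_of_cong {x y : Fin (ν + 1) → K} (hv : IsNonarchimedean v) {n : ℕ}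
    {W : Fin n → MvPolynomial (Fin (ν + 1)) K} {δ : Fin n → ℕ}
    (hW : ∀ j, (W j).IsHomogeneous (δ j)) (hWi : ∀ j m, v ((W j).coeff m) ≤ 1)
    (hx : x ≠ 0) (hy : y ≠ 0) (h : Cong v x y) {T : Finset (Fin n)} (h0 : InZ v W δ T x) :
    InZ v W δ T y :=
  fun j hj => h.sm hv (hW j) (hWi j) hx hy (h0 j hj)

theorem cong_shift {F : Fin (ν + 1) → MvPolynomial (Fin (ν + 1)) K} {d : ℕ}
    (hF : ∀ i, (F i).IsHomogeneous d) (hG : GoodF v F d)
    {x : Fin (ν + 1) → K} (hx : ∀ n, iter F x n ≠ 0) {i r : ℕ}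
    (hcong : Cong v (iter F x i) (iter F x (i + r))) (l : ℕ) :
    Cong v (iter F x (i + l)) (iter F x (i + l + r)) := by
  induction l with
  | zero => exact hcong
  | succ l ih =>
    have h1 := Cong.step hF hG (hx _) (hx _) ih
    rw [← Pool.Agent.Helper36.iter_succ, ← Pool.Agent.Helper36.iter_succ] at h1
    rw [show i + (l + 1) = i + l + 1 by ring, show i + l + 1 + r = i + l + r + 1 by ring]
    exact h1

theorem cycle_unit {F : Fin (ν + 1) → MvPolynomial (Fin (ν + 1)) K} {d : ℕ}
    (hF : ∀ i, (F i).IsHomogeneous d) (hG : GoodF v F d)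
    {q : MvPolynomial (Fin (ν + 1)) K} {t : ℕ} {n : ℕ}
    {W : Fin n → MvPolynomial (Fin (ν + 1)) K} {δ : Fin n → ℕ}
    (hW : ∀ j, (W j).IsHomogeneous (δ j)) {S : ℕ → Finset (Fin n)} {k : ℕ}
    (hc : ChainV v F q t W δ S k) {x : Fin (ν + 1) → K} (hx : ∀ n, iter F x n ≠ 0) {i n : ℕ}
    (hin : i < n) (hcong : Cong v (iter F x i) (iter F x n))
    (h0 : InZ v W δ (S 0) (iter F x i)) : ∀ l, i ≤ l → ¬ Sm v q t (iter F x l) := by
  intro l₀ hl₀ hsm
  obtain ⟨r, rfl⟩ : ∃ r, n = i + r := ⟨n - i, by omega⟩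
  have hr : 0 < r := by omega
  -- backward transfer
  have hback : ∀ (T : Finset (Fin _)) (l s : ℕ), i ≤ l → InZ v W δ T (iter F x (l + r * s)) →
      InZ v W δ T (iter F x l) := by
    intro T l s hl
    induction s with
    | zero => exact fun h => h
    | succ s ih =>
      intro h
      apply ih
      obtain ⟨u, hu⟩ : ∃ u, l + r * s = i + u := ⟨l + r * s - i, by omega⟩
      have h1 := (cong_shift hF hG hx hcong u).symm
      rw [← hu] at h1
      rw [show l + r * (s + 1) = l + r * s + r by ring] at h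
      exact inZ_of_cong hG.na hW hc.W_int (hx _) (hx _) h1 h
  -- forward invariance
  have hfwd : ∀ m < k, ∀ l l', l ≤ l' → InZ v W δ (S m) (iter F x l) →
      InZ v W δ (S m) (iter F x l') := by
    intro m hm l l' hll h
    induction l', hll using Nat.le_induction with
    | base => exact h
    | succ l' _ ih =>
      rw [Pool.Agent.Helper36.iter_succ]
      exact hc.inv m hm _ (hx _) ih
  rcases Nat.eq_zero_or_pos k with hk | hk
  · subst hk
    exact hc.empty _ (hx _) h0
  have key : ∀ m < k, ∀ l, i ≤ l → InZ v W δ (S m) (iter F x l) := by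
    intro m
    induction m with
    | zero =>
      intro hm l hl
      exact hfwd 0 hm i l hl h0
    | succ m ih =>
      intro hm l hl
      have h1 := hc.down m (by omega) _ (hx _) (ih (by omega) l₀ hl₀) hsm
      rw [← Pool.Agent.Helper36.iter_succ] at h1
      refine hback _ l (l₀ + 1) hl (hfwd _ hm (l₀ + 1) _ ?_ h1)
      have : l₀ + 1 ≤ r * (l₀ + 1) := Nat.le_mul_of_pos_left _ hr
      omega
  have h1 := hc.down (k - 1) (by omega) _ (hx _) (key (k - 1) (by omega) l₀ hl₀) hsm
  rw [Nat.sub_add_cancel hk] at h1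
  rw [← Pool.Agent.Helper36.iter_succ] at h1
  exact hc.empty _ (hx _) h1

end Pool.Agent.Helper72.TH
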