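import Pool.Agent.Helper72.TH.Upper2
import Pool.Agent.Helper65.RP.Api

/-!
# Project TH, part (2): the degree of the limit points
-/

set_option autoImplicit false

namespace Pool.Agent.Helper72.TH

open MvPolynomial Filter Topology
open Pool.Agent.Helper65.RP

section D
variable {K Kb Ω : Type} [Field K] [Field Kb] [Algebra K Kb] [IsAlgClosure K Kb]
  [NormedField Ω] [IsAlgClosed Ω] [Algebra K Ω] [Algebra Kb Ω] [IsScalarTower K Kb Ω] {N : ℕ}
  {𝒰 : Ultrafilter ℕ} {s : ℕ → ℝ} {z : ℕ → Fin N → K} {i₀ : Fin N}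

/-- The centre has at most `2 bd2` conjugates. -/
theorem deg_bound (h : Lev Ω 𝒰 s z i₀) {Λ : Type} [Fintype Λ] (Z : PD K Ω Λ) {γ : ℝ}
    {g : Λ → ℝ} {c : ℕ → K} (hg : Grow2 Z γ g 𝒰 s c z) (hbd : 0 ≤ bd2 Z γ g)
    {q : Fin N → Kb} (hq : IsCenter Ω 𝒰 s z i₀ q) {r : ℕ} (σ : Fin r → (Kb ≃ₐ[K] Kb))
    (hσ : ∀ i j, i ≠ j → (fun l => σ i (q l)) ≠ (fun l => σ j (q l))) :
    r ≤ ⌊2 * bd2 Z γ g⌋₊ := by
  classical
  obtain ⟨e, A, α, he, hA, hα, hval⟩ := exists_group (Kb := Kb) h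
  obtain ⟨C, hC⟩ := lower_bound h hA hα hval hq σ hσ
  have hup := fun D => upper_bound2 h Z hg hbd he hval
    (fun _ _ _ hp hq => exists_const h hp hq) D
  apply Nat.le_floor
  by_contra hcon
  push Not at hcon
  have he' : (0 : ℝ) < e := by exact_mod_cast he
  -- choose D large
  obtain ⟨D, hD⟩ := exists_nat_gt ((r * e * C + 1) / (e * (r - 2 * bd2 Z γ g)) + C + 1 : ℝ)
  have hDC : (C : ℝ) + 1 < D := by
    have h1 : (0 : ℝ) ≤ (r * e * C + 1) / (e * (r - 2 * bd2 Z γ g)) := by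
      apply div_nonneg
      · positivity
      · exact mul_nonneg he'.le (by linarith)
    linarith
  have hDC' : C + 1 ≤ D := by exact_mod_cast hDC.le
  have h2 := hC D
  have h3 := hup D
  have h4 : (r : ℝ) * e * (D - C) ≤ 2 * e * bd2 Z γ g * D + 1 := by
    calc (r : ℝ) * e * (D - C) = ((r * e * (D - C) : ℕ) : ℝ) := by
          rw [Nat.cast_mul, Nat.cast_mul, Nat.cast_sub (by omega)]
      _ ≤ rho (van 𝒰 z) D := by exact_mod_cast h2
      _ ≤ _ := h3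
  have h5 : (r * e * C + 1) / (e * (r - 2 * bd2 Z γ g)) < (D : ℝ) := by
    have : (0 : ℝ) ≤ C := Nat.cast_nonneg _
    linarith
  rw [div_lt_iff₀ (mul_pos he' (by linarith))] at h5
  nlinarith

end D

end Pool.Agent.Helper72.TH
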