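import Pool.Agent.Helper72.TH.Null

/-!
# Project TH, part (2): local growth of an orbit
-/

set_option autoImplicit false

namespace Pool.Agent.Helper72.TH

open MvPolynomial Filter Topology
open Pool.Agent.Helper36 (step iter)
open Pool.Agent.Helper29.TG

variable {ν : ℕ} {K : Type} [Field K]

theorem Green_step (F : Fin (ν + 1) → MvPolynomial (Fin (ν + 1)) K) (x : Fin (ν + 1) → K)
    (i : Fin (ν + 1)) : step F x i = eval x (F i) :=
  congrArg (fun φ => φ (F i)) (MvPolynomial.coe_aeval_eq_eval x)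

theorem Green_smul {F : Fin (ν + 1) → MvPolynomial (Fin (ν + 1)) K} {d : ℕ}
    (hF : ∀ i, (F i).IsHomogeneous d) (c : K) (x : Fin (ν + 1) → K) :
    step F (c • x) = c ^ d • step F x := by
  funext i
  rw [Green_step, Pool.Agent.Helper72.PN.KeyN_smul (hF i), Pi.smul_apply, Green_step, smul_eq_mul]

theorem Green_zero (v : AbsoluteValue K ℝ) : nm v (0 : Fin (ν + 1) → K) = 0 :=
  le_antisymm (nm_le le_rfl fun i => by simp) (nm_nonneg v _)

/-- `|F x|` is comparable with `|x| ^ d`. -/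
theorem exists_nm_step {L : Type} [Field L] [IsAlgClosed L] [Algebra K L]
    {F : Fin (ν + 1) → MvPolynomial (Fin (ν + 1)) K} {d : ℕ} (hF : ∀ i, (F i).IsHomogeneous d)
    (hnz : ∀ x : Fin (ν + 1) → L, (∀ i, aeval x (F i) = 0) → x = 0)
    (v : AbsoluteValue K ℝ) :
    ∃ C : ℝ, 1 ≤ C ∧ ∀ x : Fin (ν + 1) → K, nm v (step F x) ≤ C * nm v x ^ d ∧
      nm v x ^ d ≤ C * nm v (step F x) := by
  classical
  -- the Nullstellensatz
  let G : ℕ → MvPolynomial (Fin (ν + 1)) K := fun j => if h : j < ν + 1 then F ⟨j, h⟩ else 0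
  have hGF : ∀ i : Fin (ν + 1), G i = F i := fun i => by
    change (dite ((i : ℕ) < ν + 1) (fun h => F ⟨i, h⟩) (fun _ => 0)) = F i
    rw [dif_pos i.2]
  have hG0 : ∀ x : Fin (ν + 1) → L, (∀ j ∈ Finset.range (ν + 1), aeval x (G j) = 0) → x = 0 := by
    intro x hx
    refine hnz x fun i => ?_
    rw [← hGF]
    exact hx i (Finset.mem_range.2 i.2)
  choose r c hc using fun k => Null_ns hG0 k
  -- the constants
  choose A hA using fun i => Null_bd v (F i) 1
  choose D hD using fun (k : Fin (ν + 1)) (j : ℕ) => Null_bd v (c k j) 1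
  set E : ℝ := 1 + ∑ k, ∑ j ∈ Finset.range (ν + 1), |D k j| with hE
  set A' : ℝ := 1 + ∑ i, |A i| with hA'
  have hEk : ∀ k, ∑ j ∈ Finset.range (ν + 1), |D k j| ≤ E := by
    intro k
    have h1 : ∑ j ∈ Finset.range (ν + 1), |D k j| ≤
        ∑ k, ∑ j ∈ Finset.range (ν + 1), |D k j| :=
      Finset.single_le_sum (f := fun k => ∑ j ∈ Finset.range (ν + 1), |D k j|)
        (fun k _ => Finset.sum_nonneg fun j _ => abs_nonneg _) (Finset.mem_univ k)
    linarith
  have hE1 : 1 ≤ E := by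
    have : 0 ≤ ∑ k, ∑ j ∈ Finset.range (ν + 1), |D k j| :=
      Finset.sum_nonneg fun k _ => Finset.sum_nonneg fun j _ => abs_nonneg _
    linarith
  have hA1 : 1 ≤ A' := by
    have : 0 ≤ ∑ i, |A i| := Finset.sum_nonneg fun k _ => abs_nonneg _
    linarith
  have hAi : ∀ i, A i ≤ A' := by
    intro i
    have h3 : |A i| ≤ ∑ i, |A i| :=
      Finset.single_le_sum (f := fun i => |A i|) (fun i _ => abs_nonneg _) (Finset.mem_univ i)
    have h4 := le_abs_self (A i)
    linarith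
  -- the normalised points
  have hnorm : ∀ (y : Fin (ν + 1) → K) (k : Fin (ν + 1)), y k = 1 → (∀ i, v (y i) ≤ 1) →
      nm v (step F y) ≤ A' ∧ 1 ≤ E * nm v (step F y) := by
    intro y k hyk hy
    constructor
    · refine nm_le (zero_le_one.trans hA1) fun i => ?_
      rw [Green_step]
      exact (hA i y hy).trans (hAi i)
    · have h1 := congrArg (eval y) (hc k)
      rw [map_pow, eval_X, hyk, one_pow, map_sum] at h1
      have h2 : v (∑ j ∈ Finset.range (ν + 1), eval y (c k j * G j)) ≤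
          ∑ j ∈ Finset.range (ν + 1), |D k j| * nm v (step F y) := by
        refine (v.sum_le _ _).trans (Finset.sum_le_sum fun j hj => ?_)
        rw [map_mul, map_mul]
        have hj' : j < ν + 1 := Finset.mem_range.1 hj
        have h3 : eval y (G j) = step F y ⟨j, hj'⟩ := by
          rw [Green_step, ← hGF ⟨j, hj'⟩]
        rw [h3]
        exact mul_le_mul ((hD k j y hy).trans (le_abs_self _)) (le_nm v _ _) (v.nonneg _)
          (abs_nonneg _)
      rw [h1, map_one, ← Finset.sum_mul] at h2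
      exact h2.trans (mul_le_mul_of_nonneg_right (hEk k) (nm_nonneg v _))
  -- the value at zero, for `d = 0`
  by_cases hd : d = 0
  · -- the forms are constant
    subst hd
    have hcon : ∀ x : Fin (ν + 1) → K, step F x = step F (fun _ => 1) := by
      intro x
      funext i
      rw [Green_step, Green_step]
      have h1 := totalDegree_eq_zero_iff_eq_C.1 (Nat.le_zero.1 ((hF i).totalDegree_le))
      rw [h1, eval_C, eval_C]
    obtain ⟨h1, h2⟩ := hnorm (fun _ => 1) 0 rfl fun i => by rw [map_one]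
    refine ⟨A' * E, one_le_mul_of_one_le_of_one_le hA1 hE1, fun x => ?_⟩
    rw [hcon x, pow_zero, mul_one]
    have h3 : A' ≤ A' * E := le_mul_of_one_le_right (zero_le_one.trans hA1) hE1
    refine ⟨h1.trans h3, h2.trans ?_⟩
    have h4 : E * nm v (step F fun _ => 1) ≤ A' * (E * nm v (step F fun _ => 1)) :=
      le_mul_of_one_le_left (zero_le_one.trans h2) hA1
    rw [mul_assoc]
    exact h4
  refine ⟨A' * E, one_le_mul_of_one_le_of_one_le hA1 hE1, fun x => ?_⟩
  by_cases hx : x = 0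
  · subst hx
    have h0 : step F (0 : Fin (ν + 1) → K) = 0 := by
      have h1 := Green_smul hF 0 (0 : Fin (ν + 1) → K)
      rw [zero_smul, zero_pow hd, zero_smul] at h1
      exact h1
    rw [h0, Green_zero, zero_pow hd, mul_zero]
    exact ⟨le_rfl, le_rfl⟩
  obtain ⟨k, hk, hkx⟩ := exists_nm_eq v hx
  set y : Fin (ν + 1) → K := (x k)⁻¹ • x with hy
  have hyk : y k = 1 := by
    rw [hy, Pi.smul_apply, smul_eq_mul, inv_mul_cancel₀ hk]
  have hy1 : ∀ i, v (y i) ≤ 1 := by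
    intro i
    rw [hy, Pi.smul_apply, smul_eq_mul, map_mul, map_inv₀, inv_mul_le_iff₀ (v.pos hk), mul_one,
      ← hkx]
    exact le_nm v x i
  obtain ⟨h1, h2⟩ := hnorm y k hyk hy1
  have hxy : x = x k • y := by
    rw [hy, smul_smul, mul_inv_cancel₀ hk, one_smul]
  have h3 : nm v (step F x) = nm v x ^ d * nm v (step F y) := by
    conv_lhs => rw [hxy]
    rw [Green_smul hF, nm_smul, map_pow, hkx]
  have hp : 0 ≤ nm v x ^ d := pow_nonneg (nm_nonneg v x) d
  have hs : 0 ≤ nm v (step F y) := nm_nonneg v _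
  rw [h3]
  constructor
  · calc nm v x ^ d * nm v (step F y) ≤ nm v x ^ d * A' := mul_le_mul_of_nonneg_left h1 hp
      _ ≤ nm v x ^ d * (A' * E) :=
        mul_le_mul_of_nonneg_left (le_mul_of_one_le_right (zero_le_one.trans hA1) hE1) hp
      _ = A' * E * nm v x ^ d := by ring
  · calc nm v x ^ d = nm v x ^ d * 1 := (mul_one _).symm
      _ ≤ nm v x ^ d * (A' * (E * nm v (step F y))) :=
        mul_le_mul_of_nonneg_left (one_le_mul_of_one_le_of_one_le hA1 h2) hp
      _ = A' * E * (nm v x ^ d * nm v (step F y)) := by ring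

/-- A real sequence with `u (n + 1) = d u n + O(1)` is `d ^ n G + O(1)`. -/
theorem Green_seq {d : ℕ} (hd : 2 ≤ d) {u : ℕ → ℝ} {c : ℝ}
    (h : ∀ n, |u (n + 1) - d * u n| ≤ c) : ∃ G C : ℝ, ∀ n, |u n - (d : ℝ) ^ n * G| ≤ C := by
  have hd0 : (0 : ℝ) < d := by
    have : (2 : ℝ) ≤ d := by exact_mod_cast hd
    linarith
  have hd1 : ((d : ℝ))⁻¹ < 1 := by
    have : (2 : ℝ) ≤ d := by exact_mod_cast hd
    exact inv_lt_one_of_one_lt₀ (by linarith)
  have hstep : ∀ n, dist (u n / (d : ℝ) ^ n) (u (n + 1) / (d : ℝ) ^ (n + 1)) ≤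
      c / d * ((d : ℝ)⁻¹) ^ n := by
    intro n
    rw [dist_comm, Real.dist_eq]
    have h1 : u (n + 1) / (d : ℝ) ^ (n + 1) - u n / (d : ℝ) ^ n =
        (u (n + 1) - d * u n) / (d : ℝ) ^ (n + 1) := by
      rw [pow_succ]
      field_simp
    have h2 : c / d * ((d : ℝ)⁻¹) ^ n = c / (d : ℝ) ^ (n + 1) := by
      rw [pow_succ, inv_pow]
      field_simp
    rw [h1, h2, abs_div, abs_of_pos (pow_pos hd0 _)]
    exact div_le_div_of_nonneg_right (h n) (pow_pos hd0 _).le
  obtain ⟨G, hG⟩ := cauchySeq_tendsto_of_complete (cauchySeq_of_le_geometric _ _ hd1 hstep)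
  refine ⟨G, c / d / (1 - (d : ℝ)⁻¹), fun n => ?_⟩
  have h1 := dist_le_of_le_geometric_of_tendsto _ _ hd1 hstep hG n
  rw [Real.dist_eq] at h1
  have h2 : u n - (d : ℝ) ^ n * G = (d : ℝ) ^ n * (u n / (d : ℝ) ^ n - G) := by
    rw [mul_sub, mul_div_cancel₀ _ (pow_pos hd0 n).ne']
  rw [h2, abs_mul, abs_of_pos (pow_pos hd0 n)]
  calc (d : ℝ) ^ n * |u n / (d : ℝ) ^ n - G| ≤
      (d : ℝ) ^ n * (c / d * ((d : ℝ)⁻¹) ^ n / (1 - (d : ℝ)⁻¹)) :=
        mul_le_mul_of_nonneg_left h1 (pow_pos hd0 n).le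
    _ = c / d / (1 - (d : ℝ)⁻¹) * ((d : ℝ) ^ n * ((d : ℝ)⁻¹) ^ n) := by ring
    _ = c / d / (1 - (d : ℝ)⁻¹) := by
        rw [inv_pow, mul_inv_cancel₀ (pow_pos hd0 n).ne', mul_one]

theorem exists_green {L : Type} [Field L] [IsAlgClosed L] [Algebra K L]
    {F : Fin (ν + 1) → MvPolynomial (Fin (ν + 1)) K} {d : ℕ} (hd : 2 ≤ d)
    (hF : ∀ i, (F i).IsHomogeneous d)
    (hnz : ∀ x : Fin (ν + 1) → L, (∀ i, aeval x (F i) = 0) → x = 0)
    (v : AbsoluteValue K ℝ) {a : Fin (ν + 1) → K} (ha : ∀ n, iter F a n ≠ 0) :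
    ∃ G C : ℝ, ∀ n, |Real.log (nm v (iter F a n)) - (d : ℝ) ^ n * G| ≤ C := by
  obtain ⟨C, hC1, hC⟩ := exists_nm_step hF hnz v
  refine Green_seq hd (c := Real.log C) fun n => ?_
  have hC0 : 0 < C := zero_lt_one.trans_le hC1
  have h1 := nm_pos v (ha n)
  have h2 := nm_pos v (ha (n + 1))
  obtain ⟨h3, h4⟩ := hC (iter F a n)
  rw [← Pool.Agent.Helper36.iter_succ] at h3 h4
  have h5 := Real.log_le_log h2 h3
  have h6 := Real.log_le_log (pow_pos h1 d) h4
  rw [Real.log_mul hC0.ne' (pow_pos h1 d).ne', Real.log_pow] at h5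
  rw [Real.log_mul hC0.ne' h2.ne', Real.log_pow] at h6
  rw [abs_le]
  constructor <;> linarith

end Pool.Agent.Helper72.TH
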