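import Pool.Agent.Helper43.TH.Thick

/-!
# Project TH, part (2): a function on a plane curve with poles only at one point
-/

set_option autoImplicit false

namespace Pool.Agent.Helper72.TH

open MvPolynomial

theorem planeP_sub {K : Type} [Field K] (f : Fin 3 → MvPolynomial (Fin 3) K)
    (hf0 : f 0 = X 0) (hf1 : f 1 = X 1) (hf2 : f 2 = 0) (g : MvPolynomial (Fin 3) K) :
    X 2 ∣ g - aeval f g := by
  have h1 : (Ideal.Quotient.mkₐ K (Ideal.span {(X 2 : MvPolynomial (Fin 3) K)})).comp
      (aeval f) = Ideal.Quotient.mkₐ K (Ideal.span {(X 2 : MvPolynomial (Fin 3) K)}) := by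
    apply algHom_ext
    intro i
    rw [AlgHom.comp_apply, aeval_X]
    fin_cases i
    · exact congrArg _ hf0
    · exact congrArg _ hf1
    · refine (congrArg _ hf2).trans ?_
      rw [map_zero]
      exact ((Ideal.Quotient.eq_zero_iff_mem).2 (Ideal.mem_span_singleton_self _)).symm
  have h2 := DFunLike.congr_fun h1 g
  rw [AlgHom.comp_apply] at h2
  have h3 : g - aeval f g ∈ Ideal.span {(X 2 : MvPolynomial (Fin 3) K)} := by
    rw [← Ideal.Quotient.eq_zero_iff_mem, map_sub, sub_eq_zero]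
    exact h2.symm
  exact Ideal.mem_span_singleton.1 h3

/-- there is a point `(c, 1, 0)` not on the curve -/
theorem planeP_point {K : Type} [Field K] [Infinite K] {g : MvPolynomial (Fin 3) K} {D : ℕ}
    (hg : g.IsHomogeneous D) (hirr : Irreducible g) (h0 : eval ![0, 0, 1] g = 0) :
    ∃ c : K, eval ![c, 1, 0] g ≠ 0 := by
  by_contra hcon
  push Not at hcon
  obtain ⟨f, hf⟩ : ∃ f : Fin 3 → MvPolynomial (Fin 3) K, f = ![X 0, X 1, 0] := ⟨_, rfl⟩
  have h1 : X 1 * aeval f g = 0 := by
    apply MvPolynomial.funext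
    intro z
    rw [map_mul, eval_X, map_zero]
    by_cases hz : z 1 = 0
    · rw [hz, zero_mul]
    have e1 : eval z (aeval f g) = eval (fun i => eval z (f i)) g := by
      have e3 : (aeval z : MvPolynomial (Fin 3) K →ₐ[K] K).comp (aeval f) =
          aeval (fun i => eval z (f i)) := by
        apply algHom_ext
        intro i
        rw [AlgHom.comp_apply, aeval_X, aeval_X]
        rfl
      exact DFunLike.congr_fun e3 g
    have e2 : (fun i => eval z (f i)) = z 1 • ![z 0 / z 1, 1, 0] := by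
      funext i
      rw [hf]
      fin_cases i
      · simp [mul_div_cancel₀, hz]
      · simp
      · simp
    rw [e1, e2]
    have e4 : eval (z 1 • ![z 0 / z 1, 1, 0]) g = z 1 ^ D * eval ![z 0 / z 1, 1, 0] g := by
      rw [eval_eq', eval_eq', Finset.mul_sum]
      refine Finset.sum_congr rfl fun m hm => ?_
      have h2 := Pool.Agent.Helper43.TH.deg_eq hg (mem_support_iff.1 hm)
      simp only [Pi.smul_apply, smul_eq_mul, mul_pow, Finset.prod_mul_distrib]
      have h3 : ∏ i, z 1 ^ m i = z 1 ^ D := by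
        rw [Fin.prod_univ_three, ← pow_add, ← pow_add, h2]
      rw [h3]
      ring
    rw [e4, hcon, mul_zero, mul_zero]
  have h2 : aeval f g = 0 := (mul_eq_zero.1 h1).resolve_left (X_ne_zero _)
  have h3 := planeP_sub f (by rw [hf]; rfl) (by rw [hf]; rfl) (by rw [hf]; rfl) g
  rw [h2, sub_zero] at h3
  obtain ⟨q, hq⟩ := h3
  rcases hirr.isUnit_or_isUnit hq with h4 | h4
  · exact X_prime.not_isUnit h4
  · have h5 := h4.map (eval (![0, 0, 1] : Fin 3 → K))
    rw [hq, map_mul, eval_X] at h0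
    have h6 : (![0, 0, 1] : Fin 3 → K) 2 = 1 := rfl
    rw [h6, one_mul] at h0
    rw [h0] at h5
    exact not_isUnit_zero h5

/-- splitting of the power of a sum -/
theorem planeP_split {K : Type} [Field K] {x y : MvPolynomial (Fin 3) K}
    (hx : x.IsHomogeneous 1) (hy : y.IsHomogeneous 1) {a : ℕ} (ha : 1 ≤ a) :
    ∃ A B : MvPolynomial (Fin 3) K, A.IsHomogeneous (a - 1) ∧ B.IsHomogeneous (a - 1) ∧
      (x + y) ^ (2 * a - 1) = x ^ a * A + y ^ a * B := by
  refine ⟨∑ m ∈ (Finset.range (2 * a - 1 + 1)).filter (fun m => a ≤ m),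
      x ^ (m - a) * y ^ (2 * a - 1 - m) * ((2 * a - 1).choose m : MvPolynomial (Fin 3) K),
    ∑ m ∈ (Finset.range (2 * a - 1 + 1)).filter (fun m => ¬ a ≤ m),
      x ^ m * y ^ (2 * a - 1 - m - a) * ((2 * a - 1).choose m : MvPolynomial (Fin 3) K),
    ?_, ?_, ?_⟩
  · refine IsHomogeneous.sum _ _ _ fun m hm => ?_
    rw [Finset.mem_filter, Finset.mem_range] at hm
    have h1 := ((hx.pow (m - a)).mul (hy.pow (2 * a - 1 - m))).mul
      (isHomogeneous_C (Fin 3) (((2 * a - 1).choose m : ℕ) : K))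
    rw [map_natCast] at h1
    convert h1 using 1
    omega
  · refine IsHomogeneous.sum _ _ _ fun m hm => ?_
    rw [Finset.mem_filter, Finset.mem_range] at hm
    have h1 := ((hx.pow m).mul (hy.pow (2 * a - 1 - m - a))).mul
      (isHomogeneous_C (Fin 3) (((2 * a - 1).choose m : ℕ) : K))
    rw [map_natCast] at h1
    convert h1 using 1
    omega
  · rw [add_pow, Finset.mul_sum, Finset.mul_sum, ← Finset.sum_filter_add_sum_filter_not
      (Finset.range (2 * a - 1 + 1)) (fun m => a ≤ m)]
    congr 1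
    · refine Finset.sum_congr rfl fun m hm => ?_
      rw [Finset.mem_filter] at hm
      obtain ⟨b, rfl⟩ : ∃ b, m = a + b := ⟨m - a, by omega⟩
      rw [Nat.add_sub_cancel_left, pow_add]
      ring
    · refine Finset.sum_congr rfl fun m hm => ?_
      rw [Finset.mem_filter, Finset.mem_range] at hm
      obtain ⟨b, hb⟩ : ∃ b, 2 * a - 1 - m = a + b := ⟨2 * a - 1 - m - a, by omega⟩
      rw [hb, Nat.add_sub_cancel_left, pow_add]
      ring

/-- Let `g` be an irreducible form vanishing at `(0, 0, 1)` and not dividing `X 0`. There are forms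
`H`, `H'` of degree `a - 1` with `H / X 0 ^ a = H' / X 1 ^ a` on the curve, `H` not zero on it. -/
theorem plane_pair {K : Type} [Field K] [Infinite K] {g : MvPolynomial (Fin 3) K} {D : ℕ}
    (hg : g.IsHomogeneous D) (hirr : Irreducible g) (h0 : eval ![0, 0, 1] g = 0)
    (hX : ¬ g ∣ X 0) :
    ∃ (a : ℕ) (H H' : MvPolynomial (Fin 3) K), 1 ≤ a ∧ H.IsHomogeneous (a - 1) ∧
      H'.IsHomogeneous (a - 1) ∧ ¬ g ∣ H ∧ g ∣ H * X 1 ^ a - H' * X 0 ^ a := by
  obtain ⟨c, hc⟩ := planeP_point hg hirr h0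
  have hD : 1 ≤ D := by
    by_contra hcon
    have hD0 : D = 0 := by omega
    subst hD0
    obtain ⟨r, hr⟩ : ∃ r : K, g = C r :=
      ⟨_, totalDegree_eq_zero_iff_eq_C.1 (Nat.le_zero.1 hg.totalDegree_le)⟩
    rw [hr, eval_C] at h0
    rw [hr, h0, map_zero] at hirr
    exact hirr.ne_zero rfl
  -- the change of coordinates
  obtain ⟨s, hs⟩ : ∃ s : Fin 3 → MvPolynomial (Fin 3) K, s = ![X 0 + C c * X 1, X 1, X 2] :=
    ⟨_, rfl⟩
  obtain ⟨t, ht⟩ : ∃ t : Fin 3 → MvPolynomial (Fin 3) K, t = ![X 0 - C c * X 1, X 1, X 2] :=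
    ⟨_, rfl⟩
  have s0 : s 0 = X 0 + C c * X 1 := by rw [hs]; rfl
  have s1 : s 1 = X 1 := by rw [hs]; rfl
  have s2 : s 2 = X 2 := by rw [hs]; rfl
  have t0 : t 0 = X 0 - C c * X 1 := by rw [ht]; rfl
  have t1 : t 1 = X 1 := by rw [ht]; rfl
  have t2 : t 2 = X 2 := by rw [ht]; rfl
  have hCX : (C c * X 1 : MvPolynomial (Fin 3) K).IsHomogeneous 1 := by
    have := (isHomogeneous_C (Fin 3) c).mul (isHomogeneous_X K (1 : Fin 3))
    rwa [zero_add] at this
  have hsh : ∀ i, (s i).IsHomogeneous 1 := by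
    intro i
    fin_cases i
    · exact s0 ▸ (isHomogeneous_X K 0).add hCX
    · exact s1 ▸ isHomogeneous_X K 1
    · exact s2 ▸ isHomogeneous_X K 2
  have hth : ∀ i, (t i).IsHomogeneous 1 := by
    intro i
    fin_cases i
    · exact t0 ▸ (isHomogeneous_X K 0).sub hCX
    · exact t1 ▸ isHomogeneous_X K 1
    · exact t2 ▸ isHomogeneous_X K 2
  have hts : ∀ p : MvPolynomial (Fin 3) K, aeval t (aeval s p) = p := by
    intro p
    have e : (aeval t : MvPolynomial (Fin 3) K →ₐ[K] MvPolynomial (Fin 3) K).comp (aeval s) =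
        AlgHom.id K _ := by
      apply algHom_ext
      intro i
      rw [AlgHom.comp_apply, aeval_X]
      fin_cases i
      · show aeval t (s 0) = X 0
        rw [s0, map_add, map_mul, aeval_X, aeval_X, t0, t1, algHom_C, algebraMap_eq]
        ring
      · show aeval t (s 1) = X 1
        rw [s1, aeval_X, t1]
      · show aeval t (s 2) = X 2
        rw [s2, aeval_X, t2]
    exact DFunLike.congr_fun e p
  have hst : ∀ p : MvPolynomial (Fin 3) K, aeval s (aeval t p) = p := by
    intro p
    have e : (aeval s : MvPolynomial (Fin 3) K →ₐ[K] MvPolynomial (Fin 3) K).comp (aeval t) =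
        AlgHom.id K _ := by
      apply algHom_ext
      intro i
      rw [AlgHom.comp_apply, aeval_X]
      fin_cases i
      · show aeval s (t 0) = X 0
        rw [t0, map_sub, map_mul, aeval_X, aeval_X, s0, s1, algHom_C, algebraMap_eq]
        ring
      · show aeval s (t 1) = X 1
        rw [t1, aeval_X, s1]
      · show aeval s (t 2) = X 2
        rw [t2, aeval_X, s2]
    exact DFunLike.congr_fun e p
  have hev : ∀ z : Fin 3 → K, eval z (aeval s g) = eval (fun i => eval z (s i)) g := by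
    intro z
    have e3 : (aeval z : MvPolynomial (Fin 3) K →ₐ[K] K).comp (aeval s) =
        aeval (fun i => eval z (s i)) := by
      apply algHom_ext
      intro i
      rw [AlgHom.comp_apply, aeval_X, aeval_X]
      rfl
    exact DFunLike.congr_fun e3 g
  have hg' : (aeval s g).IsHomogeneous D := by
    have := hg.aeval s hsh
    rwa [one_mul] at this
  have h0' : eval ![0, 0, 1] (aeval s g) = 0 := by
    rw [hev]
    have e : (fun i => eval (![0, 0, 1] : Fin 3 → K) (s i)) = ![0, 0, 1] := by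
      funext i
      fin_cases i
      · show eval _ (s 0) = _
        rw [s0]
        simp
      · show eval _ (s 1) = _
        rw [s1]
        simp
      · show eval _ (s 2) = _
        rw [s2]
        simp
    rw [e]
    exact h0
  have h1' : eval ![0, 1, 0] (aeval s g) ≠ 0 := by
    rw [hev]
    have e : (fun i => eval (![0, 1, 0] : Fin 3 → K) (s i)) = ![c, 1, 0] := by
      funext i
      fin_cases i
      · show eval _ (s 0) = _
        rw [s0]
        simp
      · show eval _ (s 1) = _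
        rw [s1]
        simp
      · show eval _ (s 2) = _
        rw [s2]
        simp
    rw [e]
    exact hc
  obtain ⟨a, ha, H, H', Q, hH, hH', hrel, -, -, hdvd⟩ :=
    Pool.Agent.Helper43.TH.exists_thick hg' hD h0' h1'
  obtain ⟨A, B, hA, hB, hAB⟩ := planeP_split ((isHomogeneous_X K (0 : Fin 3)).sub hCX) hCX ha
  rw [sub_add_cancel] at hAB
  have hP : Prime g := hirr.prime
  -- back
  obtain ⟨G, hG⟩ : ∃ G, G = aeval t H := ⟨_, rfl⟩
  obtain ⟨G', hG'⟩ : ∃ G', G' = aeval t H' := ⟨_, rfl⟩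
  have hGh : G.IsHomogeneous (a - 1) := by
    have := hH.aeval t hth
    rw [one_mul] at this
    rwa [hG]
  have hGh' : G'.IsHomogeneous (a - 1) := by
    have := hH'.aeval t hth
    rw [one_mul] at this
    rwa [hG']
  have hrel' : G * X 1 ^ a - G' * (X 0 - C c * X 1) ^ a = aeval t Q * g := by
    have := congrArg (aeval t) hrel
    rw [map_sub, map_mul, map_mul, map_mul, map_pow, map_pow, aeval_X, aeval_X, hts, t0, t1,
      ← hG, ← hG'] at this
    exact this
  have hdvd' : ¬ g ∣ G := by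
    rintro ⟨R, hR⟩
    apply hdvd
    refine ⟨aeval s R, ?_⟩
    rw [← map_mul, ← hR, hG, hst]
  refine ⟨2 * a - 1, G * A + C c ^ a * G' * B, G' * X 1 ^ (a - 1), by omega, ?_, ?_, ?_, ?_⟩
  · have i1 := hGh.mul hA
    have i2 := ((isHomogeneous_C (Fin 3) (c ^ a)).mul hGh').mul hB
    have i3 : 2 * a - 1 - 1 = a - 1 + (a - 1) := by omega
    rw [i3]
    rw [zero_add, map_pow] at i2
    exact i1.add i2
  · have i1 := hGh'.mul ((isHomogeneous_X K (1 : Fin 3)).pow (a - 1))
    have i3 : 2 * a - 1 - 1 = a - 1 + 1 * (a - 1) := by omega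
    rw [i3]
    exact i1
  · intro hcon
    have j1 : g ∣ G * X 0 ^ (2 * a - 1) := by
      have e : G * X 0 ^ (2 * a - 1) = (G * A + C c ^ a * G' * B) * (X 0 - C c * X 1) ^ a +
          C c ^ a * B * (aeval t Q * g) := by
        rw [hAB, ← hrel', mul_pow]
        ring
      rw [e]
      exact dvd_add (hcon.mul_right _) (Dvd.intro_left (C c ^ a * B * aeval t Q) (by ring))
    rcases hP.dvd_or_dvd j1 with j2 | j2
    · exact hdvd' j2
    · exact hX (hP.dvd_of_dvd_pow j2)
  · have e : (G * A + C c ^ a * G' * B) * X 1 ^ (2 * a - 1) -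
        G' * X 1 ^ (a - 1) * X 0 ^ (2 * a - 1) = X 1 ^ (a - 1) * A * (aeval t Q * g) := by
      rw [hAB, ← hrel', mul_pow]
      have e2 : (X 1 : MvPolynomial (Fin 3) K) ^ (2 * a - 1) = X 1 ^ (a - 1) * X 1 ^ a := by
        rw [← pow_add]
        congr 1
        omega
      rw [e2]
      ring
    rw [e]
    exact Dvd.intro_left (X 1 ^ (a - 1) * A * aeval t Q) (by ring)

end Pool.Agent.Helper72.TH
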