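import Pool.Agent.Helper72.TH.ThickA
import Pool.Agent.Helper72.TH.PlaneP
import Pool.Agent.Helper30.TP.Dim3

/-!
# Project TH, part (2): contact data at a point of the curve
-/

set_option autoImplicit false

namespace Pool.Agent.Helper72.TH

open MvPolynomial Filter Topology
open Pool.Agent.Helper36 (step iter)
open Pool.Agent.Helper29.TG

variable {ν : ℕ} {K : Type} [Field K]

/-- The value of a form of degree one. -/
theorem ThickH_lin {l : MvPolynomial (Fin (ν + 1)) K} (h : l.IsHomogeneous 1)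
    (x : Fin (ν + 1) → K) :
    eval x l = lin (fun i => l.coeff (Finsupp.single i 1)) x := by
  classical
  have h1 : l = ∑ i, C (l.coeff (Finsupp.single i 1)) * X i := by
    ext m
    rw [coeff_sum]
    by_cases hm : ∃ j, m = Finsupp.single j 1
    · obtain ⟨j, rfl⟩ := hm
      rw [Finset.sum_eq_single j]
      · rw [coeff_C_mul, coeff_X', if_pos rfl, mul_one]
      · intro i _ hij
        rw [coeff_C_mul, coeff_X', if_neg, mul_zero]
        intro h2
        exact hij ((Finsupp.single_left_inj one_ne_zero).1 h2)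
      · intro h2
        exact absurd (Finset.mem_univ j) h2
    · have h2 : l.coeff m = 0 := by
        by_contra h3
        have h4 := Pool.Agent.Helper36.homog_degree h h3
        obtain ⟨i, m', h5, h6⟩ := wedge_single (e := 0) (by rw [h4])
        have h7 : m' = 0 := (Finsupp.degree_eq_zero_iff m').1 h6
        exact hm ⟨i, by rw [h5, h7, zero_add]⟩
      rw [h2]
      symm
      apply Finset.sum_eq_zero
      intro i _
      rw [coeff_C_mul, coeff_X', if_neg, mul_zero]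
      intro h3
      exact hm ⟨i, h3.symm⟩
  conv_lhs => rw [h1]
  rw [map_sum]
  unfold lin
  refine Finset.sum_congr rfl fun i _ => ?_
  rw [map_mul, eval_C, eval_X]

/-- Evaluation of a composition. -/
theorem ThickH_eval (f : Fin 3 → MvPolynomial (Fin (ν + 1)) K) (z : Fin (ν + 1) → K)
    (Q : MvPolynomial (Fin 3) K) :
    eval z (aeval f Q) = eval (fun j => eval z (f j)) Q := by
  have h := comp_aeval_apply f (aeval z : MvPolynomial (Fin (ν + 1)) K →ₐ[K] K) Q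
  simpa [coe_aeval_eq_eval] using h

/-- A section of degree `-1` with poles only at `y`. -/
theorem exists_H [Infinite K] {𝒰 : Ultrafilter ℕ} {x : ℕ → Fin (ν + 1) → K} (hcur : OnC 𝒰 x)
    {y : Fin (ν + 1) → K} (hy : y ≠ 0) (hyC : InCl 𝒰 x y)
    {l₁ l₂ : MvPolynomial (Fin (ν + 1)) K} (h₁ : l₁.IsHomogeneous 1) (h₂ : l₂.IsHomogeneous 1)
    (hy₁ : eval y l₁ = 0) (hy₂ : eval y l₂ = 0)
    (hn₁ : ∀ᶠ n in (𝒰 : Filter ℕ), eval (x n) l₁ ≠ 0)
    (hn₂ : ∀ᶠ n in (𝒰 : Filter ℕ), eval (x n) l₂ ≠ 0) :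
    ∃ (a : ℕ) (H H' : MvPolynomial (Fin (ν + 1)) K), 1 ≤ a ∧ H.IsHomogeneous (a - 1) ∧
      H'.IsHomogeneous (a - 1) ∧ (∀ᶠ n in (𝒰 : Filter ℕ), eval (x n) H ≠ 0) ∧
      ∀ᶠ n in (𝒰 : Filter ℕ),
        eval (x n) H * eval (x n) l₂ ^ a = eval (x n) H' * eval (x n) l₁ ^ a := by
  classical
  obtain ⟨i₀, hi₀⟩ := Function.ne_iff.1 hy
  have hi₀' : y i₀ ≠ 0 := hi₀
  obtain ⟨l₃, hl₃⟩ : ∃ l : MvPolynomial (Fin (ν + 1)) K, l = C (y i₀)⁻¹ * X i₀ := ⟨_, rfl⟩
  have h₃ : l₃.IsHomogeneous 1 := by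
    rw [hl₃]
    simpa using (isHomogeneous_C (Fin (ν + 1)) ((y i₀)⁻¹)).mul (isHomogeneous_X K i₀)
  have hy₃ : eval y l₃ = 1 := by
    rw [hl₃, map_mul, eval_C, eval_X, inv_mul_cancel₀ hi₀']
  obtain ⟨f, hf⟩ : ∃ f : Fin 3 → MvPolynomial (Fin (ν + 1)) K, f = ![l₁, l₂, l₃] := ⟨_, rfl⟩
  have hf0 : f 0 = l₁ := by rw [hf]; rfl
  have hf1 : f 1 = l₂ := by rw [hf]; rfl
  have hf2 : f 2 = l₃ := by rw [hf]; rfl
  have hfh : ∀ j, (f j).IsHomogeneous 1 := by
    intro j
    fin_cases j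
    · exact hf0 ▸ h₁
    · exact hf1 ▸ h₂
    · exact hf2 ▸ h₃
  obtain ⟨P, e, hP0, hP, hPv⟩ := hcur (fun j i => (f j).coeff (Finsupp.single i 1))
  have hpl : ∀ n, pl (fun j i => (f j).coeff (Finsupp.single i 1)) (x n) =
      fun j => eval (x n) (f j) := by
    intro n
    funext j
    exact (ThickH_lin (hfh j) (x n)).symm
  have hPv' : ∀ᶠ n in (𝒰 : Filter ℕ), eval (fun j => eval (x n) (f j)) P = 0 := by
    filter_upwards [hPv] with n hn
    rwa [hpl] at hn
  obtain ⟨D, g, hg, hirr, hgv⟩ := Pool.Agent.Helper38.TQ.exists_irreducible_form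
    (y := fun n j => eval (x n) (f j)) hP hP0 hPv'
  have h0 : eval ![0, 0, 1] g = 0 := by
    have h1 := hyC (aeval f g) (1 * D) (hg.aeval f hfh) (by
      filter_upwards [hgv] with n hn
      rw [ThickH_eval]
      exact hn)
    rw [ThickH_eval] at h1
    have h2 : (fun j => eval y (f j)) = ![0, 0, 1] := by
      funext j
      fin_cases j
      · change eval y (f 0) = 0
        rw [hf0, hy₁]
      · change eval y (f 1) = 0
        rw [hf1, hy₂]
      · change eval y (f 2) = 1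
        rw [hf2, hy₃]
    rwa [h2] at h1
  have hX : ¬ g ∣ X 0 := by
    rintro ⟨q, hq⟩
    obtain ⟨n, h1, h2⟩ := (hgv.and hn₁).exists
    have h3 := congrArg (eval (fun j => eval (x n) (f j))) hq
    rw [map_mul, h1, zero_mul, eval_X, hf0] at h3
    exact h2 h3
  obtain ⟨a, H, H', ha, hH, hH', hgH, hrel⟩ := plane_pair hg hirr h0 hX
  refine ⟨a, aeval f H, aeval f H', ha, ?_, ?_, ?_, ?_⟩
  · have := hH.aeval f hfh
    rwa [one_mul] at this
  · have := hH'.aeval f hfh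
    rwa [one_mul] at this
  · by_contra hcon
    have hHv : ∀ᶠ n in (𝒰 : Filter ℕ), eval (fun j => eval (x n) (f j)) H = 0 := by
      filter_upwards [Ultrafilter.eventually_not.2 hcon] with n hn
      rw [← ThickH_eval]
      exact not_not.1 hn
    have hfin : Set.Finite {z : Fin 3 → K | z 0 = 1 ∧ eval z g = 0 ∧ eval z H = 0} := by
      have h1 := Pool.Agent.Helper30.TP.finite_common_zeros hg hH hirr hgH
        (fun z : {z : Fin 3 → K | z 0 = 1 ∧ eval z g = 0 ∧ eval z H = 0} => (z : Fin 3 → K))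
        (fun z h => by
          have h2 := z.2.1
          rw [h] at h2
          exact zero_ne_one h2)
        (fun z w hzw => by
          rintro ⟨c, -, hc⟩
          apply hzw
          have h2 := congrFun hc 0
          rw [Pi.smul_apply, z.2.1, w.2.1, smul_eq_mul, mul_one] at h2
          apply Subtype.ext
          rw [hc, ← h2, one_smul])
      rw [← Set.finite_coe_iff, ← Set.finite_univ_iff]
      exact h1.subset fun z _ => ⟨z.2.2.1, z.2.2.2⟩
    have hr : ∀ᶠ n in (𝒰 : Filter ℕ), (fun j => (eval (x n) l₁)⁻¹ * eval (x n) (f j)) ∈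
        {z : Fin 3 → K | z 0 = 1 ∧ eval z g = 0 ∧ eval z H = 0} := by
      filter_upwards [hn₁, hgv, hHv] with n h1 h2 h3
      refine ⟨?_, ?_, ?_⟩
      · change (eval (x n) l₁)⁻¹ * eval (x n) (f 0) = 1
        rw [hf0, inv_mul_cancel₀ h1]
      · rw [Pool.Agent.Helper36.eval_smul_homogeneous hg, h2, mul_zero]
      · rw [Pool.Agent.Helper36.eval_smul_homogeneous hH, h3, mul_zero]
    obtain ⟨c, -, hc⟩ : ∃ c ∈ {z : Fin 3 → K | z 0 = 1 ∧ eval z g = 0 ∧ eval z H = 0},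
        {n | (fun j => (eval (x n) l₁)⁻¹ * eval (x n) (f j)) = c} ∈ 𝒰 := by
      refine (Ultrafilter.finite_biUnion_mem_iff hfin).1 ?_
      filter_upwards [hr] with n hn
      exact Set.mem_iUnion₂.2 ⟨_, hn, rfl⟩
    have h1 := hyC (l₃ - C (c 2) * l₁) 1 (by
      refine h₃.sub ?_
      simpa using (isHomogeneous_C (Fin (ν + 1)) (c 2)).mul h₁) (by
      filter_upwards [hc, hn₁] with n h2 h3
      have h4 := congrFun (show (fun j => (eval (x n) l₁)⁻¹ * eval (x n) (f j)) = c from h2) 2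
      have h5 : (eval (x n) l₁)⁻¹ * eval (x n) l₃ = c 2 := by rw [← h4, hf2]
      rw [map_sub, map_mul, eval_C, ← h5]
      field_simp
      ring)
    rw [map_sub, map_mul, hy₁, mul_zero, sub_zero, hy₃] at h1
    exact one_ne_zero h1
  · obtain ⟨q, hq⟩ := hrel
    filter_upwards [hgv] with n hn
    have h := congrArg (eval (fun j => eval (x n) (f j))) hq
    rw [map_sub, map_mul, map_mul, map_pow, map_pow, eval_X, eval_X, map_mul, hn, zero_mul,
      hf0, hf1] at h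
    rw [ThickH_eval, ThickH_eval]
    linear_combination h

/-- Contact data exist at every point of the curve. -/
theorem exists_thick [Infinite K] {L : Type} [Field L] [IsAlgClosed L] [Algebra K L]
    {𝒰 : Ultrafilter ℕ} {x : ℕ → Fin (ν + 1) → K} (hcur : OnC 𝒰 x) {y : Fin (ν + 1) → K}
    (hy : y ≠ 0) (hyC : InCl 𝒰 x y) (hne : ∀ᶠ n in (𝒰 : Filter ℕ), cr (x n) y ≠ 0) :
    ∃ (l₁ l₂ H H' : MvPolynomial (Fin (ν + 1)) K) (a M : ℕ)
      (A₁ A₂ : Fin (ν + 1) × Fin (ν + 1) → MvPolynomial (Fin (ν + 1)) K),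
      Thick 𝒰 x y l₁ l₂ H H' a M A₁ A₂ ∧ eval y l₁ = 0 ∧ eval y l₂ = 0 := by
  obtain ⟨l₁, l₂, h₁, h₂, hy₁, hy₂, hn₁, hn₂, hz⟩ := exists_lin (L := L) hcur hy hne
  obtain ⟨M, A₁, A₂, hM, hA₁, hA₂, hloj⟩ := exists_loj (L := L) h₁ h₂ hz
  obtain ⟨a, H, H', ha, hH, hH', hHn, hrel⟩ := exists_H hcur hy hyC h₁ h₂ hy₁ hy₂ hn₁ hn₂
  exact ⟨l₁, l₂, H, H', a, M, A₁, A₂,
    ⟨h₁, h₂, ha, hM, hH, hH', hA₁, hA₂, hn₁, hn₂, hHn, hrel, hloj⟩, hy₁, hy₂⟩

end Pool.Agent.Helper72.TH
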