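import Pool.Agent.Helper72.TH.Contact3
import Pool.Agent.Helper72.TH.ThickH

/-!
# Project TH, part (2): every point of the curve is met modulo a good place
-/

set_option autoImplicit false

namespace Pool.Agent.Helper72.TH

open MvPolynomial Filter Topology Height Height.AdmissibleAbsValues
open Pool.Agent.Helper36 (step iter)
open Pool.Agent.Helper29.TG

variable {ν : ℕ} {K : Type} [Field K]

theorem ct_nonpos {v : AbsoluteValue K ℝ} {x y : Fin (ν + 1) → K} (h : cr x y ≠ 0)
    (hno : ¬ Cong v x y) : ct v x y ≤ 0 := by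
  have h1 := nm_pos v (left_ne_zero h)
  have h2 := nm_pos v (right_ne_zero h)
  unfold Cong at hno
  rw [not_lt] at hno
  have h3 := Real.log_le_log (mul_pos h1 h2) hno
  rw [Real.log_mul h1.ne' h2.ne'] at h3
  unfold ct
  linarith

open Classical in
/-- A sum over all places of a function with small values on a finite set. -/
theorem ls_le_of [AdmissibleAbsValues K] {B : Set (AbsoluteValue K ℝ)} (hB : B.Finite) :
    ∃ M : ℕ, ∀ (f : AbsoluteValue K ℝ → ℝ) (e : ℝ), 0 ≤ e → FS f →
      (∀ v, Mem v → f v ≤ if v ∈ archAbsVal (K := K) ∨ v ∈ B then e else 0) → ls f ≤ M * e := by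
  set B' : Set (AbsoluteValue K ℝ) := {v | v ∈ archAbsVal (K := K)} ∪ B with hB'
  have hB'f : B'.Finite := finite_arch.union hB
  have hpre : ((fun v : nonarchAbsVal (K := K) => v.val) ⁻¹' B').Finite :=
    hB'f.preimage Subtype.val_injective.injOn
  refine ⟨(archAbsVal (K := K)).card + hpre.toFinset.card, fun f e he hf h => ?_⟩
  set g : AbsoluteValue K ℝ → ℝ := fun v => if v ∈ archAbsVal (K := K) ∨ v ∈ B then e else 0
    with hg
  have hgF : FS g := FS.of_finite hB'f fun v _ hv => by
    simp only [hg]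
    rw [if_neg]
    intro h1
    exact hv h1
  refine (ls_mono hf hgF h).trans ?_
  unfold ls
  push_cast
  rw [add_mul]
  refine add_le_add ?_ ?_
  · have h1 : (archAbsVal (K := K)).map g = (archAbsVal (K := K)).map fun _ => e := by
      refine Multiset.map_congr rfl fun v hv => ?_
      simp only [hg]
      rw [if_pos (Or.inl hv)]
    rw [h1, Multiset.map_const', Multiset.sum_replicate, nsmul_eq_mul]
  · have h1 : (Function.support fun v : nonarchAbsVal (K := K) => g v.val) ⊆
        (hpre.toFinset : Set (nonarchAbsVal (K := K))) := by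
      intro v hv
      rw [Set.Finite.coe_toFinset]
      by_contra hcon
      apply hv
      simp only [hg]
      rw [if_neg]
      intro h1
      exact hcon h1
    rw [finsum_eq_sum_of_support_subset _ h1]
    refine (Finset.sum_le_card_nsmul _ _ e fun v _ => ?_).trans_eq ?_
    · simp only [hg]
      split_ifs
      · exact le_rfl
      · exact he
    · rw [nsmul_eq_mul]

/-- If the contact with `y` at each single place is small compared to the height, then `y` is met
modulo a place outside `B`. -/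
theorem hit_of [NumberField K] {L : Type} [Field L] [IsAlgClosed L] [Algebra K L]
    {x : ℕ → Fin (ν + 1) → K} (hx : ∀ n, x n ≠ 0)
    (hh : Tendsto (fun n => logHeight (x n)) atTop atTop)
    {𝒰 : Ultrafilter ℕ} (h𝒰 : (𝒰 : Filter ℕ) ≤ atTop) (hcur : OnC 𝒰 x)
    {y : Fin (ν + 1) → K} (hy : y ≠ 0) (hyC : InCl 𝒰 x y)
    (hne : ∀ᶠ n in (𝒰 : Filter ℕ), cr (x n) y ≠ 0)
    (hBt : ∀ v : AbsoluteValue K ℝ, Mem v → ∀ ε : ℝ, 0 < ε → ∀ᶠ n in (𝒰 : Filter ℕ),
      ct v (x n) y ≤ ε * logHeight (x n))
    {B : Set (AbsoluteValue K ℝ)} (hB : B.Finite) :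
    ∃ n, ∃ v ∈ nonarchAbsVal (K := K), v ∉ B ∧ Cong v (x n) y := by
  classical
  haveI : Infinite K := CharZero.infinite K
  obtain ⟨l₁, l₂, H, H', a, M, A₁, A₂, hT, -, -⟩ := exists_thick (L := L) hcur hy hyC hne
  obtain ⟨c, C, hc, hcC⟩ := thick_height hT hx hne
  by_contra hcon
  push Not at hcon
  obtain ⟨M₀, hM₀⟩ := ls_le_of (K := K) hB
  set ε : ℝ := c / (2 * (M₀ + 1)) with hε
  have hε0 : 0 < ε := by positivity
  -- the finitely many places
  set B' : Set (AbsoluteValue K ℝ) := {v | Mem v ∧ (v ∈ archAbsVal (K := K) ∨ v ∈ B)} with hB'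
  have hB'f : B'.Finite := (finite_arch.union hB).subset fun v hv => hv.2
  have h1 : ∀ᶠ n in (𝒰 : Filter ℕ), ∀ v ∈ B', ct v (x n) y ≤ ε * logHeight (x n) := by
    rw [Filter.eventually_all_finite hB'f]
    exact fun v hv => hBt v hv.1 ε hε0
  have h2 : ∀ᶠ n in (𝒰 : Filter ℕ), 2 * C / c < logHeight (x n) :=
    h𝒰 (hh.eventually_gt_atTop _)
  obtain ⟨n, hn1, hn2, hn3, hn4⟩ := (h1.and (h2.and (hcC.and hne))).exists
  have hh0 : 0 ≤ logHeight (x n) := logHeight_nonneg _
  have h3 := hM₀ (fun v => ct v (x n) y) (ε * logHeight (x n)) (mul_nonneg hε0.le hh0)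
    (FS_ct hn4) (fun v hv => by
      split_ifs with h4
      · exact hn1 v ⟨hv, h4⟩
      · rw [not_or] at h4
        exact ct_nonpos hn4 (hcon n v (hv.resolve_left h4.1) h4.2))
  have h5 : (M₀ : ℝ) * (ε * logHeight (x n)) ≤ c / 2 * logHeight (x n) := by
    rw [← mul_assoc]
    refine mul_le_mul_of_nonneg_right ?_ hh0
    rw [hε, ← mul_div_assoc, div_le_div_iff₀ (by positivity) (by norm_num)]
    nlinarith
  have h6 : c * logHeight (x n) ≤ c / 2 * logHeight (x n) + C := hn3.trans (by linarith)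
  rw [div_lt_iff₀ hc] at hn2
  nlinarith

end Pool.Agent.Helper72.TH
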