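import Pool.Agent.Helper72.TH.CDefs
import Pool.Agent.Helper38.RP.Lev

/-!
# Project TH, part (2): the levels
-/

set_option autoImplicit false

namespace Pool.Agent.Helper72.TH

open MvPolynomial Filter Topology
open Pool.Agent.Helper36 (step iter)
open Pool.Agent.Helper29.TG
open Pool.Agent.Helper65.RP (PD Lev HasOrd GeOrd IsCenter ev van rho)

variable {ν : ℕ} {K : Type} [Field K]

theorem LevZ_iter_hom {F : Fin (ν + 1) → MvPolynomial (Fin (ν + 1)) K} {d : ℕ}
    (hF : ∀ i, (F i).IsHomogeneous d) (m : ℕ) (i : Fin (ν + 1)) :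
    (iter F (fun i => (X i : MvPolynomial (Fin (ν + 1)) K)) m i).IsHomogeneous (d ^ m) := by
  induction m generalizing i with
  | zero => rw [pow_zero]; exact isHomogeneous_X K i
  | succ m ih =>
    rw [Pool.Agent.Helper36.iter_succ, pow_succ]
    exact (hF i).aeval _ ih

theorem LevZ_iter_eval (F : Fin (ν + 1) → MvPolynomial (Fin (ν + 1)) K)
    (G : MvPolynomial (Fin (ν + 1)) K) (m : ℕ) (x : Fin (ν + 1) → K) :
    eval x (aeval (iter F (fun i => (X i : MvPolynomial (Fin (ν + 1)) K)) m) G) =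
      eval (iter F x m) G := by
  have h := Pool.Agent.Helper36.iter_map F (aeval x : MvPolynomial (Fin (ν + 1)) K →ₐ[K] K)
    (fun i => (X i : MvPolynomial (Fin (ν + 1)) K)) m
  simp only [aeval_X] at h
  have h2 : (aeval x : MvPolynomial (Fin (ν + 1)) K →ₐ[K] K)
      (aeval (iter F (fun i => (X i : MvPolynomial (Fin (ν + 1)) K)) m) G) =
      aeval (fun i => (aeval x : MvPolynomial (Fin (ν + 1)) K →ₐ[K] K)
        (iter F (fun i => (X i : MvPolynomial (Fin (ν + 1)) K)) m i)) G :=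
    comp_aeval_apply _ _ _
  rw [← h] at h2
  exact h2

/-- Dehomogenisation. -/
theorem LevZ_dehom {P : MvPolynomial (Fin 3) K} {k : ℕ} (hP : P ≠ 0) (hh : P.IsHomogeneous k) :
    ∃ R : Polynomial (Polynomial K), R ≠ 0 ∧ ∀ s t : K,
      (R.map (Polynomial.evalRingHom s)).eval t = eval ![s, t, 1] P := by
  refine ⟨aeval ![Polynomial.C Polynomial.X, Polynomial.X, 1] P, ?_, fun s t => ?_⟩
  · intro h0
    obtain ⟨m₀, hm₀⟩ := MvPolynomial.ne_zero_iff.1 hP
    have hm₀' : m₀ ∈ P.support := mem_support_iff.2 hm₀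
    have hdeg : ∀ m ∈ P.support, m 0 + m 1 + m 2 = k := by
      intro m hm
      rw [← Fin.sum_univ_three (fun i => m i), ← Df_degree hh hm]
      symm
      exact Finset.sum_subset (Finset.subset_univ _) (fun i _ hi => by simpa using hi)
    have e1 : (aeval ![Polynomial.C Polynomial.X, Polynomial.X, 1] P :
        Polynomial (Polynomial K)) = ∑ m ∈ P.support,
        Polynomial.C (Polynomial.C (P.coeff m) * Polynomial.X ^ m 0) * Polynomial.X ^ m 1 := by
      rw [aeval_def, eval₂_eq']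
      refine Finset.sum_congr rfl fun m _ => ?_
      rw [Fin.prod_univ_three]
      simp only [Matrix.cons_val_zero, Matrix.cons_val_one, Matrix.cons_val, one_pow, mul_one,
        Polynomial.C_mul, Polynomial.C_pow]
      rw [mul_assoc]
      congr 1
    have e2 := congrArg (fun R : Polynomial (Polynomial K) => (R.coeff (m₀ 1)).coeff (m₀ 0)) h0
    simp only [e1, Polynomial.finsetSum_coeff, Polynomial.coeff_zero] at e2
    rw [Finset.sum_eq_single m₀] at e2
    · rw [Polynomial.coeff_C_mul_X_pow, if_pos rfl, Polynomial.coeff_C_mul_X_pow, if_pos rfl] at e2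
      exact hm₀ e2
    · intro m hm hne
      rw [Polynomial.coeff_C_mul_X_pow]
      split_ifs with h1
      · rw [Polynomial.coeff_C_mul_X_pow]
        split_ifs with h2
        · exfalso
          apply hne
          have h3 := hdeg m hm
          have h4 := hdeg m₀ hm₀'
          ext i
          fin_cases i
          · exact h2.symm
          · exact h1.symm
          · show m 2 = m₀ 2
            omega
        · rfl
      · exact Polynomial.coeff_zero _
    · intro h; exact absurd hm₀' h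
  · have h1 := map_aeval ![Polynomial.C Polynomial.X, Polynomial.X, (1 : Polynomial (Polynomial K))]
      ((Polynomial.evalRingHom t).comp (Polynomial.mapRingHom (Polynomial.evalRingHom s))) P
    simp only [RingHom.comp_apply, Polynomial.coe_mapRingHom, Polynomial.coe_evalRingHom] at h1
    rw [h1]
    have h2 : (((Polynomial.evalRingHom t).comp
        (Polynomial.mapRingHom (Polynomial.evalRingHom s))).comp
        (algebraMap K (Polynomial (Polynomial K)))) = RingHom.id K := by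
      ext c
      simp
    rw [h2]
    have h3 : (fun i : Fin 3 => Polynomial.eval t (Polynomial.map (Polynomial.evalRingHom s)
        (![Polynomial.C Polynomial.X, Polynomial.X, (1 : Polynomial (Polynomial K))] i))) =
        ![s, t, 1] := by
      funext i
      fin_cases i <;> simp
    rw [h3]
    rfl

theorem LevZ_alg {𝒰 : Ultrafilter ℕ} (h𝒰 : (𝒰 : Filter ℕ) ≤ atTop)
    {F : Fin (ν + 1) → MvPolynomial (Fin (ν + 1)) K} {d : ℕ}
    (hd : 2 ≤ d) (hF : ∀ i, (F i).IsHomogeneous d) {a : Fin (ν + 1) → K}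
    {G : MvPolynomial (Fin (ν + 1)) K} (hG : G.IsHomogeneous 1)
    (hGn : ∀ᶠ n in (𝒰 : Filter ℕ), eval (iter F a n) G ≠ 0)
    {m : ℕ} (hcf : OnCF 𝒰 (fun n => iter F a (n - m))) (i₀ i : Fin (ν + 1)) :
    ∃ R : Polynomial (Polynomial K), R ≠ 0 ∧ ∀ᶠ n in (𝒰 : Filter ℕ),
      (R.map (Polynomial.evalRingHom (zl F d a G m i₀ n i₀))).eval (zl F d a G m i₀ n i) = 0 := by
  have hD : 1 ≤ d ^ m := Nat.one_le_pow _ _ (by omega)
  obtain ⟨P, k, hP, hh, hev⟩ := hcf (d ^ m) ![X i₀ ^ d ^ m, X i * X i₀ ^ (d ^ m - 1),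
    aeval (iter F (fun i => (X i : MvPolynomial (Fin (ν + 1)) K)) m) G] (by
      intro j
      fin_cases j
      · have := (isHomogeneous_X K i₀).pow (d ^ m)
        rwa [one_mul] at this
      · have := (isHomogeneous_X K i).mul ((isHomogeneous_X K i₀).pow (d ^ m - 1))
        rw [one_mul, Nat.add_sub_cancel' hD] at this
        exact this
      · have := hG.aeval _ (LevZ_iter_hom hF m)
        rw [mul_one] at this
        exact this)
  obtain ⟨R, hR, hR'⟩ := LevZ_dehom hP hh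
  refine ⟨R, hR, ?_⟩
  filter_upwards [hev, hGn, h𝒰 (eventually_ge_atTop m)] with n h1 h2 h3
  rw [hR']
  set c := eval (iter F a n) G with hc
  set x := iter F a (n - m) with hx
  have e1 : (fun j => eval x (![X i₀ ^ d ^ m, X i * X i₀ ^ (d ^ m - 1),
      aeval (iter F (fun i => (X i : MvPolynomial (Fin (ν + 1)) K)) m) G] j)) =
      ![x i₀ ^ d ^ m, x i * x i₀ ^ (d ^ m - 1), c] := by
    funext j
    fin_cases j
    · simp
    · simp
    · have h4 : iter F x m = iter F a n := by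
        rw [hx, ← Pool.Agent.Helper36.iter_add, Nat.add_sub_cancel' h3]
      have h5 := LevZ_iter_eval F G m x
      rw [h4, ← hc] at h5
      exact h5
  have h6 : eval ![x i₀ ^ d ^ m, x i * x i₀ ^ (d ^ m - 1), c] P = 0 := by
    rw [← e1]; exact h1
  have e2 : ![zl F d a G m i₀ n i₀, zl F d a G m i₀ n i, 1] =
      c⁻¹ • ![x i₀ ^ d ^ m, x i * x i₀ ^ (d ^ m - 1), c] := by
    funext j
    fin_cases j
    · show x i₀ * x i₀ ^ (d ^ m - 1) / c = c⁻¹ * x i₀ ^ d ^ m
      rw [← pow_succ', Nat.sub_add_cancel hD, div_eq_inv_mul]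
    · show x i * x i₀ ^ (d ^ m - 1) / c = c⁻¹ * (x i * x i₀ ^ (d ^ m - 1))
      rw [div_eq_inv_mul]
    · show (1 : K) = c⁻¹ * c
      rw [inv_mul_cancel₀ h2]
  rw [e2]
  have h7 := Pool.Agent.Helper36.aeval_smul_homogeneous hh (c⁻¹)
    (![x i₀ ^ d ^ m, x i * x i₀ ^ (d ^ m - 1), c] : Fin 3 → K)
  have h8 : eval (c⁻¹ • ![x i₀ ^ d ^ m, x i * x i₀ ^ (d ^ m - 1), c]) P =
      c⁻¹ ^ k * eval ![x i₀ ^ d ^ m, x i * x i₀ ^ (d ^ m - 1), c] P := h7
  rw [h8, h6, mul_zero]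

theorem exists_lev2 {Ω : Type} [NormedField Ω] [Algebra K Ω] {𝒰 : Ultrafilter ℕ}
    (h𝒰 : (𝒰 : Filter ℕ) ≤ atTop) {F : Fin (ν + 1) → MvPolynomial (Fin (ν + 1)) K} {d : ℕ}
    (hd : 2 ≤ d) (hF : ∀ i, (F i).IsHomogeneous d) {a : Fin (ν + 1) → K}
    (ha : ∀ n, iter F a n ≠ 0) (v : AbsoluteValue K ℝ) (hv : ∀ x, ‖algebraMap K Ω x‖ = v x)
    {G₀ C : ℝ} (hG₀ : ∀ n, |Real.log (nm v (iter F a n)) - (d : ℝ) ^ n * G₀| ≤ C)
    {G : MvPolynomial (Fin (ν + 1)) K} (hG : G.IsHomogeneous 1)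
    (hGn : ∀ᶠ n in (𝒰 : Filter ℕ), eval (iter F a n) G ≠ 0) {σ : ℝ} (hσ : 0 < σ)
    (hlim : Tendsto (fun n => Real.log (v (eval (iter F a n) G)) / (d : ℝ) ^ n) (𝒰 : Filter ℕ)
      (𝓝 (G₀ - σ)))
    (hcf : ∀ m, OnCF 𝒰 (fun n => iter F a (n - m))) (m : ℕ) :
    ∃ i₀, Lev Ω 𝒰 (fun n => σ * (d : ℝ) ^ n) (zl F d a G m i₀) i₀ := by
  have hd1 : (1 : ℝ) < d := by exact_mod_cast lt_of_lt_of_le one_lt_two hd
  have hd0 : (0 : ℝ) < d := by linarith
  have hD : 1 ≤ d ^ m := Nat.one_le_pow _ _ (by omega)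
  have hpow : Tendsto (fun n : ℕ => (d : ℝ) ^ n) atTop atTop :=
    tendsto_pow_atTop_atTop_of_one_lt hd1
  have hs : Tendsto (fun n : ℕ => σ * (d : ℝ) ^ n) (𝒰 : Filter ℕ) atTop :=
    (hpow.const_mul_atTop hσ).mono_left h𝒰
  -- the index
  obtain ⟨i₀, hi₀⟩ := Pool.Agent.Helper65.RP.exists_eventually (𝒰 := 𝒰)
    (p := fun (i : Fin (ν + 1)) n => nm v (iter F a (n - m)) = v (iter F a (n - m) i))
    (Eventually.of_forall fun n => by
      obtain ⟨i, -, hi⟩ := exists_nm_eq v (ha (n - m))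
      exact ⟨i, hi⟩)
  have hval : ∀ᶠ n in (𝒰 : Filter ℕ), v (zl F d a G m i₀ n i₀) =
      nm v (iter F a (n - m)) ^ d ^ m / v (eval (iter F a n) G) := by
    filter_upwards [hi₀] with n h1
    unfold zl
    rw [map_div₀, map_mul, map_pow, ← h1, ← pow_succ', Nat.sub_add_cancel hD]
  have hA : Tendsto (fun n => Real.log (nm v (iter F a n)) / (d : ℝ) ^ n) atTop (𝓝 G₀) := by
    have h1 : Tendsto (fun n : ℕ => C / (d : ℝ) ^ n) atTop (𝓝 0) :=
      tendsto_const_nhds.div_atTop hpow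
    rw [tendsto_iff_dist_tendsto_zero]
    refine squeeze_zero (fun n => dist_nonneg) (fun n => ?_) h1
    have h2 : (0 : ℝ) < (d : ℝ) ^ n := pow_pos hd0 n
    rw [Real.dist_eq, show Real.log (nm v (iter F a n)) / (d : ℝ) ^ n - G₀ =
      (Real.log (nm v (iter F a n)) - (d : ℝ) ^ n * G₀) / (d : ℝ) ^ n by field_simp, abs_div,
      abs_of_pos h2]
    exact div_le_div_of_nonneg_right (hG₀ n) h2.le
  have hA' : Tendsto (fun n => Real.log (nm v (iter F a (n - m))) / (d : ℝ) ^ (n - m))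
      (𝒰 : Filter ℕ) (𝓝 G₀) :=
    (hA.comp (tendsto_sub_atTop_nat m)).mono_left h𝒰
  have htop : HasOrd 𝒰 (fun n : ℕ => σ * (d : ℝ) ^ n)
      (fun n => algebraMap K Ω (zl F d a G m i₀ n i₀)) (-1) := by
    constructor
    · filter_upwards [hval, hGn] with n h1 h2
      rw [← norm_pos_iff, hv, h1]
      exact div_pos (pow_pos (nm_pos v (ha _)) _) (v.pos h2)
    · have h3 : Tendsto (fun n => -(Real.log (nm v (iter F a (n - m))) / (d : ℝ) ^ (n - m) -
          Real.log (v (eval (iter F a n) G)) / (d : ℝ) ^ n) / σ) (𝒰 : Filter ℕ)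
          (𝓝 (-(G₀ - (G₀ - σ)) / σ)) := ((hA'.sub hlim).neg).div_const σ
      have h4 : -(G₀ - (G₀ - σ)) / σ = -1 := by field_simp; ring
      rw [h4] at h3
      refine h3.congr' ?_
      filter_upwards [hval, hGn, h𝒰 (eventually_ge_atTop m)] with n h1 h2 h5
      have h6 : 0 < nm v (iter F a (n - m)) := nm_pos v (ha _)
      rw [hv, h1, Real.log_div (pow_pos h6 _).ne' (v.pos h2).ne', Real.log_pow]
      have h7 : (d : ℝ) ^ n = (d : ℝ) ^ (n - m) * (d : ℝ) ^ m := by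
        rw [← pow_add, Nat.sub_add_cancel h5]
      have h8 : (0 : ℝ) < (d : ℝ) ^ (n - m) := pow_pos hd0 _
      have h9 : (0 : ℝ) < (d : ℝ) ^ m := pow_pos hd0 _
      rw [h7]
      push_cast
      field_simp
  refine ⟨i₀, hs, htop, fun i => ?_, fun i => LevZ_alg h𝒰 hd hF hG hGn (hcf m) i₀ i⟩
  refine GeOrd.of_norm (htop.ge hs) ?_
  filter_upwards [hi₀] with n hn
  rw [hv, hv]
  unfold zl
  rw [map_div₀, map_div₀, map_mul, map_mul]
  refine div_le_div_of_nonneg_right ?_ (v.nonneg _)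
  refine mul_le_mul_of_nonneg_right ?_ (v.nonneg _)
  rw [← hn]
  exact le_nm v _ i

theorem exists_grow2 {Ω : Type} [NormedField Ω] [Algebra K Ω] {𝒰 : Ultrafilter ℕ}
    (h𝒰 : (𝒰 : Filter ℕ) ≤ atTop) {F : Fin (ν + 1) → MvPolynomial (Fin (ν + 1)) K} {d : ℕ}
    (hd : 2 ≤ d) (hF : ∀ i, (F i).IsHomogeneous d) {a : Fin (ν + 1) → K}
    (ha : ∀ n, iter F a n ≠ 0) (v : AbsoluteValue K ℝ) (hv : ∀ x, ‖algebraMap K Ω x‖ = v x)
    {G₀ : ℝ} {Λ : Type} [Fintype Λ] (Z : PD K Ω Λ) (Gl : Λ → ℝ) {C : ℝ}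
    (hGl : ∀ l n, |Real.log (nm (Z.abv l) (iter F a n)) - (d : ℝ) ^ n * Gl l| ≤ C)
    (hO : ∀ n i, iter F a n i ∈ Z.O)
    {G : MvPolynomial (Fin (ν + 1)) K} (hG : G.IsHomogeneous 1)
    (hGO : ∀ n, eval (iter F a n) G ∈ Z.O)
    (hGn : ∀ᶠ n in (𝒰 : Filter ℕ), eval (iter F a n) G ≠ 0) {σ : ℝ} (hσ : 0 < σ)
    (hlim : Tendsto (fun n => Real.log (v (eval (iter F a n) G)) / (d : ℝ) ^ n) (𝒰 : Filter ℕ)
      (𝓝 (G₀ - σ))) (m : ℕ) (i₀ : Fin (ν + 1)) :
    Grow2 Z (G₀ / σ - 1) (fun l => Gl l / σ) 𝒰 (fun n => σ * (d : ℝ) ^ n)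
      (fun n => eval (iter F a n) G) (zl F d a G m i₀) := by
  have hd1 : (1 : ℝ) < d := by exact_mod_cast lt_of_lt_of_le one_lt_two hd
  have hd0 : (0 : ℝ) < d := by linarith
  have hD : 1 ≤ d ^ m := Nat.one_le_pow _ _ (by omega)
  have hpow : Tendsto (fun n : ℕ => (d : ℝ) ^ n) atTop atTop :=
    tendsto_pow_atTop_atTop_of_one_lt hd1
  have hs : Tendsto (fun n : ℕ => σ * (d : ℝ) ^ n) (𝒰 : Filter ℕ) atTop :=
    (hpow.const_mul_atTop hσ).mono_left h𝒰
  have hcz : ∀ᶠ n in (𝒰 : Filter ℕ), ∀ i, eval (iter F a n) G * zl F d a G m i₀ n i =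
      iter F a (n - m) i * iter F a (n - m) i₀ ^ (d ^ m - 1) := by
    filter_upwards [hGn] with n h1 i
    unfold zl
    rw [mul_div_cancel₀ _ h1]
  refine ⟨hGn, Eventually.of_forall hGO, ?_, ?_, ?_, ?_⟩
  · filter_upwards [hcz] with n h1 i
    rw [h1]
    exact Z.O.mul_mem (hO _ _) (Z.O.pow_mem (hO _ _) _)
  · intro ε hε
    have h1 := hlim.eventually (gt_mem_nhds (show G₀ - σ < G₀ - σ + ε * σ by nlinarith))
    filter_upwards [h1, hGn] with n h2 h3
    have h4 : (0 : ℝ) < (d : ℝ) ^ n := pow_pos hd0 n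
    rw [div_lt_iff₀ h4] at h2
    rw [hv, ← Real.exp_log (v.pos h3)]
    refine Real.exp_le_exp.2 (h2.le.trans (le_of_eq ?_))
    field_simp
  · intro ε hε
    have hB : ∃ B : ℝ, 0 < B ∧ ∀ l x, Z.abv l (eval x G) ≤ B * nm (Z.abv l) x := by
      refine ⟨1 + ∑ l, G.support.card * ∑ k ∈ G.support, Z.abv l (G.coeff k), ?_, fun l x => ?_⟩
      · have : 0 ≤ ∑ l, (G.support.card : ℝ) * ∑ k ∈ G.support, Z.abv l (G.coeff k) :=
          Finset.sum_nonneg fun l _ => mul_nonneg (Nat.cast_nonneg _)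
            (Finset.sum_nonneg fun k _ => (Z.abv l).nonneg _)
        linarith
      · have h1 := Df_eval_le (Z.abv l) hG (B := ∑ k ∈ G.support, Z.abv l (G.coeff k))
          (fun k hk => Finset.single_le_sum (f := fun k => Z.abv l (G.coeff k))
            (fun k _ => (Z.abv l).nonneg _) hk) x
        rw [pow_one, ← mul_assoc] at h1
        refine h1.trans (mul_le_mul_of_nonneg_right ?_ (nm_nonneg _ _))
        have h2 : (G.support.card : ℝ) * ∑ k ∈ G.support, Z.abv l (G.coeff k) ≤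
            ∑ l, (G.support.card : ℝ) * ∑ k ∈ G.support, Z.abv l (G.coeff k) :=
          Finset.single_le_sum (f := fun l => (G.support.card : ℝ) *
            ∑ k ∈ G.support, Z.abv l (G.coeff k))
            (fun l _ => mul_nonneg (Nat.cast_nonneg _)
              (Finset.sum_nonneg fun k _ => (Z.abv l).nonneg _)) (Finset.mem_univ l)
        linarith
    obtain ⟨B, hB0, hB⟩ := hB
    filter_upwards [hs.eventually_gt_atTop ((C + Real.log B) / ε)] with n hn l
    rw [div_lt_iff₀ hε] at hn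
    refine (hB l _).trans ?_
    have h6 : 0 < nm (Z.abv l) (iter F a n) := nm_pos _ (ha _)
    rw [← Real.exp_log (mul_pos hB0 h6), Real.log_mul hB0.ne' h6.ne']
    refine Real.exp_le_exp.2 ?_
    have h7 := (abs_le.1 (hGl l n)).2
    have h8 : (Gl l / σ + ε) * (σ * (d : ℝ) ^ n) = (d : ℝ) ^ n * Gl l + σ * (d : ℝ) ^ n * ε := by
      field_simp
    rw [h8]
    linarith
  · intro ε hε
    filter_upwards [hcz, hs.eventually_gt_atTop ((d : ℝ) ^ m * C / ε),
      h𝒰 (eventually_ge_atTop m)] with n h1 hn h5 l i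
    rw [div_lt_iff₀ hε] at hn
    rw [h1]
    set x := iter F a (n - m) with hx
    have h6 : 0 < nm (Z.abv l) x := nm_pos _ (ha _)
    have h9 : Z.abv l (x i * x i₀ ^ (d ^ m - 1)) ≤ nm (Z.abv l) x ^ d ^ m := by
      rw [map_mul, map_pow]
      calc Z.abv l (x i) * Z.abv l (x i₀) ^ (d ^ m - 1)
          ≤ nm (Z.abv l) x * nm (Z.abv l) x ^ (d ^ m - 1) :=
            mul_le_mul (le_nm _ _ _) (pow_le_pow_left₀ ((Z.abv l).nonneg _) (le_nm _ _ _) _)
              (pow_nonneg ((Z.abv l).nonneg _) _) (nm_nonneg _ _)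
        _ = nm (Z.abv l) x ^ d ^ m := by rw [← pow_succ', Nat.sub_add_cancel hD]
    refine h9.trans ?_
    rw [← Real.exp_log (pow_pos h6 (d ^ m)), Real.log_pow]
    refine Real.exp_le_exp.2 ?_
    have h7 := (abs_le.1 (hGl l (n - m))).2
    have h10 : (d : ℝ) ^ n = (d : ℝ) ^ (n - m) * (d : ℝ) ^ m := by
      rw [← pow_add, Nat.sub_add_cancel h5]
    have h8 : (Gl l / σ + ε) * (σ * (d : ℝ) ^ n) =
        (d : ℝ) ^ m * ((d : ℝ) ^ (n - m) * Gl l) + σ * (d : ℝ) ^ n * ε := by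
      rw [h10]
      field_simp
    rw [h8]
    push_cast
    have h11 : (0 : ℝ) ≤ (d : ℝ) ^ m := (pow_pos hd0 m).le
    nlinarith [mul_le_mul_of_nonneg_left h7 h11]

end Pool.Agent.Helper72.TH
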