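import Pool.Agent.Helper72.TH.Green
import Pool.Agent.Helper29.TG.Wedge

/-!
# Project TH, part (2): the map near a point outside the critical set
-/

set_option autoImplicit false

namespace Pool.Agent.Helper72.TH

open MvPolynomial Filter Topology
open Pool.Agent.Helper36 (step iter)
open Pool.Agent.Helper29.TG

variable {ν : ℕ} {K : Type} [Field K]

/-! ### Minors of values of forms -/

theorem Lip_wmon_wedge (v : AbsoluteValue K ℝ) {ι : Type} [Finite ι]
    (y y' : ι → K) : ∀ (e : ℕ) (m n : ι →₀ ℕ), m.degree = e + 1 → n.degree = e + 1 →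
      v (wmon y m * wmon y' n - wmon y n * wmon y' m) ≤
        ((e : ℝ) + 1) * (nm v (cr y y') * nm v y ^ e * nm v y' ^ e) := by
  intro e
  induction e with
  | zero =>
    intro m n hm hn
    obtain ⟨i, m', rfl, hm'⟩ := wedge_single hm
    obtain ⟨j, n', rfl, hn'⟩ := wedge_single hn
    have h1 : m' = 0 := by rwa [Finsupp.degree_eq_zero_iff] at hm'
    have h2 : n' = 0 := by rwa [Finsupp.degree_eq_zero_iff] at hn'
    subst h1
    subst h2
    rw [wmon_add_single, wmon_add_single, wmon_add_single, wmon_add_single]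
    rw [wmon_zero, wmon_zero, one_mul, one_mul, one_mul, one_mul, pow_zero, pow_zero, mul_one,
      mul_one, Nat.cast_zero, zero_add, one_mul]
    exact le_nm v (cr y y') (i, j)
  | succ e ih =>
    intro m n hm hn
    obtain ⟨i, m', rfl, hm'⟩ := wedge_single hm
    obtain ⟨j, n', rfl, hn'⟩ := wedge_single hn
    rw [wmon_add_single, wmon_add_single, wmon_add_single, wmon_add_single]
    have h1 : wmon y m' * y i * (wmon y' n' * y' j) - wmon y n' * y j * (wmon y' m' * y' i) =
        wmon y m' * wmon y' n' * (y i * y' j - y j * y' i) +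
          y j * y' i * (wmon y m' * wmon y' n' - wmon y n' * wmon y' m') := by ring
    have hy := nm_nonneg v y
    have hy' := nm_nonneg v y'
    have hc := nm_nonneg v (cr y y')
    have h3 : v (y i * y' j - y j * y' i) ≤ nm v (cr y y') := le_nm v (cr y y') (i, j)
    have h4 : v (wmon y m' * wmon y' n' * (y i * y' j - y j * y' i)) ≤
        nm v (cr y y') * nm v y ^ (e + 1) * nm v y' ^ (e + 1) := by
      rw [map_mul, map_mul]
      calc v (wmon y m') * v (wmon y' n') * v (y i * y' j - y j * y' i)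
          ≤ nm v y ^ (e + 1) * nm v y' ^ (e + 1) * nm v (cr y y') :=
            mul_le_mul (mul_le_mul (wmon_le v y _ _ hm') (wmon_le v y' _ _ hn') (v.nonneg _)
              (pow_nonneg hy _)) h3 (v.nonneg _)
              (mul_nonneg (pow_nonneg hy _) (pow_nonneg hy' _))
        _ = _ := by ring
    have h5 : v (y j * y' i * (wmon y m' * wmon y' n' - wmon y n' * wmon y' m')) ≤
        ((e : ℝ) + 1) * (nm v (cr y y') * nm v y ^ (e + 1) * nm v y' ^ (e + 1)) := by
      rw [map_mul, map_mul]
      calc v (y j) * v (y' i) * v (wmon y m' * wmon y' n' - wmon y n' * wmon y' m')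
          ≤ nm v y * nm v y' * (((e : ℝ) + 1) * (nm v (cr y y') * nm v y ^ e * nm v y' ^ e)) :=
            mul_le_mul (mul_le_mul (le_nm v y j) (le_nm v y' i) (v.nonneg _) hy)
              (ih m' n' hm' hn') (v.nonneg _) (mul_nonneg hy hy')
        _ = _ := by ring
    rw [h1]
    refine (v.add_le _ _).trans ?_
    push_cast
    linarith

theorem Lip_sum_le (v : AbsoluteValue K ℝ) {α : Type*} (s : Finset α) (f : α → K) :
    v (∑ a ∈ s, f a) ≤ ∑ a ∈ s, v (f a) := by
  classical
  induction s using Finset.induction_on with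
  | empty => simp
  | insert a s ha ih =>
    rw [Finset.sum_insert ha, Finset.sum_insert ha]
    exact (v.add_le _ _).trans (add_le_add le_rfl ih)

/-- `|P(y) Q(y') - Q(y) P(y')| ≤ C |y × y'| |y| ^ e |y'| ^ e` for forms of degree `e + 1`. -/
theorem Lip_wedge (v : AbsoluteValue K ℝ) {ι : Type} [Finite ι] {e : ℕ}
    {P Q : MvPolynomial ι K} (hP : P.IsHomogeneous (e + 1)) (hQ : Q.IsHomogeneous (e + 1)) :
    ∃ C : ℝ, 0 ≤ C ∧ ∀ y y' : ι → K, v (eval y P * eval y' Q - eval y Q * eval y' P) ≤
      C * (nm v (cr y y') * nm v y ^ e * nm v y' ^ e) := by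
  refine ⟨∑ m ∈ P.support, ∑ n ∈ Q.support, v (P.coeff m * Q.coeff n) * ((e : ℝ) + 1),
    Finset.sum_nonneg fun m _ => Finset.sum_nonneg fun n _ =>
      mul_nonneg (v.nonneg _) (by positivity), fun y y' => ?_⟩
  rw [wedge_expand, Finset.sum_mul]
  refine (Lip_sum_le v _ _).trans (Finset.sum_le_sum fun m hm => ?_)
  rw [Finset.sum_mul]
  refine (Lip_sum_le v _ _).trans (Finset.sum_le_sum fun n hn => ?_)
  rw [map_mul, mul_assoc]
  exact mul_le_mul_of_nonneg_left
    (Lip_wmon_wedge v y y' e m n (wedge_degree hP hm) (wedge_degree hQ hn)) (v.nonneg _)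

theorem Lip_step_apply (F : Fin (ν + 1) → MvPolynomial (Fin (ν + 1)) K)
    (x : Fin (ν + 1) → K) (i : Fin (ν + 1)) : step F x i = eval x (F i) := by
  rw [← coe_aeval_eq_eval]
  rfl

theorem Lip_exists_wedge (v : AbsoluteValue K ℝ) {e : ℕ}
    {F : Fin (ν + 1) → MvPolynomial (Fin (ν + 1)) K} (hF : ∀ i, (F i).IsHomogeneous (e + 1)) :
    ∃ C : ℝ, 0 ≤ C ∧ ∀ x y : Fin (ν + 1) → K, nm v (cr (step F x) (step F y)) ≤
      C * (nm v (cr x y) * nm v x ^ e * nm v y ^ e) := by
  choose C hC0 hC using fun q : Fin (ν + 1) × Fin (ν + 1) => Lip_wedge v (hF q.1) (hF q.2)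
  refine ⟨∑ q, C q, Finset.sum_nonneg fun q _ => hC0 q, fun x y => ?_⟩
  have h0 : 0 ≤ nm v (cr x y) * nm v x ^ e * nm v y ^ e :=
    mul_nonneg (mul_nonneg (nm_nonneg v _) (pow_nonneg (nm_nonneg v _) _))
      (pow_nonneg (nm_nonneg v _) _)
  refine nm_le (mul_nonneg (Finset.sum_nonneg fun q _ => hC0 q) h0) fun q => ?_
  have h1 : cr (step F x) (step F y) q =
      eval x (F q.1) * eval y (F q.2) - eval x (F q.2) * eval y (F q.1) := by
    simp only [cr, Lip_step_apply]
  rw [h1]
  refine (hC q x y).trans (mul_le_mul_of_nonneg_right ?_ h0)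
  exact Finset.single_le_sum (fun q _ => hC0 q) (Finset.mem_univ q)

/-- Points close to `y` have images close to the image of `y`. -/
theorem close_step {L : Type} [Field L] [IsAlgClosed L] [Algebra K L]
    {F : Fin (ν + 1) → MvPolynomial (Fin (ν + 1)) K} {d : ℕ} (hF : ∀ i, (F i).IsHomogeneous d)
    (hnz : ∀ x : Fin (ν + 1) → L, (∀ i, aeval x (F i) = 0) → x = 0)
    (v : AbsoluteValue K ℝ) :
    ∃ C : ℝ, 0 < C ∧ ∀ x y : Fin (ν + 1) → K,
      nm v (cr (step F x) (step F y)) * (nm v x * nm v y) ≤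
        C * nm v (cr x y) * (nm v (step F x) * nm v (step F y)) := by
  obtain ⟨C₁, hC₁, h1⟩ := exists_nm_step hF hnz v
  cases d with
  | zero =>
    refine ⟨1, one_pos, fun x y => ?_⟩
    have h2 : cr (step F x) (step F y) = 0 := by
      funext q
      have hc : ∀ i, ∃ a, F i = C a := fun i => by
        have := (totalDegree_eq_zero_iff_eq_C).1 (Nat.le_zero.1 ((hF i).totalDegree_le))
        exact ⟨_, this⟩
      obtain ⟨a, ha⟩ := hc q.1
      obtain ⟨b, hb⟩ := hc q.2
      simp only [cr, Lip_step_apply, ha, hb, eval_C, Pi.zero_apply]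
      ring
    have h3 : nm v (0 : Fin (ν + 1) × Fin (ν + 1) → K) = 0 :=
      le_antisymm (nm_le le_rfl fun q => by simp) (nm_nonneg v _)
    rw [h2, h3, zero_mul]
    exact mul_nonneg (mul_nonneg zero_le_one (nm_nonneg v _))
      (mul_nonneg (nm_nonneg v _) (nm_nonneg v _))
  | succ e =>
    obtain ⟨C₂, hC₂, h2⟩ := Lip_exists_wedge v hF
    refine ⟨(C₂ + 1) * C₁ ^ 2, by positivity, fun x y => ?_⟩
    have hx := nm_nonneg v x
    have hy := nm_nonneg v y
    have hc := nm_nonneg v (cr x y)
    have hFx := nm_nonneg v (step F x)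
    have hFy := nm_nonneg v (step F y)
    have hx2 := (h1 x).2
    have hy2 := (h1 y).2
    calc nm v (cr (step F x) (step F y)) * (nm v x * nm v y)
        ≤ C₂ * (nm v (cr x y) * nm v x ^ e * nm v y ^ e) * (nm v x * nm v y) :=
          mul_le_mul_of_nonneg_right (h2 x y) (mul_nonneg hx hy)
      _ = C₂ * nm v (cr x y) * (nm v x ^ (e + 1) * nm v y ^ (e + 1)) := by ring
      _ ≤ (C₂ + 1) * nm v (cr x y) * (nm v x ^ (e + 1) * nm v y ^ (e + 1)) := by
          refine mul_le_mul_of_nonneg_right (mul_le_mul_of_nonneg_right (by linarith) hc) ?_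
          positivity
      _ ≤ (C₂ + 1) * nm v (cr x y) * (C₁ * nm v (step F x) * (C₁ * nm v (step F y))) := by
          refine mul_le_mul_of_nonneg_left (mul_le_mul hx2 hy2 (by positivity) ?_) ?_
          · exact mul_nonneg (by linarith) hFx
          · exact mul_nonneg (by linarith) hc
      _ = _ := by ring

/-! ### Taylor expansion -/

theorem Lip_taylor (v : AbsoluteValue K ℝ) (P : MvPolynomial (Fin (ν + 1)) K)
    (y : Fin (ν + 1) → K) :
    ∃ C : ℝ, 0 ≤ C ∧ ∀ h : Fin (ν + 1) → K, nm v h ≤ 1 →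
      v (eval (y + h) P - eval y P - ∑ j, eval y (pderiv j P) * h j) ≤ C * nm v h ^ 2 := by
  classical
  induction P using MvPolynomial.induction_on with
  | C a =>
    refine ⟨0, le_rfl, fun h _ => ?_⟩
    simp
  | add p q hp hq =>
    obtain ⟨C₁, h10, h1⟩ := hp
    obtain ⟨C₂, h20, h2⟩ := hq
    refine ⟨C₁ + C₂, add_nonneg h10 h20, fun h hh => ?_⟩
    have h3 : eval (y + h) (p + q) - eval y (p + q) - ∑ j, eval y (pderiv j (p + q)) * h j =
        (eval (y + h) p - eval y p - ∑ j, eval y (pderiv j p) * h j) +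
        (eval (y + h) q - eval y q - ∑ j, eval y (pderiv j q) * h j) := by
      simp only [map_add, add_mul, Finset.sum_add_distrib]
      ring
    rw [h3, add_mul]
    exact (v.add_le _ _).trans (add_le_add (h1 h hh) (h2 h hh))
  | mul_X p n hp =>
    obtain ⟨C₁, h10, h1⟩ := hp
    refine ⟨C₁ * (v (y n) + 1) + ∑ j, v (eval y (pderiv j p)), ?_, fun h hh => ?_⟩
    · exact add_nonneg (mul_nonneg h10 (by positivity)) (Finset.sum_nonneg fun j _ => v.nonneg _)
    have hS : ∑ j, eval y (pderiv j (p * X n)) * h j =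
        (∑ j, eval y (pderiv j p) * h j) * y n + eval y p * h n := by
      have h4 : ∀ j, eval y (pderiv j (p * X n)) * h j =
          eval y (pderiv j p) * h j * y n +
            eval y p * ((Pi.single n (1 : K) : Fin (ν + 1) → K) j * h j) := by
        intro j
        rw [(pderiv j).leibniz, pderiv_X]
        simp only [smul_eq_mul, map_add, map_mul, eval_X]
        by_cases hj : j = n
        · subst hj
          simp
          ring
        · rw [Pi.single_eq_of_ne (Ne.symm hj), Pi.single_eq_of_ne hj]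
          simp
          ring
      simp only [h4, Finset.sum_add_distrib, ← Finset.sum_mul, ← Finset.mul_sum]
      congr 2
      rw [Finset.sum_eq_single n]
      · simp
      · intro j _ hj
        rw [Pi.single_eq_of_ne hj, zero_mul]
      · intro hn
        exact absurd (Finset.mem_univ n) hn
    have h5 : eval (y + h) (p * X n) - eval y (p * X n) - ∑ j, eval y (pderiv j (p * X n)) * h j =
        (eval (y + h) p - eval y p - ∑ j, eval y (pderiv j p) * h j) * (y n + h n) +
          (∑ j, eval y (pderiv j p) * h j) * h n := by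
      rw [hS]
      simp only [map_mul, eval_X, Pi.add_apply]
      ring
    rw [h5]
    have hn := nm_nonneg v h
    have h6 : v (h n) ≤ nm v h := le_nm v h n
    have h7 : v (y n + h n) ≤ v (y n) + 1 :=
      (v.add_le _ _).trans (add_le_add le_rfl (h6.trans hh))
    have h8 : v (∑ j, eval y (pderiv j p) * h j) ≤ (∑ j, v (eval y (pderiv j p))) * nm v h := by
      refine (Lip_sum_le v _ _).trans ?_
      rw [Finset.sum_mul]
      refine Finset.sum_le_sum fun j _ => ?_
      rw [map_mul]
      exact mul_le_mul_of_nonneg_left (le_nm v h j) (v.nonneg _)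
    refine (v.add_le _ _).trans ?_
    rw [map_mul, map_mul, add_mul]
    refine add_le_add ?_ ?_
    · calc v (eval (y + h) p - eval y p - ∑ j, eval y (pderiv j p) * h j) * v (y n + h n)
          ≤ C₁ * nm v h ^ 2 * (v (y n) + 1) :=
            mul_le_mul (h1 h hh) h7 (v.nonneg _) (mul_nonneg h10 (pow_nonneg hn _))
        _ = _ := by ring
    · calc v (∑ j, eval y (pderiv j p) * h j) * v (h n)
          ≤ (∑ j, v (eval y (pderiv j p))) * nm v h * nm v h :=
            mul_le_mul h8 h6 (v.nonneg _)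
              (mul_nonneg (Finset.sum_nonneg fun j _ => v.nonneg _) hn)
        _ = _ := by ring

/-- A matrix does not increase the norm by more than a constant factor. -/
theorem Lip_mulVec (v : AbsoluteValue K ℝ) (A : Matrix (Fin (ν + 1)) (Fin (ν + 1)) K) :
    ∃ C : ℝ, 0 ≤ C ∧ ∀ u : Fin (ν + 1) → K, nm v (A.mulVec u) ≤ C * nm v u := by
  refine ⟨∑ i, ∑ j, v (A i j), Finset.sum_nonneg fun i _ => Finset.sum_nonneg fun j _ =>
    v.nonneg _, fun u => ?_⟩
  have hu := nm_nonneg v u
  refine nm_le (mul_nonneg (Finset.sum_nonneg fun i _ => Finset.sum_nonneg fun j _ =>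
    v.nonneg _) hu) fun i => ?_
  have h1 : v (A.mulVec u i) ≤ (∑ j, v (A i j)) * nm v u := by
    unfold Matrix.mulVec dotProduct
    refine (Lip_sum_le v _ _).trans ?_
    rw [Finset.sum_mul]
    refine Finset.sum_le_sum fun j _ => ?_
    rw [map_mul]
    exact mul_le_mul_of_nonneg_left (le_nm v u j) (v.nonneg _)
  refine h1.trans (mul_le_mul_of_nonneg_right ?_ hu)
  exact Finset.single_le_sum (f := fun i => ∑ j, v (A i j))
    (fun i _ => Finset.sum_nonneg fun j _ => v.nonneg _) (Finset.mem_univ i)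

theorem Lip_smul_step {d : ℕ} {F : Fin (ν + 1) → MvPolynomial (Fin (ν + 1)) K}
    (hF : ∀ i, (F i).IsHomogeneous d) (c : K) (x : Fin (ν + 1) → K) :
    step F (c • x) = c ^ d • step F x := by
  funext i
  exact Pool.Agent.Helper36.aeval_smul_homogeneous (hF i) c x

theorem Lip_cr_smul (c : K) (x y : Fin (ν + 1) → K) : cr (c • x) y = c • cr x y := by
  funext q
  simp only [cr, Pi.smul_apply, smul_eq_mul]
  ring

theorem Lip_nm_add (v : AbsoluteValue K ℝ) (x y : Fin (ν + 1) → K) :
    nm v (x + y) ≤ nm v x + nm v y := by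
  refine nm_le (add_nonneg (nm_nonneg v _) (nm_nonneg v _)) fun i => ?_
  exact (v.add_le _ _).trans (add_le_add (le_nm v x i) (le_nm v y i))

theorem Lip_det (F : Fin (ν + 1) → MvPolynomial (Fin (ν + 1)) K) (y : Fin (ν + 1) → K) :
    (Matrix.of fun i j => eval y (pderiv j (F i))).det =
      eval y (Pool.Agent.Helper30.TKN.jf F) := by
  unfold Pool.Agent.Helper30.TKN.jf
  rw [RingHom.map_det]
  rfl

/-- The normalised form of `lip_step`: `h` has a zero coordinate where `y` is maximal. -/
theorem Lip_core [CharZero K] {L : Type} [Field L] [IsAlgClosed L] [Algebra K L]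
    {F : Fin (ν + 1) → MvPolynomial (Fin (ν + 1)) K} {d : ℕ} (hd : 1 ≤ d)
    (hF : ∀ i, (F i).IsHomogeneous d)
    (hnz : ∀ x : Fin (ν + 1) → L, (∀ i, aeval x (F i) = 0) → x = 0)
    (v : AbsoluteValue K ℝ) {y : Fin (ν + 1) → K} (hy : y ≠ 0)
    (hJ : eval y (Pool.Agent.Helper30.TKN.jf F) ≠ 0) {i₀ : Fin (ν + 1)}
    (hi₀ : nm v y = v (y i₀)) :
    ∃ C δ : ℝ, 0 < C ∧ 0 < δ ∧ ∀ h : Fin (ν + 1) → K, h i₀ = 0 → nm v h < δ →
      nm v h ≤ C * nm v (cr (step F (y + h)) (step F y)) := by
  classical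
  choose T hT0 hT using fun i => Lip_taylor v (F i) y
  set M : Matrix (Fin (ν + 1)) (Fin (ν + 1)) K := Matrix.of fun i j => eval y (pderiv j (F i))
    with hM
  have hdet : M.det ≠ 0 := by
    rw [hM, Lip_det]
    exact hJ
  obtain ⟨B, hB0, hB⟩ := Lip_mulVec v M⁻¹
  have hyp := nm_pos v hy
  obtain ⟨C₁, hC₁, h1⟩ := exists_nm_step hF hnz v
  have hFy : 0 < nm v (step F y) := by
    have h2 := (h1 y).2
    have h3 : 0 < nm v y ^ d := pow_pos hyp d
    by_contra hcon
    have h4 : nm v (step F y) = 0 := le_antisymm (not_lt.1 hcon) (nm_nonneg v _)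
    rw [h4, mul_zero] at h2
    linarith
  have hFy0 : step F y ≠ 0 := by
    intro h0
    rw [h0] at hFy
    have h3 : nm v (0 : Fin (ν + 1) → K) = 0 :=
      le_antisymm (nm_le le_rfl fun q => by simp) (nm_nonneg v _)
    rw [h3] at hFy
    exact lt_irrefl _ hFy
  obtain ⟨j₀, hj0, hj⟩ := exists_nm_eq v hFy0
  set S : ℝ := ∑ i, T i with hS
  have hS0 : 0 ≤ S := Finset.sum_nonneg fun i _ => hT0 i
  have hd0 : (d : K) ≠ 0 := Nat.cast_ne_zero.2 (by omega)
  have hMy : M.mulVec y = (d : K) • step F y := by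
    funext i
    have h2 := congrArg (eval y) ((hF i).sum_X_mul_pderiv)
    rw [Pi.smul_apply, smul_eq_mul, Lip_step_apply]
    simp only [map_sum, map_mul, eval_X, nsmul_eq_mul, map_natCast] at h2
    rw [← h2, hM]
    unfold Matrix.mulVec dotProduct
    refine Finset.sum_congr rfl fun j _ => ?_
    exact mul_comm _ _
  refine ⟨4 * (B + 1) / nm v (step F y), min 1 (1 / (4 * (B + 1) * (S + 1))), by positivity,
    lt_min one_pos (by positivity), fun h hh0 hh => ?_⟩
  have hh1 : nm v h ≤ 1 := (hh.trans_le (min_le_left _ _)).le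
  have hh2 : nm v h ≤ 1 / (4 * (B + 1) * (S + 1)) := (hh.trans_le (min_le_right _ _)).le
  have hn := nm_nonneg v h
  set W : ℝ := nm v (cr (step F (y + h)) (step F y)) with hW
  have hW0 : 0 ≤ W := nm_nonneg v _
  set lam : K := step F (y + h) j₀ / step F y j₀ with hlam
  -- the vector `F(x) - λ F(y)` is small
  set R : Fin (ν + 1) → K := fun i =>
    eval (y + h) (F i) - eval y (F i) - ∑ j, eval y (pderiv j (F i)) * h j with hR
  have hR1 : nm v R ≤ S * nm v h ^ 2 := by
    refine nm_le (mul_nonneg hS0 (pow_nonneg hn _)) fun i => ?_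
    refine (hT i h hh1).trans (mul_le_mul_of_nonneg_right ?_ (pow_nonneg hn _))
    exact Finset.single_le_sum (fun i _ => hT0 i) (Finset.mem_univ i)
  have hG1 : nm v (step F (y + h) - lam • step F y) ≤ W / nm v (step F y) := by
    refine nm_le (div_nonneg hW0 hFy.le) fun i => ?_
    have h2 : (step F (y + h) - lam • step F y) i =
        cr (step F (y + h)) (step F y) (i, j₀) / step F y j₀ := by
      simp only [Pi.sub_apply, Pi.smul_apply, smul_eq_mul, cr, hlam]
      field_simp
    rw [h2, map_div₀, hj]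
    exact div_le_div_of_nonneg_right (le_nm v _ _) (v.nonneg _)
  set t : K := (1 - lam) / d with ht
  have hlin : step F (y + h) - lam • step F y = M.mulVec (h + t • y) + R := by
    rw [Matrix.mulVec_add, Matrix.mulVec_smul, hMy]
    funext i
    simp only [Pi.add_apply, Pi.sub_apply, Pi.smul_apply, smul_eq_mul, hR, Lip_step_apply, hM]
    unfold Matrix.mulVec dotProduct
    simp only [Matrix.of_apply]
    have h3 : t * ((d : K) * eval y (F i)) = (1 - lam) * eval y (F i) := by
      rw [ht]
      field_simp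
    rw [h3]
    ring
  have hu : h + t • y = M⁻¹.mulVec (step F (y + h) - lam • step F y - R) := by
    rw [hlin, add_sub_cancel_right, Matrix.mulVec_mulVec,
      Matrix.nonsing_inv_mul _ (isUnit_iff_ne_zero.2 hdet), Matrix.one_mulVec]
  have hu1 : nm v (h + t • y) ≤ B * (W / nm v (step F y) + S * nm v h ^ 2) := by
    rw [hu]
    refine (hB _).trans (mul_le_mul_of_nonneg_left ?_ hB0)
    rw [sub_eq_add_neg]
    refine (Lip_nm_add v _ _).trans (add_le_add hG1 ?_)
    rw [contact_nm_neg]
    exact hR1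
  have hty : v t * nm v y ≤ nm v (h + t • y) := by
    have h2 := le_nm v (h + t • y) i₀
    rw [Pi.add_apply, hh0, zero_add, Pi.smul_apply, smul_eq_mul, map_mul] at h2
    rw [hi₀]
    exact h2
  have hhu : nm v h ≤ 2 * nm v (h + t • y) := by
    have h2 : h = (h + t • y) + (-(t • y)) := by
      rw [add_neg_cancel_right]
    have h3 : nm v h ≤ nm v (h + t • y) + v t * nm v y := by
      conv_lhs => rw [h2]
      refine (Lip_nm_add v _ _).trans (add_le_add le_rfl ?_)
      rw [contact_nm_neg, nm_smul]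
    linarith
  have h9 : 2 * (B + 1) * (S + 1) * nm v h ^ 2 ≤ nm v h / 2 := by
    have h10 : (4 * (B + 1) * (S + 1)) * nm v h ≤ 1 := by
      rw [le_div_iff₀ (by positivity)] at hh2
      linarith
    nlinarith
  have h11 : B * (W / nm v (step F y) + S * nm v h ^ 2) ≤
      (B + 1) * (W / nm v (step F y)) + (B + 1) * (S + 1) * nm v h ^ 2 := by
    have h12 : 0 ≤ W / nm v (step F y) := div_nonneg hW0 hFy.le
    have h13 : 0 ≤ nm v h ^ 2 := pow_nonneg hn _
    nlinarith [mul_nonneg hB0 h13, mul_nonneg hS0 h13]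
  have h14 : 4 * (B + 1) / nm v (step F y) * W = 4 * ((B + 1) * (W / nm v (step F y))) := by
    field_simp
  rw [h14]
  linarith

/-- Near a point where the Jacobian determinant is not zero the distance is not contracted by more
than a constant factor. -/
theorem lip_step [CharZero K] {L : Type} [Field L] [IsAlgClosed L] [Algebra K L]
    {F : Fin (ν + 1) → MvPolynomial (Fin (ν + 1)) K} {d : ℕ} (hd : 1 ≤ d)
    (hF : ∀ i, (F i).IsHomogeneous d)
    (hnz : ∀ x : Fin (ν + 1) → L, (∀ i, aeval x (F i) = 0) → x = 0)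
    (v : AbsoluteValue K ℝ) {y : Fin (ν + 1) → K} (hy : y ≠ 0)
    (hJ : eval y (Pool.Agent.Helper30.TKN.jf F) ≠ 0) :
    ∃ C δ : ℝ, 0 < C ∧ 0 < δ ∧ ∀ x : Fin (ν + 1) → K, x ≠ 0 →
      nm v (cr x y) < δ * (nm v x * nm v y) →
      nm v (cr x y) * (nm v (step F x) * nm v (step F y)) ≤
        C * nm v (cr (step F x) (step F y)) * (nm v x * nm v y) := by
  obtain ⟨i₀, hi0, hi₀⟩ := exists_nm_eq v hy
  have hyp := nm_pos v hy
  obtain ⟨A, δ, hA, hδ, hcore⟩ := Lip_core hd hF hnz v hy hJ hi₀
  obtain ⟨C₁, hC₁, h1⟩ := exists_nm_step hF hnz v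
  obtain ⟨e, rfl⟩ : ∃ e, d = e + 1 := ⟨d - 1, by omega⟩
  have hFy := nm_nonneg v (step F y)
  refine ⟨2 * A * (nm v (step F y) + 1) * C₁ * (2 * nm v y) ^ e, min (1 / 2) (δ / (2 * nm v y)),
    by positivity, lt_min (by norm_num) (by positivity), fun x hx hxy => ?_⟩
  have hxp := nm_pos v hx
  have hxy1 : nm v (cr x y) < 1 / 2 * (nm v x * nm v y) :=
    hxy.trans_le (mul_le_mul_of_nonneg_right (min_le_left _ _) (by positivity))
  have hxy2 : nm v (cr x y) < δ / (2 * nm v y) * (nm v x * nm v y) :=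
    hxy.trans_le (mul_le_mul_of_nonneg_right (min_le_right _ _) (by positivity))
  obtain ⟨i, hi0', hi⟩ := exists_nm_eq v hx
  have hxi : nm v x ≤ 2 * v (x i₀) := by
    have h2 : x i * y i₀ = cr x y (i, i₀) + x i₀ * y i := by
      simp only [cr]
      ring
    have h3 : v (x i * y i₀) ≤ nm v (cr x y) + v (x i₀) * nm v y := by
      rw [h2]
      refine (v.add_le _ _).trans (add_le_add (le_nm v _ _) ?_)
      rw [map_mul]
      exact mul_le_mul_of_nonneg_left (le_nm v y i) (v.nonneg _)
    rw [map_mul, ← hi, ← hi₀] at h3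
    have h4 : nm v x * nm v y < (2 * v (x i₀)) * nm v y := by linarith
    exact (lt_of_mul_lt_mul_right h4 hyp.le).le
  have hxi0 : x i₀ ≠ 0 := by
    intro h0
    rw [h0, map_zero, mul_zero] at hxi
    linarith
  -- scale `x`
  set μ : K := x i₀ / y i₀ with hμ
  have hμ0 : μ ≠ 0 := div_ne_zero hxi0 hi0
  have hμp : 0 < v μ := v.pos hμ0
  set h : Fin (ν + 1) → K := μ⁻¹ • x - y with hh
  have hxh : x = μ • (y + h) := by
    rw [hh, add_sub_cancel, smul_smul, mul_inv_cancel₀ hμ0, one_smul]
  have hh0 : h i₀ = 0 := by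
    simp only [hh, Pi.sub_apply, Pi.smul_apply, smul_eq_mul, hμ]
    field_simp
    ring
  have hcr : cr x y = μ • cr (y + h) y := by
    conv_lhs => rw [hxh]
    rw [Lip_cr_smul]
  have hcr2 : cr (y + h) y = cr h y := by
    funext q
    simp only [cr, Pi.add_apply]
    ring
  have hnx : nm v x = v μ * nm v (y + h) := by
    conv_lhs => rw [hxh]
    rw [nm_smul]
  have hnc : nm v (cr x y) = v μ * nm v (cr h y) := by
    rw [hcr, hcr2, nm_smul]
  have hyh : nm v (y + h) ≤ 2 * nm v y := by
    have h2 : v (x i₀) = v μ * v (y i₀) := by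
      rw [← map_mul, hμ]
      congr 1
      field_simp
    rw [h2, ← hi₀, hnx] at hxi
    have h3 : v μ * nm v (y + h) ≤ v μ * (2 * nm v y) := by linarith
    exact le_of_mul_le_mul_left h3 hμp
  have hhb : nm v h * nm v y ≤ nm v (cr h y) := by
    by_cases hz : h = 0
    · rw [hz]
      have h3 : nm v (0 : Fin (ν + 1) → K) = 0 :=
        le_antisymm (nm_le le_rfl fun q => by simp) (nm_nonneg v _)
      rw [h3, zero_mul]
      exact nm_nonneg v _
    · obtain ⟨j, hj0, hj⟩ := exists_nm_eq v hz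
      have h2 := le_nm v (cr h y) (j, i₀)
      simp only [cr, hh0, zero_mul, sub_zero, map_mul] at h2
      rw [hj, hi₀]
      exact h2
  have hhs : nm v h < δ := by
    have h2 : v μ * (nm v h * nm v y) < v μ * (δ * nm v y) := by
      calc v μ * (nm v h * nm v y) ≤ v μ * nm v (cr h y) :=
            mul_le_mul_of_nonneg_left hhb hμp.le
        _ = nm v (cr x y) := hnc.symm
        _ < δ / (2 * nm v y) * (nm v x * nm v y) := hxy2
        _ = δ / 2 * nm v x := by field_simp
        _ ≤ δ / 2 * (v μ * (2 * nm v y)) := by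
            rw [hnx]
            exact mul_le_mul_of_nonneg_left (mul_le_mul_of_nonneg_left hyh hμp.le) (by positivity)
        _ = v μ * (δ * nm v y) := by ring
    have h3 := lt_of_mul_lt_mul_left h2 hμp.le
    exact lt_of_mul_lt_mul_right h3 hyp.le
  have hmain := hcore h hh0 hhs
  have hcb : nm v (cr h y) ≤ 2 * (nm v h * nm v y) := contact_cr_le_two v h y
  have hs : step F x = μ ^ (e + 1) • step F (y + h) := by
    conv_lhs => rw [hxh]
    rw [Lip_smul_step hF]
  have hs1 : nm v (step F x) = v μ ^ (e + 1) * nm v (step F (y + h)) := by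
    rw [hs, nm_smul, map_pow]
  have hs2 : nm v (cr (step F x) (step F y)) =
      v μ ^ (e + 1) * nm v (cr (step F (y + h)) (step F y)) := by
    rw [hs, Lip_cr_smul, nm_smul, map_pow]
  have hFh := (h1 (y + h)).1
  have hyh0 := nm_nonneg v (y + h)
  have hW0 := nm_nonneg v (cr (step F (y + h)) (step F y))
  have hFh2 : nm v (step F (y + h)) ≤ C₁ * ((2 * nm v y) ^ e * nm v (y + h)) := by
    refine hFh.trans (mul_le_mul_of_nonneg_left ?_ (by linarith))
    rw [pow_succ]
    exact mul_le_mul_of_nonneg_right (pow_le_pow_left₀ hyh0 hyh e) hyh0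
  have hFh0 := nm_nonneg v (step F (y + h))
  rw [hnc, hs1, hs2, hnx]
  have hfin : nm v (cr h y) * (nm v (step F (y + h)) * nm v (step F y)) ≤
      2 * A * (nm v (step F y) + 1) * C₁ * (2 * nm v y) ^ e *
        nm v (cr (step F (y + h)) (step F y)) * (nm v (y + h) * nm v y) := by
    calc nm v (cr h y) * (nm v (step F (y + h)) * nm v (step F y))
        ≤ 2 * (A * nm v (cr (step F (y + h)) (step F y)) * nm v y) *
            (C₁ * ((2 * nm v y) ^ e * nm v (y + h)) * (nm v (step F y) + 1)) := by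
          refine mul_le_mul (hcb.trans ?_) (mul_le_mul hFh2 (by linarith) hFy (by positivity))
            (mul_nonneg hFh0 hFy) (by positivity)
          exact mul_le_mul_of_nonneg_left (mul_le_mul_of_nonneg_right hmain hyp.le) (by norm_num)
      _ = _ := by ring
  have hμe : 0 ≤ v μ ^ (e + 1) * v μ := by positivity
  calc v μ * nm v (cr h y) * (v μ ^ (e + 1) * nm v (step F (y + h)) * nm v (step F y))
      = (v μ ^ (e + 1) * v μ) *
          (nm v (cr h y) * (nm v (step F (y + h)) * nm v (step F y))) := by ring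
    _ ≤ (v μ ^ (e + 1) * v μ) * (2 * A * (nm v (step F y) + 1) * C₁ * (2 * nm v y) ^ e *
        nm v (cr (step F (y + h)) (step F y)) * (nm v (y + h) * nm v y)) :=
        mul_le_mul_of_nonneg_left hfin hμe
    _ = _ := by ring

end Pool.Agent.Helper72.TH
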