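import Pool.Agent.Helper72.TH.MainA
import Pool.Agent.Helper72.TH.Curve
import Pool.Agent.Helper72.TH.Desc
import Pool.Agent.Helper65.TB.Hit
import Pool.Agent.Helper38.TQ.CurveSet
import Pool.Agent.Helper38.TQ.PreperC

/-!
# Project TH, part (2): curves through points of tame invariant sets, number fields
-/

set_option autoImplicit false

namespace Pool.Agent.Helper72.TH

open MvPolynomial Filter Topology Height Height.AdmissibleAbsValues
open Pool.Agent.Helper36 (step iter)
open Pool.Agent.Helper38.TQ (IsEndo PEq CurveSet)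
open Pool.Agent.Helper29.TG
open Pool.Agent.Helper72.PN (MainN_sets MainN_endo MainN_ne MainN_preper MainN_hom)

variable {ν : ℕ}

/-- Finitely many points of an orbit in the first closed set lie on `q = 0`. -/
theorem chain_finite {K L : Type} [Field K] [Field L] [Algebra K L]
    {F : Fin (ν + 1) → MvPolynomial (Fin (ν + 1)) K}
    (hnz : ∀ x : Fin (ν + 1) → L, (∀ i, aeval x (F i) = 0) → x = 0)
    {q : MvPolynomial (Fin (ν + 1)) K} {n : ℕ} {W : Fin n → MvPolynomial (Fin (ν + 1)) K}
    {δ : Fin n → ℕ} {S : ℕ → Finset (Fin n)} {k : ℕ} (hc : Chain L F q W δ S k)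
    {x : Fin (ν + 1) → L} (hx0 : x ≠ 0) (hx : ∀ j ∈ S 0, aeval x (W j) = 0) :
    {i : ℕ | aeval (iter F x i) q = 0}.Finite := by
  classical
  have hne : ∀ l, iter F x l ≠ 0 := by
    intro l
    induction l with
    | zero => exact hx0
    | succ l ih =>
      rw [Pool.Agent.Helper36.iter_succ]
      intro h
      exact ih (hnz _ fun i => congrFun h i)
  have hst : ∀ l, (fun i => aeval (iter F x l) (F i)) = iter F x (l + 1) := by
    intro l
    rw [Pool.Agent.Helper36.iter_succ]
    rfl
  have hfwd : ∀ m < k, ∀ l l', l ≤ l' → (∀ j ∈ S m, aeval (iter F x l) (W j) = 0) →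
      ∀ j ∈ S m, aeval (iter F x l') (W j) = 0 := by
    intro m hm l l' hll h
    induction l', hll using Nat.le_induction with
    | base => exact h
    | succ l' _ ih =>
      rw [← hst]
      exact hc.inv m hm _ ih
  by_contra hinf
  have hinf : {i : ℕ | aeval (iter F x i) q = 0}.Infinite := hinf
  have key : ∀ m ≤ k, ∃ l, ∀ j ∈ S m, aeval (iter F x l) (W j) = 0 := by
    intro m
    induction m with
    | zero => exact fun _ => ⟨0, hx⟩
    | succ m ih =>
      intro hm
      obtain ⟨l, hl⟩ := ih (by omega)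
      obtain ⟨i, hi, hli⟩ := hinf.exists_gt l
      refine ⟨i + 1, ?_⟩
      rw [← hst]
      exact hc.down m (by omega) _ (hfwd m (by omega) _ _ hli.le hl) hi
  obtain ⟨l, hl⟩ := key k le_rfl
  exact hne l (hc.empty _ hl)

/-- The forms over `K` that vanish at almost all points of the sequence. -/
def vanK {K : Type} [Field K] (𝒰 : Ultrafilter ℕ) (x : ℕ → Fin (ν + 1) → K) :
    Set (MvPolynomial (Fin (ν + 1)) K) :=
  {g | (∃ e, g.IsHomogeneous e) ∧ ∀ᶠ n in (𝒰 : Filter ℕ), eval (x n) g = 0}

/-- Almost all points of the sequence are zeros of all these forms. -/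
theorem vanK_mem {K : Type} [Field K] (𝒰 : Ultrafilter ℕ) (x : ℕ → Fin (ν + 1) → K) :
    ∀ᶠ n in (𝒰 : Filter ℕ), ∀ g ∈ vanK 𝒰 x, eval (x n) g = 0 := by
  classical
  have hfg : (Ideal.span (vanK 𝒰 x)).FG := IsNoetherian.noetherian _
  obtain ⟨t, ht, hspan⟩ := Submodule.fg_span_iff_fg_span_finset_subset _ |>.1 hfg
  have h1 : ∀ᶠ n in (𝒰 : Filter ℕ), ∀ g ∈ t, eval (x n) g = 0 := by
    rw [eventually_all_finset]
    exact fun g hg => (ht hg).2
  filter_upwards [h1] with n hn g hg
  have h2 : g ∈ Ideal.span (vanK 𝒰 x) := Ideal.subset_span hg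
  have h3 : Ideal.span (vanK 𝒰 x) = Ideal.span (t : Set (MvPolynomial (Fin (ν + 1)) K)) := hspan
  rw [h3] at h2
  have h4 : Ideal.span (t : Set (MvPolynomial (Fin (ν + 1)) K)) ≤ RingHom.ker (eval (x n)) :=
    Ideal.span_le.2 fun Q hQ => RingHom.mem_ker.2 (hn Q hQ)
  exact RingHom.mem_ker.1 (h4 h2)

/-- The iterates of `F`, as polynomials. -/
theorem iter_X_hom {K : Type} [Field K] {F : Fin (ν + 1) → MvPolynomial (Fin (ν + 1)) K} {d : ℕ}
    (hF : ∀ i, (F i).IsHomogeneous d) (s : ℕ) (i : Fin (ν + 1)) :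
    (iter F (X : Fin (ν + 1) → MvPolynomial (Fin (ν + 1)) K) s i).IsHomogeneous (d ^ s) := by
  induction s generalizing i with
  | zero => exact isHomogeneous_X K i
  | succ s ih =>
    rw [Pool.Agent.Helper36.iter_succ, pow_succ, ]
    exact (hF i).aeval _ ih

theorem aeval_iter_X {K A : Type} [Field K] [CommRing A] [Algebra K A]
    (F : Fin (ν + 1) → MvPolynomial (Fin (ν + 1)) K) (p : Fin (ν + 1) → A) (s : ℕ)
    (g : MvPolynomial (Fin (ν + 1)) K) :
    aeval p (bind₁ (iter F (X : Fin (ν + 1) → MvPolynomial (Fin (ν + 1)) K) s) g) =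
      aeval (iter F p s) g := by
  rw [aeval_bind₁]
  have h1 := Pool.Agent.Helper36.iter_map F (aeval p : MvPolynomial (Fin (ν + 1)) K →ₐ[K] A) X s
  have h2 : (fun i => aeval p (X i : MvPolynomial (Fin (ν + 1)) K)) = p := by
    funext i
    rw [aeval_X]
  rw [h2] at h1
  rw [h1]

/-- Chains and base change of the coefficients. -/
theorem Chain.base {K K' L : Type} [Field K] [Field K'] [Field L] [Algebra K K'] [Algebra K' L]
    [Algebra K L] [IsScalarTower K K' L] {F : Fin (ν + 1) → MvPolynomial (Fin (ν + 1)) K}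
    {q : MvPolynomial (Fin (ν + 1)) K} {n : ℕ} {W : Fin n → MvPolynomial (Fin (ν + 1)) K}
    {δ : Fin n → ℕ} {S : ℕ → Finset (Fin n)} {k : ℕ} (hc : Chain L F q W δ S k) :
    Chain L (fun i => map (algebraMap K K') (F i)) (map (algebraMap K K') q)
      (fun j => map (algebraMap K K') (W j)) δ S k where
  hom := fun j => (hc.hom j).map _
  inv := by
    intro i hi x hx j hj
    simp only [aeval_map_algebraMap] at hx ⊢
    exact hc.inv i hi x hx j hj
  down := by
    intro i hi x hx hq j hj
    simp only [aeval_map_algebraMap] at hx hq ⊢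
    exact hc.down i hi x hx hq j hj
  empty := by
    intro x hx
    simp only [aeval_map_algebraMap] at hx
    exact hc.empty x hx

theorem map_jf {K K' : Type} [Field K] [Field K'] [Algebra K K']
    (F : Fin (ν + 1) → MvPolynomial (Fin (ν + 1)) K) :
    map (algebraMap K K') (Pool.Agent.Helper30.TKN.jf F) =
      Pool.Agent.Helper30.TKN.jf fun i => map (algebraMap K K') (F i) := by
  unfold Pool.Agent.Helper30.TKN.jf
  rw [RingHom.map_det]
  congr 1
  ext i j : 2
  simp only [RingHom.mapMatrix_apply, Matrix.map_apply, Matrix.of_apply]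
  rw [pderiv_map]

/-- Two congruent points have congruent iterates. -/
theorem Cong.iter {K : Type} [Field K] {v : AbsoluteValue K ℝ}
    {F : Fin (ν + 1) → MvPolynomial (Fin (ν + 1)) K} {d : ℕ}
    (hF : ∀ i, (F i).IsHomogeneous d) (hG : GoodF v F d)
    {x y : Fin (ν + 1) → K} (hx : ∀ n, Pool.Agent.Helper36.iter F x n ≠ 0)
    (hy : ∀ n, Pool.Agent.Helper36.iter F y n ≠ 0) (h : Cong v x y) (s : ℕ) :
    Cong v (Pool.Agent.Helper36.iter F x s) (Pool.Agent.Helper36.iter F y s) := by
  induction s with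
  | zero => exact h
  | succ s ih =>
    rw [Pool.Agent.Helper36.iter_succ, Pool.Agent.Helper36.iter_succ]
    exact Cong.step hF hG (hx s) (hy s) ih

/-- **Curves which meet the backward orbit of a tame invariant set, number fields.** The curve is
given by forms over `ℂ` which vanish at almost all points of the orbit, along an ultrafilter; `p` is
a zero of all forms over the number field with this property. -/
theorem mainC {K : Type} [Field K] [NumberField K] [Algebra K ℂ] {d : ℕ}
    {F : Fin (ν + 1) → MvPolynomial (Fin (ν + 1)) K}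
    (hF : IsEndo d fun i => map (algebraMap K ℂ) (F i)) {n : ℕ}
    {W : Fin n → MvPolynomial (Fin (ν + 1)) K} {δ : Fin n → ℕ} {S : ℕ → Finset (Fin n)} {k : ℕ}
    (hc : Chain ℂ F (Pool.Agent.Helper30.TKN.jf F) W δ S k)
    {x : Fin (ν + 1) → K} (hx : x ≠ 0)
    (hpre : ¬ ∃ n m, n < m ∧ PEq (iter F x n) (iter F x m))
    {𝒰 : Ultrafilter ℕ} (h𝒰 : (𝒰 : Filter ℕ) ≤ atTop)
    {V : Set (MvPolynomial (Fin (ν + 1)) ℂ)} (hcur : CurveSet V)
    (hUV : ∀ᶠ n in (𝒰 : Filter ℕ), ∀ g ∈ V,
      eval (fun i => algebraMap K ℂ (iter F x n i)) g = 0)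
    {p : Fin (ν + 1) → ℂ} (hp0 : p ≠ 0)
    (hp : ∀ (g : MvPolynomial (Fin (ν + 1)) K) (e : ℕ), g.IsHomogeneous e →
      (∀ᶠ n in (𝒰 : Filter ℕ), eval (iter F x n) g = 0) → aeval p g = 0)
    {s : ℕ} (hps : ∀ j ∈ S 0, aeval (iter F p s) (W j) = 0) :
    Pool.Agent.Helper38.Sym.DMLgen (fun i => map (algebraMap K ℂ) (F i))
      (fun i => algebraMap K ℂ (x i)) := by
  classical
  have hne : ∀ n, iter F x n ≠ 0 := fun n => MainN_ne hF hx n
  have hhom : ∀ i, (F i).IsHomogeneous d := fun i => MainN_hom hF i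
  have hcr := cr_ne hF hx hpre
  set TK := vanK 𝒰 (fun n => iter F x n) with hTK
  -- an algebraic point
  obtain ⟨K', _, _, _, _, _, y, hy0, hy⟩ := exists_algebraic_zero (K := K)
    (TK ∪ {g | ∃ j ∈ S 0, g = bind₁ (iter F (X : Fin (ν + 1) → MvPolynomial (Fin (ν + 1)) K) s)
      (W j)}) (by
      rintro g (⟨⟨e, he⟩, -⟩ | ⟨j, -, rfl⟩)
      · exact ⟨e, he⟩
      · exact ⟨_, (hc.hom j).aeval _ fun i => iter_X_hom hhom s i⟩) hp0 (by
      rintro g (⟨⟨e, he⟩, hg⟩ | ⟨j, hj, rfl⟩)
      · exact hp g e he hg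
      · rw [aeval_iter_X]
        exact hps j hj)
  -- base change
  set F' : Fin (ν + 1) → MvPolynomial (Fin (ν + 1)) K' := fun i => map (algebraMap K K') (F i)
    with hF'
  set x' : Fin (ν + 1) → K' := fun i => algebraMap K K' (x i) with hx'
  set W' : Fin n → MvPolynomial (Fin (ν + 1)) K' := fun j => map (algebraMap K K') (W j) with hW'
  have hmm : ∀ P : MvPolynomial (Fin (ν + 1)) K, map (algebraMap K' ℂ) (map (algebraMap K K') P) =
      map (algebraMap K ℂ) P := by
    intro P
    rw [MvPolynomial.map_map, ← IsScalarTower.algebraMap_eq]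
  have hFe' : IsEndo d fun i => map (algebraMap K' ℂ) (F' i) := by
    have h1 : (fun i => map (algebraMap K' ℂ) (F' i)) = fun i => map (algebraMap K ℂ) (F i) :=
      funext fun i => hmm (F i)
    rw [h1]
    exact hF
  have hit' : ∀ m, iter F' x' m = fun i => algebraMap K K' (iter F x m i) := by
    intro m
    rw [hF', Pool.Agent.Helper38.TQ.iter_map_base F x' m]
    exact Pool.Agent.Helper36.iter_map F (Algebra.ofId K K') x m
  have hx'0 : x' ≠ 0 := by
    intro h
    apply hx
    funext i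
    exact (map_eq_zero_iff _ (algebraMap K K').injective).1 (congrFun h i)
  have hpre' : ¬ ∃ n m, n < m ∧ PEq (iter F' x' n) (iter F' x' m) := by
    rintro ⟨a, b, hab, h⟩
    rw [hit', hit'] at h
    exact hpre ⟨a, b, hab, Pool.Agent.Helper38.TQ.PEq.descend (algebraMap K K') (hne _) (hne _) h⟩
  have hne' : ∀ n, iter F' x' n ≠ 0 := fun n => MainN_ne hFe' hx'0 n
  have hney : ∀ n, iter F' y n ≠ 0 := fun n => MainN_ne hFe' hy0 n
  have hhom' : ∀ i, (F' i).IsHomogeneous d := fun i => MainN_hom hFe' i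
  have hcr' := cr_ne hFe' hx'0 hpre'
  have hnz' : ∀ y : Fin (ν + 1) → ℂ, (∀ i, aeval y (F' i) = 0) → y = 0 := by
    intro y hy
    refine hFe'.nz y fun i => ?_
    rw [eval_map]
    exact hy i
  have hc' : Chain ℂ F' (Pool.Agent.Helper30.TKN.jf F') W' δ S k := by
    have h1 := hc.base (K' := K')
    rw [map_jf] at h1
    exact h1
  -- the iterate of `y` in the closed set
  have hys : ∀ j ∈ S 0, eval (iter F' y s) (W' j) = 0 := by
    intro j hj
    have h1 := hy _ (Or.inr ⟨j, hj, rfl⟩)
    rw [aeval_iter_X] at h1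
    rw [hW', eval_map, hF', Pool.Agent.Helper38.TQ.iter_map_base F y s]
    exact h1
  -- finitely many critical iterates
  have hfin : {i : ℕ | eval (iter F' y i) (Pool.Agent.Helper30.TKN.jf F') = 0}.Finite := by
    have h1 : ∀ i, (fun l => algebraMap K' ℂ (iter F' y i l)) =
        iter F' (fun l => algebraMap K' ℂ (y l)) i := fun i =>
      (Pool.Agent.Helper36.iter_map F' (Algebra.ofId K' ℂ) y i).symm
    have h0 : ∀ g : MvPolynomial (Fin (ν + 1)) K', ∀ i, eval (iter F' y i) g = 0 ↔
        aeval (iter F' (fun l => algebraMap K' ℂ (y l)) i) g = 0 := by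
      intro g i
      rw [← h1 i]
      have h2 := (aeval_algebraMap_apply ℂ (iter F' y i) g)
      rw [aeval_eq_eval] at h2
      have h3 : aeval (fun l => algebraMap K' ℂ (iter F' y i l)) g =
          algebraMap K' ℂ (eval (iter F' y i) g) := h2
      rw [h3, map_eq_zero_iff _ (algebraMap K' ℂ).injective]
    have h2 := chain_finite hnz' hc' (x := iter F' (fun l => algebraMap K' ℂ (y l)) s) (by
        rw [← h1 s]
        intro h
        apply hney s
        funext l
        exact (map_eq_zero_iff _ (algebraMap K' ℂ).injective).1 (congrFun h l))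
      (fun j hj => (h0 (W' j) s).1 (hys j hj))
    refine ((h2.image fun i => i + s).union (Set.finite_lt_nat s)).subset ?_
    intro i hi
    rcases Nat.lt_or_ge i s with h3 | h3
    · exact Or.inr h3
    · refine Or.inl ⟨i - s, ?_, Nat.sub_add_cancel h3⟩
      have h4 : iter F' (iter F' (fun l => algebraMap K' ℂ (y l)) s) (i - s) =
          iter F' (fun l => algebraMap K' ℂ (y l)) i := by
        rw [← Pool.Agent.Helper36.iter_add, Nat.sub_add_cancel h3]
      change aeval (iter F' (iter F' (fun l => algebraMap K' ℂ (y l)) s) (i - s)) _ = 0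
      rw [h4]
      exact (h0 _ i).1 hi
  -- the curve over `K'`
  have hcur' : OnC 𝒰 (fun m => iter F' x' m) := by
    intro a
    obtain ⟨P, e, hP, hPh, hPU⟩ := hcur K' (fun m => iter F' x' m) 𝒰 (by
      filter_upwards [hUV] with m hm g hg
      have h1 := hm g hg
      rw [hit' m]
      simp only [← IsScalarTower.algebraMap_apply K K' ℂ]
      exact h1) a
    exact ⟨P, e, hPh, hP, hPU⟩
  have hyC : InCl 𝒰 (fun m => iter F' x' m) y := by
    intro g e hg hgU
    refine van_descend (K := K) (x := fun n => iter F x n) (𝒰 := 𝒰)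
      (fun g e he h => hy g (Or.inl ⟨⟨e, he⟩, h⟩)) hg ?_
    filter_upwards [hgU] with m hm
    rw [hit' m] at hm
    exact hm
  -- good places
  have hJ : (Pool.Agent.Helper30.TKN.jf F' * 1).IsHomogeneous ((ν + 1) * (d - 1) + 0) := by
    rw [mul_one, add_zero]
    unfold Pool.Agent.Helper30.TKN.jf
    rw [Matrix.det_apply]
    refine IsHomogeneous.sum _ _ _ fun σ _ => ?_
    rw [show (ν + 1) * (d - 1) = ∑ _i : Fin (ν + 1), (d - 1) by simp]
    have h1 : (∏ i : Fin (ν + 1), (Matrix.of fun i j => pderiv j (F' i)) (σ i) i).IsHomogeneous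
        (∑ _i : Fin (ν + 1), (d - 1)) :=
      IsHomogeneous.prod _ _ _ fun i _ => (hhom' (σ i)).pderiv
    rcases Int.units_eq_one_or (Equiv.Perm.sign σ) with h2 | h2
    · rw [h2, one_smul]
      exact h1
    · rw [h2, Units.neg_smul, one_smul]
      exact h1.neg
  have hc1 : Chain ℂ F' (Pool.Agent.Helper30.TKN.jf F' * 1) W' δ S k := by
    rw [mul_one]
    exact hc'
  obtain ⟨B, hB, hgood⟩ := exists_chainV hhom' hnz' hJ hc1
  haveI : Infinite K' := CharZero.infinite K'
  obtain ⟨J, hJp, hJh, ⟨δJ, cJ, hδJ⟩, hJf, hJall⟩ := exists_ideal hne' hcur'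
  obtain ⟨n₀, hn₀⟩ := hfin.bddAbove
  have hyJ : ∀ g ∈ J, eval y g = 0 := by
    intro g hg
    rw [← sum_homogeneousComponent g, map_sum]
    refine Finset.sum_eq_zero fun i _ => ?_
    exact hyC _ i (homogeneousComponent_isHomogeneous i g)
      ((hJf _ i (homogeneousComponent_isHomogeneous i g)).1 (hJh g hg i))
  obtain ⟨m, v, hv, hvB, hcong⟩ := (Pool.Agent.Helper65.TB.hit_point (L := ℂ) hFe'.two_le hhom'
    hnz' hcr' h𝒰 hJp hJh hδJ (fun g hg => by
      filter_upwards [hJall] with m hm
      exact hm g hg) (fun g e hg hgJ => by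
      rw [hJf g e hg] at hgJ
      exact Ultrafilter.eventually_not.2 hgJ) hy0 hyJ (n₀ := n₀ + 1) (fun i hi h => by
        have := hn₀ h
        omega) hB).exists
  have hcong : Cong v (iter F' x' m) y := hcong
  obtain ⟨hG, hcv⟩ := hgood v hv hvB
  have h0 : InZ v W' δ (S 0) (iter F' x' (s + m)) := by
    have h1 : Cong v (iter F' (iter F' x' m) s) (iter F' y s) := by
      refine Cong.iter hhom' hG (fun l => ?_) hney hcong s
      rw [← Pool.Agent.Helper36.iter_add]
      exact hne' _
    rw [Pool.Agent.Helper36.iter_add]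
    refine inZ_of_cong hG.na hc1.hom hcv.W_int (hney s) ?_ h1.symm fun j hj => ?_
    · rw [← Pool.Agent.Helper36.iter_add]
      exact hne' _
    · unfold Sm
      rw [hys j hj, map_zero]
      exact pow_pos (nm_pos v (hney s)) _
  have hdml := dml_of_hit hhom' hv hG (isHomogeneous_one _ _) (fun m => by
      rw [coeff_one]
      split_ifs
      · rw [map_one]
      · rw [map_zero]
        exact zero_le_one) hc1.hom hcv hne' hcr' h0 (L := ℂ)
  have h1 : (fun i => map (algebraMap K' ℂ) (F' i)) = fun i => map (algebraMap K ℂ) (F i) :=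
    funext fun i => hmm (F i)
  have h2 : (fun i => algebraMap K' ℂ (x' i)) = fun i => algebraMap K ℂ (x i) := by
    funext i
    exact (IsScalarTower.algebraMap_apply K K' ℂ (x i)).symm
  rw [h1, h2] at hdml
  exact hdml

end Pool.Agent.Helper72.TH
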