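import Pool.Agent.Helper72.TH.Defs
import Pool.Agent.Helper72.PN.BadN

/-!
# Project TH: the pullbacks of a form cannot all be small at a place
-/

set_option autoImplicit false

namespace Pool.Agent.Helper72.TH

open MvPolynomial Height Height.AdmissibleAbsValues
open Pool.Agent.Helper36 (step iter)
open Pool.Agent.Helper29.TG

variable {ν : ℕ} {K : Type} [Field K]

/-- The form `R ∘ F^j`. -/
theorem Null_comp (F : Fin (ν + 1) → MvPolynomial (Fin (ν + 1)) K)
    (R : MvPolynomial (Fin (ν + 1)) K) (j : ℕ) :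
    ∃ G : MvPolynomial (Fin (ν + 1)) K, ∀ {B : Type} [Field B] [Algebra K B]
      (y : Fin (ν + 1) → B), aeval y G = aeval (iter F y j) R := by
  induction j with
  | zero => exact ⟨R, fun y => rfl⟩
  | succ j ih =>
    obtain ⟨G, hG⟩ := ih
    refine ⟨aeval F G, fun y => ?_⟩
    rw [Pool.Agent.Helper36.iter_succ', ← hG]
    exact comp_aeval_apply F (aeval y) G

/-- The Nullstellensatz. -/
theorem Null_ns {L : Type} [Field L] [IsAlgClosed L] [Algebra K L] {T : Finset ℕ}
    {G : ℕ → MvPolynomial (Fin (ν + 1)) K}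
    (h : ∀ x : Fin (ν + 1) → L, (∀ j ∈ T, aeval x (G j) = 0) → x = 0) (k : Fin (ν + 1)) :
    ∃ (r : ℕ) (c : ℕ → MvPolynomial (Fin (ν + 1)) K), ∑ j ∈ T, c j * G j = X k ^ r := by
  classical
  have h2 : (X k : MvPolynomial (Fin (ν + 1)) K) ∈
      (Ideal.span (Set.range fun j : T => G j)).radical := by
    rw [← MvPolynomial.vanishingIdeal_zeroLocus_eq_radical (K := L)]
    rw [MvPolynomial.mem_vanishingIdeal_iff]
    intro x hx
    rw [MvPolynomial.mem_zeroLocus_iff] at hx
    have : x = 0 := h x fun j hj => hx _ (Ideal.subset_span ⟨⟨j, hj⟩, rfl⟩)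
    rw [this]
    simp
  obtain ⟨r, hr⟩ := h2
  rw [Ideal.mem_span_range_iff_exists_fun] at hr
  obtain ⟨c, hc⟩ := hr
  refine ⟨r, fun j => if hj : j ∈ T then c ⟨j, hj⟩ else 0, ?_⟩
  rw [← hc, ← Finset.sum_attach]
  refine Finset.sum_congr rfl fun j _ => ?_
  change (dite ((j : ℕ) ∈ T) (fun hj => c ⟨j, hj⟩) (fun _ => 0)) * G j = _
  rw [dif_pos j.2]

theorem Null_bd (v : AbsoluteValue K ℝ) (P : MvPolynomial (Fin (ν + 1)) K) (B : ℝ) :
    ∃ C : ℝ, ∀ y : Fin (ν + 1) → K, (∀ i, v (y i) ≤ B) → v (eval y P) ≤ C := by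
  induction P using MvPolynomial.induction_on with
  | C a => exact ⟨v a, fun y _ => by rw [eval_C]⟩
  | add p q hp hq =>
    obtain ⟨C₁, h1⟩ := hp
    obtain ⟨C₂, h2⟩ := hq
    refine ⟨C₁ + C₂, fun y hy => ?_⟩
    rw [map_add]
    exact (v.add_le _ _).trans (add_le_add (h1 y hy) (h2 y hy))
  | mul_X p n hp =>
    obtain ⟨C₁, h1⟩ := hp
    refine ⟨C₁ * B, fun y hy => ?_⟩
    rw [map_mul, map_mul, eval_X]
    exact mul_le_mul (h1 y hy) (hy n) (v.nonneg _) ((v.nonneg _).trans (h1 y hy))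

theorem Null_iter (v : AbsoluteValue K ℝ) (F : Fin (ν + 1) → MvPolynomial (Fin (ν + 1)) K)
    (j : ℕ) : ∃ C : ℝ, 1 ≤ C ∧ ∀ y : Fin (ν + 1) → K, (∀ i, v (y i) ≤ 1) →
      ∀ i, v (iter F y j i) ≤ C := by
  induction j with
  | zero => exact ⟨1, le_rfl, fun y hy i => hy i⟩
  | succ j ih =>
    obtain ⟨C, -, hC⟩ := ih
    choose c hc using fun i => Null_bd v (F i) C
    refine ⟨1 + ∑ i, |c i|, ?_, fun y hy i => ?_⟩
    · have : 0 ≤ ∑ i, |c i| := Finset.sum_nonneg fun i _ => abs_nonneg _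
      linarith
    · rw [Pool.Agent.Helper36.iter_succ]
      have h1 : step F (iter F y j) i = eval (iter F y j) (F i) :=
        congrArg (fun φ => φ (F i)) (MvPolynomial.coe_aeval_eq_eval (iter F y j))
      rw [h1]
      have h2 := hc i (iter F y j) (fun l => hC y hy l)
      have h3 : |c i| ≤ ∑ i, |c i| :=
        Finset.single_le_sum (f := fun i => |c i|) (fun i _ => abs_nonneg _) (Finset.mem_univ i)
      have h4 := le_abs_self (c i)
      linarith

theorem Null_df_smul (v : AbsoluteValue K ℝ) {R : MvPolynomial (Fin (ν + 1)) K} {t : ℕ}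
    (hR : R.IsHomogeneous t) {c : K} (hc : c ≠ 0) {z : Fin (ν + 1) → K} (hz : z ≠ 0)
    (hRz : eval z R ≠ 0) : df v R t (c • z) = df v R t z := by
  unfold df
  rw [nm_smul, Pool.Agent.Helper72.PN.KeyN_smul hR, map_mul, map_pow,
    Real.log_mul (v.pos hc).ne' (nm_pos v hz).ne',
    Real.log_mul (pow_ne_zero _ (v.pos hc).ne') (v.pos hRz).ne', Real.log_pow]
  ring

/-- If the forms `R ∘ F^j`, `j ∈ T`, have no common zero, then at each absolute value one of the
defects `t log |F^j x| - log |R (F^j x)|` is bounded. -/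
theorem exists_df_le {L : Type} [Field L] [IsAlgClosed L] [Algebra K L]
    {F : Fin (ν + 1) → MvPolynomial (Fin (ν + 1)) K} {d : ℕ} (hd : 1 ≤ d)
    (hF : ∀ i, (F i).IsHomogeneous d)
    (hnz : ∀ x : Fin (ν + 1) → L, (∀ i, aeval x (F i) = 0) → x = 0)
    {R : MvPolynomial (Fin (ν + 1)) K} {t : ℕ} (hR : R.IsHomogeneous t) (T : Finset ℕ)
    (hT : ∀ x : Fin (ν + 1) → L,
      (∀ j ∈ T, aeval (iter (fun i => map (algebraMap K L) (F i)) x j) R = 0) → x = 0)
    (v : AbsoluteValue K ℝ) :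
    ∃ C : ℝ, ∀ x : Fin (ν + 1) → K, x ≠ 0 → ∃ j ∈ T, eval (iter F x j) R ≠ 0 ∧
      df v R t (iter F x j) ≤ C := by
  classical
  -- the iterates of nonzero vectors are not zero
  have hstep : ∀ z : Fin (ν + 1) → K, z ≠ 0 → step F z ≠ 0 := by
    intro z hz h0
    apply hz
    have h1 : (fun i => algebraMap K L (z i)) = 0 := by
      refine hnz _ fun i => ?_
      have h2 := aeval_algebraMap_apply L z (F i)
      have h3 : aeval z (F i) = 0 := congrFun h0 i
      rw [h3, map_zero] at h2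
      exact h2
    funext i
    have h2 := congrFun h1 i
    exact (map_eq_zero (algebraMap K L)).1 h2
  have hiter : ∀ z : Fin (ν + 1) → K, z ≠ 0 → ∀ j, iter F z j ≠ 0 := by
    intro z hz j
    induction j with
    | zero => exact hz
    | succ j ih =>
      rw [Pool.Agent.Helper36.iter_succ]
      exact hstep _ ih
  -- the pullbacks
  choose G hG using fun j => Null_comp F R j
  have hmap : ∀ (x : Fin (ν + 1) → L) (j : ℕ),
      iter (fun i => map (algebraMap K L) (F i)) x j = iter F x j := by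
    intro x j
    induction j with
    | zero => rfl
    | succ j ih =>
      rw [Pool.Agent.Helper36.iter_succ, Pool.Agent.Helper36.iter_succ, ih]
      funext i
      exact aeval_map_algebraMap L (iter F x j) (F i)
  have hG0 : ∀ x : Fin (ν + 1) → L, (∀ j ∈ T, aeval x (G j) = 0) → x = 0 := by
    intro x hx
    refine hT x fun j hj => ?_
    rw [hmap, ← hG j]
    exact hx j hj
  have hGe : ∀ (y : Fin (ν + 1) → K) (j : ℕ), eval y (G j) = eval (iter F y j) R := by
    intro y j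
    have h1 := hG j y
    have h2 : aeval y (G j) = eval y (G j) := congrArg (fun φ => φ (G j)) (coe_aeval_eq_eval y)
    have h3 : aeval (iter F y j) R = eval (iter F y j) R :=
      congrArg (fun φ => φ R) (coe_aeval_eq_eval (iter F y j))
    rw [← h2, h1, h3]
  choose r c hc using fun k => Null_ns hG0 k
  -- the constants
  choose D hD using fun (k : Fin (ν + 1)) (j : ℕ) => Null_bd v (c k j) 1
  choose C hC1 hC using fun j => Null_iter v F j
  set E : ℝ := 1 + ∑ k, ∑ j ∈ T, |D k j| with hE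
  have hEk : ∀ k, ∑ j ∈ T, |D k j| < E := by
    intro k
    have h1 : ∑ j ∈ T, |D k j| ≤ ∑ k, ∑ j ∈ T, |D k j| :=
      Finset.single_le_sum (f := fun k => ∑ j ∈ T, |D k j|)
        (fun k _ => Finset.sum_nonneg fun j _ => abs_nonneg _) (Finset.mem_univ k)
    linarith
  have hE0 : 0 < E := lt_of_le_of_lt (Finset.sum_nonneg fun j _ => abs_nonneg _) (hEk 0)
  refine ⟨∑ j ∈ T, t * Real.log (C j) + Real.log E, fun x hx => ?_⟩
  obtain ⟨k, hk, hkx⟩ := exists_nm_eq v hx
  set y : Fin (ν + 1) → K := (x k)⁻¹ • x with hy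
  have hy0 : y ≠ 0 := smul_ne_zero (inv_ne_zero hk) hx
  have hyk : y k = 1 := by
    rw [hy, Pi.smul_apply, smul_eq_mul, inv_mul_cancel₀ hk]
  have hy1 : ∀ i, v (y i) ≤ 1 := by
    intro i
    rw [hy, Pi.smul_apply, smul_eq_mul, map_mul, map_inv₀, inv_mul_le_iff₀ (v.pos hk), mul_one,
      ← hkx]
    exact le_nm v x i
  -- one of the values is large
  obtain ⟨j, hj, hjy⟩ : ∃ j ∈ T, E⁻¹ ≤ v (eval (iter F y j) R) := by
    by_contra hcon
    push Not at hcon
    have h1 := congrArg (eval y) (hc k)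
    rw [map_pow, eval_X, hyk, one_pow, map_sum] at h1
    have h2 : v (∑ j ∈ T, eval y (c k j * G j)) ≤ ∑ j ∈ T, |D k j| * E⁻¹ := by
      refine (v.sum_le _ _).trans (Finset.sum_le_sum fun j hj => ?_)
      rw [map_mul, map_mul, hGe]
      exact mul_le_mul ((hD k j y hy1).trans (le_abs_self _)) (hcon j hj).le (v.nonneg _)
        (abs_nonneg _)
    rw [h1, map_one, ← Finset.sum_mul, ← div_eq_mul_inv, one_le_div hE0] at h2
    exact absurd (hEk k) (not_lt.2 h2)
  have hRy : eval (iter F y j) R ≠ 0 := by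
    intro h0
    rw [h0, map_zero] at hjy
    exact absurd (inv_pos.2 hE0) (not_lt.2 hjy)
  have hdf : df v R t (iter F y j) ≤ ∑ j ∈ T, t * Real.log (C j) + Real.log E := by
    unfold df
    have h1 : Real.log (nm v (iter F y j)) ≤ Real.log (C j) :=
      Real.log_le_log (nm_pos v (hiter y hy0 j))
        (nm_le (zero_le_one.trans (hC1 j)) (hC j y hy1))
    have h2 : -Real.log E ≤ Real.log (v (eval (iter F y j) R)) := by
      rw [← Real.log_inv]
      exact Real.log_le_log (inv_pos.2 hE0) hjy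
    have h3 : (t : ℝ) * Real.log (C j) ≤ ∑ j ∈ T, t * Real.log (C j) :=
      Finset.single_le_sum (f := fun j => (t : ℝ) * Real.log (C j))
        (fun j _ => mul_nonneg (Nat.cast_nonneg _) (Real.log_nonneg (hC1 j))) hj
    have h4 := mul_le_mul_of_nonneg_left h1 (Nat.cast_nonneg t : (0 : ℝ) ≤ t)
    linarith
  -- back to `x`
  have hpeq : Pool.Agent.Helper36.PEq y x := by
    refine ⟨x k, hk, ?_⟩
    rw [hy, smul_smul, mul_inv_cancel₀ hk, one_smul]
  obtain ⟨b, hb, hbx⟩ := hpeq.iter hF j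
  refine ⟨j, hj, ?_, ?_⟩
  · rw [hbx, Pool.Agent.Helper72.PN.KeyN_smul hR]
    exact mul_ne_zero (pow_ne_zero _ hb) hRy
  · rw [hbx, Null_df_smul v hR hb (hiter y hy0 j) hRy]
    exact hdf

end Pool.Agent.Helper72.TH
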