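import Pool.Agent.Helper33.RP.ExistsPD
import Pool.Agent.Helper72.TH.CDefs

/-!
# Project TH, part (2): places, integers and the Subspace theorem, with the comparison to heights
-/

set_option autoImplicit false

namespace Pool.Agent.Helper72.TH

open MvPolynomial Filter Topology Height Height.AdmissibleAbsValues
open Pool.Agent.Helper29.TG
open Pool.Agent.Helper65.RP (PD)

/-- As `exists_pd`, for a prescribed finite set `B` of bad places: elements which are integral
outside `B` lie in `O`, the product inequality for all absolute values together, and the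
logarithmic height of a vector with norm `1` outside `B`. -/
theorem exists_pdB (K : Type) [Field K] [NumberField K] {B : Set (AbsoluteValue K ℝ)}
    (hB : B.Finite) :
    ∃ (Λ : Type) (_ : Fintype Λ) (abv : Λ → AbsoluteValue K ℝ) (O : Subring K),
      (∀ x : K, (∀ v ∈ nonarchAbsVal (K := K), v ∉ B → v x ≤ 1) → x ∈ O) ∧
      (∀ x ∈ O, x ≠ 0 → 1 ≤ ∏ l, abv l x) ∧
      (∀ (ν : ℕ) (x : Fin (ν + 1) → K), x ≠ 0 →
        (∀ v ∈ nonarchAbsVal (K := K), v ∉ B → nm v x = 1) →
        logHeight x = ∑ l, Real.log (nm (abv l) x)) ∧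
      ∀ l₀ : Λ, ∃ (Ω : Type) (_ : NormedField Ω) (_ : IsAlgClosed Ω) (_ : CharZero Ω)
        (_ : Algebra K Ω) (Λ' : Type) (_ : Fintype Λ') (Z : PD K Ω Λ') (ι : Λ' → Λ),
        Z.O = O ∧ (∀ x, ‖algebraMap K Ω x‖ = abv l₀ x) ∧ ∀ l x, Z.abv l x = abv (ι l) x := by
  sorry

end Pool.Agent.Helper72.TH
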