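import Mathlib

/-!
# The Krull dimension of the homogeneous coordinate ring of a plane curve
-/

set_option autoImplicit false

namespace Pool.Agent.Helper72.TH

open MvPolynomial
theorem le_two_of {a : WithBot ℕ∞} (h : a + 1 ≤ 3) : a ≤ 2 := by
  induction a with
  | bot => exact bot_le
  | coe a =>
    induction a using ENat.recTopCoe with
    | top =>
      exfalso
      have h1 : ((⊤ + 1 : ℕ∞) : WithBot ℕ∞) ≤ (((3 : ℕ) : ℕ∞) : WithBot ℕ∞) := by
        rw [WithBot.coe_add]
        exact h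
      have h2 := WithBot.coe_le_coe.1 h1
      rw [top_add, top_le_iff] at h2
      exact ENat.natCast_ne_top 3 h2
    | coe a =>
      have h1 : (((a + 1 : ℕ) : ℕ∞) : WithBot ℕ∞) ≤ (((3 : ℕ) : ℕ∞) : WithBot ℕ∞) := by
        simpa using h
      have h2 : a + 1 ≤ 3 := by
        have h3 := WithBot.coe_le_coe.1 h1
        exact_mod_cast h3
      have h4 : a ≤ 2 := by omega
      have h5 : (((a : ℕ) : ℕ∞) : WithBot ℕ∞) ≤ (((2 : ℕ) : ℕ∞) : WithBot ℕ∞) := by
        exact WithBot.coe_le_coe.2 (by exact_mod_cast h4)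
      simpa using h5
theorem krull_plane {S : Set (MvPolynomial (Fin 3) ℂ)} {g : MvPolynomial (Fin 3) ℂ} (hg : g ∈ S)
    (h0 : g ≠ 0) : ringKrullDim (MvPolynomial (Fin 3) ℂ ⧸ Ideal.span S) ≤ 2 := by
  have h1 : ringKrullDim (MvPolynomial (Fin 3) ℂ ⧸ Ideal.span {g}) + 1 ≤
      ringKrullDim (MvPolynomial (Fin 3) ℂ) :=
    ringKrullDim_quotient_succ_le_of_nonZeroDivisor (mem_nonZeroDivisors_of_ne_zero h0)
  rw [MvPolynomial.ringKrullDim_of_isNoetherianRing, ringKrullDim_eq_zero_of_field, zero_add] at h1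
  have h2 : ringKrullDim (MvPolynomial (Fin 3) ℂ ⧸ Ideal.span S) ≤
      ringKrullDim (MvPolynomial (Fin 3) ℂ ⧸ Ideal.span {g}) :=
    ringKrullDim_le_of_surjective (Ideal.Quotient.factor
      (Ideal.span_mono (Set.singleton_subset_iff.2 hg))) (Ideal.Quotient.factor_surjective _)
  refine h2.trans (le_two_of ?_)
  simpa using h1

end Pool.Agent.Helper72.TH
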