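import Pool.Agent.Helper72.TH.CDefs
import Pool.Agent.Helper36.Homog
import Pool.Agent.Helper41.TH.Lin
import Pool.Agent.Helper14.TH.Loj

/-!
# Project TH, part (2): two linear forms which meet the curve in one point
-/

set_option autoImplicit false

namespace Pool.Agent.Helper72.TH

open MvPolynomial Filter Topology
open Pool.Agent.Helper36 (step iter)
open Pool.Agent.Helper29.TG

variable {ν : ℕ} {K : Type} [Field K]

/-- Two linear forms through `y`, not zero on the curve, without further common zero on it. -/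
theorem exists_lin [Infinite K] {L : Type} [Field L] [IsAlgClosed L] [Algebra K L]
    {𝒰 : Ultrafilter ℕ} {x : ℕ → Fin (ν + 1) → K} (hcur : OnC 𝒰 x) {y : Fin (ν + 1) → K}
    (hy : y ≠ 0) (hne : ∀ᶠ n in (𝒰 : Filter ℕ), cr (x n) y ≠ 0) :
    ∃ l₁ l₂ : MvPolynomial (Fin (ν + 1)) K, l₁.IsHomogeneous 1 ∧ l₂.IsHomogeneous 1 ∧
      eval y l₁ = 0 ∧ eval y l₂ = 0 ∧ (∀ᶠ n in (𝒰 : Filter ℕ), eval (x n) l₁ ≠ 0) ∧
      (∀ᶠ n in (𝒰 : Filter ℕ), eval (x n) l₂ ≠ 0) ∧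
      ∀ p : Fin (ν + 1) → L, (∀ (g : MvPolynomial (Fin (ν + 1)) K) (e : ℕ), g.IsHomogeneous e →
        (∀ᶠ n in (𝒰 : Filter ℕ), eval (x n) g = 0) → aeval p g = 0) → aeval p l₁ = 0 →
        aeval p l₂ = 0 → cr p (fun i => algebraMap K L (y i)) = 0 :=
  Pool.Agent.Helper41.TH.exists_lin hcur hne

/-- The inequality of Lojasiewicz type. -/
theorem exists_loj {L : Type} [Field L] [IsAlgClosed L] [Algebra K L]
    {𝒰 : Ultrafilter ℕ} {x : ℕ → Fin (ν + 1) → K} {y : Fin (ν + 1) → K}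
    {l₁ l₂ : MvPolynomial (Fin (ν + 1)) K} (h₁ : l₁.IsHomogeneous 1) (h₂ : l₂.IsHomogeneous 1)
    (h : ∀ p : Fin (ν + 1) → L, (∀ (g : MvPolynomial (Fin (ν + 1)) K) (e : ℕ),
      g.IsHomogeneous e → (∀ᶠ n in (𝒰 : Filter ℕ), eval (x n) g = 0) → aeval p g = 0) →
      aeval p l₁ = 0 → aeval p l₂ = 0 → cr p (fun i => algebraMap K L (y i)) = 0) :
    ∃ (M : ℕ) (A₁ A₂ : Fin (ν + 1) × Fin (ν + 1) → MvPolynomial (Fin (ν + 1)) K), 1 ≤ M ∧
      (∀ q, (A₁ q).IsHomogeneous (M - 1)) ∧ (∀ q, (A₂ q).IsHomogeneous (M - 1)) ∧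
      ∀ᶠ n in (𝒰 : Filter ℕ), ∀ q, cr (x n) y q ^ M =
        eval (x n) (A₁ q) * eval (x n) l₁ + eval (x n) (A₂ q) * eval (x n) l₂ :=
  Pool.Agent.Helper14.TH.exists_loj h₁ h₂ h

end Pool.Agent.Helper72.TH
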