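import Pool.Agent.Helper72.TH.CDefs
import Pool.Agent.Helper65.TB.Main
import Pool.Agent.Helper36.Growth

/-!
# Project TH, part (2): Theorem B in terms of heights
-/

set_option autoImplicit false

namespace Pool.Agent.Helper72.TH

open MvPolynomial Filter Topology Height Height.AdmissibleAbsValues
open Pool.Agent.Helper36 (step iter)
open Pool.Agent.Helper29.TG

variable {ν : ℕ}

/-- The contact of the points of an orbit with a point `y` at one place is small compared to the
height, if only finitely many iterates of `y` are critical. -/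
theorem thmB {K : Type} [Field K] [NumberField K] {L : Type} [Field L] [IsAlgClosed L]
    [Algebra K L] {F : Fin (ν + 1) → MvPolynomial (Fin (ν + 1)) K} {d : ℕ} (hd : 2 ≤ d)
    (hF : ∀ i, (F i).IsHomogeneous d)
    (hnz : ∀ x : Fin (ν + 1) → L, (∀ i, aeval x (F i) = 0) → x = 0)
    {x : Fin (ν + 1) → K} (hx : ∀ n, iter F x n ≠ 0)
    (hcr : ∀ n m, n ≠ m → cr (iter F x n) (iter F x m) ≠ 0)
    {y : Fin (ν + 1) → K} (hy : y ≠ 0)
    (hfin : {i : ℕ | eval (iter F y i) (Pool.Agent.Helper30.TKN.jf F) = 0}.Finite)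
    {v : AbsoluteValue K ℝ} (hv : Mem v) {ε : ℝ} (hε : 0 < ε) :
    ∀ᶠ n in atTop, ct v (iter F x n) y ≤ ε * logHeight (iter F x n) := by
  have hd0 : (0 : ℝ) < d := by
    have : 0 < d := by omega
    exact_mod_cast this
  rcases Pool.Agent.Helper36.growth (L := L) hd F hF hnz (fun n => iter F x n) hx
    (fun n => Pool.Agent.Helper36.iter_succ F x n) with ⟨n, m, hnm, c, hc, hp⟩ | ⟨m₀, hm₀⟩
  · exfalso
    apply hcr n m hnm.ne
    funext q
    have h1 : ∀ i, iter F x m i = c * iter F x n i := fun i => by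
      have := congrFun hp i
      simpa using this
    simp only [cr, Pi.zero_apply]
    rw [h1, h1]
    ring
  · obtain ⟨n₀, hn₀⟩ := hfin.bddAbove
    have h1 := Pool.Agent.Helper65.TB.contact_small (L := L) hd hF hnz hcr hy (n₀ := n₀ + 1)
      (fun n hn h => by
        have := hn₀ h
        omega) hv (ε / (d : ℝ) ^ m₀) (div_pos hε (pow_pos hd0 _))
    filter_upwards [h1, eventually_ge_atTop m₀] with n hn hnm
    refine hn.trans ?_
    have h2 : (d : ℝ) ^ n = (d : ℝ) ^ m₀ * (d : ℝ) ^ (n - m₀) := by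
      rw [← pow_add]
      congr 1
      omega
    rw [h2, ← mul_assoc, div_mul_cancel₀ _ (pow_pos hd0 _).ne']
    exact mul_le_mul_of_nonneg_left (hm₀ n hnm) hε.le

end Pool.Agent.Helper72.TH
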