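import Pool.Agent.Helper31.RP.Upper
import Pool.Agent.Helper72.TH.CDefs

/-!
# Project TH, part (2): the upper bound for the dimension, with denominators
-/

set_option autoImplicit false

namespace Pool.Agent.Helper72.TH

open MvPolynomial Filter Topology
open Pool.Agent.Helper65.RP
open Pool.Agent.Helper31.RP (exists_monomials pol ev_pol exists_basis)

section D
variable {K Kb Ω : Type} [Field K] [Field Kb] [Algebra K Kb] [IsAlgClosure K Kb]
  [NormedField Ω] [IsAlgClosed Ω] [Algebra K Ω] [Algebra Kb Ω] [IsScalarTower K Kb Ω] {N : ℕ}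
  {𝒰 : Ultrafilter ℕ} {s : ℕ → ℝ} {z : ℕ → Fin N → K} {i₀ : Fin N}

theorem upper2_card_le {M : ℕ} (m : Fin M → (Fin N →₀ ℕ)) (h : Lev Ω 𝒰 s z i₀) {Λ : Type} [Fintype Λ] (Z : PD K Ω Λ) {γ : ℝ}
    {g : Λ → ℝ} {c : ℕ → K} (hg : Grow2 Z γ g 𝒰 s c z) (hbd : 0 ≤ bd2 Z γ g) {a : ℕ} (ha : 0 < a)
    (hval : ∀ p : MvPolynomial (Fin N) Kb, (∀ᶠ n in (𝒰 : Filter ℕ), ev Ω z p n = 0) ∨
        ∃ k : ℤ, HasOrd 𝒰 s (ev Ω z p) ((k : ℝ) / a))
    (hconst : ∀ (p q : MvPolynomial (Fin N) Kb) (α : ℝ), HasOrd 𝒰 s (ev Ω z p) α →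
      HasOrd 𝒰 s (ev Ω z q) α → ∃ c : Kb, c ≠ 0 ∧
        ((∀ᶠ n in (𝒰 : Filter ℕ), ev Ω z (p - C c * q) n = 0) ∨
          ∃ β : ℝ, α < β ∧ HasOrd 𝒰 s (ev Ω z (p - C c * q)) β)) (D : ℕ)
    (hmD : ∀ j, ((m j).sum fun _ e => e) ≤ D)
    (hm : LinearIndependent K
      (fun j => Ideal.Quotient.mkₐ K (van 𝒰 z) (monomial (m j) (1 : K)))) :
    (M : ℝ) ≤ 2 * a * bd2 Z γ g * D + 1 := by
  classical
  have ha' : (0 : ℝ) < a := by exact_mod_cast ha
  have hn' : (0 : ℝ) < Z.n := by exact_mod_cast Z.hn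
  by_contra hcon
  push Not at hcon
  have hD0 : (0 : ℝ) ≤ D := Nat.cast_nonneg D
  have hM1 : (1 : ℝ) < M := by
    have : 0 ≤ 2 * (a : ℝ) * bd2 Z γ g * D := by positivity
    linarith
  have hM2 : 2 ≤ M := by
    have : 1 < M := by exact_mod_cast hM1
    omega
  obtain ⟨b, w, hb, hbw, hord⟩ := exists_basis m h ha hval hconst hmD hm
  -- the sum of the orders
  have hsumw : -(D : ℝ) * M + M * (M - 1) / (2 * a) ≤ ∑ i, w i := by
    have h1 : ∑ i : Fin M, (-(D : ℝ) + ((i : ℕ) : ℝ) / a) ≤ ∑ i, w i :=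
      Finset.sum_le_sum fun i _ => hbw i
    have h2 : ∑ i : Fin M, (-(D : ℝ) + ((i : ℕ) : ℝ) / a) =
        -(D : ℝ) * M + M * (M - 1) / (2 * a) := by
      rw [Finset.sum_add_distrib, Finset.sum_const, Finset.card_univ, Fintype.card_fin,
        nsmul_eq_mul, ← Finset.sum_div, Fin.sum_univ_eq_sum_range (fun i => (i : ℝ)) M]
      have h3 : ∑ i ∈ Finset.range M, (i : ℝ) = M * (M - 1) / 2 := by
        have h4 := Finset.sum_range_id_mul_two M
        have h5 : ((∑ i ∈ Finset.range M, i : ℕ) : ℝ) * 2 = M * (M - 1) := by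
          have h6 : ((M - 1 : ℕ) : ℝ) = (M : ℝ) - 1 := by
            rw [Nat.cast_sub (by omega), Nat.cast_one]
          rw [← h6]
          exact_mod_cast h4
        push_cast at h5
        linarith
      rw [h3]
      field_simp
    linarith
  -- parameters
  set η : ℝ := ((M : ℝ) - 1) / (2 * a) - bd2 Z γ g * D with hη
  have hη0 : 0 < η := by
    rw [hη, sub_pos, lt_div_iff₀ (by positivity)]
    nlinarith
  set δ : ℝ := Z.n * M * η / 2 with hδ
  have hδ0 : 0 < δ := by positivity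
  set cc : ℝ := Z.n * M * D + Z.n * M + M * D * Fintype.card Λ + 1 with hcc
  have hcc0 : 0 < cc := by positivity
  set ε : ℝ := δ / cc with hε
  have hε0 : 0 < ε := by positivity
  set B : ℝ := (∑ i, |w i|) + ε + D * (|γ| + ε) + (∑ l, D * (|g l| + ε)) with hB
  have hgl : ∀ l, 0 ≤ (D : ℝ) * (|g l| + ε) := fun l =>
    mul_nonneg hD0 (add_nonneg (abs_nonneg _) hε0.le)
  have hγ0 : 0 ≤ (D : ℝ) * (|γ| + ε) := mul_nonneg hD0 (add_nonneg (abs_nonneg _) hε0.le)
  have hwB : ∀ i, |w i| + ε + D * (|γ| + ε) ≤ B := by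
    intro i
    have h1 := Finset.single_le_sum (f := fun i => |w i|) (fun i _ => abs_nonneg (w i))
      (Finset.mem_univ i)
    have h2 : 0 ≤ ∑ l, (D : ℝ) * (|g l| + ε) := Finset.sum_nonneg fun l _ => hgl l
    linarith
  have hgB : ∀ l, (D : ℝ) * (|g l| + ε) ≤ B := by
    intro l
    have h1 := Finset.single_le_sum (f := fun l => (D : ℝ) * (|g l| + ε)) (fun l _ => hgl l)
      (Finset.mem_univ l)
    have h2 : 0 ≤ ∑ i, |w i| := Finset.sum_nonneg fun i _ => abs_nonneg _
    linarith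
  -- the matrix
  set A : Matrix (Fin M) (Fin M) Ω := Matrix.of fun i j => algebraMap Kb Ω (b i j) with hA
  have hAalg : ∀ i j, IsAlgebraic K (A i j) := by
    intro i j
    have h1 : Algebra.IsAlgebraic K Kb := IsAlgClosure.isAlgebraic
    exact (h1.isAlgebraic (b i j)).algebraMap
  have hAdet : A.det ≠ 0 := by
    have h1 : A = (Matrix.of b).map (algebraMap Kb Ω) := rfl
    rw [h1, ← RingHom.mapMatrix_apply, ← RingHom.map_det]
    rw [Ne, map_eq_zero]
    have h2 : LinearIndependent Kb (Matrix.of b).row := hb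
    have h3 := Matrix.linearIndependent_rows_iff_isUnit.1 h2
    exact ((Matrix.isUnit_iff_isUnit_det _).1 h3).ne_zero
  obtain ⟨𝒲, hW1, hW2⟩ := Z.sub M A hM2 hAalg hAdet δ B hδ0
  have hmD' : ∀ j, ∑ i, (m j) i ≤ D := by
    intro j
    have h5 := hmD j
    rwa [Finsupp.sum_fintype _ _ (by simp)] at h5
  set y : ℕ → Fin M → K := fun n j => c n ^ D * eval (z n) (monomial (m j) (1 : K)) with hy
  have hyeq : ∀ n j, y n j = c n ^ (D - ∑ i, (m j) i) * ∏ i, (c n * z n i) ^ (m j) i := by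
    intro n j
    simp only [hy]
    rw [eval_monomial, one_mul, Finsupp.prod_fintype _ _ (by simp)]
    simp only [mul_pow]
    rw [Finset.prod_mul_distrib, Finset.prod_pow_eq_pow_sum, ← mul_assoc, ← pow_add,
      Nat.sub_add_cancel (hmD' j)]
  have hmem : ∀ᶠ n in (𝒰 : Filter ℕ), ∃ W ∈ 𝒲, y n ∈ W := by
    have hup : ∀ᶠ n in (𝒰 : Filter ℕ), ∀ i, ‖ev Ω z (pol (K := K) m (b i)) n‖ ≤
        Real.exp (-(w i - ε) * s n) :=
      eventually_all.2 fun i => (hord i).ge h.hs ε hε0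
    filter_upwards [hup, hg.int, hg.le ε hε0, eventually_pos h.hs, hg.int0, hg.le_c ε hε0,
      hg.le0 ε hε0] with n h1 h2 h3 h4 k1 k2 k3
    have hpow : ∀ x : ℝ, (Real.exp (s n)) ^ x = Real.exp (x * s n) := by
      intro x
      rw [← Real.exp_mul, mul_comm]
    refine hW2 (Real.exp (s n)) (fun i => Real.exp ((D * (γ + ε) - (w i - ε)) * s n))
      (fun l => Real.exp (D * (g l + ε) * s n)) (y n) (Real.one_le_exp h4.le) ?_ ?_ ?_ ?_ ?_ ?_
    · intro i
      rw [hyeq]
      exact Subring.mul_mem _ (Subring.pow_mem _ k1 _)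
        (Subring.prod_mem _ fun i _ => Subring.pow_mem _ (h2 i) _)
    · intro i
      rw [hpow, hpow, Real.exp_le_exp, Real.exp_le_exp]
      have h5 := hwB i
      have h6 := neg_abs_le (w i)
      have h7 := le_abs_self (w i)
      have h8 : (D : ℝ) * (γ + ε) ≤ D * (|γ| + ε) :=
        mul_le_mul_of_nonneg_left (by linarith [le_abs_self γ]) hD0
      have h9 : -((D : ℝ) * (|γ| + ε)) ≤ D * (γ + ε) := by
        rw [← mul_neg]
        exact mul_le_mul_of_nonneg_left (by linarith [neg_abs_le γ]) hD0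
      constructor
      · exact mul_le_mul_of_nonneg_right (by linarith) h4.le
      · exact mul_le_mul_of_nonneg_right (by linarith) h4.le
    · intro l
      rw [hpow, hpow, Real.exp_le_exp, Real.exp_le_exp]
      have h5 := hgB l
      have h8 : (D : ℝ) * (g l + ε) ≤ D * (|g l| + ε) :=
        mul_le_mul_of_nonneg_left (by linarith [le_abs_self (g l)]) hD0
      have h9 : -((D : ℝ) * (|g l| + ε)) ≤ D * (g l + ε) := by
        rw [← mul_neg]
        exact mul_le_mul_of_nonneg_left (by linarith [neg_abs_le (g l)]) hD0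
      constructor
      · exact mul_le_mul_of_nonneg_right (by linarith) h4.le
      · exact mul_le_mul_of_nonneg_right (by linarith) h4.le
    · intro i
      have h5 := h1 i
      have h6 : ∑ j, A i j * algebraMap K Ω (y n j) =
          algebraMap K Ω (c n) ^ D * ev Ω z (pol (K := K) m (b i)) n := by
        rw [ev_pol, Finset.mul_sum]
        refine Finset.sum_congr rfl fun j _ => ?_
        simp only [hy, hA, Matrix.of_apply, map_mul, map_pow]
        ring
      rw [h6, norm_mul, norm_pow]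
      calc ‖algebraMap K Ω (c n)‖ ^ D * ‖ev Ω z (pol (K := K) m (b i)) n‖
          ≤ Real.exp ((γ + ε) * s n) ^ D * Real.exp (-(w i - ε) * s n) :=
            mul_le_mul (pow_le_pow_left₀ (norm_nonneg _) k2 _) h5 (norm_nonneg _)
              (pow_nonneg (Real.exp_nonneg _) _)
        _ = Real.exp ((D * (γ + ε) - (w i - ε)) * s n) := by
            rw [← Real.exp_nat_mul, ← Real.exp_add]
            congr 1
            ring
    · intro l j
      rw [hyeq, map_mul, map_pow, map_prod]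
      simp only [map_pow]
      set E : ℝ := Real.exp ((g l + ε) * s n) with hE
      have hE0 : 0 ≤ E := Real.exp_nonneg _
      calc (Z.abv l) (c n) ^ (D - ∑ i, (m j) i) * ∏ i, (Z.abv l) (c n * z n i) ^ (m j) i
          ≤ E ^ (D - ∑ i, (m j) i) * ∏ i, E ^ (m j) i := by
            refine mul_le_mul (pow_le_pow_left₀ (AbsoluteValue.nonneg _ _) (k3 l) _)
              (Finset.prod_le_prod (fun i _ => pow_nonneg (AbsoluteValue.nonneg _ _) _)
              fun i _ => ?_) (Finset.prod_nonneg fun i _ => pow_nonneg (AbsoluteValue.nonneg _ _) _)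
              (pow_nonneg hE0 _)
            exact pow_le_pow_left₀ (AbsoluteValue.nonneg _ _) (h3 l i) _
        _ = E ^ D := by
            rw [Finset.prod_pow_eq_pow_sum, ← pow_add, Nat.sub_add_cancel (hmD' j)]
        _ = Real.exp (D * (g l + ε) * s n) := by
            rw [hE, ← Real.exp_nat_mul]
            congr 1
            ring
    · -- the main inequality
      rw [hpow]
      have e1 : ∏ i, Real.exp ((D * (γ + ε) - (w i - ε)) * s n) =
          Real.exp ((M * (D * (γ + ε)) - (∑ i, w i) + M * ε) * s n) := by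
        rw [← Real.exp_sum, ← Finset.sum_mul]
        congr 2
        rw [Finset.sum_sub_distrib, Finset.sum_sub_distrib, Finset.sum_const, Finset.sum_const,
          Finset.card_univ, Fintype.card_fin, nsmul_eq_mul, nsmul_eq_mul]
        ring
      have e2 : ∏ l, Real.exp (D * (g l + ε) * s n) ^ M =
          Real.exp (M * D * ((∑ l, g l) + Fintype.card Λ * ε) * s n) := by
        rw [Finset.prod_pow, ← Real.exp_sum, ← Finset.sum_mul, ← Real.exp_nat_mul]
        congr 1
        rw [← Finset.mul_sum, Finset.sum_add_distrib, Finset.sum_const, Finset.card_univ,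
          nsmul_eq_mul]
        ring
      rw [e1, e2, ← Real.exp_nat_mul, ← Real.exp_add, Real.exp_le_exp]
      have e3 : (Z.n : ℝ) * ((M * (D * (γ + ε)) - (∑ i, w i) + M * ε) * s n) +
          M * D * ((∑ l, g l) + Fintype.card Λ * ε) * s n =
          (Z.n * (M * (D * (γ + ε)) - (∑ i, w i) + M * ε) +
            M * D * ((∑ l, g l) + Fintype.card Λ * ε)) * s n := by
        ring
      rw [e3]
      refine mul_le_mul_of_nonneg_right ?_ h4.le
      -- `ε cc = δ`
      have e4 : ε * cc = δ := div_mul_cancel₀ _ hcc0.ne'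
      have e5 : (Z.n : ℝ) * (bd2 Z γ g) = Z.n + Z.n * γ + ∑ l, g l := by
        rw [bd2, mul_add, mul_add, mul_one, mul_div_cancel₀ _ hn'.ne']
      have e6 : 2 * δ = Z.n * M * η := by rw [hδ]; ring
      have e7 : (Z.n : ℝ) * M * η = Z.n * (M * (M - 1) / (2 * a)) - M * D * (Z.n * bd2 Z γ g) := by
        rw [hη]
        field_simp
      have e8 : (Z.n : ℝ) * (-(D : ℝ) * M + M * (M - 1) / (2 * a)) ≤ Z.n * ∑ i, w i :=
        mul_le_mul_of_nonneg_left hsumw hn'.le
      rw [e5] at e7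
      rw [hcc] at e4
      nlinarith
  obtain ⟨W, hW, hWm⟩ := exists_eventually_mem 𝒲 hmem
  have hWlt : W < ⊤ := lt_top_iff_ne_top.2 (hW1 W hW)
  obtain ⟨l, hl, hWl⟩ := Submodule.exists_le_ker_of_lt_top W hWlt
  have hcoef : ∀ x : Fin M → K, l x = ∑ j, l (Pi.single j 1) * x j := by
    intro x
    conv_lhs => rw [pi_eq_sum_univ' x]
    rw [map_sum]
    refine Finset.sum_congr rfl fun j _ => ?_
    rw [map_smul, smul_eq_mul, mul_comm]
  have hvan : ∑ j, l (Pi.single j 1) • (monomial (m j) (1 : K)) ∈ van 𝒰 z := by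
    rw [mem_van]
    filter_upwards [hWm, hg.ne] with n hn hc
    have h1 := hWl hn
    rw [LinearMap.mem_ker, hcoef] at h1
    have h2 : ∑ j, l (Pi.single j 1) * y n j =
        c n ^ D * ∑ j, l (Pi.single j 1) * eval (z n) (monomial (m j) (1 : K)) := by
      rw [Finset.mul_sum]
      refine Finset.sum_congr rfl fun j _ => ?_
      simp only [hy]
      ring
    rw [h2] at h1
    rw [map_sum, ← (mul_eq_zero.1 h1).resolve_left (pow_ne_zero _ hc)]
    refine Finset.sum_congr rfl fun j _ => ?_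
    rw [MvPolynomial.smul_eval]
  have hlin : ∀ j, l (Pi.single j 1) = 0 := by
    have h3 : Ideal.Quotient.mkₐ K (van 𝒰 z)
        (∑ j, l (Pi.single j 1) • (monomial (m j) (1 : K))) = 0 :=
      Ideal.Quotient.eq_zero_iff_mem.2 hvan
    rw [map_sum] at h3
    refine Fintype.linearIndependent_iff.1 hm _ ?_
    rw [← h3]
    exact Finset.sum_congr rfl fun j _ => (map_smul _ _ _).symm
  apply hl
  ext j
  simp [hlin j]

theorem upper_bound2 (h : Lev Ω 𝒰 s z i₀) {Λ : Type} [Fintype Λ] (Z : PD K Ω Λ) {γ : ℝ}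
    {g : Λ → ℝ} {c : ℕ → K} (hg : Grow2 Z γ g 𝒰 s c z) (hbd : 0 ≤ bd2 Z γ g) {a : ℕ} (ha : 0 < a)
    (hval : ∀ p : MvPolynomial (Fin N) Kb, (∀ᶠ n in (𝒰 : Filter ℕ), ev Ω z p n = 0) ∨
        ∃ k : ℤ, HasOrd 𝒰 s (ev Ω z p) ((k : ℝ) / a))
    (hconst : ∀ (p q : MvPolynomial (Fin N) Kb) (α : ℝ), HasOrd 𝒰 s (ev Ω z p) α →
      HasOrd 𝒰 s (ev Ω z q) α → ∃ c : Kb, c ≠ 0 ∧
        ((∀ᶠ n in (𝒰 : Filter ℕ), ev Ω z (p - C c * q) n = 0) ∨
          ∃ β : ℝ, α < β ∧ HasOrd 𝒰 s (ev Ω z (p - C c * q)) β)) (D : ℕ) :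
    (rho (van 𝒰 z) D : ℝ) ≤ 2 * a * bd2 Z γ g * D + 1 := by
  obtain ⟨m, hmD, hm⟩ := exists_monomials (van 𝒰 z) D
  exact upper2_card_le m h Z hg hbd ha hval hconst D hmD hm

end D

end Pool.Agent.Helper72.TH
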